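import Mathlib

set_option autoImplicit false

/-!
# Roots of unity and the abelianization of the Galois group
-/

namespace Pool.Agent.H54.AM.Abl

/-- the degree of a root of unity is bounded by the order of the abelianization -/
theorem abl {K L : Type*} [Field K] [NumberField K] [Field L] [Algebra K L]
    [FiniteDimensional K L] [IsGalois K L] {p : ℕ} (hp : p.Prime) {ζ : L}
    (hζ : IsPrimitiveRoot ζ p) :
    p ≤ Nat.card (Abelianization (L ≃ₐ[K] L)) * Module.finrank ℚ K + 1 := by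
  classical
  have : CharZero L := charZero_of_injective_algebraMap (algebraMap K L).injective
  have : NeZero p := ⟨hp.ne_zero⟩
  set E : IntermediateField K L := IntermediateField.adjoin K {ζ} with hE
  have hpow : ∀ (σ : L ≃ₐ[K] L) (x : L), x ^ p = 1 → ∃ i : ℕ, ∀ x : L, x ^ p = 1 → σ x = x ^ i := by
    intro σ x hx
    have h1 : (σ ζ) ^ p = 1 := by rw [← map_pow, hζ.pow_eq_one, map_one]
    obtain ⟨i, -, hi⟩ := hζ.eq_pow_of_pow_eq_one h1
    refine ⟨i, fun y hy => ?_⟩
    obtain ⟨j, -, rfl⟩ := hζ.eq_pow_of_pow_eq_one hy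
    rw [map_pow, ← hi, ← pow_mul, ← pow_mul, mul_comm]
  have hcomm : ∀ (σ τ : L ≃ₐ[K] L) (x : L), x ^ p = 1 → σ (τ x) = τ (σ x) := by
    intro σ τ x hx
    obtain ⟨i, hi⟩ := hpow σ x hx
    obtain ⟨j, hj⟩ := hpow τ x hx
    have h1 : (x ^ j) ^ p = 1 := by rw [← pow_mul, mul_comm, pow_mul, hx, one_pow]
    have h2 : (x ^ i) ^ p = 1 := by rw [← pow_mul, mul_comm, pow_mul, hx, one_pow]
    rw [hj x hx, hi _ h1, hi x hx, hj _ h2, ← pow_mul, ← pow_mul, mul_comm]
  have hle : commutator (L ≃ₐ[K] L) ≤ E.fixingSubgroup := by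
    rw [← IntermediateField.le_iff_le, hE, IntermediateField.adjoin_le_iff]
    intro x hx
    rw [Set.mem_singleton_iff.1 hx]
    have h1 : commutator (L ≃ₐ[K] L) ≤ MulAction.stabilizer (L ≃ₐ[K] L) ζ := by
      rw [commutator_def, Subgroup.commutator_le]
      intro σ _ τ _
      rw [MulAction.mem_stabilizer_iff, commutatorElement_def]
      show σ (τ (σ⁻¹ (τ⁻¹ ζ))) = ζ
      have h2 : (σ⁻¹ (τ⁻¹ ζ)) ^ p = 1 := by
        rw [← map_pow, ← map_pow, hζ.pow_eq_one, map_one, map_one]
      rw [hcomm σ τ _ h2]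
      show τ ((σ * σ⁻¹) (τ⁻¹ ζ)) = ζ
      rw [mul_inv_cancel, AlgEquiv.one_apply]
      show (τ * τ⁻¹) ζ = ζ
      rw [mul_inv_cancel, AlgEquiv.one_apply]
    rw [SetLike.mem_coe, IntermediateField.mem_fixedField_iff]
    intro g hg
    exact h1 hg
  have h1 : Module.finrank K E ≤ Nat.card (Abelianization (L ≃ₐ[K] L)) := by
    rw [IntermediateField.finrank_eq_fixingSubgroup_index (F := K) (E' := L) E]
    have h3 : Nat.card (Abelianization (L ≃ₐ[K] L)) = (commutator (L ≃ₐ[K] L)).index := rfl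
    rw [h3]
    refine Nat.le_of_dvd ?_ (Subgroup.index_dvd_of_le hle)
    exact Nat.pos_of_ne_zero Subgroup.index_ne_zero_of_finite
  have h4 : p - 1 ≤ Module.finrank ℚ K * Module.finrank K E := by
    rw [Module.finrank_mul_finrank ℚ K E]
    have : FiniteDimensional ℚ E := FiniteDimensional.trans ℚ K E
    set z : E := ⟨ζ, IntermediateField.mem_adjoin_simple_self K ζ⟩ with hz
    have hz' : IsPrimitiveRoot z p := by
      apply IsPrimitiveRoot.of_map_of_injective (f := E.val) _ E.val.injective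
      exact hζ
    have h5 := minpoly.natDegree_le (A := ℚ) z
    rw [← Polynomial.cyclotomic_eq_minpoly_rat hz' hp.pos, Polynomial.natDegree_cyclotomic,
      Nat.totient_prime hp] at h5
    exact h5
  have h6 := Nat.mul_le_mul (le_refl (Module.finrank ℚ K)) h1
  rw [mul_comm (Nat.card _)]
  omega

end Pool.Agent.H54.AM.Abl
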