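import Mathlib
import Pool.Agent.H54.AD.Defs
import Pool.Agent.H20.G.R_pool_sql_team_seeded_63374d34.N684.BK.Stm

set_option autoImplicit false
set_option linter.unusedVariables false

/-!
# Products of several heights: definitions and statements
-/

namespace Pool.Agent.H54.AM

open MvPolynomial
open Pool.Agent.W237.RK
open Pool.Agent.H58P (Qb ht)
open Pool.Agent.H54.AD (pt)
open Pool.Agent.N684.BK (wd PW hil Deg dimQ)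

/-! ### definitions -/

/-- the monomials `∏ u i ^ k i` with `k i < N i` -/
def rowN {Ω : Type*} [Field Ω] {n : ℕ} (N : Fin n → ℕ) (u : Fin n → Ω) : (∀ i, Fin (N i)) → Ω :=
  fun k => ∏ i, u i ^ (k i : ℕ)

/-- the rank of the evaluation of the polynomials of degree less than `N i` in the variable `i` at
the points `u x`, `x ∈ S` -/
noncomputable def rkN {Ω ι : Type*} [Field Ω] {n : ℕ} (N : Fin n → ℕ) (u : ι → Fin n → Ω)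
    (S : Set ι) : ℕ :=
  Module.finrank Ω (Submodule.span Ω ((fun x => rowN N (u x)) '' S))

/-- multiplicative independence -/
def IndepN {n : ℕ} (u : Fin n → Qb) : Prop := ∀ a : Fin n → ℤ, Tor (∏ i, u i ^ a i) → a = 0

/-- the conjugates of the point `u` over `E` -/
def orbN (E : GF) {n : ℕ} (u : Fin n → Qb) : Set (Fin n → Qb) :=
  {x | ∃ ρ : Aut, Fix E ρ ∧ (fun i => ρ (u i)) = x}

/-- the point of level `j` -/
noncomputable def ptN (σ : Aut) (q e : ℕ) {n : ℕ} (y : Fin n → Qb) (j : ℕ) : Fin n → Qb :=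
  fun i => pt σ q e (y i) j

/-- the ideal of the polynomials over `E` which vanish at the point `v` -/
noncomputable def pid (E : GF) {n : ℕ} (v : Fin n → Qb) : Ideal (MvPolynomial (Fin n) E) :=
  RingHom.ker (aeval v : MvPolynomial (Fin n) E →ₐ[E] Qb)

/-- `f` is mapped to `f^τ (x₁ ^ q, …, x_n ^ q)` -/
noncomputable def phi {F : Type*} [Field F] (n : ℕ) (τ : F →+* F) (q : ℕ) :
    MvPolynomial (Fin n) F →+* MvPolynomial (Fin n) F :=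
  eval₂Hom (C.comp τ) (fun i => X i ^ q)

/-! ### growth -/

open scoped Pointwise in
/-- sumsets of finite sets of integers -/
def S_SUMS : Prop := ∀ (ι : Type) (s : Finset ι) (A : ι → Finset ℤ), (∀ i ∈ s, (A i).Nonempty) →
  1 + ∑ i ∈ s, ((A i).card - 1) ≤ (∑ i ∈ s, A i).card

/-- a discrete valuation of a function field which is trivial on `d` of the `d + 1` variables;
`O` is the valuation ring, `π` a uniformizer, `ρ` the map to the residue field -/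
def S_VAL : Prop := ∀ (E κ : Type) [Field E] [CharZero E] [Field κ] [Algebra E κ] (d : ℕ)
  (x : Fin (d + 1) → κ), AlgebraicIndependent E x →
  FiniteDimensional (IntermediateField.adjoin E (Set.range x)) κ →
  ∃ (κ₁ : Type) (_ : Field κ₁) (_ : Algebra E κ₁) (O : Subalgebra E κ) (π : O) (ρ : O →ₐ[E] κ₁)
    (y : Fin d → O) (z : O),
    (π : κ) ≠ 0 ∧ (∀ a : O, ρ a = 0 ↔ π ∣ a) ∧
    (∀ a : κ, a ≠ 0 → ∃ (m : ℤ) (u : O), ρ u ≠ 0 ∧ a = (π : κ) ^ m * u) ∧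
    (∀ i, ((y i : O) : κ) = x (Fin.castSucc i)) ∧ AlgebraicIndependent E (fun i => ρ (y i)) ∧
    FiniteDimensional (IntermediateField.adjoin E (Set.range fun i => ρ (y i))) κ₁ ∧
    (z : κ) = x (Fin.last d) ∧ ρ z = 0

/-- the graded pieces of the finite dimensional subspaces of a function field -/
def S_GRD : Prop := ∀ (E κ : Type) [Field E] [CharZero E] [Field κ] [Algebra E κ] (d : ℕ)
  (x : Fin (d + 1) → κ), AlgebraicIndependent E x →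
  FiniteDimensional (IntermediateField.adjoin E (Set.range x)) κ →
  ∃ (κ₁ : Type) (_ : Field κ₁) (_ : Algebra E κ₁) (gr : ℤ → Submodule E κ → Submodule E κ₁)
    (y : Fin d → κ₁),
    (∀ (m : ℤ) (U : Submodule E κ), FiniteDimensional E U → FiniteDimensional E (gr m U)) ∧
    (∀ U : Submodule E κ, FiniteDimensional E U → ∃ s : Finset ℤ, (∀ m, m ∉ s → gr m U = ⊥) ∧
      ∑ m ∈ s, Module.finrank E (gr m U) = Module.finrank E U) ∧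
    (∀ (m : ℤ) (U V : Submodule E κ), U ≤ V → gr m U ≤ gr m V) ∧
    (∀ (m m' : ℤ) (U V : Submodule E κ), gr m U * gr m' V ≤ gr (m + m') (U * V)) ∧
    AlgebraicIndependent E y ∧
    FiniteDimensional (IntermediateField.adjoin E (Set.range y)) κ₁ ∧
    (∀ U : Submodule E κ, 1 ∈ U → 1 ∈ gr 0 U) ∧
    (∀ (U : Submodule E κ) (i : Fin d), x (Fin.castSucc i) ∈ U → y i ∈ gr 0 U) ∧
    (∃ e : ℤ, 0 < e ∧ ∀ U : Submodule E κ, x (Fin.last d) ∈ U → gr e U ≠ ⊥)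

/-- growth of products of subspaces of a function field -/
def S_GRO : Prop := ∀ (d : ℕ) (E κ : Type) [Field E] [CharZero E] [Field κ] [Algebra E κ]
  (x : Fin d → κ), AlgebraicIndependent E x →
  FiniteDimensional (IntermediateField.adjoin E (Set.range x)) κ →
  ∀ (ι : Type) (s : Finset ι) (j : ℕ) (U : ι → Submodule E κ) (B : Submodule E κ),
    s.Nonempty → 0 < j → (∀ i ∈ s, FiniteDimensional E (U i)) →
    (∀ i ∈ s, j ≤ Module.finrank E (U i)) → FiniteDimensional E B → (1 : κ) ∈ B →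
    (∀ i, x i ∈ B) →
    s.card ^ d * j ≤
      2 ^ (d ^ 2) * Module.finrank E ((∏ i ∈ s, U i) * B ^ (d * s.card) : Submodule E κ)

/-- growth of the Hilbert function of a prime ideal -/
def S_GL : Prop := ∀ d : ℕ, ∃ C : ℕ, 0 < C ∧ ∀ (F : Type) [Field F] [CharZero F] (n : ℕ)
  (wt : Fin n → ℕ) (Q : Ideal (MvPolynomial (Fin n) F)) (K K' : ℕ), (∀ i, 1 ≤ wt i) →
  Q.IsPrime → dimQ Q = d → 1 ≤ K → (∀ i, wt i ≤ K) → K ≤ K' →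
  K' ^ d * hil wt Q K ≤ C * K ^ d * hil wt Q K'

open scoped ENNReal in
/-- the degree is not small -/
def S_GLD : Prop := ∀ d : ℕ, ∃ C : ℕ, 0 < C ∧ ∀ (F : Type) [Field F] [CharZero F] (n : ℕ)
  (wt : Fin n → ℕ) (Q : Ideal (MvPolynomial (Fin n) F)) (K : ℕ), (∀ i, 1 ≤ wt i) →
  Q.IsPrime → dimQ Q = d → 1 ≤ K → (∀ i, wt i ≤ K) →
  (hil wt Q K : ℝ≥0∞) ≤ (C : ℝ≥0∞) * (K : ℝ≥0∞) ^ d * Deg wt d Q

/-- the number of monomials -/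
def S_CNT : Prop := ∀ (F : Type) [Field F] (n : ℕ) (wt : Fin n → ℕ) (K : ℕ), (∀ i, 1 ≤ wt i) →
  (K + 1) ^ n ≤ n ^ n * (∏ i, wt i) * Module.finrank F (PW F wt K)

/-- prime ideals containing the same polynomials of small degree -/
def S_CHN : Prop := ∀ n d : ℕ, ∃ C : ℕ, 0 < C ∧ ∀ (F : Type) [Field F] [CharZero F]
  (wt : Fin n → ℕ) (s : ℕ) (ι : Type) [Fintype ι] (r : ι → Ideal (MvPolynomial (Fin n) F))
  (M : ℕ), (∀ i, 1 ≤ wt i) → (∀ l, (r l).IsPrime ∧ dimQ (r l) = d) →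
  (∀ l l', ∀ f ∈ PW F wt s, f ∈ r l → f ∈ r l') →
  (∃ f ∈ PW F wt s, f ≠ 0 ∧ ∀ l, f ∈ r l) →
  (∀ t ≤ s, ∀ f ∈ PW F wt t, f ≠ 0 → (∀ l, f ∈ r l) → ∀ i, wt i ≤ t) →
  0 < M → C * M ≤ Fintype.card ι →
  ∃ (Q : Ideal (MvPolynomial (Fin n) F)) (T : Finset ι), Q.IsPrime ∧ M ≤ T.card ∧
    (∀ l ∈ T, Q ≤ r l) ∧
    ((∀ l ∈ T, r l = Q) ∨ (d < dimQ Q ∧ ∀ l, ∀ f ∈ PW F wt s, f ∈ r l → f ∈ Q))

/-! ### invariant ideals -/

/-- exponential sums with infinitely many zeros (Skolem, Mahler, Lech) -/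
def S_SML : Prop := ∀ (ι : Type) [Fintype ι] [Nonempty ι] (c χ : ι → Qb), (∀ i, c i ≠ 0) →
  (∀ i, χ i ≠ 0) → (∀ i j, i ≠ j → ¬ Tor (χ i / χ j)) →
  ∀ Z : Set ℕ, Z.Infinite → ¬ ∀ m ∈ Z, ∑ i, c i * χ i ^ m = 0

/-- ideals which are invariant and vanish at a point with independent coordinates -/
def S_INV : Prop := ∀ (n : ℕ) (E : GF) (τ : E →+* E) (q δ : ℕ) (v : Fin n → Qb),
  FiniteDimensional ℚ E → 2 ≤ q → 0 < δ → (∀ i, v i ≠ 0) → IndepN v →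
  ∀ I : Ideal (MvPolynomial (Fin n) E), I.comap (phi n τ q ^ δ) = I →
    (∀ f ∈ I, aeval v f = 0) → I = ⊥

/-- the dimension of the inverse image -/
def S_DPH : Prop := ∀ (F : Type) [Field F] (n : ℕ) (τ : F →+* F) (q : ℕ),
  Function.Bijective τ → 1 ≤ q → ∀ I : Ideal (MvPolynomial (Fin n) F), I.IsPrime →
    dimQ (I.comap (phi n τ q)) = dimQ I

/-- a polynomial of small degree which vanishes at a point -/
def S_SGL : Prop := ∀ (E : GF) (n : ℕ) (v : Fin n → Qb) (wt : Fin n → ℕ) (t : ℕ),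
  FiniteDimensional ℚ E → (∀ i, 1 ≤ wt i) →
  (orbN E v).ncard < Module.finrank E (PW E wt t) → ∃ f ∈ PW E wt t, f ≠ 0 ∧ f ∈ pid E v

/-- levels at which the same polynomials of small degree vanish -/
def S_UNS : Prop := ∀ n : ℕ, ∃ K₀ : ℕ, ∀ Q₁ : ℕ, ∃ S : ℕ, 0 < S ∧ ∀ (E : GF) (σ : Aut) (q e : ℕ)
  (u : Fin n → Qb) (wt : Fin n → ℕ) (s : ℕ) (𝒦 : Finset ℕ), FiniteDimensional ℚ E →
  (∀ x ∈ E, σ x ∈ E) → 2 ≤ q → (∀ i, u i ≠ 0) → IndepN u → (∀ i, 1 ≤ wt i) →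
  (∀ k ∈ 𝒦, k ≤ e) → (∀ k ∈ 𝒦, ∀ k' ∈ 𝒦, k ≤ k' → q ^ (k' - k) ≤ Q₁) → K₀ ≤ 𝒦.card →
  (∀ k ∈ 𝒦, ∀ k' ∈ 𝒦, ∀ f ∈ PW E wt s, f ∈ pid E (ptN σ q e u k) →
    f ∈ pid E (ptN σ q e u k')) →
  ∀ t : ℕ, S * t ≤ s → ∀ f ∈ PW E wt t, (∀ k ∈ 𝒦, f ∈ pid E (ptN σ q e u k)) → f = 0

/-! ### the zero estimate -/

/-- the rank for half of the degrees -/
def S_HALFN : Prop := ∀ (Ω : Type) [Field Ω] (ι : Type) (n : ℕ) (N N' : Fin n → ℕ)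
  (u : ι → Fin n → Ω) (S : Set ι), S.Finite → (∀ i, N i ≤ 2 * N' i) →
  rkN N u S ≤ 2 ^ n * rkN N' u S

/-- independence of several sets of points, triangular version -/
def S_INDN : Prop := ∀ (Ω : Type) [Field Ω] (ι : Type) (n L : ℕ) (N d : Fin n → ℕ)
  (u : ι → Fin n → Ω) (S : Fin L → Set ι) (G : Fin L → MvPolynomial (Fin n) Ω),
  (∀ i, (S i).Finite) → (∀ i j, (G i).degreeOf j ≤ d j) → (∀ j, d j ≤ N j) →
  (∀ i l, l < i → ∀ x ∈ S l, eval (u x) (G i) = 0) →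
  (∀ i, ∀ x ∈ S i, eval (u x) (G i) ≠ 0) →
  ∃ R : Fin L → Finset ι, (∀ i, ∀ x ∈ R i, x ∈ S i) ∧
    (∀ i, (R i).card = rkN (fun j => N j - d j) u (S i)) ∧
    LinearIndependent Ω (fun x : (Σ i, R i) => rowN N (u x.2))

/-- the zero estimate -/
def S_ZEN : Prop := ∀ (n Q₁ L : ℕ), 2 ≤ Q₁ → 1 ≤ L → ∃ W C : ℕ, 1 ≤ W ∧
  ∀ (E : GF) (σ : Aut) (q e H : ℕ) (N : Fin n → ℕ) (u : Fin n → Qb), FiniteDimensional ℚ E →
  (∀ x ∈ E, σ x ∈ E) → 2 ≤ q → q ≤ Q₁ → (∀ i, u i ≠ 0) → IndepN u → H + W ≤ e →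
  (∀ i, 1 ≤ N i) → C * (orbN E u).ncard ≤ ∏ i, N i →
  ∃ (h : ℕ) (R : Finset (ℕ × (Fin n → Qb))), H ≤ h ∧ h < H + W ∧
    (∀ x ∈ R, H ≤ x.1 ∧ x.1 < H + W ∧ x.2 ∈ orbN E u) ∧ 0 < R.card ∧
    L * rkN N (fun y : Fin n → Qb => ptN σ q e y h) (orbN E u) ≤ 2 ^ n * R.card ∧
    LinearIndependent Qb (fun x : R => rowN N (ptN σ q e x.1.2 x.1.1))

/-! ### local statements -/

/-- the rank does not increase under an embedding of fields -/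
def S_EMBN : Prop := ∀ (Ω Ω' : Type) [Field Ω] [Field Ω'] (ψ : Ω →+* Ω') (ι : Type) (n : ℕ)
  (N : Fin n → ℕ) (u : ι → Fin n → Ω) (S : Set ι), S.Finite →
  rkN N (fun x i => ψ (u x i)) S ≤ rkN N u S

/-- the monomials at a point close to a finite set -/
def S_PADN : Prop := ∀ (p : ℕ) [Fact p.Prime] (ι : Type) (n T : ℕ) (N : Fin n → ℕ)
  (a : Fin n → ℤ) (Y : Finset ι) (x : ι → PadicAlgCl p) (γ : Fin n → PadicAlgCl p) (ρ : ℝ),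
  0 < ρ → ρ ≤ 1 → Set.InjOn x Y → (∀ l ∈ Y, x l ≠ 0) → (∀ i, ‖γ i‖ = 1) →
  ∃ U : Submodule (PadicAlgCl p) ((∀ i, Fin (N i)) → PadicAlgCl p),
    Module.finrank (PadicAlgCl p) U ≤ 2 * T ^ (n + 1) *
      rkN N (fun l i => x l ^ a i * γ i) (Y : Set ι) ∧
    ∀ (z : PadicAlgCl p) (γ' : Fin n → PadicAlgCl p), z ≠ 0 → (∀ i, ‖γ' i‖ = 1) →
      (∀ i, ‖γ' i - γ i‖ ≤ ρ) →
      ∏ l ∈ Y, ‖z - x l‖ ≤ ρ * ∏ l ∈ Y, (max 1 ‖z‖ * max 1 ‖x l‖) →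
      ∃ w ∈ U, ∀ k, ‖rowN N (fun i => z ^ a i * γ' i) k - w k‖ ≤
        ρ ^ T * ∏ i, (max 1 ‖z ^ a i‖) ^ N i

/-- the local estimate of the determinant -/
def S_LOCDN : Prop := ∀ (p : ℕ) [Fact p.Prime] (ψ : Qb →+* PadicAlgCl p) (E : GF) (σ : Aut)
  (a n₁ : ℕ), 0 < a → a ≤ n₁ → (∀ x ∈ E, σ x ∈ E) →
  (∀ x ∈ E, ‖ψ x‖ ≤ 1 → ‖ψ (σ x - x ^ (p ^ a))‖ ^ n₁ ≤ (p : ℝ)⁻¹) →
  ∀ (n : ℕ) (β : Qb) (γ : Fin n → Qb) (b : Fin n → ℤ), β ≠ 0 → TorRigid E β →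
  (∀ i, γ i ∈ E) → (∀ i, σ (γ i) = γ i) → (∀ i, ‖ψ (γ i)‖ = 1) →
  ∀ (e M T : ℕ) (N : Fin n → ℕ) (h : ℕ), n₁ + M ≤ h → h ≤ e →
  ∀ (ι : Type) [Fintype ι] [DecidableEq ι] (j : ι → ℕ) (y : ι → Fin n → Qb)
    (c : ι → ∀ i, Fin (N i)), (∀ i, n₁ + M ≤ j i ∧ j i ≤ e) →
  (∀ i, y i ∈ orbN E (fun l => β ^ b l * γ l)) →
  ‖ψ (Matrix.of (fun i l => rowN N (ptN σ (p ^ a) e (y i) (j i)) (c l))).det‖ ≤
    (((p : ℝ) ^ M)⁻¹) ^ (T * (Fintype.card ι - 2 * T ^ (n + 1) * rkN N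
      (fun y : Fin n → Qb => ptN σ (p ^ a) e y h) (orbN E (fun l => β ^ b l * γ l)))) *
    ∏ i, ∏ l, (max 1 ‖ψ (ptN σ (p ^ a) e (y i) (j i) l)‖) ^ N l

/-! ### global statements -/

/-- the height inequality for a determinant of monomials -/
def S_GEN : Prop := ∀ (p : ℕ) [Fact p.Prime] (φ : Qb →+* PadicAlgCl p) (M : GF),
  FiniteDimensional ℚ M → (∀ σ : Aut, ∀ x ∈ M, σ x ∈ M) →
  ∀ (ι : Type) [Fintype ι] [DecidableEq ι] (n : ℕ) (N : Fin n → ℕ) (u : ι → Fin n → Qb)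
    (c : ι → ∀ i, Fin (N i)), (∀ i l, u i l ∈ M) →
  (Matrix.of (fun i l => rowN N (u i) (c l))).det ≠ 0 →
  ∀ (T : Finset (M ≃ₐ[ℚ] M)) (δ : ℝ), 0 < δ → δ ≤ 1 →
  (∀ τ ∈ T, ∃ t : Aut, (∀ x : M, t x = (τ x : Qb)) ∧
    ‖φ (t (Matrix.of (fun i l => rowN N (u i) (c l))).det)‖ ≤
      δ * ∏ i, ∏ l, (max 1 ‖φ (t (u i l))‖) ^ N l) →
  (T.card : ℝ) * -Real.log δ ≤ (Module.finrank ℚ M : ℝ) *
    (Fintype.card ι * Real.log (Fintype.card ι) + ∑ i, ∑ l, N l * ht (u i l))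

/-- the product of the heights of independent monomials in `β` and elements of `K` -/
def S_ADN : Prop := ∀ (p : ℕ) [Fact p.Prime] (φ : Qb →+* PadicAlgCl p) (κ n₁ n : ℕ) (ε : ℝ),
  0 < ε → ∃ c : ℝ, 0 < c ∧ ∀ (K E : GF) (σ : Aut) (a : ℕ) (β : Qb) (γ : Fin n → Qb)
    (b : Fin n → ℤ),
    FiniteDimensional ℚ K → Module.finrank ℚ K ≤ κ → FiniteDimensional ℚ E → K ≤ E →
    NormalOver K E → Fix K σ → (∀ τ : Aut, Fix K τ → ∀ x ∈ E, τ (σ x) = σ (τ x)) →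
    0 < a → a ≤ n₁ →
    (∀ x ∈ E, ‖φ x‖ ≤ 1 → ‖φ (σ x - x ^ (p ^ a))‖ ^ n₁ ≤ (p : ℝ)⁻¹) →
    β ≠ 0 → TorRigid E β → (∀ i, γ i ∈ K) → (∀ i, ‖φ (γ i)‖ = 1) →
    IndepN (fun i => β ^ b i * γ i) →
    c / ((orb E β).ncard : ℝ) ^ (1 + ε) ≤ ∏ i, ht (β ^ b i * γ i)

/-- short independent vectors of a lattice -/
def S_MKN : Prop := ∀ n : ℕ, ∃ C : ℝ, 0 < C ∧ ∀ A : Matrix (Fin n) (Fin n) ℝ, A.det ≠ 0 →
  ∃ v : Matrix (Fin n) (Fin n) ℤ, v.det ≠ 0 ∧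
    ∏ i, ∑ j, |∑ l, A j l * (v i l : ℝ)| ≤ C * |A.det|

/-- independent generators up to torsion -/
def S_FGB : Prop := ∀ Γ : Subgroup Qbˣ, Γ.FG → ∃ (r : ℕ) (g : Fin r → Qbˣ), (∀ i, g i ∈ Γ) ∧
  IndepN (fun i => (g i : Qb)) ∧ ∀ x : Qb, DivG Γ x →
    ∃ (m : ℕ) (k : Fin r → ℤ), 0 < m ∧ x ^ m = ∏ i, (g i : Qb) ^ k i

/-- heights relative to the division group of `Γ`, over `K(μ_∞)` -/
def S_STARN : Prop := ∀ (K : GF) (Γ : Subgroup Qbˣ), FiniteDimensional ℚ K → Γ.FG →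
  (∀ x ∈ Γ, (x : Qb) ∈ K) → ∀ ε : ℝ, 0 < ε → ∃ c : ℝ, 0 < c ∧ ∀ D : ℕ, 0 < D → ∀ β δ : Qb,
    β ≠ 0 → (orb (kinf K) β).ncard ≤ D → DivG Γ δ → ¬ DivG Γ β →
    c / (D : ℝ) ^ (1 + ε) ≤ ht (β / δ)

/-- the main theorem -/
def S_MAIN5 : Prop := ∀ (K : GF) (Γ : Subgroup Qbˣ), FiniteDimensional ℚ K → Γ.FG →
  (∀ x ∈ Γ, (x : Qb) ∈ K) → ∀ (P : Finset ℕ), (∀ p ∈ P, p.Prime) → ∀ ε : ℝ, 0 < ε →
  ∃ c : ℝ, 0 < c ∧ ∀ D D' m : ℕ, 0 < D → 0 < D' → 0 < m → ∀ α : Qb, α ≠ 0 →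
    (orb (fullField K Γ P) α).ncard ≤ D →
    (orb (fullField K Γ P) (α ^ m)).ncard ≤ D' →
    ¬ DivG Γ α → ∀ γ : Qb, DivG Γ γ → c / (D * (D' : ℝ) ^ ε) ≤ ht (α / γ)

end Pool.Agent.H54.AM
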