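import Mathlib
import Pool.Agent.H54.AM.Defs
import Pool.Agent.H54.AD.Lem

set_option autoImplicit false
set_option linter.unusedVariables false

/-!
# Elementary facts on tuples of monomials
-/

namespace Pool.Agent.H54.AM

open Pool.Agent.W237.RK
open Pool.Agent.H58P (Qb ht)
open Pool.Agent.H54.RX
open Pool.Agent.H54.AD (orb_pos)

lemma orbN_eq {E : GF} {n : ℕ} (β : Qb) (γ : Fin n → Qb) (h : ∀ i, γ i ∈ E) (b : Fin n → ℤ) :
    orbN E (fun l => β ^ b l * γ l) = (fun y : Qb => (fun l => y ^ b l * γ l)) '' orb E β := by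
  ext x
  constructor
  · rintro ⟨ρ, hρ, rfl⟩
    refine ⟨ρ β, ⟨ρ, hρ, rfl⟩, ?_⟩
    funext l
    simp only [map_mul, map_zpow₀, hρ _ (h l)]
  · rintro ⟨_, ⟨ρ, hρ, rfl⟩, rfl⟩
    refine ⟨ρ, hρ, ?_⟩
    funext l
    simp only [map_mul, map_zpow₀, hρ _ (h l)]

lemma orbN_finite {E : GF} {n : ℕ} (β : Qb) (γ : Fin n → Qb) (h : ∀ i, γ i ∈ E) (b : Fin n → ℤ) :
    (orbN E (fun l => β ^ b l * γ l)).Finite := by
  rw [orbN_eq β γ h b]
  exact (orb_finite E β).image _

lemma orbN_ncard_le {E : GF} {n : ℕ} (β : Qb) (γ : Fin n → Qb) (h : ∀ i, γ i ∈ E)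
    (b : Fin n → ℤ) : (orbN E (fun l => β ^ b l * γ l)).ncard ≤ (orb E β).ncard := by
  rw [orbN_eq β γ h b]
  exact Set.ncard_image_le (orb_finite E β)

lemma indepN_not_tor {n : ℕ} {u : Fin n → Qb} (h : IndepN u) (i : Fin n) : ¬ Tor (u i) := by
  classical
  intro hT
  have h1 := h (Pi.single i 1) (by
    rw [Finset.prod_eq_single i]
    · rw [Pi.single_eq_same, zpow_one]
      exact hT
    · intro j _ hj
      rw [Pi.single_eq_of_ne hj, zpow_zero]
    · intro h
      exact absurd (Finset.mem_univ i) h)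
  have h2 := congrFun h1 i
  rw [Pi.single_eq_same] at h2
  exact one_ne_zero h2

lemma indepN_succAbove {n : ℕ} {u : Fin (n + 1) → Qb} (h : IndepN u) (i : Fin (n + 1)) :
    IndepN (fun j => u (i.succAbove j)) := by
  intro a hT
  have h1 := h (i.insertNth 0 a) (by
    rw [Fin.prod_univ_succAbove _ i, Fin.insertNth_apply_same, zpow_zero, one_mul]
    simpa using hT)
  funext j
  have h2 := congrFun h1 (i.succAbove j)
  rw [Fin.insertNth_apply_succAbove] at h2
  exact h2

end Pool.Agent.H54.AM
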