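import Mathlib
import Pool.Agent.H54.AM.LemN
import Pool.Agent.H54.RX.F5

set_option autoImplicit false
set_option linter.unusedVariables false

/-!
# The product of several heights: the global part
-/

namespace Pool.Agent.H54.AM

open Polynomial
open Pool.Agent.W237.RK
open Pool.Agent.H58P (Qb ht)
open Pool.Agent.H58R (ht_nonneg)
open Pool.Agent.H58B (ht_conj ht_pow)
open Pool.Agent.W669.RK (exists_big tor_of_ht_zero)
open Pool.Agent.H54.RX
open Pool.Agent.H54.AD (pt ht_pt orb_pos)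

lemma floor_half {t : ℝ} (ht : 1 ≤ t) : t / 2 ≤ (⌊t⌋₊ : ℝ) := by
  have h1 := Nat.lt_floor_add_one t
  have h2 : (1 : ℝ) ≤ (⌊t⌋₊ : ℝ) := by exact_mod_cast Nat.le_floor (by exact_mod_cast ht)
  linarith

set_option maxHeartbeats 1000000 in
theorem adn : S_LOCDN → S_ZEN → S_GEN → AD.S_MIN → S_ADN := by
  classical
  intro hLOC hZEA hGE hMIN p hp φ κ n₁ n₀ ε hε
  have hpp : p.Prime := hp.out
  have hp1 : (1 : ℝ) < p := by exact_mod_cast hpp.one_lt
  have hp0 : (0 : ℝ) < p := by linarith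
  have hlogp : 0 < Real.log p := Real.log_pos hp1
  induction n₀ generalizing ε with
  | zero =>
    refine ⟨1, one_pos, ?_⟩
    intro K E σ a β γ b _ _ _ _ _ _ _ _ _ _ _ _ _ _ _
    rw [Finset.univ_eq_empty, Finset.prod_empty]
    have h1 : (1 : ℝ) ≤ ((orb E β).ncard : ℝ) := by exact_mod_cast orb_pos E β
    have h2 : (1 : ℝ) ≤ ((orb E β).ncard : ℝ) ^ (1 + ε) := Real.one_le_rpow h1 (by linarith)
    rw [div_le_one (by linarith)]
    exact h2
  | succ n ih =>
  obtain ⟨cI, hcI, hI⟩ := ih (ε / 2) (by positivity)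
  -- the constants
  set nn : ℝ := (n : ℝ) + 1 with hnn
  have hnn1 : 1 ≤ nn := by
    have : (0 : ℝ) ≤ n := Nat.cast_nonneg n
    linarith
  have hnn0 : 0 < nn := by linarith
  set ν : ℝ := ε / (4 * nn) with hν
  have hν0 : 0 < ν := by positivity
  have hν1 : ν ≤ ε / 4 := by
    rw [hν, div_le_div_iff_of_pos_left hε (by positivity) (by positivity)]
    linarith
  have hν2 : nn * ν ≤ ε / 4 := by
    rw [hν]
    apply le_of_eq
    field_simp
  set ε' : ℝ := ν / (n₁ + 1) with hε'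
  have hε'0 : 0 < ε' := by positivity
  have hε'n : n₁ * ε' ≤ ν := by
    rw [hε', mul_div_assoc', div_le_iff₀ (by positivity)]
    nlinarith
  obtain ⟨T, hT⟩ := exists_nat_gt (2 * (κ : ℝ) / ε')
  have hκε : 0 ≤ 2 * (κ : ℝ) / ε' := by positivity
  have hT0 : 0 < T := by
    rcases Nat.eq_zero_or_pos T with h | h
    · rw [h, Nat.cast_zero] at hT
      linarith
    · exact h
  set L : ℕ := 2 ^ (n + 1) * (4 * T ^ (n + 2)) with hL
  have hL1 : 1 ≤ L := by
    have : 0 < T ^ (n + 2) := pow_pos hT0 _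
    have h2 : 0 < 2 ^ (n + 1) * (4 * T ^ (n + 2)) := by positivity
    omega
  obtain ⟨W, CZ, hW1, hZ⟩ := hZEA (n + 1) (p ^ (n₁ + 1)) L (by
    calc 2 ≤ p := hpp.two_le
      _ = p ^ 1 := (pow_one p).symm
      _ ≤ p ^ (n₁ + 1) := Nat.pow_le_pow_right hpp.pos (by omega)) hL1
  set G : ℝ := (p : ℝ) ^ (n₁ * (n₁ + W + 1)) * Real.exp (ν * (Real.log W + 1)) with hG
  have hGpos : 0 < G := by positivity
  set c'' : ℝ := 1 / (2 * nn * G) with hc''
  have hc''0 : 0 < c'' := by positivity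
  set CR : ℝ := (CZ : ℝ) + 1 with hCR
  have hCR0 : 0 < CR := by positivity
  set c : ℝ := min (c'' * cI) (1 / ((2 * nn * G) ^ (n + 1) * CR)) with hc
  have hcpos : 0 < c := lt_min (by positivity) (by positivity)
  have hcle1 : c ≤ c'' * cI := min_le_left _ _
  have hcle2 : c * ((2 * nn * G) ^ (n + 1) * CR) ≤ 1 := by
    have h1 : c ≤ 1 / ((2 * nn * G) ^ (n + 1) * CR) := min_le_right _ _
    rwa [le_div_iff₀ (by positivity)] at h1
  refine ⟨c, hcpos, ?_⟩
  intro K E σ a β γ b hK hκ hE hKE hN' hσ hcomm ha ha' hfrob hβ htor hγK hn1 hind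
  by_contra hlt
  push Not at hlt
  have hγE : ∀ i, γ i ∈ E := fun i => hKE (hγK i)
  have hγ0 : ∀ i, γ i ≠ 0 := by
    intro i h0
    have h1 := hn1 i
    rw [h0, map_zero, norm_zero] at h1
    exact zero_ne_one h1
  have hn₁pos : 0 < n₁ := lt_of_lt_of_le ha ha'
  set u : Fin (n + 1) → Qb := fun i => β ^ b i * γ i with hu
  have hu0 : ∀ i, u i ≠ 0 := fun i => mul_ne_zero (zpow_ne_zero _ hβ) (hγ0 i)
  have hut : ∀ i, ¬ Tor (u i) := fun i => indepN_not_tor hind i
  have hupos : ∀ i, 0 < ht (u i) := by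
    intro i
    rcases (ht_nonneg (u i)).lt_or_eq with h | h
    · exact h
    · exact absurd (tor_of_ht_zero _ (hu0 i) h.symm) (hut i)
  set D : ℕ := (orb E β).ncard with hD
  have hDpos : 0 < D := orb_pos E β
  have hDR : (1 : ℝ) ≤ D := by exact_mod_cast hDpos
  have hD0 : (0 : ℝ) < D := by linarith
  have hDε : ∀ x : ℝ, (0 : ℝ) < (D : ℝ) ^ x := fun x => Real.rpow_pos_of_pos hD0 x
  have hDmono : ∀ x y : ℝ, x ≤ y → (D : ℝ) ^ x ≤ (D : ℝ) ^ y := fun x y h =>
    Real.rpow_le_rpow_of_exponent_le hDR h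
  -- all the heights are small
  have hsm : ∀ i, ht (u i) * (D : ℝ) ^ (ε / 2) < c'' := by
    intro i
    by_contra hcon
    push Not at hcon
    have h1 := hI K E σ a β (fun j => γ (i.succAbove j)) (fun j => b (i.succAbove j)) hK hκ hE hKE
      hN' hσ hcomm ha ha' hfrob hβ htor (fun j => hγK _) (fun j => hn1 _)
      (indepN_succAbove hind i)
    have h2 : ∏ j, ht (u j) = ht (u i) * ∏ j : Fin n, ht (u (i.succAbove j)) :=
      Fin.prod_univ_succAbove _ i
    have h3 : c'' * cI ≤ (∏ j, ht (u j)) * (D : ℝ) ^ (1 + ε) := by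
      have e1 : (D : ℝ) ^ (1 + ε) = (D : ℝ) ^ (ε / 2) * (D : ℝ) ^ (1 + ε / 2) := by
        rw [← Real.rpow_add hD0]
        congr 1
        ring
      have h4 : cI ≤ (∏ j : Fin n, ht (u (i.succAbove j))) * (D : ℝ) ^ (1 + ε / 2) := by
        rwa [div_le_iff₀ (hDε _)] at h1
      rw [h2, e1]
      calc c'' * cI ≤ (ht (u i) * (D : ℝ) ^ (ε / 2)) *
            ((∏ j : Fin n, ht (u (i.succAbove j))) * (D : ℝ) ^ (1 + ε / 2)) :=
            mul_le_mul hcon h4 hcI.le (mul_pos (hupos i) (hDε _)).le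
        _ = _ := by ring
    have h5 : (∏ j, ht (u j)) * (D : ℝ) ^ (1 + ε) < c := by
      rwa [lt_div_iff₀ (hDε _)] at hlt
    linarith
  -- the parameters
  have hWR : (1 : ℝ) ≤ W := by exact_mod_cast hW1
  have hWD : (1 : ℝ) ≤ W * D := by nlinarith
  set Λ : ℝ := Real.log (W * D) + 1 with hΛ
  have hΛ1 : 1 ≤ Λ := by
    have := Real.log_nonneg hWD
    linarith
  obtain ⟨N, hN1, hN2⟩ := exists_N3 p hpp.one_lt (ε' * Λ) (by positivity)
  set H : ℕ := n₁ + N with hH
  set e : ℕ := H + W with he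
  set Q : ℝ := (p : ℝ) ^ (n₁ * (H + W)) with hQ
  have hQpos : 0 < Q := by positivity
  have hQle : Q ≤ G * (D : ℝ) ^ ν := by
    have e2 : Real.exp (n₁ * (ε' * Λ)) ≤ Real.exp (ν * (Real.log W + 1)) * (D : ℝ) ^ ν := by
      rw [Real.rpow_def_of_pos hD0, ← Real.exp_add]
      apply Real.exp_le_exp.mpr
      rw [hΛ, Real.log_mul (by positivity) (by positivity), ← mul_assoc]
      have h1 : 0 ≤ Real.log W := Real.log_nonneg hWR
      have h2 : 0 ≤ Real.log D := Real.log_nonneg hDR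
      calc n₁ * ε' * (Real.log W + Real.log D + 1)
          ≤ ν * (Real.log W + Real.log D + 1) :=
            mul_le_mul_of_nonneg_right hε'n (by positivity)
        _ = ν * (Real.log W + 1) + Real.log D * ν := by ring
    calc Q = (p : ℝ) ^ (n₁ * (n₁ + W)) * ((p : ℝ) ^ N) ^ n₁ := by
          rw [hQ, hH, ← pow_mul, ← pow_add]
          congr 1
          ring
      _ ≤ (p : ℝ) ^ (n₁ * (n₁ + W)) * (p * Real.exp (ε' * Λ)) ^ n₁ := by gcongr
      _ = (p : ℝ) ^ (n₁ * (n₁ + W + 1)) * Real.exp (n₁ * (ε' * Λ)) := by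
          rw [mul_pow, ← Real.exp_nat_mul, ← mul_assoc, ← pow_add]
          congr 2
      _ ≤ (p : ℝ) ^ (n₁ * (n₁ + W + 1)) * (Real.exp (ν * (Real.log W + 1)) * (D : ℝ) ^ ν) :=
          mul_le_mul_of_nonneg_left e2 (by positivity)
      _ = _ := by rw [hG]; ring
  -- the degrees
  have hbig : ∀ i, 1 ≤ 1 / (nn * Q * ht (u i)) := by
    intro i
    have hy := hupos i
    rw [le_div_iff₀ (by positivity), one_mul]
    have h1 : (D : ℝ) ^ ν ≤ (D : ℝ) ^ (ε / 2) := hDmono _ _ (by linarith)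
    calc nn * Q * ht (u i) ≤ nn * (G * (D : ℝ) ^ ν) * ht (u i) := by gcongr
      _ ≤ nn * (G * (D : ℝ) ^ (ε / 2)) * ht (u i) := by gcongr
      _ = nn * G * (ht (u i) * (D : ℝ) ^ (ε / 2)) := by ring
      _ ≤ nn * G * c'' := mul_le_mul_of_nonneg_left (hsm i).le (by positivity)
      _ = 1 / 2 := by
        rw [hc'']
        field_simp
      _ ≤ 1 := by norm_num
  set NN : Fin (n + 1) → ℕ := fun i => ⌊1 / (nn * Q * ht (u i))⌋₊ with hNN
  have hNN1 : ∀ i, 1 ≤ NN i := fun i => Nat.le_floor (by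
    rw [Nat.cast_one]
    exact hbig i)
  have hNNle : ∀ i, (NN i : ℝ) ≤ 1 / (nn * Q * ht (u i)) := fun i =>
    Nat.floor_le (by have := hupos i; positivity)
  have hNNge : ∀ i, 1 / (nn * Q * ht (u i)) / 2 ≤ (NN i : ℝ) := fun i => floor_half (hbig i)
  have hNprod : CZ * (orbN E u).ncard ≤ ∏ i, NN i := by
    have h1 : (orbN E u).ncard ≤ D := orbN_ncard_le β γ hγE b
    have h2 : CR * D ≤ ∏ i, (NN i : ℝ) := by
      have h3 : ∏ i, (1 / (nn * Q * ht (u i)) / 2) ≤ ∏ i, (NN i : ℝ) :=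
        Finset.prod_le_prod (fun i _ => by have := hupos i; positivity) fun i _ => hNNge i
      refine le_trans ?_ h3
      have hP0 : 0 < ∏ i, ht (u i) := Finset.prod_pos fun i _ => hupos i
      have e1 : ∏ i, (1 / (nn * Q * ht (u i)) / 2) =
          1 / ((2 * nn * Q) ^ (n + 1) * ∏ i, ht (u i)) := by
        have e2 : ∀ i, 1 / (nn * Q * ht (u i)) / 2 = (2 * nn * Q)⁻¹ * (ht (u i))⁻¹ := by
          intro i
          have := (hupos i).ne'
          field_simp
        rw [Finset.prod_congr rfl fun i _ => e2 i, Finset.prod_mul_distrib, Finset.prod_const,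
          Finset.card_univ, Fintype.card_fin, Finset.prod_inv_distrib, inv_pow, one_div, mul_inv]
      rw [e1, le_div_iff₀ (by positivity)]
      have h4 : (∏ i, ht (u i)) * (D : ℝ) ^ (1 + ε) < c := by
        rwa [lt_div_iff₀ (hDε _)] at hlt
      have h5 : (2 * nn * Q) ^ (n + 1) ≤ (2 * nn * G) ^ (n + 1) * (D : ℝ) ^ ε := by
        calc (2 * nn * Q) ^ (n + 1) ≤ (2 * nn * (G * (D : ℝ) ^ ν)) ^ (n + 1) := by gcongr
          _ = (2 * nn * G) ^ (n + 1) * ((D : ℝ) ^ ν) ^ (n + 1) := by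
              rw [← mul_assoc, mul_pow]
          _ = (2 * nn * G) ^ (n + 1) * (D : ℝ) ^ (nn * ν) := by
              rw [← Real.rpow_natCast ((D : ℝ) ^ ν) (n + 1), ← Real.rpow_mul hD0.le]
              congr 2
              push_cast
              ring
          _ ≤ (2 * nn * G) ^ (n + 1) * (D : ℝ) ^ ε :=
              mul_le_mul_of_nonneg_left (hDmono _ _ (by linarith)) (by positivity)
      have h6 : (D : ℝ) ^ (1 + ε) = D * (D : ℝ) ^ ε := by
        rw [Real.rpow_add hD0, Real.rpow_one]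
      calc CR * D * ((2 * nn * Q) ^ (n + 1) * ∏ i, ht (u i))
          ≤ CR * D * (((2 * nn * G) ^ (n + 1) * (D : ℝ) ^ ε) * ∏ i, ht (u i)) := by gcongr
        _ = ((2 * nn * G) ^ (n + 1) * CR) * ((∏ i, ht (u i)) * (D * (D : ℝ) ^ ε)) := by ring
        _ ≤ ((2 * nn * G) ^ (n + 1) * CR) * c := by
            rw [← h6]
            exact mul_le_mul_of_nonneg_left h4.le (by positivity)
        _ = c * ((2 * nn * G) ^ (n + 1) * CR) := by ring
        _ ≤ 1 := hcle2
    have h3 : ((CZ * D : ℕ) : ℝ) ≤ ((∏ i, NN i : ℕ) : ℝ) := by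
      push_cast
      refine le_trans ?_ h2
      exact mul_le_mul_of_nonneg_right (by rw [hCR]; linarith) hD0.le
    exact (Nat.mul_le_mul_left _ h1).trans (by exact_mod_cast h3)
  -- the zero estimate
  have hσE : ∀ x ∈ E, σ x ∈ E := fun x hx => hN' σ hσ x hx
  have hq2 : 2 ≤ p ^ a := by
    calc 2 ≤ p := hpp.two_le
      _ = p ^ 1 := (pow_one p).symm
      _ ≤ p ^ a := Nat.pow_le_pow_right hpp.pos ha
  obtain ⟨h, R, hhH, hhW, hR, hRpos, hRr, hRind⟩ := hZ E σ (p ^ a) e H NN u hE hσE hq2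
    (Nat.pow_le_pow_right hpp.pos (by omega)) hu0 hind le_rfl hNN1 hNprod
  set r := rkN NN (fun y : Fin (n + 1) → Qb => ptN σ (p ^ a) e y h) (orbN E u) with hr
  obtain ⟨cc, hdet⟩ := hMIN Qb R (∀ i, Fin (NN i)) _ hRind
  set uu : R → Fin (n + 1) → Qb := fun i => ptN σ (p ^ a) e i.1.2 i.1.1 with huu
  have hdet' : (Matrix.of (fun i l => rowN NN (uu i) (cc l))).det ≠ 0 := hdet
  obtain ⟨M, hMf, hMs, hEM, hsM, TT, hT1, hT2⟩ := exists_big K E hE hKE {β}
  have hβM : β ∈ M := hsM β (Finset.mem_singleton_self β)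
  have huM : ∀ l, u l ∈ M := fun l => mul_mem (zpow_mem hβM _) (hEM (hγE l))
  have hptM : ∀ y ∈ M, ∀ k, pt σ (p ^ a) e y k ∈ M := fun y hy k => pow_mem (hMs _ _ hy) _
  have hyM : ∀ (i : R) (l : Fin (n + 1)), i.1.2 l ∈ M := by
    intro i l
    obtain ⟨ρ, hρ, h1⟩ := (hR i.1 i.2).2.2
    rw [← h1]
    exact hMs _ _ (huM l)
  have hht : ∀ (i : R) (l : Fin (n + 1)), ht (i.1.2 l) = ht (u l) := by
    intro i l
    obtain ⟨ρ, hρ, h1⟩ := (hR i.1 i.2).2.2
    rw [← h1]
    exact ht_conj ρ (u l)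
  -- the local gain
  set m : ℕ := R.card with hm
  set δ : ℝ := (((p : ℝ) ^ N)⁻¹) ^ (T * (m - 2 * T ^ (n + 2) * r)) with hδ
  have hδ0 : 0 < δ := by positivity
  have hδ1 : δ ≤ 1 := by
    apply pow_le_one₀ (by positivity)
    exact inv_le_one_of_one_le₀ (one_le_pow₀ hp1.le)
  have hmain := hGE p φ M hMf hMs R (n + 1) NN uu cc
    (fun i l => hptM _ (hyM i l) _) hdet' TT δ hδ0 hδ1 (by
      intro τ hτ
      obtain ⟨t, ht1, ht2⟩ := hT2 τ hτ
      refine ⟨t, ht2, ?_⟩
      set ψ : Qb →+* PadicAlgCl p := φ.comp (t : Qb →+* Qb) with hψ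
      have hψa : ∀ y, φ (t y) = ψ y := fun y => rfl
      have hψE : ∀ x ∈ E, ‖ψ x‖ ≤ 1 → ‖ψ (σ x - x ^ (p ^ a))‖ ^ n₁ ≤ (p : ℝ)⁻¹ := by
        intro x hx hx1
        have h1 := hfrob (t x) (hN' t ht1 x hx) hx1
        have h2 : ψ (σ x - x ^ (p ^ a)) = φ (σ (t x) - (t x) ^ (p ^ a)) := by
          rw [← hcomm t ht1 x hx, ← map_pow, ← map_sub]
          rfl
        rw [h2]
        exact h1
      have hψ1 : ∀ i, ‖ψ (γ i)‖ = 1 := by
        intro i
        show ‖φ (t (γ i))‖ = 1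
        rw [ht1 (γ i) (hγK i), hn1]
      simp only [hψa]
      have hloc := hLOC p ψ E σ a n₁ ha ha' hσE hψE (n + 1) β γ b hβ htor hγE
        (fun i => hσ _ (hγK i)) hψ1 e N T NN h hhH (by omega) R (fun i => i.1.1)
        (fun i => i.1.2) cc (fun i => ⟨(hR i.1 i.2).1, by have := (hR i.1 i.2).2.1; omega⟩)
        (fun i => (hR i.1 i.2).2.2)
      rw [Fintype.card_coe] at hloc
      exact hloc)
  rw [Fintype.card_coe] at hmain
  -- the number of rows
  have hn0 : (0 : ℝ) < m := by exact_mod_cast hRpos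
  have hnWD : (m : ℝ) ≤ W * D := by
    have h1 : (orbN E u).Finite := orbN_finite β γ hγE b
    have h2 : R ⊆ Finset.Ico H (H + W) ×ˢ h1.toFinset := by
      intro x hx
      rw [Finset.mem_product, Finset.mem_Ico, Set.Finite.mem_toFinset]
      exact ⟨⟨(hR x hx).1, (hR x hx).2.1⟩, (hR x hx).2.2⟩
    have h3 : m ≤ W * D := by
      calc m ≤ _ := Finset.card_le_card h2
        _ = W * (orbN E u).ncard := by
            rw [Finset.card_product, Nat.card_Ico, Nat.add_sub_cancel_left,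
              Set.ncard_eq_toFinset_card _ h1]
        _ ≤ W * D := by
            apply Nat.mul_le_mul_left
            exact orbN_ncard_le β γ hγE b
    exact_mod_cast h3
  have hhalf : m ≤ 2 * (m - 2 * T ^ (n + 2) * r) := by
    have h1 : 2 ^ (n + 1) * (4 * T ^ (n + 2)) * r ≤ 2 ^ (n + 1) * m := hRr
    have h2 : 4 * (T ^ (n + 2) * r) ≤ m := by
      have h3 : 2 ^ (n + 1) * (4 * (T ^ (n + 2) * r)) ≤ 2 ^ (n + 1) * m := by
        calc 2 ^ (n + 1) * (4 * (T ^ (n + 2) * r)) = 2 ^ (n + 1) * (4 * T ^ (n + 2)) * r := by ring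
          _ ≤ _ := h1
      exact Nat.le_of_mul_le_mul_left h3 (by positivity)
    have h3 : 2 * T ^ (n + 2) * r = 2 * (T ^ (n + 2) * r) := by ring
    omega
  -- the heights
  have hsum : ∑ i : R, ∑ l, (NN l : ℝ) * ht (uu i l) ≤ m := by
    have h1 : ∀ i : R, ∑ l, (NN l : ℝ) * ht (uu i l) ≤ 1 := by
      intro i
      have hqj : ((p ^ a : ℕ) : ℝ) ^ (i.1.1) ≤ Q := by
        rw [hQ]
        push_cast
        rw [← pow_mul]
        apply pow_le_pow_right₀ hp1.le
        have := (hR i.1 i.2).2.1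
        exact Nat.mul_le_mul ha' (by omega)
      have h2 : ∀ l, (NN l : ℝ) * ht (uu i l) ≤ 1 / nn := by
        intro l
        have hul := hupos l
        have e1 : ht (uu i l) ≤ Q * ht (u l) := by
          show ht (pt σ (p ^ a) e (i.1.2 l) i.1.1) ≤ _
          rw [ht_pt, hht i l]
          exact mul_le_mul_of_nonneg_right hqj hul.le
        calc (NN l : ℝ) * ht (uu i l) ≤ (1 / (nn * Q * ht (u l))) * (Q * ht (u l)) :=
              mul_le_mul (hNNle l) e1 (ht_nonneg _) (by positivity)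
          _ = 1 / nn := by field_simp
      calc ∑ l, (NN l : ℝ) * ht (uu i l) ≤ ∑ _l : Fin (n + 1), 1 / nn :=
            Finset.sum_le_sum fun l _ => h2 l
        _ = 1 := by
            rw [Finset.sum_const, Finset.card_univ, Fintype.card_fin, nsmul_eq_mul]
            push_cast
            rw [← hnn]
            field_simp
    have h2 := Finset.sum_le_card_nsmul Finset.univ
      (fun i : R => ∑ l, (NN l : ℝ) * ht (uu i l)) 1 (fun i _ => h1 i)
    rw [Finset.card_univ, Fintype.card_coe, nsmul_eq_mul, mul_one] at h2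
    exact h2
  -- conclusion
  have hlogδ : -Real.log δ = T * ((m - 2 * T ^ (n + 2) * r : ℕ) : ℝ) * (N * Real.log p) := by
    rw [hδ, Real.log_pow, Real.log_inv, Real.log_pow]
    push_cast
    ring
  have hTpos : 0 < TT.card := by
    have h1 : 0 < Module.finrank ℚ M := Module.finrank_pos
    rw [hT1] at h1
    exact Nat.pos_of_mul_pos_left h1
  have hTR : (0 : ℝ) < TT.card := by exact_mod_cast hTpos
  have hTcard : (Module.finrank ℚ M : ℝ) ≤ TT.card * κ := by
    have : Module.finrank ℚ M ≤ TT.card * κ := by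
      rw [hT1, mul_comm]
      exact Nat.mul_le_mul_left _ hκ
    exact_mod_cast this
  have hright : (m : ℝ) * Real.log m + ∑ i : R, ∑ l, (NN l : ℝ) * ht (uu i l) ≤ m * Λ := by
    have h1 : Real.log m ≤ Real.log (W * D) := Real.log_le_log hn0 hnWD
    calc _ ≤ m * Real.log (W * D) + m := by
          apply add_le_add _ hsum
          exact mul_le_mul_of_nonneg_left h1 hn0.le
      _ = m * Λ := by rw [hΛ]; ring
  have hNp : 0 < N * Real.log p := lt_trans (by positivity) hN1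
  have hhalfR : (m : ℝ) ≤ 2 * ((m - 2 * T ^ (n + 2) * r : ℕ) : ℝ) := by exact_mod_cast hhalf
  have hTRR : (0 : ℝ) < T := by exact_mod_cast hT0
  have hfin : (TT.card : ℝ) * m * (T * (N * Real.log p)) ≤ TT.card * m * (2 * κ * Λ) := by
    calc (TT.card : ℝ) * m * (T * (N * Real.log p))
        ≤ TT.card * (2 * ((m - 2 * T ^ (n + 2) * r : ℕ) : ℝ)) * (T * (N * Real.log p)) := by
          gcongr
      _ = 2 * (TT.card * (T * ((m - 2 * T ^ (n + 2) * r : ℕ) : ℝ) * (N * Real.log p))) := by ring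
      _ = 2 * (TT.card * -Real.log δ) := by rw [hlogδ]
      _ ≤ 2 * ((Module.finrank ℚ M : ℝ) * (m * Λ)) := by
          have h1 := hmain.trans (mul_le_mul_of_nonneg_left hright (Nat.cast_nonneg _))
          linarith
      _ ≤ 2 * ((TT.card * κ) * (m * Λ)) := by gcongr
      _ = _ := by ring
  have hfin2 : (T : ℝ) * (N * Real.log p) ≤ 2 * κ * Λ :=
    le_of_mul_le_mul_left hfin (by positivity)
  have hfin3 : 2 * κ * Λ < T * (N * Real.log p) := by
    have h6 : 0 < ε' * Λ := by positivity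
    calc 2 * κ * Λ = (2 * (κ : ℝ) / ε') * (ε' * Λ) := by field_simp
      _ ≤ (2 * (κ : ℝ) / ε') * (N * Real.log p) := mul_le_mul_of_nonneg_left hN1.le hκε
      _ < T * (N * Real.log p) := mul_lt_mul_of_pos_right hT hNp
  linarith

end Pool.Agent.H54.AM
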