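import Mathlib
import Pool.Agent.H20.G.R_pool_sql_team_seeded_63374d34.N684.BK.Stm
import Pool.Agent.H20.G.R_pool_sql_team_seeded_63374d34.N769.BK.DIM
import Pool.Agent.H20.G.R_pool_sql_team_seeded_63374d34.N769.BK.MULSUM
import Pool.Agent.H20.G.R_pool_sql_team_seeded_63374d34.N861.BK.BEZ
import Pool.Agent.H20.G.R_pool_sql_team_seeded_63374d34.N415.BK.TOP

set_option autoImplicit false

/-!
# The statements which are already in the library
-/

namespace Pool.Agent.H54.AM

open Pool.Agent.N684.BK

/-- components of hypersurface sections -/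
theorem libDIM : S_DIM := Pool.Agent.N769.BK.DIM.DIM

/-- dimensions of primes decrease -/
theorem libMONO : S_MONO := Pool.Agent.N769.BK.DIM.MONO

/-- weighted Bezout inequality -/
theorem libBEZ : S_BEZ :=
  Pool.Agent.N861.BK.BEZ.BEZ Pool.Agent.N769.BK.MULSUM.MUL Pool.Agent.N769.BK.MULSUM.SUM

/-- the zero ideal -/
theorem libTOP : S_TOP := Pool.Agent.N415.BK.TOP.TOP

end Pool.Agent.H54.AM
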