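import Pool.Agent.H54.AM.Defs
import Pool.Agent.H54.AM.Lib

set_option autoImplicit false

/-!
# `S_CHN`: prime ideals containing the same polynomials of small degree (helper75)
-/

namespace Pool.Agent.H54.AM.Chn

open MvPolynomial
open scoped ENNReal
open Pool.Agent.N684.BK
open Pool.Agent.N769.BK.MULSUM (PW_finite PW_mono mem_PW levFinite)

section Basic

variable {F : Type} [Field F] {n : ℕ} {wt : Fin n → ℕ}

theorem hil_le (hwt : ∀ i, 1 ≤ wt i) {I J : Ideal (MvPolynomial (Fin n) F)} {t : ℕ}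
    (h : ∀ f ∈ PW F wt t, f ∈ I → f ∈ J) : hil wt J t ≤ hil wt I t := by
  have := PW_finite (F := F) hwt t
  have h1 := LinearMap.finrank_range_add_finrank_ker
    ((Ideal.Quotient.mkₐ F I).toLinearMap.domRestrict (PW F wt t))
  have h2 := LinearMap.finrank_range_add_finrank_ker
    ((Ideal.Quotient.mkₐ F J).toLinearMap.domRestrict (PW F wt t))
  rw [LinearMap.range_domRestrict] at h1 h2
  have h3 : Module.finrank F (LinearMap.ker ((Ideal.Quotient.mkₐ F I).toLinearMap.domRestrict (PW F wt t))) ≤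
      Module.finrank F (LinearMap.ker ((Ideal.Quotient.mkₐ F J).toLinearMap.domRestrict (PW F wt t))) := by
    refine Submodule.finrank_mono fun f hf => ?_
    rw [LinearMap.mem_ker] at hf ⊢
    have h4 : Ideal.Quotient.mk I (f : MvPolynomial (Fin n) F) = 0 := hf
    have h5 : Ideal.Quotient.mk J (f : MvPolynomial (Fin n) F) = 0 :=
      Ideal.Quotient.eq_zero_iff_mem.2 (h _ f.2 (Ideal.Quotient.eq_zero_iff_mem.1 h4))
    exact h5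
  unfold hil lev
  omega

theorem hil_mono (hwt : ∀ i, 1 ≤ wt i) (I : Ideal (MvPolynomial (Fin n) F)) {t t' : ℕ} (h : t ≤ t') :
    hil wt I t ≤ hil wt I t' := by
  have := levFinite (F := F) hwt I t'
  unfold hil
  exact Submodule.finrank_mono (Submodule.map_mono (PW_mono h))

theorem one_mem_PW (t : ℕ) : (1 : MvPolynomial (Fin n) F) ∈ PW F wt t := by
  rw [mem_PW]
  intro m hm
  have h1 : m ∈ ({0} : Finset (Fin n →₀ ℕ)) := by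
    have h2 : (1 : MvPolynomial (Fin n) F) = monomial 0 1 := rfl
    rw [h2] at hm
    exact MvPolynomial.support_monomial_subset hm
  rw [Finset.mem_singleton] at h1
  rw [h1]
  simp [wd]

theorem hil_pos (hwt : ∀ i, 1 ≤ wt i) {I : Ideal (MvPolynomial (Fin n) F)} (hI : I.IsPrime) (t : ℕ) :
    1 ≤ hil wt I t := by
  have := levFinite (F := F) hwt I t
  unfold hil
  rw [Nat.one_le_iff_ne_zero]
  intro h
  rw [Submodule.finrank_eq_zero] at h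
  have h1 : (Ideal.Quotient.mk I 1) ∈ lev wt I t := Submodule.mem_map_of_mem (one_mem_PW t)
  rw [h, Submodule.mem_bot, Ideal.Quotient.eq_zero_iff_mem] at h1
  exact hI.ne_top ((Ideal.eq_top_iff_one I).2 h1)

theorem finrank_le_hil_bot (hwt : ∀ i, 1 ≤ wt i) (t : ℕ) :
    Module.finrank F (PW F wt t) ≤ hil wt (⊥ : Ideal (MvPolynomial (Fin n) F)) t := by
  have := PW_finite (F := F) hwt t
  have h2 := LinearMap.finrank_range_add_finrank_ker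
    ((Ideal.Quotient.mkₐ F (⊥ : Ideal (MvPolynomial (Fin n) F))).toLinearMap.domRestrict (PW F wt t))
  rw [LinearMap.range_domRestrict] at h2
  have h3 : LinearMap.ker ((Ideal.Quotient.mkₐ F (⊥ : Ideal (MvPolynomial (Fin n) F))).toLinearMap.domRestrict
      (PW F wt t)) = ⊥ := by
    rw [LinearMap.ker_eq_bot']
    intro f hf
    have h4 : Ideal.Quotient.mk (⊥ : Ideal (MvPolynomial (Fin n) F)) (f : MvPolynomial (Fin n) F) = 0 := hf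
    have h5 := Ideal.Quotient.eq_zero_iff_mem.1 h4
    rw [Ideal.mem_bot] at h5
    exact Subtype.ext h5
  rw [h3, finrank_bot, add_zero] at h2
  unfold hil lev
  exact h2.ge

theorem dim_lt {P Q : Ideal (MvPolynomial (Fin n) F)} (hP : P.IsPrime) (hQ : Q.IsPrime) (h : P ≤ Q)
    (hne : P ≠ Q) : dimQ Q < dimQ P := by
  obtain ⟨f, hfQ, hfP⟩ : ∃ f, f ∈ Q ∧ f ∉ P := by
    by_contra hcon
    push Not at hcon
    exact hne (le_antisymm h hcon)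
  obtain ⟨q, hq, hqQ⟩ := Ideal.exists_minimalPrimes_le (I := P ⊔ Ideal.span {f}) (J := Q)
    (sup_le h ((Ideal.span_singleton_le_iff_mem _).2 hfQ))
  have h1 := libDIM F n P q f hP hfP hq
  have h2 := libMONO F n q Q hq.1.1 hQ hqQ
  omega

end Basic

/-- the situation of the lemma -/
structure Sit (F : Type) [Field F] {n : ℕ} (wt : Fin n → ℕ) (s d : ℕ) (ι : Type)
    (r : ι → Ideal (MvPolynomial (Fin n) F)) : Prop where
  wt1 : ∀ i, 1 ≤ wt i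
  pr : ∀ l, (r l).IsPrime ∧ dimQ (r l) = d
  sm : ∀ l l', ∀ f ∈ PW F wt s, f ∈ r l → f ∈ r l'

/-- the invariant of the induction -/
def State (F : Type) [Field F] {n : ℕ} (wt : Fin n → ℕ) (s : ℕ) (ι : Type) [Fintype ι]
    (r : ι → Ideal (MvPolynomial (Fin n) F)) (δ Ck ck : ℕ) : Prop :=
  ∃ (Q : Ideal (MvPolynomial (Fin n) F)) (t₀ : ℕ) (Λ : Finset ι), Q.IsPrime ∧ dimQ Q = δ ∧ 1 ≤ t₀ ∧ t₀ ≤ s ∧
    Λ.Nonempty ∧ (∀ l ∈ Λ, Q ≤ r l) ∧ Fintype.card ι ≤ Ck * Λ.card ∧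
    (∀ l, (t₀ : ℝ≥0∞) ^ δ * Deg wt δ Q ≤ (ck : ℝ≥0∞) * (hil wt (r l) t₀ : ℝ≥0∞)) ∧
    (∀ t < t₀, ∀ l, ∀ f ∈ PW F wt t, f ∈ r l → f ∈ Q) ∧ ∀ j, wt j ≤ t₀

/-- the conclusion -/
def Concl (F : Type) [Field F] {n : ℕ} (wt : Fin n → ℕ) (s d : ℕ) (ι : Type) [Fintype ι]
    (r : ι → Ideal (MvPolynomial (Fin n) F)) (C : ℕ) : Prop :=
  ∀ M, 0 < M → C * M ≤ Fintype.card ι →
  ∃ (Q : Ideal (MvPolynomial (Fin n) F)) (T : Finset ι), Q.IsPrime ∧ M ≤ T.card ∧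
    (∀ l ∈ T, Q ≤ r l) ∧
    ((∀ l ∈ T, r l = Q) ∨ (d < dimQ Q ∧ ∀ l, ∀ f ∈ PW F wt s, f ∈ r l → f ∈ Q))

theorem concl_mono {F : Type} [Field F] {n : ℕ} {wt : Fin n → ℕ} {s d : ℕ} {ι : Type} [Fintype ι]
    {r : ι → Ideal (MvPolynomial (Fin n) F)} {C C' : ℕ} (h : C ≤ C') (hc : Concl F wt s d ι r C) :
    Concl F wt s d ι r C' :=
  fun M hM hCM => hc M hM ((Nat.mul_le_mul_right M h).trans hCM)

theorem size_ok {ι : Type} [Fintype ι] {Ck M : ℕ} {Λ : Finset ι} (h1 : Λ.Nonempty)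
    (h2 : Fintype.card ι ≤ Ck * Λ.card) (h3 : Ck * M ≤ Fintype.card ι) : M ≤ Λ.card := by
  have h4 : 0 < Ck := by
    rcases Nat.eq_zero_or_pos Ck with h | h
    · rw [h, zero_mul] at h2
      obtain ⟨l, _⟩ := h1
      have : 0 < Fintype.card ι := Fintype.card_pos_iff.2 ⟨l⟩
      omega
    · exact h
  exact Nat.le_of_mul_le_mul_left (h3.trans h2) h4

theorem step (h1 : S_GL) (h2 : S_GLD) (δ Ck ck : ℕ) : ∃ Ck' ck' : ℕ, ∀ (F : Type) [Field F] [CharZero F]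
    (n : ℕ) (wt : Fin n → ℕ) (s d : ℕ) (ι : Type) [Fintype ι] (r : ι → Ideal (MvPolynomial (Fin n) F)),
    Sit F wt s d ι r → State F wt s ι r (δ + 1) Ck ck → Concl F wt s d ι r Ck ∨ State F wt s ι r δ Ck' ck' := by
  classical
  obtain ⟨CG, hCG, hG⟩ := h1 (δ + 1)
  obtain ⟨CD1, hCD1, hD1⟩ := h2 (δ + 1)
  obtain ⟨CD, hCD, hD⟩ := h2 δ
  obtain ⟨c, hc⟩ : ∃ c : ℕ, c = 2 ^ (δ + 1) * ck * CG := ⟨_, rfl⟩
  refine ⟨Ck * (c * CD), c, ?_⟩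
  intro F _ _ n wt s d ι _ r hS hSt
  obtain ⟨Q, t₀, Λ, hQp, hQd, ht₀, ht₀s, hΛ, hΛr, hcard, hI2, hI3, hwt⟩ := hSt
  obtain ⟨l₁, hl₁⟩ := hΛ
  have hdle : d ≤ δ + 1 := by
    rw [← hQd, ← (hS.pr l₁).2]
    exact libMONO F n Q (r l₁) hQp (hS.pr l₁).1 (hΛr l₁ hl₁)
  rcases hdle.eq_or_lt with hd | hd
  · left
    intro M hM hCM
    refine ⟨Q, Λ, hQp, size_ok ⟨l₁, hl₁⟩ hcard hCM, hΛr, Or.inl fun l hl => ?_⟩
    by_contra hne
    have := dim_lt hQp (hS.pr l).1 (hΛr l hl) (fun h => hne h.symm)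
    rw [(hS.pr l).2, hQd] at this
    omega
  by_cases hall : ∀ l, ∀ f ∈ PW F wt s, f ∈ r l → f ∈ Q
  · left
    intro M hM hCM
    exact ⟨Q, Λ, hQp, size_ok ⟨l₁, hl₁⟩ hcard hCM, hΛr, Or.inr ⟨by rw [hQd]; exact hd, hall⟩⟩
  right
  have hex : ∃ t, ∃ l, ∃ f ∈ PW F wt t, f ∈ r l ∧ f ∉ Q := by
    push Not at hall
    obtain ⟨l, f, hf1, hf2, hf3⟩ := hall
    exact ⟨s, l, f, hf1, hf2, hf3⟩
  obtain ⟨t, ht⟩ : ∃ t, t = Nat.find hex := ⟨_, rfl⟩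
  have hts : t ≤ s := by
    push Not at hall
    obtain ⟨l, f, hf1, hf2, hf3⟩ := hall
    rw [ht]
    exact Nat.find_min' hex ⟨l, f, hf1, hf2, hf3⟩
  obtain ⟨l₀, f, hf1, hf2, hf3⟩ := Nat.find_spec hex
  rw [← ht] at hf1
  have hmin : ∀ t' < t, ∀ l, ∀ f ∈ PW F wt t', f ∈ r l → f ∈ Q := by
    intro t' ht' l g hg1 hg2
    by_contra hg3
    rw [ht] at ht'
    exact Nat.find_min hex ht' ⟨l, g, hg1, hg2, hg3⟩
  have ht0t : t₀ ≤ t := by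
    by_contra hlt
    push Not at hlt
    exact hf3 (hI3 t hlt l₀ f hf1 hf2)
  have ht1 : 1 ≤ t := ht₀.trans ht0t
  have hfr : ∀ l, f ∈ r l := fun l => hS.sm l₀ l f (PW_mono hts hf1) hf2
  -- all the Hilbert functions agree up to `s`
  have hsame : ∀ l l', hil wt (r l) t ≤ hil wt (r l') t := fun l l' =>
    hil_le hS.wt1 fun g hg1 hg2 => hS.sm l' l g (PW_mono hts hg1) hg2
  have hckc : ck ≤ c := by
    rw [hc, mul_assoc]
    calc ck ≤ ck * CG := Nat.le_mul_of_pos_right _ hCG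
      _ ≤ 2 ^ (δ + 1) * (ck * CG) := Nat.le_mul_of_pos_left _ (by positivity)
  have ht0e : (t₀ : ℝ≥0∞) ^ (δ + 1) ≠ 0 := pow_ne_zero _ (by exact_mod_cast (by omega : t₀ ≠ 0))
  have ht0t' : (t₀ : ℝ≥0∞) ^ (δ + 1) ≠ ⊤ := ENNReal.pow_ne_top (ENNReal.natCast_ne_top _)
  have hcl1 : (t : ℝ≥0∞) ^ (δ + 1) * Deg wt (δ + 1) Q ≤ (c : ℝ≥0∞) * (hil wt (r l₁) t : ℝ≥0∞) := by
    rcases ht0t.eq_or_lt with heq | hlt
    · rw [← heq]
      refine (hI2 l₁).trans ?_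
      gcongr
    · have e1 := hG F n wt Q t₀ (t - 1) hS.wt1 hQp hQd ht₀ hwt (by omega)
      have e2 : hil wt (r l₁) t₀ ≤ hil wt Q t₀ := hil_le hS.wt1 fun g _ hg => hΛr l₁ hl₁ hg
      have e3 : hil wt Q (t - 1) ≤ hil wt (r l₁) t :=
        (hil_le hS.wt1 fun g hg1 hg2 => hmin (t - 1) (by omega) l₁ g hg1 hg2).trans
          (hil_mono hS.wt1 _ (by omega))
      have e4 : (t - 1) ^ (δ + 1) * hil wt (r l₁) t₀ ≤ CG * t₀ ^ (δ + 1) * hil wt (r l₁) t :=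
        (Nat.mul_le_mul_left _ e2).trans (e1.trans (Nat.mul_le_mul_left _ e3))
      have e5 : (((t - 1 : ℕ) : ℝ≥0∞)) ^ (δ + 1) * (hil wt (r l₁) t₀ : ℝ≥0∞) ≤
          (CG : ℝ≥0∞) * (t₀ : ℝ≥0∞) ^ (δ + 1) * (hil wt (r l₁) t : ℝ≥0∞) := by exact_mod_cast e4
      have e6 : (t : ℝ≥0∞) ^ (δ + 1) ≤ 2 ^ (δ + 1) * (((t - 1 : ℕ) : ℝ≥0∞)) ^ (δ + 1) := by
        rw [← mul_pow]
        have : t ≤ 2 * (t - 1) := by omega
        have h : (t : ℝ≥0∞) ≤ 2 * ((t - 1 : ℕ) : ℝ≥0∞) := by exact_mod_cast this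
        gcongr
      have e7 : (t₀ : ℝ≥0∞) ^ (δ + 1) * ((((t - 1 : ℕ) : ℝ≥0∞)) ^ (δ + 1) * Deg wt (δ + 1) Q) ≤
          (t₀ : ℝ≥0∞) ^ (δ + 1) * ((ck : ℝ≥0∞) * (CG : ℝ≥0∞) * (hil wt (r l₁) t : ℝ≥0∞)) := by
        calc (t₀ : ℝ≥0∞) ^ (δ + 1) * ((((t - 1 : ℕ) : ℝ≥0∞)) ^ (δ + 1) * Deg wt (δ + 1) Q)
            = (((t - 1 : ℕ) : ℝ≥0∞)) ^ (δ + 1) * ((t₀ : ℝ≥0∞) ^ (δ + 1) * Deg wt (δ + 1) Q) := by ring
          _ ≤ (((t - 1 : ℕ) : ℝ≥0∞)) ^ (δ + 1) * ((ck : ℝ≥0∞) * (hil wt (r l₁) t₀ : ℝ≥0∞)) := by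
              exact mul_le_mul' le_rfl (hI2 l₁)
          _ = (ck : ℝ≥0∞) * ((((t - 1 : ℕ) : ℝ≥0∞)) ^ (δ + 1) * (hil wt (r l₁) t₀ : ℝ≥0∞)) := by ring
          _ ≤ (ck : ℝ≥0∞) * ((CG : ℝ≥0∞) * (t₀ : ℝ≥0∞) ^ (δ + 1) * (hil wt (r l₁) t : ℝ≥0∞)) := by
              gcongr
          _ = _ := by ring
      have e8 := (ENNReal.mul_le_mul_iff_right ht0e ht0t').1 e7
      calc (t : ℝ≥0∞) ^ (δ + 1) * Deg wt (δ + 1) Q
          ≤ 2 ^ (δ + 1) * (((t - 1 : ℕ) : ℝ≥0∞)) ^ (δ + 1) * Deg wt (δ + 1) Q := by gcongr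
        _ = 2 ^ (δ + 1) * ((((t - 1 : ℕ) : ℝ≥0∞)) ^ (δ + 1) * Deg wt (δ + 1) Q) := by ring
        _ ≤ 2 ^ (δ + 1) * ((ck : ℝ≥0∞) * (CG : ℝ≥0∞) * (hil wt (r l₁) t : ℝ≥0∞)) := by gcongr
        _ = (c : ℝ≥0∞) * (hil wt (r l₁) t : ℝ≥0∞) := by
            rw [hc]; push_cast; ring
  have hcl : ∀ l, (t : ℝ≥0∞) ^ (δ + 1) * Deg wt (δ + 1) Q ≤ (c : ℝ≥0∞) * (hil wt (r l) t : ℝ≥0∞) := by
    intro l
    refine hcl1.trans ?_
    have : (hil wt (r l₁) t : ℝ≥0∞) ≤ (hil wt (r l) t : ℝ≥0∞) := by exact_mod_cast hsame l₁ l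
    gcongr
  -- the components
  have hmp : ∀ l, l ∈ Λ → ∃ q ∈ (Q ⊔ Ideal.span {f}).minimalPrimes, q ≤ r l := by
    intro l hl
    have := (hS.pr l).1
    exact Ideal.exists_minimalPrimes_le (sup_le (hΛr l hl) ((Ideal.span_singleton_le_iff_mem _).2 (hfr l)))
  choose! q hq1 hq2 using hmp
  have hqdim : ∀ l ∈ Λ, dimQ (q l) = δ := by
    intro l hl
    have := libDIM F n Q (q l) f hQp hf3 (hq1 l hl)
    omega
  have hte : (t : ℝ≥0∞) ^ δ ≠ 0 := pow_ne_zero _ (by exact_mod_cast (by omega : t ≠ 0))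
  have htt : (t : ℝ≥0∞) ^ δ ≠ ⊤ := ENNReal.pow_ne_top (ENNReal.natCast_ne_top _)
  obtain ⟨X, hX⟩ : ∃ X : ℝ≥0∞, X = (t : ℝ≥0∞) * Deg wt (δ + 1) Q := ⟨_, rfl⟩
  have hlow : ∀ l ∈ Λ, X ≤ ((c * CD : ℕ) : ℝ≥0∞) * Deg wt δ (q l) := by
    intro l hl
    have e1 := hD F n wt (q l) t hS.wt1 (hq1 l hl).1.1 (hqdim l hl) ht1 (fun i => (hwt i).trans ht0t)
    have e2 : (hil wt (r l) t : ℝ≥0∞) ≤ (hil wt (q l) t : ℝ≥0∞) := by
      exact_mod_cast hil_le hS.wt1 fun g _ hg => hq2 l hl hg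
    have e3 : (t : ℝ≥0∞) ^ δ * X ≤ (t : ℝ≥0∞) ^ δ * (((c * CD : ℕ) : ℝ≥0∞) * Deg wt δ (q l)) := by
      calc (t : ℝ≥0∞) ^ δ * X = (t : ℝ≥0∞) ^ (δ + 1) * Deg wt (δ + 1) Q := by rw [hX]; ring
        _ ≤ (c : ℝ≥0∞) * (hil wt (r l) t : ℝ≥0∞) := hcl l
        _ ≤ (c : ℝ≥0∞) * (hil wt (q l) t : ℝ≥0∞) := by gcongr
        _ ≤ (c : ℝ≥0∞) * ((CD : ℝ≥0∞) * (t : ℝ≥0∞) ^ δ * Deg wt δ (q l)) := by gcongr
        _ = _ := by push_cast; ring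
    exact (ENNReal.mul_le_mul_iff_right hte htt).1 e3
  have hDeg0 : Deg wt (δ + 1) Q ≠ 0 := by
    intro h0
    have e1 := hD1 F n wt Q t₀ hS.wt1 hQp hQd ht₀ hwt
    rw [h0, mul_zero, nonpos_iff_eq_zero] at e1
    have e2 := hil_pos hS.wt1 hQp t₀
    have e3 : hil wt Q t₀ = 0 := by exact_mod_cast e1
    omega
  have hDegt : Deg wt (δ + 1) Q ≠ ⊤ := by
    intro h0
    have e1 := hI2 l₁
    rw [h0, ENNReal.mul_top ht0e, top_le_iff] at e1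
    exact ENNReal.mul_ne_top (ENNReal.natCast_ne_top _) (ENNReal.natCast_ne_top _) e1
  have hX0 : X ≠ 0 := by
    rw [hX]
    exact mul_ne_zero (by exact_mod_cast (by omega : t ≠ 0)) hDeg0
  have hXt : X ≠ ⊤ := by
    rw [hX]
    exact ENNReal.mul_ne_top (ENNReal.natCast_ne_top _) hDegt
  obtain ⟨QQ, hQQ⟩ : ∃ QQ : Finset (Ideal (MvPolynomial (Fin n) F)), QQ = Λ.image q := ⟨_, rfl⟩
  have hQQm : ∀ y ∈ QQ, y ∈ (Q ⊔ Ideal.span {f}).minimalPrimes := by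
    intro y hy
    rw [hQQ] at hy
    obtain ⟨l, hl, rfl⟩ := Finset.mem_image.1 hy
    exact hq1 l hl
  have hbez : ∑ y ∈ QQ, Deg wt δ y ≤ X := by
    rw [hX]
    refine libBEZ F n wt hS.wt1 δ t Q f QQ hQp hf3 hf1 ht1 (fun y hy => ?_) fun y hy y' hy' hle => ?_
    · have h := hQQm y hy
      exact ⟨h.1.1, le_sup_left.trans h.1.2,
        h.1.2 (Ideal.mem_sup_right (Ideal.mem_span_singleton_self f))⟩
    · exact le_antisymm hle ((hQQm y' hy').2 (hQQm y hy).1 hle)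
  have hQQc : QQ.card ≤ c * CD := by
    have e1 : (QQ.card : ℝ≥0∞) * X ≤ ((c * CD : ℕ) : ℝ≥0∞) * X := by
      calc (QQ.card : ℝ≥0∞) * X = ∑ y ∈ QQ, X := by rw [Finset.sum_const, nsmul_eq_mul]
        _ ≤ ∑ y ∈ QQ, ((c * CD : ℕ) : ℝ≥0∞) * Deg wt δ y := by
            refine Finset.sum_le_sum fun y hy => ?_
            rw [hQQ] at hy
            obtain ⟨l, hl, rfl⟩ := Finset.mem_image.1 hy
            exact hlow l hl
        _ = ((c * CD : ℕ) : ℝ≥0∞) * ∑ y ∈ QQ, Deg wt δ y := by rw [Finset.mul_sum]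
        _ ≤ ((c * CD : ℕ) : ℝ≥0∞) * X := by gcongr
    rw [mul_comm, mul_comm _ X] at e1
    have e2 := (ENNReal.mul_le_mul_iff_right hX0 hXt).1 e1
    exact_mod_cast e2
  have hQQn : QQ.Nonempty := by rw [hQQ]; exact ⟨q l₁, Finset.mem_image_of_mem q hl₁⟩
  obtain ⟨y, hy, hymax⟩ := Finset.exists_max_image QQ (fun y => (Λ.filter fun l => q l = y).card) hQQn
  have hΛc : Λ.card ≤ QQ.card * (Λ.filter fun l => q l = y).card := by
    have e1 := Finset.card_eq_sum_card_fiberwise (f := q) (s := Λ) (t := QQ)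
      (fun l hl => by rw [hQQ]; exact Finset.mem_coe.2 (Finset.mem_image_of_mem q hl))
    rw [e1]
    calc _ ≤ ∑ _b ∈ QQ, (Λ.filter fun l => q l = y).card := Finset.sum_le_sum fun b hb => hymax b hb
      _ = _ := by rw [Finset.sum_const, smul_eq_mul]
  refine ⟨y, t, Λ.filter fun l => q l = y, (hQQm y hy).1.1, ?_, ht1, hts, ?_, ?_, ?_, ?_, ?_, ?_⟩
  · have := libDIM F n Q y f hQp hf3 (hQQm y hy)
    omega
  · rw [hQQ] at hy
    obtain ⟨l, hl, hly⟩ := Finset.mem_image.1 hy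
    exact ⟨l, Finset.mem_filter.2 ⟨hl, hly⟩⟩
  · intro l hl
    obtain ⟨hl1, hl2⟩ := Finset.mem_filter.1 hl
    rw [← hl2]
    exact hq2 l hl1
  · calc Fintype.card ι ≤ Ck * Λ.card := hcard
      _ ≤ Ck * (QQ.card * (Λ.filter fun l => q l = y).card) := Nat.mul_le_mul_left _ hΛc
      _ ≤ Ck * ((c * CD) * (Λ.filter fun l => q l = y).card) :=
          Nat.mul_le_mul_left _ (Nat.mul_le_mul_right _ hQQc)
      _ = _ := by ring
  · intro l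
    have e1 : Deg wt δ y ≤ X :=
      (Finset.single_le_sum (f := fun y => Deg wt δ y) (fun _ _ => zero_le) hy).trans hbez
    calc (t : ℝ≥0∞) ^ δ * Deg wt δ y ≤ (t : ℝ≥0∞) ^ δ * X := by gcongr
      _ = (t : ℝ≥0∞) ^ (δ + 1) * Deg wt (δ + 1) Q := by rw [hX]; ring
      _ ≤ _ := hcl l
  · intro t' ht' l g hg1 hg2
    exact (le_sup_left.trans (hQQm y hy).1.2) (hmin t' ht' l g hg1 hg2)
  · exact fun j => (hwt j).trans ht0t

theorem claim (h1 : S_GL) (h2 : S_GLD) : ∀ δ Ck ck : ℕ, ∃ C : ℕ, ∀ (F : Type) [Field F] [CharZero F]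
    (n : ℕ) (wt : Fin n → ℕ) (s d : ℕ) (ι : Type) [Fintype ι] (r : ι → Ideal (MvPolynomial (Fin n) F)),
    Sit F wt s d ι r → State F wt s ι r δ Ck ck → Concl F wt s d ι r C := by
  intro δ
  induction δ with
  | zero =>
    intro Ck ck
    refine ⟨Ck, ?_⟩
    intro F _ _ n wt s d ι _ r hS hSt
    obtain ⟨Q, t₀, Λ, hQp, hQd, ht₀, ht₀s, hΛ, hΛr, hcard, hI2, hI3, hwt⟩ := hSt
    intro M hM hCM
    refine ⟨Q, Λ, hQp, size_ok hΛ hcard hCM, hΛr, Or.inl fun l hl => ?_⟩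
    by_contra hne
    have := dim_lt hQp (hS.pr l).1 (hΛr l hl) (fun h => hne h.symm)
    omega
  | succ δ ih =>
    intro Ck ck
    obtain ⟨Ck', ck', hstep⟩ := step h1 h2 δ Ck ck
    obtain ⟨C, hC⟩ := ih Ck' ck'
    refine ⟨max Ck C, ?_⟩
    intro F _ _ n wt s d ι _ r hS hSt
    rcases hstep F n wt s d ι r hS hSt with h | h
    · exact concl_mono (le_max_left _ _) h
    · exact concl_mono (le_max_right _ _) (hC F n wt s d ι r hS h)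

end Pool.Agent.H54.AM.Chn

namespace Pool.Agent.H54.AM

open MvPolynomial
open scoped ENNReal
open Pool.Agent.N684.BK
open Pool.Agent.N769.BK.MULSUM (PW_finite PW_mono mem_PW levFinite)
open Pool.Agent.H54.AM.Chn

theorem chn (h1 : S_GL) (h2 : S_GLD) (h3 : S_CNT) : S_CHN := by
  classical
  intro n d
  obtain ⟨C, hC⟩ := claim h1 h2 n 1 (n ^ n)
  refine ⟨C + 1, Nat.succ_pos _, ?_⟩
  intro F _ _ wt s ι _ r M hwt hr hsm hex hdeg hM hCM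
  have hS : Sit F wt s d ι r := ⟨hwt, hr, hsm⟩
  obtain ⟨f₀, hf1, hf2, hf3⟩ := hex
  have hι : 0 < Fintype.card ι := lt_of_lt_of_le (Nat.mul_pos (Nat.succ_pos _) hM) hCM
  obtain ⟨l₀⟩ := Fintype.card_pos_iff.1 hι
  have hn : 0 < n := by
    rcases Nat.eq_zero_or_pos n with h0 | h0
    · subst h0
      exfalso
      have h4 := MvPolynomial.eq_C_of_isEmpty f₀
      have h5 : coeff 0 f₀ ≠ 0 := by
        intro h
        rw [h, C_0] at h4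
        exact hf2 h4
      have h6 := hf3 l₀
      rw [h4] at h6
      exact (hr l₀).1.ne_top (Ideal.eq_top_of_isUnit_mem _ h6 ((isUnit_iff_ne_zero.2 h5).map MvPolynomial.C))
    · exact h0
  obtain ⟨t₀, ht₀⟩ : ∃ t₀ : ℕ, t₀ = Finset.univ.sup wt := ⟨_, rfl⟩
  have hwt₀ : ∀ j, wt j ≤ t₀ := fun j => by rw [ht₀]; exact Finset.le_sup (Finset.mem_univ j)
  have ht1 : 1 ≤ t₀ := (hwt ⟨0, hn⟩).trans (hwt₀ _)
  have hts : t₀ ≤ s := by
    rw [ht₀]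
    exact Finset.sup_le fun i _ => hdeg s le_rfl f₀ hf1 hf2 hf3 i
  have hI3 : ∀ t < t₀, ∀ l, ∀ f ∈ PW F wt t, f ∈ r l → f ∈ (⊥ : Ideal (MvPolynomial (Fin n) F)) := by
    intro t ht l f hf hfr
    rw [Ideal.mem_bot]
    by_contra hne
    have h4 := hdeg t (by omega) f hf hne (fun l' => hsm l l' f (PW_mono (by omega) hf) hfr)
    have h5 : t₀ ≤ t := by
      rw [ht₀]
      exact Finset.sup_le fun i _ => h4 i
    omega
  obtain ⟨hdim, htop⟩ := libTOP F n wt hwt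
  have hSt : State F wt s ι r n 1 (n ^ n) := by
    refine ⟨⊥, t₀, Finset.univ, Ideal.isPrime_bot, hdim, ht1, hts, ⟨l₀, Finset.mem_univ _⟩,
      fun l _ => bot_le, ?_, ?_, hI3, hwt₀⟩
    · rw [one_mul, Finset.card_univ]
    · intro l
      have e1 := h3 F n wt (t₀ - 1) hwt
      have e2 : t₀ - 1 + 1 = t₀ := by omega
      rw [e2] at e1
      have e3 : Module.finrank F (PW F wt (t₀ - 1)) ≤ hil wt (r l) t₀ :=
        (finrank_le_hil_bot hwt _).trans ((hil_le hwt fun g hg1 hg2 => hI3 (t₀ - 1) (by omega) l g hg1 hg2).trans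
          (hil_mono hwt _ (by omega)))
      have e4 : (t₀ : ℝ≥0∞) ^ n ≤ (n : ℝ≥0∞) ^ n * (∏ i, (wt i : ℝ≥0∞)) *
          (Module.finrank F (PW F wt (t₀ - 1)) : ℝ≥0∞) := by exact_mod_cast e1
      have e5 : (Module.finrank F (PW F wt (t₀ - 1)) : ℝ≥0∞) ≤ (hil wt (r l) t₀ : ℝ≥0∞) := by exact_mod_cast e3
      calc (t₀ : ℝ≥0∞) ^ n * Deg wt n (⊥ : Ideal (MvPolynomial (Fin n) F))
          ≤ ((n : ℝ≥0∞) ^ n * (∏ i, (wt i : ℝ≥0∞)) * (Module.finrank F (PW F wt (t₀ - 1)) : ℝ≥0∞)) *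
            Deg wt n (⊥ : Ideal (MvPolynomial (Fin n) F)) := by gcongr
        _ = (n : ℝ≥0∞) ^ n * (Module.finrank F (PW F wt (t₀ - 1)) : ℝ≥0∞) *
            (Deg wt n (⊥ : Ideal (MvPolynomial (Fin n) F)) * ∏ i, (wt i : ℝ≥0∞)) := by ring
        _ ≤ (n : ℝ≥0∞) ^ n * (Module.finrank F (PW F wt (t₀ - 1)) : ℝ≥0∞) * 1 := by gcongr
        _ ≤ ((n ^ n : ℕ) : ℝ≥0∞) * (hil wt (r l) t₀ : ℝ≥0∞) := by
            rw [mul_one]; push_cast; gcongr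
  exact hC F n wt s d ι r hS hSt M hM ((Nat.mul_le_mul_right M (Nat.le_succ C)).trans hCM)

end Pool.Agent.H54.AM
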