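import Pool.Agent.H54.AM.Defs

set_option autoImplicit false

/-! # Project AM, stub CNT -/

namespace Pool.Agent.H54.AM

open MvPolynomial
open Pool.Agent.N684.BK (wd PW)

theorem cnt : S_CNT := by
  classical
  intro F _ n wt K hwt
  have hfin : Finite {m : Fin n →₀ ℕ | wd wt m ≤ K} := by
    refine ((Set.finite_Iic (Finsupp.equivFunOnFinite.symm fun _ : Fin n => K)).subset fun m hm => ?_).to_subtype
    rw [Set.mem_Iic, Finsupp.le_def]
    intro i
    have h1 : wt i * m i ≤ ∑ l, wt l * m l :=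
      Finset.single_le_sum (f := fun l => wt l * m l) (fun _ _ => Nat.zero_le _) (Finset.mem_univ i)
    have h2 : m i ≤ wt i * m i := Nat.le_mul_of_pos_left _ (hwt i)
    exact (h2.trans h1).trans hm
  have hrank : Module.finrank F (PW F wt K) = Nat.card {m : Fin n →₀ ℕ | wd wt m ≤ K} :=
    Module.finrank_eq_nat_card_basis (basisRestrictSupport F {m : Fin n →₀ ℕ | wd wt m ≤ K})
  have hcard : ∏ i, (K / (n * wt i) + 1) ≤ Nat.card {m : Fin n →₀ ℕ | wd wt m ≤ K} := by
    have e : Nat.card (∀ i : Fin n, Fin (K / (n * wt i) + 1)) = ∏ i, (K / (n * wt i) + 1) := by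
      rw [Nat.card_eq_fintype_card, Fintype.card_pi]
      simp only [Fintype.card_fin]
    rw [← e]
    refine Nat.card_le_card_of_injective
      (fun f => ⟨Finsupp.equivFunOnFinite.symm fun i => (f i : ℕ), ?_⟩) ?_
    · show ∑ i, wt i * (f i : ℕ) ≤ K
      have h1 : ∀ i : Fin n, wt i * (f i : ℕ) ≤ K / n := by
        intro i
        have h2 : (f i : ℕ) ≤ K / n / wt i := by
          rw [Nat.div_div_eq_div_mul]
          exact Nat.lt_succ_iff.1 (f i).2
        exact (Nat.mul_le_mul_left _ h2).trans (Nat.mul_div_le _ _)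
      have h3 : ∑ i, wt i * (f i : ℕ) ≤ ∑ _i : Fin n, K / n := Finset.sum_le_sum fun i _ => h1 i
      rw [Finset.sum_const, Finset.card_univ, Fintype.card_fin, smul_eq_mul] at h3
      exact h3.trans (Nat.mul_div_le _ _)
    · intro f g hfg
      have h1 := Subtype.ext_iff.1 hfg
      have h2 := Finsupp.equivFunOnFinite.symm.injective h1
      funext i
      exact Fin.ext (congrFun h2 i)
  rw [hrank]
  refine le_trans ?_ (Nat.mul_le_mul_left _ hcard)
  have h1 : (K + 1) ^ n = ∏ _i : Fin n, (K + 1) := by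
    rw [Finset.prod_const, Finset.card_univ, Fintype.card_fin]
  have h2 : n ^ n * (∏ i, wt i) * ∏ i, (K / (n * wt i) + 1) = ∏ i : Fin n, (n * wt i * (K / (n * wt i) + 1)) := by
    rw [Finset.prod_mul_distrib, Finset.prod_mul_distrib, Finset.prod_const, Finset.card_univ,
      Fintype.card_fin]
  rw [h1, h2]
  refine Finset.prod_le_prod' fun i _ => ?_
  have hn : 0 < n := Fin.pos i
  have h3 : 0 < n * wt i := Nat.mul_pos hn (hwt i)
  exact Nat.succ_le_of_lt (Nat.lt_mul_div_succ K h3)

end Pool.Agent.H54.AM
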