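import Mathlib
import Pool.Agent.H54.AM.Defs

set_option autoImplicit false

/-!
# The dimension of the inverse image under `phi` (S_DPH)
-/

namespace Pool.Agent.H54.AM

open MvPolynomial
open Pool.Agent.N684.BK (wd PW hil Deg dimQ)

theorem trdeg_semilinear {F S B : Type} [Field F] [CommRing S] [IsDomain S] [CommRing B]
    [IsDomain B] [Algebra F S] [Algebra F B] (τ : F →+* F) (hτ : Function.Bijective τ)
    (g : S →+* B) (hg : Function.Injective g) (hint : g.IsIntegral)
    (hc : (algebraMap F B).comp τ = g.comp (algebraMap F S)) :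
    Algebra.trdeg F S = Algebra.trdeg F B := by
  obtain ⟨ι, x, hx⟩ := exists_isTranscendenceBasis' F S
  have hbas : IsTranscendenceBasis F (g ∘ x) := by
    refine (hx.1.ringHom_of_comp_eq τ g hτ.2 hg hc).isTranscendenceBasis_iff_isAlgebraic.mpr ?_
    have halg : Algebra.IsAlgebraic (Algebra.adjoin F (Set.range x)) S := hx.isAlgebraic
    have hmem : ∀ s ∈ Algebra.adjoin F (Set.range x),
        g s ∈ Algebra.adjoin F (Set.range (g ∘ x)) := by
      intro s hs
      induction hs using Algebra.adjoin_induction with
      | mem s hs =>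
        obtain ⟨i, rfl⟩ := hs
        exact Algebra.subset_adjoin ⟨i, rfl⟩
      | algebraMap r =>
        have h1 : g (algebraMap F S r) = algebraMap F B (τ r) := by
          have := RingHom.congr_fun hc r
          exact this.symm
        rw [h1]
        exact Subalgebra.algebraMap_mem _ _
      | add a b _ _ ha hb => rw [map_add]; exact Subalgebra.add_mem _ ha hb
      | mul a b _ _ ha hb => rw [map_mul]; exact Subalgebra.mul_mem _ ha hb
    let h : Algebra.adjoin F (Set.range x) →+* Algebra.adjoin F (Set.range (g ∘ x)) :=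
      (g.comp ((Algebra.adjoin F (Set.range x)).val : _ →+* S)).codRestrict
        (Algebra.adjoin F (Set.range (g ∘ x))) (fun s => hmem s.1 s.2)
    let : Algebra S B := g.toAlgebra
    let : Algebra (Algebra.adjoin F (Set.range x)) (Algebra.adjoin F (Set.range (g ∘ x))) :=
      h.toAlgebra
    have : Algebra.IsIntegral S B := ⟨hint⟩
    have : Algebra.IsAlgebraic S B := inferInstance
    have : Algebra.IsAlgebraic (Algebra.adjoin F (Set.range x)) B :=
      Algebra.IsAlgebraic.trans _ S _
    have : IsScalarTower (Algebra.adjoin F (Set.range x))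
      (Algebra.adjoin F (Set.range (g ∘ x))) B := IsScalarTower.of_algebraMap_eq fun s => rfl
    refine Algebra.IsAlgebraic.extendScalars (R := Algebra.adjoin F (Set.range x)) ?_
    intro a b hab
    have h1 := congrArg Subtype.val hab
    exact Subtype.ext (hg h1)
  rw [← hx.cardinalMk_eq_trdeg, ← hbas.cardinalMk_eq_trdeg]

theorem dph : S_DPH := by
  intro F _ n τ q hτ hq I hI
  have hJ : (I.comap (phi n τ q)).IsPrime := Ideal.comap_isPrime _ _
  unfold Pool.Agent.N684.BK.dimQ
  congr 1
  have hphiC : ∀ a, phi n τ q (C a) = C (τ a) := fun a => by simp [phi]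
  have hphiX : ∀ i, phi n τ q (X i) = X i ^ q := fun i => by simp [phi]
  refine trdeg_semilinear τ hτ (Ideal.quotientMap I (phi n τ q) le_rfl)
    (Ideal.quotientMap_injective) ?_ ?_
  · intro b
    obtain ⟨f, rfl⟩ := Ideal.Quotient.mk_surjective b
    induction f using MvPolynomial.induction_on with
    | C a =>
      obtain ⟨c, rfl⟩ := hτ.2 a
      have h1 : Ideal.quotientMap I (phi n τ q) le_rfl (Ideal.Quotient.mk _ (C c)) =
          Ideal.Quotient.mk I (C (τ c)) := by
        rw [Ideal.quotientMap_mk, hphiC]
      rw [← h1]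
      exact RingHom.isIntegralElem_map _
    | add f g hf hg =>
      rw [map_add]
      exact hf.add _ hg
    | mul_X f i hf =>
      rw [map_mul]
      refine hf.mul _ ?_
      refine ⟨Polynomial.X ^ q - Polynomial.C (Ideal.Quotient.mk _ (X i)),
        Polynomial.monic_X_pow_sub_C _ (by omega), ?_⟩
      rw [Polynomial.eval₂_sub, Polynomial.eval₂_X_pow, Polynomial.eval₂_C,
        Ideal.quotientMap_mk, hphiX, map_pow, sub_self]
  · ext c
    have h1 : Ideal.quotientMap I (phi n τ q) le_rfl (Ideal.Quotient.mk _ (C c)) =
        Ideal.Quotient.mk I (C (τ c)) := by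
      rw [Ideal.quotientMap_mk, hphiC]
    exact h1.symm

end Pool.Agent.H54.AM
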