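import Mathlib
import Pool.Agent.H54.AM.LemN

set_option autoImplicit false
set_option linter.unusedVariables false

/-!
# Independent generators up to torsion
-/

namespace Pool.Agent.H54.AM

open Pool.Agent.W237.RK
open Pool.Agent.H58P (Qb ht)

/-- the elements with a power in the group generated by `g` -/
def Rad {r : ℕ} (g : Fin r → Qbˣ) (y : Qbˣ) : Prop :=
  ∃ (m : ℕ) (k : Fin r → ℤ), 0 < m ∧ y ^ m = ∏ i, g i ^ k i

lemma rad_one {r : ℕ} (g : Fin r → Qbˣ) : Rad g 1 := ⟨1, 0, one_pos, by simp⟩

lemma rad_mul {r : ℕ} {g : Fin r → Qbˣ} {x y : Qbˣ} (hx : Rad g x) (hy : Rad g y) :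
    Rad g (x * y) := by
  obtain ⟨m, k, hm, h1⟩ := hx
  obtain ⟨n, l, hn, h2⟩ := hy
  refine ⟨m * n, fun i => k i * n + l i * m, Nat.mul_pos hm hn, ?_⟩
  calc (x * y) ^ (m * n) = (x ^ m) ^ n * (y ^ n) ^ m := by
        rw [mul_pow, ← pow_mul, ← pow_mul, mul_comm n m]
    _ = ∏ i, g i ^ (k i * n + l i * m) := by
        rw [h1, h2, ← Finset.prod_pow, ← Finset.prod_pow, ← Finset.prod_mul_distrib]
        refine Finset.prod_congr rfl fun i _ => ?_
        rw [← zpow_natCast, ← zpow_natCast, ← zpow_mul, ← zpow_mul, ← zpow_add]

lemma rad_inv {r : ℕ} {g : Fin r → Qbˣ} {x : Qbˣ} (hx : Rad g x) : Rad g x⁻¹ := by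
  obtain ⟨m, k, hm, h1⟩ := hx
  refine ⟨m, fun i => -k i, hm, ?_⟩
  rw [inv_pow, h1, ← Finset.prod_inv_distrib]
  refine Finset.prod_congr rfl fun i _ => ?_
  rw [zpow_neg]

lemma exists_indep (S : Finset Qbˣ) : ∃ (r : ℕ) (g : Fin r → Qbˣ), (∀ i, g i ∈ S) ∧
    IndepN (fun i => (g i : Qb)) ∧ ∀ y ∈ S, Rad g y := by
  classical
  induction S using Finset.induction_on with
  | empty =>
    refine ⟨0, Fin.elim0, fun i => i.elim0, ?_, ?_⟩
    · intro a _
      funext i
      exact i.elim0
    · intro y hy
      exact absurd hy (Finset.notMem_empty _)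
  | insert s S hs ih =>
    obtain ⟨r, g, hgS, hgi, hgr⟩ := ih
    by_cases hind : IndepN (fun i : Fin (r + 1) => ((Fin.cons s g : Fin (r + 1) → Qbˣ) i : Qb))
    · refine ⟨r + 1, Fin.cons s g, ?_, hind, ?_⟩
      · intro i
        refine Fin.cases ?_ (fun i' => ?_) i
        · rw [Fin.cons_zero]
          exact Finset.mem_insert_self _ _
        · rw [Fin.cons_succ]
          exact Finset.mem_insert_of_mem (hgS i')
      · intro y hy
        rcases Finset.mem_insert.1 hy with rfl | hy
        · refine ⟨1, Pi.single 0 1, one_pos, ?_⟩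
          rw [Fin.prod_univ_succ]
          simp [Fin.succ_ne_zero]
        · obtain ⟨m, k, hm, h1⟩ := hgr y hy
          refine ⟨m, Fin.cons 0 k, hm, ?_⟩
          rw [Fin.prod_univ_succ]
          simp only [Fin.cons_zero, Fin.cons_succ, zpow_zero, one_mul]
          exact h1
    · refine ⟨r, g, fun i => Finset.mem_insert_of_mem (hgS i), hgi, ?_⟩
      intro y hy
      rcases Finset.mem_insert.1 hy with rfl | hy
      · unfold IndepN at hind
        push Not at hind
        obtain ⟨a, hT, ha⟩ := hind
        obtain ⟨n, hn, hT⟩ := hT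
        have h1 : (y ^ (a 0) * ∏ i : Fin r, g i ^ (a i.succ)) ^ n = 1 := by
          apply Units.ext
          rw [Fin.prod_univ_succ] at hT
          simp only [Fin.cons_zero, Fin.cons_succ] at hT
          rw [Units.val_pow_eq_pow_val, Units.val_mul, Units.val_zpow_eq_zpow_val, Units.coe_prod,
            Units.val_one]
          simp only [Units.val_zpow_eq_zpow_val]
          exact hT
        by_cases ha0 : a 0 = 0
        · exfalso
          apply ha
          have h2 := hgi (fun i => a i.succ) ⟨n, hn, by
            rw [ha0, zpow_zero, one_mul] at h1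
            have h3 := congrArg Units.val h1
            rw [Units.val_pow_eq_pow_val, Units.coe_prod, Units.val_one] at h3
            simp only [Units.val_zpow_eq_zpow_val] at h3
            exact h3⟩
          funext i
          refine Fin.cases ?_ (fun i' => ?_) i
          · exact ha0
          · exact congrFun h2 i'
        · -- `y ^ (a 0 * n) = ∏ g ^ (- a n)`
          have h2 : y ^ (a 0 * n) = ∏ i : Fin r, g i ^ (-(a i.succ) * n) := by
            rw [mul_pow, ← zpow_natCast (y ^ a 0), ← zpow_mul, ← Finset.prod_pow] at h1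
            rw [eq_comm, ← inv_inj, ← Finset.prod_inv_distrib]
            rw [← mul_eq_one_iff_eq_inv', ]
            rw [← h1]
            congr 1
            refine Finset.prod_congr rfl fun i _ => ?_
            rw [← zpow_natCast, ← zpow_mul, ← zpow_neg]
            congr 1
            ring
          rcases Int.natAbs_eq (a 0) with hb | hb
          · refine ⟨(a 0).natAbs * n, fun i => -(a i.succ) * n,
              Nat.mul_pos (Int.natAbs_pos.2 ha0) hn, ?_⟩
            · rw [← h2, ← zpow_natCast]
              congr 1
              push_cast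
              rw [abs_of_pos]
              omega
          · refine ⟨(a 0).natAbs * n, fun i => (a i.succ) * n,
              Nat.mul_pos (Int.natAbs_pos.2 ha0) hn, ?_⟩
            · have h3 : y ^ (-(a 0 * n)) = ∏ i : Fin r, g i ^ ((a i.succ) * n) := by
                rw [zpow_neg, h2, ← Finset.prod_inv_distrib]
                refine Finset.prod_congr rfl fun i _ => ?_
                rw [← zpow_neg]
                congr 1
                ring
              rw [← h3, ← zpow_natCast]
              congr 1
              push_cast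
              rw [abs_of_neg]
              · ring
              · omega
      · exact hgr y hy

theorem fgb : S_FGB := by
  intro Γ hΓ
  obtain ⟨S, hS⟩ := hΓ
  obtain ⟨r, g, hgS, hgi, hgr⟩ := exists_indep S
  refine ⟨r, g, fun i => ?_, hgi, ?_⟩
  · rw [← hS]
    exact Subgroup.subset_closure (hgS i)
  · rintro x ⟨n, hn, y, hy, hx⟩
    have h1 : Rad g y := by
      rw [← hS] at hy
      clear hx
      induction hy using Subgroup.closure_induction with
      | mem z hz => exact hgr z hz
      | one => exact rad_one g
      | mul a b _ _ ha hb => exact rad_mul ha hb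
      | inv a _ ha => exact rad_inv ha
    obtain ⟨m, k, hm, h2⟩ := h1
    refine ⟨n * m, k, Nat.mul_pos hn hm, ?_⟩
    rw [pow_mul, hx, ← Units.val_pow_eq_pow_val, h2, Units.coe_prod]
    refine Finset.prod_congr rfl fun i _ => ?_
    rw [Units.val_zpow_eq_zpow_val]

end Pool.Agent.H54.AM
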