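import Mathlib
import Pool.Agent.H54.AM.Defs
import Pool.Agent.H54.AD.Ge

set_option autoImplicit false
set_option linter.unusedVariables false

/-!
# The height inequality for a determinant of monomials, `n` variables
-/

namespace Pool.Agent.H54.AM

open NumberField Height Module
open Pool.Agent.W237.RK
open Pool.Agent.W848.RK
open Pool.Agent.Helper259.AbsHt
open Pool.Agent.H58P (Qb ht qb_isIntegral)
open Pool.Agent.H54.AD (core4 val_det_le norm_det_le cnorm_det_le)

/-- the size of a monomial -/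
theorem mono_leN {a : ℝ} (ha : 0 ≤ a) {m N : ℕ} (hm : m < N) : a ^ m ≤ (max 1 a) ^ N :=
  (pow_le_pow_left₀ ha (le_max_right _ _) _).trans (pow_le_pow_right₀ (le_max_left _ _) hm.le)

theorem mono_le_valN {Γ : Type*} [LinearOrderedCommGroupWithZero Γ] {a : Γ} {m N : ℕ}
    (hm : m < N) : a ^ m ≤ (max 1 a) ^ N :=
  (pow_le_pow_left' (le_max_right _ _) _).trans (pow_le_pow_right' (le_max_left _ _) hm.le)

theorem map_det_rowN {K L : Type*} [Field K] [Field L] (f : K →+* L) {ι : Type*} [Fintype ι]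
    [DecidableEq ι] {n : ℕ} (N : Fin n → ℕ) (u : ι → Fin n → K) (c : ι → ∀ i, Fin (N i)) :
    f (Matrix.of (fun i l => rowN N (u i) (c l))).det =
      (Matrix.of (fun i l => rowN N (fun j => f (u i j)) (c l))).det := by
  rw [RingHom.map_det]
  congr 1
  ext i l
  simp [rowN]

theorem gen : S_GEN := by
  intro p hp φ M hM hst ι _ _ n₀ N u c huv hdet T δ hδ0 hδ1 hT
  classical
  have hnf : NumberField M := { to_charZero := inferInstance, to_finiteDimensional := hM }
  -- the embeddings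
  let emb : (M ≃ₐ[ℚ] M) → (M →+* Qb) := fun τ => (algebraMap M Qb).comp (τ : M →+* M)
  have hemb : Function.Injective emb := by
    intro τ τ' h
    ext x
    exact congrArg (fun g : M →+* Qb => g x) h
  have hfin : Finite (M ≃ₐ[ℚ] M) := Finite.of_injective emb hemb
  have hft : Fintype (M ≃ₐ[ℚ] M) := Fintype.ofFinite _
  have hcard : (Fintype.card (M ≃ₐ[ℚ] M) : ℝ) ≤ Module.finrank ℚ M := by
    have h1 := Fintype.card_le_of_injective emb hemb
    have h2 := NumberField.Embeddings.card M Qb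
    rw [h2] at h1
    have h3 : Fintype.card (M ≃ₐ[ℚ] M) ≤ Module.finrank ℚ M := by
      convert h1
    exact_mod_cast h3
  set u' : ι → Fin n₀ → M := fun i l => ⟨u i l, huv i l⟩ with hu'
  set dM : M := (Matrix.of (fun i l => rowN N (u' i) (c l))).det with hdM
  have hdMQ : ∀ τ : M ≃ₐ[ℚ] M, ((τ dM : M) : Qb) =
      (Matrix.of (fun i l => rowN N (fun j => ((τ (u' i j) : M) : Qb)) (c l))).det :=
    fun τ => map_det_rowN (emb τ) N u' c
  have hdMQ1 : (dM : Qb) = (Matrix.of (fun i l => rowN N (u i) (c l))).det :=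
    map_det_rowN (algebraMap M Qb) N u' c
  have hdM0 : dM ≠ 0 := by
    intro h
    rw [h] at hdMQ1
    exact hdet (by rw [← hdMQ1]; rfl)
  set J : Type _ := ι × (Σ l : Fin n₀, Fin (N l)) with hJ
  set d := Fintype.card J with hd
  set e : Fin d ≃ J := (Fintype.equivFin J).symm with he
  set w : J → M := fun q => u' q.1 q.2.1 with hw
  set U : (M ≃ₐ[ℚ] M) → Fin d → Qb := fun τ s => ((τ (w (e s)) : M) : Qb) with hU
  set V : (M ≃ₐ[ℚ] M) → Fin d → Qb := fun _ _ => 1 with hV
  set D : Qb := ∏ τ : M ≃ₐ[ℚ] M, ((τ dM : M) : Qb) with hD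
  have hD0 : D ≠ 0 := by
    rw [hD, Finset.prod_ne_zero_iff]
    intro τ _ h
    have h1 : (τ dM : M) = 0 := by exact_mod_cast h
    exact hdM0 ((map_eq_zero τ).1 h1)
  have hprodJ : ∀ {Γ : Type} [CommMonoid Γ] (F : M → Γ),
      ∏ s : Fin d, F (w (e s)) = ∏ i, ∏ l, (F (u' i l)) ^ N l := by
    intro Γ _ F
    rw [Equiv.prod_comp e (fun q => F (w q)), Fintype.prod_prod_type]
    refine Finset.prod_congr rfl fun i _ => ?_
    rw [Fintype.prod_sigma]
    refine Finset.prod_congr rfl fun l _ => ?_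
    simp [hw]
  have hsc : ∀ {Γ : Type} [LinearOrder Γ] [CommMonoid Γ] (N' : Qb → Γ) (h1 : N' 1 = 1)
      (τ : M ≃ₐ[ℚ] M), ∏ s : Fin d, (max 1 (N' (U τ s)) * max 1 (N' (V τ s))) =
        ∏ i, ∏ l, (max 1 (N' ((τ (u' i l) : M) : Qb))) ^ N l := by
    intro Γ _ _ N' h1 τ
    rw [← hprodJ (fun x => max 1 (N' ((τ x : M) : Qb)))]
    refine Finset.prod_congr rfl fun s _ => ?_
    simp [hU, hV, h1]
  set n : ℕ := Fintype.card ι with hn
  set A : ℝ := ((n : ℝ) ^ n) ^ Fintype.card (M ≃ₐ[ℚ] M) with hAdef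
  have hn0 : (0 : ℝ) < (n : ℝ) ^ n := by
    rcases Nat.eq_zero_or_pos n with h | h
    · rw [h]; simp
    · positivity
  have hlogT : -Real.log (δ ^ T.card) = (T.card : ℝ) * -Real.log δ := by
    rw [Real.log_pow]; ring
  have key := core4 (G := M ≃ₐ[ℚ] M) U V D hD0 p φ M (fun g s => (g _).2)
    (fun g s => one_mem _) (prod_mem fun τ _ => (τ dM).2) ?_ ?_ A (by positivity) ?_
    (δ ^ T.card) (by positivity) (pow_le_one₀ hδ0.le hδ1) ?_
  · rw [hlogT] at key
    refine key.trans ?_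
    have h1 : ∀ (g : M ≃ₐ[ℚ] M) (x : M), ht ((g x : M) : Qb) = ht (x : Qb) := by
      intro g x
      exact ht_conjM M (g : M →+* M) x
    have h2 : ∑ q : (M ≃ₐ[ℚ] M) × Fin d, (ht (U q.1 q.2) + ht (V q.1 q.2)) =
        Fintype.card (M ≃ₐ[ℚ] M) * ∑ i, ∑ l, N l * ht (u i l) := by
      simp only [hU, hV, h1, Pool.Agent.H58R.ht_one, add_zero]
      rw [Fintype.sum_prod_type]
      simp only []
      rw [Finset.sum_const, Finset.card_univ, nsmul_eq_mul]
      congr 1
      rw [Equiv.sum_comp e (fun q => ht ((w q : M) : Qb)), Fintype.sum_prod_type]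
      refine Finset.sum_congr rfl fun i _ => ?_
      rw [Fintype.sum_sigma]
      refine Finset.sum_congr rfl fun l _ => ?_
      simp [hw, hu']
    rw [h2, hAdef, Real.log_pow, Real.log_pow, ← mul_add]
    have h5 : 0 ≤ ∑ i, ∑ l, N l * ht (u i l) := Finset.sum_nonneg fun i _ =>
      Finset.sum_nonneg fun l _ => by
        have a1 : 0 ≤ ht (u i l) := absLogHeight_nonneg _
        positivity
    have h6 : 0 ≤ Real.log (n : ℝ) := Real.log_natCast_nonneg n
    apply (mul_le_mul_of_nonneg_right hcard (by positivity)).trans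
    rw [add_comm]
  · intro W hW
    obtain ⟨ρ, hρ⟩ := Pool.Agent.W369.RK.conj p φ M hM hst W hW
    have hρ' : ∀ x ∈ M, ρ⁻¹ x ∈ M := fun x hx => hst ρ⁻¹ x hx
    let e : M ≃+* M :=
      { toFun := fun x => ⟨ρ x, hst ρ x x.2⟩
        invFun := fun x => ⟨ρ⁻¹ x, hρ' x x.2⟩
        left_inv := fun x => Subtype.ext (AlgEquiv.symm_apply_apply ρ (x : Qb))
        right_inv := fun x => Subtype.ext (AlgEquiv.apply_symm_apply ρ (x : Qb))
        map_mul' := fun x y => Subtype.ext (map_mul ρ (x : Qb) y)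
        map_add' := fun x y => Subtype.ext (map_add ρ (x : Qb) y) }
    let ρM : M ≃ₐ[ℚ] M := AlgEquiv.ofRingEquiv (f := e) (fun r => by
      have h1 : (algebraMap ℚ M r : M) = (r : M) := by simp
      rw [h1]
      exact map_ratCast e r)
    refine ⟨Equiv.mulLeft ρM, ρ, fun g s => rfl, fun g s => map_one ρ, ?_, hρ⟩
    rw [hD, map_prod]
    exact Equiv.prod_comp (Equiv.mulLeft ρM) (fun τ : M ≃ₐ[ℚ] M => ((τ dM : M) : Qb))
  · intro W
    rw [Fintype.prod_prod_type, hD, map_prod]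
    refine Finset.prod_le_prod' fun τ _ => ?_
    rw [hsc (fun x => W.valuation x) (map_one _) τ, hdMQ τ]
    refine val_det_le _ _ _ fun i l => ?_
    rw [Matrix.of_apply, rowN, map_prod]
    refine Finset.prod_le_prod' fun j _ => ?_
    rw [map_pow]
    exact mono_le_valN (c l j).2
  · intro ψ
    rw [Fintype.prod_prod_type, hD, map_prod, norm_prod, hAdef, ← Finset.card_univ,
      ← Finset.prod_const, ← Finset.prod_mul_distrib]
    refine Finset.prod_le_prod (fun τ _ => norm_nonneg _) fun τ _ => ?_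
    rw [hsc (fun x => ‖ψ x‖) (by simp) τ, hdMQ τ, map_det_rowN ψ]
    refine cnorm_det_le _ _ (fun i => Finset.prod_nonneg fun _ _ => by positivity) fun i l => ?_
    rw [Matrix.of_apply, rowN, norm_prod]
    refine Finset.prod_le_prod (fun _ _ => norm_nonneg _) fun j _ => ?_
    rw [norm_pow]
    exact mono_leN (norm_nonneg _) (c l j).2
  · have hg : ∀ τ : M ≃ₐ[ℚ] M, ‖φ ((τ dM : M) : Qb)‖ ≤ (if τ ∈ T then δ else 1) *
        ∏ s, (max 1 ‖φ (U τ s)‖ * max 1 ‖φ (V τ s)‖) := by
      intro τ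
      rw [hsc (fun x => ‖φ x‖) (by simp) τ]
      by_cases h : τ ∈ T
      · rw [if_pos h]
        obtain ⟨t, ht1, ht2⟩ := hT τ h
        have e1 : ((τ dM : M) : Qb) = t (dM : Qb) := (ht1 dM).symm
        have e2 : ∀ i l, ((τ (u' i l) : M) : Qb) = t (u i l) := fun i l => (ht1 (u' i l)).symm
        rw [e1, hdMQ1]
        simp only [e2]
        exact ht2
      · rw [if_neg h, one_mul, hdMQ τ, map_det_rowN φ]
        refine norm_det_le p _ _ (fun i => Finset.prod_nonneg fun _ _ => by positivity)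
          fun i l => ?_
        rw [Matrix.of_apply, rowN, norm_prod]
        refine Finset.prod_le_prod (fun _ _ => norm_nonneg _) fun j _ => ?_
        rw [norm_pow]
        exact mono_leN (norm_nonneg _) (c l j).2
    rw [hD, map_prod, norm_prod, Fintype.prod_prod_type]
    calc ∏ τ : M ≃ₐ[ℚ] M, ‖φ ((τ dM : M) : Qb)‖
        ≤ ∏ τ : M ≃ₐ[ℚ] M, ((if τ ∈ T then δ else 1) *
          ∏ s, (max 1 ‖φ (U τ s)‖ * max 1 ‖φ (V τ s)‖)) :=
          Finset.prod_le_prod (fun g _ => norm_nonneg _) fun g _ => hg g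
      _ = _ := by
          rw [Finset.prod_mul_distrib]
          congr 1
          rw [Finset.prod_ite]
          simp

end Pool.Agent.H54.AM
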