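import Pool.Agent.H54.AM.Chn

set_option autoImplicit false

/-!
# `S_GL`, `S_GLD`: growth of the Hilbert function of a prime ideal (helper75)
-/

namespace Pool.Agent.H54.AM.Gl

open MvPolynomial
open Pool.Agent.N684.BK
open Pool.Agent.N769.BK.MULSUM (PW_finite PW_mono mem_PW levFinite mul_mem_PW)
open Pool.Agent.H54.AM.Chn

theorem findim (K κ : Type) [Field K] [Field κ] [Algebra K κ] [Algebra.IsAlgebraic K κ]
    [Algebra.EssFiniteType K κ] : FiniteDimensional K κ := by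
  obtain ⟨S, hS⟩ := IntermediateField.fg_top K κ
  have h1 : FiniteDimensional K (IntermediateField.adjoin K (S : Set κ)) :=
    IntermediateField.finiteDimensional_adjoin (fun x _ => Algebra.IsIntegral.isIntegral x)
  rw [hS] at h1
  exact Module.Finite.equiv (IntermediateField.topEquiv (F := K) (E := κ)).toLinearEquiv

/-- transcendence basis consisting of coordinates -/
theorem basis {F : Type} [Field F] {n d : ℕ} {Q : Ideal (MvPolynomial (Fin n) F)} (hQ : Q.IsPrime)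
    (hd : dimQ Q = d) (κ : Type) [Field κ] [Algebra (MvPolynomial (Fin n) F ⧸ Q) κ]
    [IsFractionRing (MvPolynomial (Fin n) F ⧸ Q) κ] [Algebra F κ]
    [IsScalarTower F (MvPolynomial (Fin n) F ⧸ Q) κ] :
    ∃ l : Fin d → Fin n,
      AlgebraicIndependent F (fun i => algebraMap (MvPolynomial (Fin n) F ⧸ Q) κ (Ideal.Quotient.mk Q (X (l i)))) ∧
      FiniteDimensional (IntermediateField.adjoin F
        (Set.range fun i => algebraMap (MvPolynomial (Fin n) F ⧸ Q) κ (Ideal.Quotient.mk Q (X (l i))))) κ := by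
  classical
  obtain ⟨S, hS⟩ : ∃ S : Set (MvPolynomial (Fin n) F ⧸ Q), S = Set.range fun i => Ideal.Quotient.mk Q (X i) :=
    ⟨_, rfl⟩
  have htop : Algebra.adjoin F S = ⊤ := by
    rw [hS, eq_top_iff]
    rintro z -
    obtain ⟨p, rfl⟩ := Ideal.Quotient.mk_surjective z
    have h1 : Ideal.Quotient.mk Q p = aeval (fun i => Ideal.Quotient.mk Q (X i)) p := by
      have h2 : (Ideal.Quotient.mkₐ F Q) = aeval (fun i => Ideal.Quotient.mk Q (X i)) := by
        refine MvPolynomial.algHom_ext fun i => ?_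
        rw [aeval_X]
        rfl
      exact congrArg (fun g : MvPolynomial (Fin n) F →ₐ[F] (MvPolynomial (Fin n) F ⧸ Q) => g p) h2
    rw [h1, Algebra.adjoin_range_eq_range_aeval]
    exact ⟨p, rfl⟩
  have halg : Algebra.IsAlgebraic (Algebra.adjoin F S) (MvPolynomial (Fin n) F ⧸ Q) := by
    rw [htop]
    refine ⟨fun z => ?_⟩
    exact isAlgebraic_algebraMap (⟨z, trivial⟩ : (⊤ : Subalgebra F (MvPolynomial (Fin n) F ⧸ Q)))
  obtain ⟨t, htS, htb⟩ := exists_isTranscendenceBasis_subset (R := F) S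
  have htfin : t.Finite := by
    refine Set.Finite.subset ?_ htS
    rw [hS]
    exact Set.finite_range _
  have hcard : Nat.card t = d := by
    rw [← hd]
    unfold dimQ
    rw [← htb.cardinalMk_eq_trdeg]
    rfl
  have : Finite t := htfin
  obtain ⟨e⟩ : Nonempty (Fin d ≃ t) := by
    rw [← hcard]
    exact ⟨(Finite.equivFin t).symm⟩
  have hl : ∀ i : Fin d, ∃ l : Fin n, Ideal.Quotient.mk Q (X l) = (e i : MvPolynomial (Fin n) F ⧸ Q) := by
    intro i
    have h1 := htS (e i).2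
    rw [hS] at h1
    exact h1
  choose l hl using hl
  have halg2 : Algebra.IsAlgebraic (MvPolynomial (Fin n) F ⧸ Q) κ :=
    (IsFractionRing.comap_isAlgebraic_iff (A := MvPolynomial (Fin n) F ⧸ Q) (K := κ) (C := κ)).2 inferInstance
  have htb2 : IsTranscendenceBasis F (algebraMap (MvPolynomial (Fin n) F ⧸ Q) κ ∘ ((↑) : t → _)) :=
    htb.algebraMap_comp
  have htb3 : IsTranscendenceBasis F
      (fun i => algebraMap (MvPolynomial (Fin n) F ⧸ Q) κ (Ideal.Quotient.mk Q (X (l i)))) := by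
    have h1 : (fun i => algebraMap (MvPolynomial (Fin n) F ⧸ Q) κ (Ideal.Quotient.mk Q (X (l i)))) =
        (algebraMap (MvPolynomial (Fin n) F ⧸ Q) κ ∘ ((↑) : t → _)) ∘ e := by
      funext i
      simp only [Function.comp_apply, hl]
    rw [h1]
    exact (isTranscendenceBasis_equiv e).2 htb2
  refine ⟨l, htb3.1, ?_⟩
  have h1 := htb3.isAlgebraic_field
  have h2 : Algebra.EssFiniteType (MvPolynomial (Fin n) F ⧸ Q) κ :=
    Algebra.EssFiniteType.of_isLocalization _ (nonZeroDivisors (MvPolynomial (Fin n) F ⧸ Q))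
  have h3 : Algebra.EssFiniteType F κ := Algebra.EssFiniteType.comp F (MvPolynomial (Fin n) F ⧸ Q) κ
  have h4 : Algebra.EssFiniteType (IntermediateField.adjoin F
        (Set.range fun i => algebraMap (MvPolynomial (Fin n) F ⧸ Q) κ (Ideal.Quotient.mk Q (X (l i))))) κ :=
    Algebra.EssFiniteType.of_comp F _ κ
  exact findim _ κ

/-- the image of the polynomials of degree at most `K` -/
noncomputable def UU {F : Type} [Field F] {n : ℕ} (wt : Fin n → ℕ) {κ : Type} [Field κ] [Algebra F κ]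
    (ψ : MvPolynomial (Fin n) F →ₐ[F] κ) (K : ℕ) : Submodule F κ := (PW F wt K).map ψ.toLinearMap

theorem UU_mul {F : Type} [Field F] {n : ℕ} (wt : Fin n → ℕ) {κ : Type} [Field κ] [Algebra F κ]
    (ψ : MvPolynomial (Fin n) F →ₐ[F] κ) (a b : ℕ) : UU wt ψ a * UU wt ψ b ≤ UU wt ψ (a + b) := by
  rw [Submodule.mul_le]
  rintro _ ⟨f, hf, rfl⟩ _ ⟨g, hg, rfl⟩
  refine ⟨f * g, ?_, map_mul ψ f g⟩
  rw [add_comm]
  exact mul_mem_PW hf hg

theorem UU_pow {F : Type} [Field F] {n : ℕ} (wt : Fin n → ℕ) {κ : Type} [Field κ] [Algebra F κ]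
    (ψ : MvPolynomial (Fin n) F →ₐ[F] κ) (K m : ℕ) : UU wt ψ K ^ m ≤ UU wt ψ (m * K) := by
  induction m with
  | zero =>
    rw [pow_zero, Submodule.one_le]
    exact ⟨1, one_mem_PW _, map_one ψ⟩
  | succ m ih =>
    rw [pow_succ, Nat.succ_mul]
    exact (mul_le_mul_left ih _).trans (UU_mul wt ψ _ _)

theorem UU_finrank {F : Type} [Field F] {n : ℕ} (wt : Fin n → ℕ) (Q : Ideal (MvPolynomial (Fin n) F)) (κ : Type)
    [Field κ] [Algebra (MvPolynomial (Fin n) F ⧸ Q) κ]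
    [IsFractionRing (MvPolynomial (Fin n) F ⧸ Q) κ] [Algebra F κ]
    [IsScalarTower F (MvPolynomial (Fin n) F ⧸ Q) κ] (K : ℕ) :
    Module.finrank F (UU wt ((IsScalarTower.toAlgHom F (MvPolynomial (Fin n) F ⧸ Q) κ).comp
      (Ideal.Quotient.mkₐ F Q)) K) = hil wt Q K := by
  have h1 : UU wt ((IsScalarTower.toAlgHom F (MvPolynomial (Fin n) F ⧸ Q) κ).comp (Ideal.Quotient.mkₐ F Q)) K =
      (lev wt Q K).map (IsScalarTower.toAlgHom F (MvPolynomial (Fin n) F ⧸ Q) κ).toLinearMap := by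
    unfold UU lev
    rw [← Submodule.map_comp]
    rfl
  have hi : Function.Injective (IsScalarTower.toAlgHom F (MvPolynomial (Fin n) F ⧸ Q) κ).toLinearMap :=
    IsFractionRing.injective (MvPolynomial (Fin n) F ⧸ Q) κ
  rw [h1]
  unfold hil
  exact (LinearEquiv.finrank_eq (Submodule.equivMapOfInjective _ hi (lev wt Q K))).symm

end Pool.Agent.H54.AM.Gl

namespace Pool.Agent.H54.AM

open MvPolynomial
open Pool.Agent.N684.BK
open Pool.Agent.N769.BK.MULSUM (PW_finite PW_mono mem_PW levFinite mul_mem_PW)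
open Pool.Agent.H54.AM.Chn Pool.Agent.H54.AM.Gl

theorem gl (h : S_GRO) : S_GL := by
  intro d
  refine ⟨2 ^ (d ^ 2) * (2 * (d + 1)) ^ d, by positivity, ?_⟩
  intro F _ _ n wt Q K K' hwt hQ hd hK hwtK hKK'
  have hmono := hil_mono hwt Q hKK'
  rcases Nat.lt_or_ge K' ((d + 1) * K) with hlt | hge
  · have e1 : K' ^ d ≤ (2 * (d + 1)) ^ d * K ^ d := by
      rw [← mul_pow]
      refine Nat.pow_le_pow_left (hlt.le.trans ?_) d
      exact Nat.mul_le_mul_right _ (by omega)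
    calc K' ^ d * hil wt Q K ≤ (2 * (d + 1)) ^ d * K ^ d * hil wt Q K' := Nat.mul_le_mul e1 hmono
      _ = 1 * ((2 * (d + 1)) ^ d * K ^ d * hil wt Q K') := by ring
      _ ≤ 2 ^ (d ^ 2) * ((2 * (d + 1)) ^ d * K ^ d * hil wt Q K') := Nat.mul_le_mul_right _ Nat.one_le_two_pow
      _ = _ := by ring
  obtain ⟨k, hk⟩ : ∃ k, k = K' / ((d + 1) * K) := ⟨_, rfl⟩
  have hpos : 0 < (d + 1) * K := by positivity
  have hk1 : 1 ≤ k := by rw [hk, Nat.le_div_iff_mul_le hpos]; omega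
  have hkK : k * ((d + 1) * K) ≤ K' := by rw [hk]; exact Nat.div_mul_le_self _ _
  have hkK' : K' ≤ 2 * k * ((d + 1) * K) := by
    have e1 : K' < (k + 1) * ((d + 1) * K) := by rw [hk]; exact Nat.lt_mul_of_div_lt (Nat.lt_succ_self _) hpos
    refine e1.le.trans (Nat.mul_le_mul_right _ (by omega))
  obtain ⟨l, hl1, hl2⟩ := basis hQ hd (FractionRing (MvPolynomial (Fin n) F ⧸ Q))
  obtain ⟨U, hU⟩ : ∃ U : ℕ → Submodule F (FractionRing (MvPolynomial (Fin n) F ⧸ Q)), U = UU wt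
    ((IsScalarTower.toAlgHom F (MvPolynomial (Fin n) F ⧸ Q) (FractionRing (MvPolynomial (Fin n) F ⧸ Q))).comp
      (Ideal.Quotient.mkₐ F Q)) := ⟨_, rfl⟩
  have hUf : ∀ K, Module.finrank F (U K) = hil wt Q K := by
    intro K
    rw [hU]
    exact UU_finrank wt Q _ K
  have hUfin : ∀ K, FiniteDimensional F (U K) := by
    intro K
    have := PW_finite (F := F) hwt K
    rw [hU]
    unfold UU
    infer_instance
  have h1U : (1 : FractionRing (MvPolynomial (Fin n) F ⧸ Q)) ∈ U K := by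
    rw [hU]
    exact ⟨1, one_mem_PW _, map_one ((IsScalarTower.toAlgHom F (MvPolynomial (Fin n) F ⧸ Q)
      (FractionRing (MvPolynomial (Fin n) F ⧸ Q))).comp (Ideal.Quotient.mkₐ F Q))⟩
  have hXU : ∀ i, algebraMap (MvPolynomial (Fin n) F ⧸ Q) (FractionRing (MvPolynomial (Fin n) F ⧸ Q))
      (Ideal.Quotient.mk Q (X (l i))) ∈ U K := by
    intro i
    rw [hU]
    refine ⟨X (l i), ?_, rfl⟩
    show X (l i) ∈ PW F wt K
    rw [mem_PW]
    intro m hm
    have h1 := MvPolynomial.support_monomial_subset hm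
    rw [Finset.mem_singleton] at h1
    rw [h1]
    unfold wd
    rw [Finset.sum_eq_single (l i)]
    · simpa using hwtK (l i)
    · intro b _ hb
      rw [Finsupp.single_eq_of_ne hb, mul_zero]
    · intro hb
      exact absurd (Finset.mem_univ _) hb
  have hg := h d F (FractionRing (MvPolynomial (Fin n) F ⧸ Q)) _ hl1 hl2 ℕ (Finset.range k) (hil wt Q K)
    (fun _ => U K) (U K) (Finset.nonempty_range_iff.2 (by omega)) (hil_pos hwt hQ K) (fun _ _ => hUfin K)
    (fun _ _ => (hUf K).ge) (hUfin K) h1U hXU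
  rw [Finset.prod_const, Finset.card_range, ← pow_add] at hg
  have hle : U K ^ (k + d * k) ≤ U K' := by
    have e1 : U K ^ (k + d * k) ≤ U ((k + d * k) * K) := by
      rw [hU]; exact UU_pow wt _ K _
    refine e1.trans ?_
    rw [hU]
    refine Submodule.map_mono (PW_mono ?_)
    calc (k + d * k) * K = k * ((d + 1) * K) := by ring
      _ ≤ K' := hkK
  have hfr : Module.finrank F (U K ^ (k + d * k) : Submodule F _) ≤ hil wt Q K' := by
    rw [← hUf K']
    have := hUfin K'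
    exact Submodule.finrank_mono hle
  calc K' ^ d * hil wt Q K ≤ (2 * k * ((d + 1) * K)) ^ d * hil wt Q K :=
        Nat.mul_le_mul_right _ (Nat.pow_le_pow_left hkK' d)
    _ = (2 * (d + 1)) ^ d * K ^ d * (k ^ d * hil wt Q K) := by
        rw [← mul_pow]
        have : (2 * k * ((d + 1) * K)) ^ d = (2 * (d + 1) * K) ^ d * k ^ d := by
          rw [← mul_pow]; congr 1; ring
        rw [this]; ring
    _ ≤ (2 * (d + 1)) ^ d * K ^ d * (2 ^ (d ^ 2) * hil wt Q K') :=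
        Nat.mul_le_mul_left _ (hg.trans (Nat.mul_le_mul_left _ hfr))
    _ = _ := by ring

open scoped ENNReal in
theorem gld (h : S_GL) : S_GLD := by
  intro d
  obtain ⟨C, hC, hGL⟩ := h d
  refine ⟨C, hC, ?_⟩
  intro F _ _ n wt Q K hwt hQ hd hK hwtK
  have hA0 : (C : ℝ≥0∞) * (K : ℝ≥0∞) ^ d ≠ 0 :=
    mul_ne_zero (by exact_mod_cast hC.ne') (pow_ne_zero _ (by exact_mod_cast (by omega : K ≠ 0)))
  have hAt : (C : ℝ≥0∞) * (K : ℝ≥0∞) ^ d ≠ ⊤ :=
    ENNReal.mul_ne_top (ENNReal.natCast_ne_top _) (ENNReal.pow_ne_top (ENNReal.natCast_ne_top _))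
  have h1 : (hil wt Q K : ℝ≥0∞) / ((C : ℝ≥0∞) * (K : ℝ≥0∞) ^ d) ≤
      Filter.liminf (fun K' : ℕ => (hil wt Q K' : ℝ≥0∞) / (K' : ℝ≥0∞) ^ d) Filter.atTop := by
    refine Filter.le_liminf_of_le (by isBoundedDefault) ?_
    filter_upwards [Filter.eventually_ge_atTop K] with K' hK'
    have e1 := hGL F n wt Q K K' hwt hQ hd hK hwtK hK'
    have e2 : (K' : ℝ≥0∞) ^ d * (hil wt Q K : ℝ≥0∞) ≤ (C : ℝ≥0∞) * (K : ℝ≥0∞) ^ d * (hil wt Q K' : ℝ≥0∞) := by
      exact_mod_cast e1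
    have hB0 : (K' : ℝ≥0∞) ^ d ≠ 0 := pow_ne_zero _ (by exact_mod_cast (by omega : K' ≠ 0))
    have hBt : (K' : ℝ≥0∞) ^ d ≠ ⊤ := ENNReal.pow_ne_top (ENNReal.natCast_ne_top _)
    rw [ENNReal.div_le_iff hA0 hAt]
    calc (hil wt Q K : ℝ≥0∞) = (K' : ℝ≥0∞) ^ d * (hil wt Q K : ℝ≥0∞) / (K' : ℝ≥0∞) ^ d := by
          rw [mul_comm, ENNReal.mul_div_cancel_right hB0 hBt]
      _ ≤ (C : ℝ≥0∞) * (K : ℝ≥0∞) ^ d * (hil wt Q K' : ℝ≥0∞) / (K' : ℝ≥0∞) ^ d := by gcongr
      _ = (hil wt Q K' : ℝ≥0∞) / (K' : ℝ≥0∞) ^ d * ((C : ℝ≥0∞) * (K : ℝ≥0∞) ^ d) := by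
          rw [div_eq_mul_inv, div_eq_mul_inv]; ring
  rw [ENNReal.div_le_iff hA0 hAt] at h1
  refine h1.trans ?_
  unfold Deg
  rw [mul_comm]
  have h2 : (1 : ℝ≥0∞) ≤ (d.factorial : ℝ≥0∞) := by exact_mod_cast Nat.one_le_iff_ne_zero.2 (Nat.factorial_ne_zero d)
  calc (C : ℝ≥0∞) * (K : ℝ≥0∞) ^ d *
        Filter.liminf (fun K' : ℕ => (hil wt Q K' : ℝ≥0∞) / (K' : ℝ≥0∞) ^ d) Filter.atTop
      = (C : ℝ≥0∞) * (K : ℝ≥0∞) ^ d *
        (1 * Filter.liminf (fun K' : ℕ => (hil wt Q K' : ℝ≥0∞) / (K' : ℝ≥0∞) ^ d) Filter.atTop) := by rw [one_mul]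
    _ ≤ _ := by gcongr

end Pool.Agent.H54.AM
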