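import Pool.Agent.H54.AM.Gl

/-! `Pool.Agent.H54.AM.gld (h : S_GL) : S_GLD` is proved in `Gl.lean`. -/
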