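import Pool.Agent.H54.AM.Defs

set_option autoImplicit false

namespace Pool.Agent.H54.AM

theorem grd (h : S_VAL) : S_GRD := by
  intro E κ _ _ _ _ d x hx hf
  obtain ⟨κ₁, i1, i2, O, π, ρ, y, z, hπ, hρ, hfac, hy, hyi, hyf, hz, hρz⟩ := h E κ d x hx hf
  classical
  have hxl : x (Fin.last d) ≠ 0 := hx.ne_zero _
  have hπO : π ≠ 0 := fun h => hπ (congrArg Subtype.val h)
  let L : ℤ → (O →ₗ[E] κ) := fun m =>
    (LinearMap.mulLeft E ((π : κ) ^ m)).comp O.val.toLinearMap
  have hL : ∀ (m : ℤ) (b : O), L m b = (π : κ) ^ m * b := fun _ _ => rfl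
  have hLi : ∀ m, Function.Injective (L m) := by
    intro m b c hbc
    rw [hL, hL] at hbc
    exact Subtype.ext (mul_left_cancel₀ (zpow_ne_zero m hπ) hbc)
  have hdvd : ∀ (b b' : O) (j : ℤ), 0 < j → (b : κ) = (π : κ) ^ j * b' → ρ b = 0 := by
    intro b b' j hj hb
    rw [hρ]
    obtain ⟨n, rfl⟩ : ∃ n : ℕ, j = n + 1 := ⟨(j - 1).toNat, by omega⟩
    refine ⟨π ^ n * b', ?_⟩
    apply Subtype.ext
    show (b : κ) = (π : κ) * ((π : κ) ^ n * b')
    rw [hb, zpow_add₀ hπ, zpow_one, zpow_natCast]
    ring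
  have hdown : ∀ (M M' : ℤ) (b : O), M' ≤ M → ∃ b' : O, (π : κ) ^ M * b = (π : κ) ^ M' * b' := by
    intro M M' b hM
    obtain ⟨n, rfl⟩ : ∃ n : ℕ, M = M' + n := ⟨(M - M').toNat, by omega⟩
    refine ⟨π ^ n * b, ?_⟩
    show _ = (π : κ) ^ M' * ((π : κ) ^ n * b)
    rw [zpow_add₀ hπ, zpow_natCast]
    ring
  let G : ℤ → Submodule E κ → Submodule E O := fun m U => U.comap (L m)
  have hG : ∀ (m : ℤ) (U : Submodule E κ) (b : O), b ∈ G m U ↔ (π : κ) ^ m * b ∈ U :=
    fun _ _ _ => Iff.rfl
  let gr : ℤ → Submodule E κ → Submodule E κ₁ := fun m U => (G m U).map ρ.toLinearMap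
  have hgr : ∀ (m : ℤ) (U : Submodule E κ) (b : O), (π : κ) ^ m * b ∈ U → ρ b ∈ gr m U :=
    fun m U b hb => ⟨b, hb, rfl⟩
  let f : ∀ (m : ℤ) (U : Submodule E κ), G m U →ₗ[E] U := fun m U =>
    ((L m).comp (G m U).subtype).codRestrict U (fun b => b.2)
  have hfi : ∀ (m : ℤ) (U : Submodule E κ), Function.Injective (f m U) := by
    intro m U b c hbc
    apply Subtype.ext
    apply hLi m
    exact congrArg Subtype.val hbc
  have hGf : ∀ (m : ℤ) (U : Submodule E κ), FiniteDimensional E U →
      FiniteDimensional E (G m U) := by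
    intro m U hU
    exact Module.Finite.of_injective (f m U) (hfi m U)
  have hstep : ∀ (m : ℤ) (U : Submodule E κ), FiniteDimensional E U →
      Module.finrank E (G m U) = Module.finrank E (gr m U) + Module.finrank E (G (m + 1) U) := by
    intro m U hU
    have := hGf m U hU
    have h1 := (ρ.toLinearMap.domRestrict (G m U)).finrank_range_add_finrank_ker
    have h2 : LinearMap.range (ρ.toLinearMap.domRestrict (G m U)) = gr m U :=
      LinearMap.range_domRestrict _ _
    let g : G (m + 1) U →ₗ[E] LinearMap.ker (ρ.toLinearMap.domRestrict (G m U)) :=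
      LinearMap.codRestrict _ (LinearMap.codRestrict (G m U)
        ((LinearMap.mulLeft E (π : O)).comp (G (m + 1) U).subtype) (by
          intro b
          show (π : κ) ^ m * ((π : κ) * ((b : O) : κ)) ∈ U
          have hb : (π : κ) ^ (m + 1) * ((b : O) : κ) ∈ U := b.2
          rwa [zpow_add₀ hπ, zpow_one, mul_assoc] at hb)) (by
        intro b
        show ρ (π * (b : O)) = 0
        exact (hρ _).2 ⟨_, rfl⟩)
    have hg : ∀ b, (((g b : LinearMap.ker (ρ.toLinearMap.domRestrict (G m U))) : G m U) : O) =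
      π * (b : O) := fun b => rfl
    have hgb : Function.Bijective g := by
      constructor
      · intro b c hbc
        apply Subtype.ext
        apply mul_left_cancel₀ hπO
        rw [← hg, ← hg, hbc]
      · rintro ⟨⟨a, ha⟩, ha'⟩
        have ha2 : ρ a = 0 := ha'
        obtain ⟨b, hb⟩ := (hρ a).1 ha2
        refine ⟨⟨b, ?_⟩, ?_⟩
        · show (π : κ) ^ (m + 1) * (b : κ) ∈ U
          have ha3 : (π : κ) ^ m * (a : κ) ∈ U := ha
          have : (a : κ) = (π : κ) * (b : κ) := congrArg Subtype.val hb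
          rw [this] at ha3
          rwa [zpow_add₀ hπ, zpow_one, mul_assoc]
        · apply Subtype.ext
          apply Subtype.ext
          rw [hg]
          exact hb.symm
    have h3 := LinearEquiv.finrank_eq (LinearEquiv.ofBijective g hgb)
    rw [h2, ← h3] at h1
    exact h1.symm
  refine ⟨κ₁, i1, i2, gr, fun i => ρ (y i), ?_, ?_, ?_, ?_, hyi, hyf, ?_, ?_, ?_⟩
  · intro m U hU
    have := hGf m U hU
    exact Module.Finite.map _ _
  · intro U hU
    -- a lower bound
    obtain ⟨M, hM⟩ : ∃ M : ℤ, U ≤ LinearMap.range (L M) := by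
      obtain ⟨S, hS⟩ : U.FG := (Submodule.fg_iff_finiteDimensional U).2 hU
      have h1 : ∀ S : Finset κ, ∃ M : ℤ, ∀ a ∈ S, a ∈ LinearMap.range (L M) := by
        intro S
        induction S using Finset.induction_on with
        | empty => exact ⟨0, by simp⟩
        | insert a S _ ih =>
          obtain ⟨M, hM⟩ := ih
          rcases eq_or_ne a 0 with rfl | ha
          · refine ⟨M, fun b hb => ?_⟩
            rcases Finset.mem_insert.1 hb with rfl | hb
            · exact Submodule.zero_mem _
            · exact hM b hb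
          · obtain ⟨k, u, -, hu⟩ := hfac a ha
            refine ⟨min M k, fun b hb => ?_⟩
            rcases Finset.mem_insert.1 hb with rfl | hb
            · obtain ⟨b', hb'⟩ := hdown k (min M k) u (min_le_right _ _)
              exact ⟨b', by rw [hL, ← hb', hu]⟩
            · obtain ⟨c, hc⟩ := hM b hb
              obtain ⟨b', hb'⟩ := hdown M (min M k) c (min_le_left _ _)
              exact ⟨b', by rw [hL, ← hb', ← hc, hL]⟩
      obtain ⟨M, hM⟩ := h1 S
      refine ⟨M, ?_⟩
      rw [← hS, Submodule.span_le]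
      exact hM
    have hGM : Module.finrank E (G M U) = Module.finrank E U := by
      refine LinearEquiv.finrank_eq (LinearEquiv.ofBijective (f M U) ⟨hfi M U, ?_⟩)
      rintro ⟨a, ha⟩
      obtain ⟨b, hb⟩ := hM ha
      refine ⟨⟨b, ?_⟩, ?_⟩
      · show L M b ∈ U
        rw [hb]; exact ha
      · apply Subtype.ext
        exact hb
    set D : ℕ → ℕ := fun n => Module.finrank E (G (M + n) U) with hD
    have hDs : ∀ n : ℕ, D n = Module.finrank E (gr (M + n) U) + D (n + 1) := by
      intro n
      have := hstep (M + n) U hU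
      have h2 : M + (n : ℤ) + 1 = M + ((n + 1 : ℕ) : ℤ) := by push_cast; ring
      rw [h2] at this
      exact this
    have hDa : Antitone D := antitone_nat_of_succ_le fun n => by rw [hDs n]; omega
    obtain ⟨n0, hn0⟩ : ∃ n0, ∀ n, D n0 ≤ D n :=
      ⟨Function.argmin D, fun n => Function.argmin_le D n⟩
    have hD0 : D n0 = 0 := by
      by_contra hne
      have := hGf (M + n0) U hU
      obtain ⟨b, hb⟩ := Module.finrank_pos_iff_exists_ne_zero.1 (Nat.pos_of_ne_zero hne)
      have hb0 : ((b : O) : κ) ≠ 0 := fun h => hb (Subtype.ext (Subtype.ext h))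
      have ha : (π : κ) ^ (M + (n0 : ℤ)) * ((b : O) : κ) ≠ 0 :=
        mul_ne_zero (zpow_ne_zero _ hπ) hb0
      have haU : (π : κ) ^ (M + (n0 : ℤ)) * ((b : O) : κ) ∈ U := b.2
      obtain ⟨k, u, hu, hk⟩ := hfac _ ha
      have hkM : M + n0 ≤ k := by
        by_contra hlt
        push Not at hlt
        apply hu
        refine hdvd u b (M + n0 - k) (by omega) ?_
        rw [zpow_sub₀ hπ]
        have : (π : κ) ^ k ≠ 0 := zpow_ne_zero _ hπ
        field_simp
        linear_combination -hk
      obtain ⟨j, rfl⟩ : ∃ j : ℕ, k = M + ((n0 + j : ℕ) : ℤ) :=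
        ⟨(k - M - n0).toNat, by push_cast; omega⟩
      have h1 : ρ u ∈ gr (M + ((n0 + j : ℕ) : ℤ)) U := hgr _ _ _ (by rw [← hk]; exact haU)
      have h2 : 0 < Module.finrank E (gr (M + ((n0 + j : ℕ) : ℤ)) U) := by
        have h3 := hGf (M + ((n0 + j : ℕ) : ℤ)) U hU
        have h4 : FiniteDimensional E (gr (M + ((n0 + j : ℕ) : ℤ)) U) := Module.Finite.map _ _
        exact Module.finrank_pos_iff_exists_ne_zero.2
          ⟨⟨ρ u, h1⟩, fun h => hu (congrArg Subtype.val h)⟩
      have h3 := hDs (n0 + j)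
      have h4 := hn0 (n0 + j + 1)
      have h5 : D (n0 + j) ≤ D n0 := hDa (Nat.le_add_right _ _)
      omega
    have hsum : ∀ n : ℕ, ∑ i ∈ Finset.range n, Module.finrank E (gr (M + (i : ℤ)) U) + D n =
        D 0 := by
      intro n
      induction n with
      | zero => simp
      | succ n ih =>
        rw [Finset.sum_range_succ]
        have := hDs n
        omega
    refine ⟨(Finset.range n0).image (fun n : ℕ => M + (n : ℤ)), ?_, ?_⟩
    · intro m hm
      rw [eq_bot_iff]
      rintro c ⟨b, hb, rfl⟩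
      rw [Submodule.mem_bot]
      rcases lt_or_ge m M with hlt | hge
      · have hbU : (π : κ) ^ m * (b : κ) ∈ U := hb
        obtain ⟨b', hb'⟩ := hM hbU
        rw [hL] at hb'
        refine hdvd b b' (M - m) (by omega) ?_
        rw [zpow_sub₀ hπ]
        have : (π : κ) ^ m ≠ 0 := zpow_ne_zero _ hπ
        field_simp
        rw [hb']
        ring
      · obtain ⟨n, rfl⟩ : ∃ n : ℕ, m = M + n := ⟨(m - M).toNat, by omega⟩
        have hn : n0 ≤ n := by
          by_contra hlt
          apply hm
          rw [Finset.mem_image]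
          exact ⟨n, Finset.mem_range.2 (by omega), rfl⟩
        have h1 : D n = 0 := by
          have := hDa hn
          omega
        have := hGf (M + n) U hU
        have h2 : G (M + n) U = ⊥ := Submodule.finrank_eq_zero.1 h1
        have h3 : b ∈ G (M + n) U := hb
        rw [h2, Submodule.mem_bot] at h3
        rw [h3]
        exact map_zero _
    · rw [Finset.sum_image (fun a _ b _ hab => by
        have : (M : ℤ) + (a : ℤ) = M + (b : ℤ) := hab
        omega)]
      have := hsum n0
      rw [hD0, add_zero] at this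
      rw [this]
      have h0 : D 0 = Module.finrank E (G M U) := by
        show Module.finrank E (G (M + ((0 : ℕ) : ℤ)) U) = _
        rw [Nat.cast_zero, add_zero]
      rw [h0, hGM]
  · intro m U V hUV
    exact Submodule.map_mono (Submodule.comap_mono hUV)
  · intro m m' U V
    rw [Submodule.mul_le]
    rintro _ ⟨b, hb, rfl⟩ _ ⟨b', hb', rfl⟩
    have h1 : (π : κ) ^ m * (b : κ) ∈ U := hb
    have h2 : (π : κ) ^ m' * (b' : κ) ∈ V := hb'
    have h3 : (ρ.toLinearMap b) * (ρ.toLinearMap b') = ρ (b * b') := (map_mul ρ b b').symm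
    rw [h3]
    apply hgr
    have h4 : (π : κ) ^ (m + m') * ((b * b' : O) : κ) =
        ((π : κ) ^ m * (b : κ)) * ((π : κ) ^ m' * (b' : κ)) := by
      rw [zpow_add₀ hπ]
      show _ * ((b : κ) * (b' : κ)) = _
      ring
    rw [h4]
    exact Submodule.mul_mem_mul h1 h2
  · intro U hU
    have := hgr 0 U 1 (by simpa using hU)
    rwa [map_one] at this
  · intro U i hU
    exact hgr 0 U (y i) (by rw [zpow_zero, one_mul, hy]; exact hU)
  · obtain ⟨e, u, hu, he⟩ := hfac (x (Fin.last d)) hxl
    refine ⟨e, ?_, fun U hU => ?_⟩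
    · by_contra hle
      push Not at hle
      apply hu
      have h1 : (u : κ) = (π : κ) ^ (-e) * (z : κ) := by
        rw [hz, he, zpow_neg]
        have : (π : κ) ^ e ≠ 0 := zpow_ne_zero _ hπ
        field_simp
      rcases eq_or_lt_of_le hle with rfl | hlt
      · have : u = z := Subtype.ext (by rw [h1]; simp)
        rw [this, hρz]
      · exact hdvd u z (-e) (by omega) h1
    · have h1 : ρ u ∈ gr e U := hgr e U u (by rw [← he]; exact hU)
      intro hbot
      rw [hbot, Submodule.mem_bot] at h1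
      exact hu h1

end Pool.Agent.H54.AM
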