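import Pool.Agent.H54.AM.Defs

set_option autoImplicit false

/-! # Project AM, stub GRO: growth of products of subspaces of a function field -/

namespace Pool.Agent.H54.AM

open Module

section basic

variable {E κ : Type} [Field E] [Field κ] [Algebra E κ]

theorem gro_ne_bot_mul {U V : Submodule E κ} (hU : U ≠ ⊥) (hV : V ≠ ⊥) : U * V ≠ ⊥ := by
  obtain ⟨a, ha, ha0⟩ := Submodule.exists_mem_ne_zero_of_ne_bot hU
  obtain ⟨b, hb, hb0⟩ := Submodule.exists_mem_ne_zero_of_ne_bot hV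
  intro h
  have h1 : a * b ∈ U * V := Submodule.mul_mem_mul ha hb
  rw [h, Submodule.mem_bot] at h1
  exact mul_ne_zero ha0 hb0 h1

theorem gro_one_ne_bot : (1 : Submodule E κ) ≠ ⊥ := by
  intro h
  have h1 : (1 : κ) ∈ (1 : Submodule E κ) := Submodule.one_le.1 le_rfl
  rw [h, Submodule.mem_bot] at h1
  exact one_ne_zero h1

theorem gro_ne_bot_prod {ι : Type} (s : Finset ι) (U : ι → Submodule E κ) (h : ∀ i ∈ s, U i ≠ ⊥) :
    ∏ i ∈ s, U i ≠ ⊥ := by
  classical
  induction s using Finset.induction_on with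
  | empty =>
    rw [Finset.prod_empty]
    exact gro_one_ne_bot
  | insert a s ha ih =>
    rw [Finset.prod_insert ha]
    exact gro_ne_bot_mul (h a (Finset.mem_insert_self _ _)) (ih fun i hi => h i (Finset.mem_insert_of_mem hi))

theorem gro_ne_bot_pow {U : Submodule E κ} (h : U ≠ ⊥) (k : ℕ) : U ^ k ≠ ⊥ := by
  induction k with
  | zero => rw [pow_zero]; exact gro_one_ne_bot
  | succ k ih => rw [pow_succ]; exact gro_ne_bot_mul ih h

theorem gro_fg_prod {ι : Type} (s : Finset ι) (U : ι → Submodule E κ) (h : ∀ i ∈ s, (U i).FG) :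
    (∏ i ∈ s, U i).FG := by
  classical
  induction s using Finset.induction_on with
  | empty =>
    rw [Finset.prod_empty]
    rw [Submodule.one_eq_span]; exact Submodule.fg_span_singleton _
  | insert a s ha ih =>
    rw [Finset.prod_insert ha]
    exact (h a (Finset.mem_insert_self _ _)).mul (ih fun i hi => h i (Finset.mem_insert_of_mem hi))

/-- multiplication by a nonzero space does not decrease the dimension -/
theorem gro_finrank_mul {U V : Submodule E κ} (hU : U.FG) (hV : V.FG) (hV0 : V ≠ ⊥) :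
    finrank E U ≤ finrank E (U * V : Submodule E κ) := by
  obtain ⟨b, hb, hb0⟩ := Submodule.exists_mem_ne_zero_of_ne_bot hV0
  have : FiniteDimensional E (U * V : Submodule E κ) := Module.Finite.iff_fg.2 (hU.mul hV)
  let f : U →ₗ[E] (U * V : Submodule E κ) :=
    LinearMap.codRestrict _ ((LinearMap.mulRight E b).comp U.subtype)
      (fun u => Submodule.mul_mem_mul u.2 hb)
  refine LinearMap.finrank_le_finrank_of_injective (f := f) fun u v huv => ?_
  have h1 : (u : κ) * b = v * b := congrArg Subtype.val huv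
  exact Subtype.ext (mul_right_cancel₀ hb0 h1)

theorem gro_pow_mono {B : Submodule E κ} (h1 : (1 : κ) ∈ B) {a b : ℕ} (hab : a ≤ b) : B ^ a ≤ B ^ b := by
  obtain ⟨c, rfl⟩ := Nat.exists_eq_add_of_le hab
  rw [pow_add]
  have h2 : (1 : Submodule E κ) ≤ B ^ c := by
    induction c with
    | zero => rw [pow_zero]
    | succ c ih =>
      rw [pow_succ]
      calc (1 : Submodule E κ) = 1 * 1 := (one_mul _).symm
        _ ≤ B ^ c * B := mul_le_mul' (ih (by omega)) (Submodule.one_le.2 h1)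
  calc B ^ a = B ^ a * 1 := (mul_one _).symm
    _ ≤ _ := mul_le_mul' le_rfl h2

end basic

section graded

variable {E κ κ₁ : Type} [Field E] [Field κ] [Algebra E κ] [Field κ₁] [Algebra E κ₁]
  {gr : ℤ → Submodule E κ → Submodule E κ₁}

theorem gro_gr_prod (h1 : ∀ U : Submodule E κ, 1 ∈ U → 1 ∈ gr 0 U)
    (h2 : ∀ (m m' : ℤ) (U V : Submodule E κ), gr m U * gr m' V ≤ gr (m + m') (U * V))
    {ι : Type} (s : Finset ι) (m : ι → ℤ) (U : ι → Submodule E κ) :
    ∏ i ∈ s, gr (m i) (U i) ≤ gr (∑ i ∈ s, m i) (∏ i ∈ s, U i) := by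
  classical
  induction s using Finset.induction_on with
  | empty =>
    rw [Finset.prod_empty, Finset.prod_empty, Finset.sum_empty]
    exact Submodule.one_le.2 (h1 1 (Submodule.one_le.1 le_rfl))
  | insert a s ha ih =>
    rw [Finset.prod_insert ha, Finset.prod_insert ha, Finset.sum_insert ha]
    exact (mul_le_mul' le_rfl ih).trans (h2 _ _ _ _)

theorem gro_gr_pow (h1 : ∀ U : Submodule E κ, 1 ∈ U → 1 ∈ gr 0 U)
    (h2 : ∀ (m m' : ℤ) (U V : Submodule E κ), gr m U * gr m' V ≤ gr (m + m') (U * V))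
    (m : ℤ) (U : Submodule E κ) (k : ℕ) : gr m U ^ k ≤ gr (k * m) (U ^ k) := by
  induction k with
  | zero =>
    rw [pow_zero, pow_zero, Nat.cast_zero, zero_mul]
    exact Submodule.one_le.2 (h1 1 (Submodule.one_le.1 le_rfl))
  | succ k ih =>
    rw [pow_succ, pow_succ, Nat.cast_succ, add_mul, one_mul]
    exact (mul_le_mul' ih le_rfl).trans (h2 _ _ _ _)

end graded

/-- the statement of dimension `d` -/
def GroAt (d : ℕ) : Prop := ∀ (E κ : Type) [Field E] [CharZero E] [Field κ] [Algebra E κ]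
  (x : Fin d → κ), AlgebraicIndependent E x →
  FiniteDimensional (IntermediateField.adjoin E (Set.range x)) κ →
  ∀ (ι : Type) (s : Finset ι) (j : ℕ) (U : ι → Submodule E κ) (B : Submodule E κ),
    s.Nonempty → 0 < j → (∀ i ∈ s, FiniteDimensional E (U i)) →
    (∀ i ∈ s, j ≤ Module.finrank E (U i)) → FiniteDimensional E B → (1 : κ) ∈ B →
    (∀ i, x i ∈ B) →
    s.card ^ d * j ≤
      2 ^ (d ^ 2) * Module.finrank E ((∏ i ∈ s, U i) * B ^ (d * s.card) : Submodule E κ)

theorem gro_zero : GroAt 0 := by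
  classical
  intro E κ _ _ _ _ x _ _ ι s j U B hs hj hU hjU hB h1 hx
  obtain ⟨i₀, hi₀⟩ := hs
  rw [zero_mul, pow_zero, pow_zero, one_mul, zero_pow (by norm_num), pow_zero, one_mul, mul_one]
  rw [← Finset.mul_prod_erase s U hi₀]
  have hfg : ∀ i ∈ s, (U i).FG := fun i hi => Module.Finite.iff_fg.1 (hU i hi)
  refine (hjU i₀ hi₀).trans (gro_finrank_mul (hfg i₀ hi₀)
    (gro_fg_prod _ _ fun i hi => hfg i (Finset.mem_of_mem_erase hi))
    (gro_ne_bot_prod _ _ fun i hi => ?_))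
  intro h
  have h2 := hjU i (Finset.mem_of_mem_erase hi)
  rw [h, finrank_bot] at h2
  omega

open scoped Pointwise in
theorem gro_mem_sum {ι : Type} [DecidableEq ι] (s : Finset ι) (A : ι → Finset ℤ) (a : ℤ) (ha : a ∈ ∑ i ∈ s, A i) :
    ∃ f : ι → ℤ, (∀ i ∈ s, f i ∈ A i) ∧ ∑ i ∈ s, f i = a := by
  induction s using Finset.induction_on generalizing a with
  | empty =>
    rw [Finset.sum_empty, Finset.mem_zero] at ha
    exact ⟨fun _ => 0, fun i hi => absurd hi (Finset.notMem_empty _), by rw [Finset.sum_empty, ha]⟩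
  | insert b s hb ih =>
    rw [Finset.sum_insert hb, Finset.mem_add] at ha
    obtain ⟨x, hx, y, hy, rfl⟩ := ha
    obtain ⟨f, hf, rfl⟩ := ih y hy
    refine ⟨fun i => if i = b then x else f i, fun i hi => ?_, ?_⟩
    · by_cases hib : i = b
      · simp only [hib, if_true]
        exact hx
      · simp only [hib, if_false]
        exact hf i ((Finset.mem_insert.1 hi).resolve_left hib)
    · rw [Finset.sum_insert hb, if_pos rfl]
      congr 1
      refine Finset.sum_congr rfl fun i hi => if_neg ?_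
      rintro rfl
      exact hb hi

/-- an index at which a property is lost -/
theorem gro_last (P : ℕ → Prop) (h1 : P 1) (M : ℕ) (hM : ∀ h, M ≤ h → ¬ P h) :
    ∃ h, 1 ≤ h ∧ P h ∧ ¬ P (h + 1) := by
  by_contra hcon
  push Not at hcon
  have h2 : ∀ n, P (n + 1) := by
    intro n
    induction n with
    | zero => exact h1
    | succ n ih => exact hcon (n + 1) (by omega) ih
  exact hM (M + 1) (by omega) (h2 M)

open scoped Pointwise in
theorem gro_succ (hSUMS : S_SUMS) (d : ℕ) (IH : GroAt d) {E κ κ₁ : Type} [Field E] [CharZero E] [Field κ]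
    [Algebra E κ] [Field κ₁] [Algebra E κ₁] (gr : ℤ → Submodule E κ → Submodule E κ₁) (y : Fin d → κ₁)
    (hFD : ∀ (m : ℤ) (U : Submodule E κ), FiniteDimensional E U → FiniteDimensional E (gr m U))
    (hsum : ∀ U : Submodule E κ, FiniteDimensional E U → ∃ s : Finset ℤ, (∀ m, m ∉ s → gr m U = ⊥) ∧
      ∑ m ∈ s, Module.finrank E (gr m U) = Module.finrank E U)
    (hmono : ∀ (m : ℤ) (U V : Submodule E κ), U ≤ V → gr m U ≤ gr m V)
    (hmul : ∀ (m m' : ℤ) (U V : Submodule E κ), gr m U * gr m' V ≤ gr (m + m') (U * V))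
    (hy : AlgebraicIndependent E y)
    (hfd : FiniteDimensional (IntermediateField.adjoin E (Set.range y)) κ₁)
    (hone : ∀ U : Submodule E κ, 1 ∈ U → 1 ∈ gr 0 U)
    (e : ℤ) (he : 0 < e) (ι : Type) (s : Finset ι) (j : ℕ) (U : ι → Submodule E κ) (B : Submodule E κ)
    (hs : s.Nonempty) (hj : 0 < j) (hU : ∀ i ∈ s, FiniteDimensional E (U i))
    (hjU : ∀ i ∈ s, j ≤ Module.finrank E (U i)) (hB : FiniteDimensional E B) (h1B : (1 : κ) ∈ B)
    (hyB : ∀ i, y i ∈ gr 0 B) (heB : gr e B ≠ ⊥) :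
    s.card ^ (d + 1) * j ≤
      2 ^ ((d + 1) ^ 2) * Module.finrank E ((∏ i ∈ s, U i) * B ^ ((d + 1) * s.card) : Submodule E κ) := by
  classical
  obtain ⟨k, hk⟩ : ∃ k : ℕ, k = s.card := ⟨_, rfl⟩
  have hk1 : 1 ≤ k := by rw [hk]; exact Finset.card_pos.2 hs
  obtain ⟨W, hW⟩ : ∃ W : Submodule E κ, W = (∏ i ∈ s, U i) * B ^ ((d + 1) * k) := ⟨_, rfl⟩
  rw [← hk, ← hW]
  have hUfg : ∀ i ∈ s, (U i).FG := fun i hi => Module.Finite.iff_fg.1 (hU i hi)
  have hBfg : B.FG := Module.Finite.iff_fg.1 hB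
  have hWfg : W.FG := by rw [hW]; exact (gro_fg_prod s U hUfg).mul (hBfg.pow _)
  have hWfd : FiniteDimensional E W := Module.Finite.iff_fg.2 hWfg
  -- supports
  have hex : ∀ i, ∃ S : Finset ℤ, i ∈ s → (∀ m, m ∉ S → gr m (U i) = ⊥) ∧
      ∑ m ∈ S, finrank E (gr m (U i)) = finrank E (U i) := by
    intro i
    by_cases hi : i ∈ s
    · obtain ⟨S, hS⟩ := hsum (U i) (hU i hi)
      exact ⟨S, fun _ => hS⟩
    · exact ⟨∅, fun h => absurd h hi⟩
  choose S hS using hex
  let u : ι → ℤ → ℕ := fun i m => finrank E (gr m (U i))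
  let T : ι → ℕ → Finset ℤ := fun i h => (S i).filter fun m => h ≤ u i m
  let F : ℕ → Finset ι := fun h => s.filter fun i => (T i h).Nonempty
  have hT1 : ∀ i ∈ s, (T i 1).Nonempty := by
    intro i hi
    have h1 : 0 < ∑ m ∈ S i, finrank E (gr m (U i)) := by
      rw [(hS i hi).2]
      exact lt_of_lt_of_le hj (hjU i hi)
    obtain ⟨m, hm, hm2⟩ := Finset.exists_ne_zero_of_sum_ne_zero h1.ne'
    exact ⟨m, Finset.mem_filter.2 ⟨hm, Nat.one_le_iff_ne_zero.2 hm2⟩⟩
  have hex2 : ∀ i, ∃ m : ℤ, i ∈ s → m ∈ T i 1 := by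
    intro i
    by_cases hi : i ∈ s
    · obtain ⟨m, hm⟩ := hT1 i hi
      exact ⟨m, fun _ => hm⟩
    · exact ⟨0, fun h => absurd h hi⟩
  choose m0 hm0 using hex2
  have hF1 : F 1 = s := Finset.filter_true_of_mem fun i hi => hT1 i hi
  have hTanti : ∀ i h h', h ≤ h' → T i h' ⊆ T i h := by
    intro i h h' hh m hm
    obtain ⟨h1, h2⟩ := Finset.mem_filter.1 hm
    exact Finset.mem_filter.2 ⟨h1, hh.trans h2⟩
  have hFanti : ∀ h h', h ≤ h' → F h' ⊆ F h := by
    intro h h' hh i hi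
    obtain ⟨h1, h2⟩ := Finset.mem_filter.1 hi
    exact Finset.mem_filter.2 ⟨h1, h2.mono (hTanti i h h' hh)⟩
  obtain ⟨hs', hs1, hs2, hs3⟩ := gro_last (fun h => k ≤ 2 * (F h).card) (by
      show k ≤ 2 * (F 1).card
      rw [hF1, ← hk]; omega) (∑ i ∈ s, finrank E (U i) + 1) (by
      intro h hh
      have h1 : F h = ∅ := by
        rw [Finset.eq_empty_iff_forall_notMem]
        intro i hi
        obtain ⟨h2, m, hm⟩ := Finset.mem_filter.1 hi
        obtain ⟨h3, h4⟩ := Finset.mem_filter.1 hm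
        have h5 : u i m ≤ ∑ m ∈ S i, finrank E (gr m (U i)) :=
          Finset.single_le_sum (f := fun m => finrank E (gr m (U i))) (fun _ _ => Nat.zero_le _) h3
        rw [(hS i h2).2] at h5
        have h6 : finrank E (U i) ≤ ∑ i ∈ s, finrank E (U i) :=
          Finset.single_le_sum (f := fun i => finrank E (U i)) (fun _ _ => Nat.zero_le _) h2
        omega
      rw [h1, Finset.card_empty]
      omega)
  -- the sets of degrees
  let Xe : ℕ → Finset ℤ := fun h => (Finset.range (k + 1)).image fun b : ℕ => (∑ i ∈ s \ F h, m0 i) + b * e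
  have hXe : ∀ h, (Xe h).card = k + 1 := by
    intro h
    rw [Finset.card_image_of_injective, Finset.card_range]
    intro a b hab
    have h1 : (a : ℤ) * e = b * e := add_left_cancel hab
    exact_mod_cast mul_right_cancel₀ he.ne' h1
  let sig : ℕ → Finset ℤ := fun h => (∑ i ∈ F h, T i h) + Xe h
  -- claim 1
  have hc1 : ∀ h, 1 ≤ h → k ≤ 2 * (F h).card → ∀ t ∈ sig h,
      k ^ d * h ≤ 2 ^ (d ^ 2 + d) * finrank E (gr t W) := by
    intro h hh1 hhk t ht
    obtain ⟨a, ha, x, hx, rfl⟩ := Finset.mem_add.1 ht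
    obtain ⟨f, hf, rfl⟩ := gro_mem_sum _ _ _ ha
    obtain ⟨b, hb, rfl⟩ := Finset.mem_image.1 hx
    rw [Finset.mem_range] at hb
    have hFs : F h ⊆ s := Finset.filter_subset _ _
    have hFcard : (F h).card ≤ k := by rw [hk]; exact Finset.card_le_card hFs
    have hFne : (F h).Nonempty := by rw [← Finset.card_pos]; omega
    have hVfd : ∀ i ∈ F h, FiniteDimensional E (gr (f i) (U i)) := fun i hi => hFD _ _ (hU i (hFs hi))
    have hBfd : FiniteDimensional E (gr 0 B) := hFD _ _ hB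
    have hih := IH E κ₁ y hy hfd ι (F h) h (fun i => gr (f i) (U i)) (gr 0 B) hFne (by omega) hVfd
      (fun i hi => (Finset.mem_filter.1 (hf i hi)).2) hBfd (hone B h1B) hyB
    obtain ⟨P, hP⟩ : ∃ P : Submodule E κ₁, P = (∏ i ∈ F h, gr (f i) (U i)) * gr 0 B ^ (d * (F h).card) := ⟨_, rfl⟩
    obtain ⟨Q, hQ⟩ : ∃ Q : Submodule E κ₁, Q = (∏ i ∈ s \ F h, gr (m0 i) (U i)) * gr e B ^ b := ⟨_, rfl⟩
    rw [← hP] at hih
    have hPfg : P.FG := by
      rw [hP]
      exact (gro_fg_prod _ _ fun i hi => Module.Finite.iff_fg.1 (hVfd i hi)).mul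
        ((Module.Finite.iff_fg.1 hBfd).pow _)
    have hQfg : Q.FG := by
      rw [hQ]
      exact (gro_fg_prod _ _ fun i hi =>
        Module.Finite.iff_fg.1 (hFD _ _ (hU i (Finset.mem_sdiff.1 hi).1))).mul
        ((Module.Finite.iff_fg.1 (hFD _ _ hB)).pow _)
    have hQne : Q ≠ ⊥ := by
      rw [hQ]
      refine gro_ne_bot_mul (gro_ne_bot_prod _ _ fun i hi hbot => ?_) (gro_ne_bot_pow heB _)
      have h2 := (Finset.mem_filter.1 (hm0 i (Finset.mem_sdiff.1 hi).1)).2
      have h3 : u i (m0 i) = 0 := by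
        show finrank E (gr (m0 i) (U i)) = 0
        rw [hbot, finrank_bot]
      omega
    have hPle : P ≤ gr (∑ i ∈ F h, f i) ((∏ i ∈ F h, U i) * B ^ (d * (F h).card)) := by
      rw [hP]
      have h2 := gro_gr_pow hone hmul 0 B (d * (F h).card)
      rw [mul_zero] at h2
      have h3 := (mul_le_mul' (gro_gr_prod hone hmul (F h) f U) h2).trans (hmul _ _ _ _)
      rwa [add_zero] at h3
    have hQle : Q ≤ gr ((∑ i ∈ s \ F h, m0 i) + b * e) ((∏ i ∈ s \ F h, U i) * B ^ b) := by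
      rw [hQ]
      exact (mul_le_mul' (gro_gr_prod hone hmul (s \ F h) m0 U) (gro_gr_pow hone hmul e B b)).trans (hmul _ _ _ _)
    have hPQ : P * Q ≤ gr (∑ i ∈ F h, f i + ((∑ i ∈ s \ F h, m0 i) + b * e)) W := by
      refine ((mul_le_mul' hPle hQle).trans (hmul _ _ _ _)).trans (hmono _ _ _ ?_)
      have h2 : (∏ i ∈ F h, U i) * B ^ (d * (F h).card) * ((∏ i ∈ s \ F h, U i) * B ^ b) =
          (∏ i ∈ s, U i) * B ^ (d * (F h).card + b) := by
        rw [← Finset.prod_sdiff hFs, pow_add]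
        ring
      rw [h2, hW]
      refine mul_le_mul' le_rfl (gro_pow_mono h1B ?_)
      have h3 : d * (F h).card ≤ d * k := Nat.mul_le_mul_left _ hFcard
      rw [add_mul, one_mul]
      omega
    have hgfd : FiniteDimensional E (gr (∑ i ∈ F h, f i + ((∑ i ∈ s \ F h, m0 i) + b * e)) W) :=
      hFD _ _ hWfd
    have h4 : finrank E P ≤ finrank E (gr (∑ i ∈ F h, f i + ((∑ i ∈ s \ F h, m0 i) + b * e)) W) :=
      (gro_finrank_mul hPfg hQfg hQne).trans (Submodule.finrank_mono hPQ)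
    calc k ^ d * h ≤ (2 * (F h).card) ^ d * h := Nat.mul_le_mul_right _ (Nat.pow_le_pow_left hhk d)
      _ = 2 ^ d * ((F h).card ^ d * h) := by rw [mul_pow, mul_assoc]
      _ ≤ 2 ^ d * (2 ^ (d ^ 2) * finrank E P) := Nat.mul_le_mul_left _ hih
      _ ≤ 2 ^ d * (2 ^ (d ^ 2) * finrank E (gr (∑ i ∈ F h, f i + ((∑ i ∈ s \ F h, m0 i) + b * e)) W)) :=
          Nat.mul_le_mul_left _ (Nat.mul_le_mul_left _ h4)
      _ = _ := by rw [pow_add]; ring
  -- claim 2
  have hc2 : ∀ h, ∑ i ∈ F h, (T i h).card ≤ (sig h).card := by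
    intro h
    have h1 := hSUMS ι (F h) (fun i => T i h) (fun i hi => (Finset.mem_filter.1 hi).2)
    have h2 : (∑ i ∈ F h, T i h).Nonempty := by rw [← Finset.card_pos]; omega
    have h3 : (Xe h).Nonempty := by rw [← Finset.card_pos, hXe]; omega
    have h4 := cauchy_davenport_add_of_linearOrder_isCancelAdd h2 h3
    rw [hXe] at h4
    have h5 : ∑ i ∈ F h, (T i h).card ≤ ∑ i ∈ F h, ((T i h).card - 1) + (F h).card := by
      rw [Finset.card_eq_sum_ones, ← Finset.sum_add_distrib]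
      exact Finset.sum_le_sum fun i _ => by omega
    have h6 : (F h).card ≤ k := by rw [hk]; exact Finset.card_le_card (Finset.filter_subset _ _)
    have h7 : (sig h).card = ((∑ i ∈ F h, T i h) + Xe h).card := rfl
    omega
  -- claim 3
  let Tt : Finset ℤ := (Finset.Icc 1 hs').biUnion sig
  have hc3 : ∀ t, k ^ d * ((Finset.Icc 1 hs').filter fun h => t ∈ sig h).card ≤
      2 ^ (d ^ 2 + d) * finrank E (gr t W) := by
    intro t
    rcases ((Finset.Icc 1 hs').filter fun h => t ∈ sig h).eq_empty_or_nonempty with h0 | h0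
    · rw [h0, Finset.card_empty, mul_zero]
      exact Nat.zero_le _
    · obtain ⟨hm, hhm, hmax⟩ := Finset.exists_max_image _ (fun h => h) h0
      obtain ⟨h1, h2⟩ := Finset.mem_filter.1 hhm
      obtain ⟨h3, h4⟩ := Finset.mem_Icc.1 h1
      have h5 : ((Finset.Icc 1 hs').filter fun h => t ∈ sig h) ⊆ Finset.Icc 1 hm := by
        intro h hh
        exact Finset.mem_Icc.2 ⟨(Finset.mem_Icc.1 (Finset.mem_filter.1 hh).1).1, hmax h hh⟩
      have h6 := Finset.card_le_card h5
      rw [Nat.card_Icc, Nat.add_sub_cancel] at h6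
      exact (Nat.mul_le_mul_left _ h6).trans
        (hc1 hm h3 (hs2.trans (Nat.mul_le_mul_left _ (Finset.card_le_card (hFanti _ _ h4)))) t h2)
  have hsumW : ∑ t ∈ Tt, finrank E (gr t W) ≤ finrank E W := by
    obtain ⟨S', h1, h2⟩ := hsum W hWfd
    rw [← h2]
    refine Finset.sum_le_sum_of_ne_zero fun t _ ht => ?_
    by_contra hcon
    rw [h1 t hcon, finrank_bot] at ht
    exact ht rfl
  have hdc : ∑ t ∈ Tt, ((Finset.Icc 1 hs').filter fun h => t ∈ sig h).card =
      ∑ h ∈ Finset.Icc 1 hs', (sig h).card := by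
    simp only [Finset.card_filter]
    rw [Finset.sum_comm]
    refine Finset.sum_congr rfl fun h hh => ?_
    rw [← Finset.card_filter]
    congr 1
    ext t
    rw [Finset.mem_filter]
    exact ⟨fun h1 => h1.2, fun h1 => ⟨Finset.mem_biUnion.2 ⟨h, hh, h1⟩, h1⟩⟩
  have hX : k ^ d * ∑ h ∈ Finset.Icc 1 hs', (sig h).card ≤ 2 ^ (d ^ 2 + d) * finrank E W := by
    rw [← hdc, Finset.mul_sum]
    calc _ ≤ ∑ t ∈ Tt, 2 ^ (d ^ 2 + d) * finrank E (gr t W) := Finset.sum_le_sum fun t _ => hc3 t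
      _ = 2 ^ (d ^ 2 + d) * ∑ t ∈ Tt, finrank E (gr t W) := by rw [Finset.mul_sum]
      _ ≤ _ := Nat.mul_le_mul_left _ hsumW
  -- claim 4
  have hc4 : (s \ F (hs' + 1)).card * j ≤ ∑ h ∈ Finset.Icc 1 hs', (sig h).card := by
    have h1 : ∀ h, ∑ i ∈ s \ F (hs' + 1), (T i h).card ≤ (sig h).card := by
      intro h
      refine (Finset.sum_le_sum_of_ne_zero fun i hi h0 => ?_).trans (hc2 h)
      refine Finset.mem_filter.2 ⟨(Finset.mem_sdiff.1 hi).1, ?_⟩
      rw [← Finset.card_pos]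
      omega
    refine le_trans ?_ (Finset.sum_le_sum fun h _ => h1 h)
    rw [Finset.sum_comm, ← smul_eq_mul]
    refine Finset.card_nsmul_le_sum _ _ _ fun i hi => ?_
    obtain ⟨hi1, hi2⟩ := Finset.mem_sdiff.1 hi
    refine (hjU i hi1).trans ?_
    rw [← (hS i hi1).2]
    have h2 : ∀ h, (T i h).card = ∑ m ∈ S i, if h ≤ u i m then 1 else 0 := fun h => Finset.card_filter _ _
    simp only [h2]
    rw [Finset.sum_comm]
    refine Finset.sum_le_sum fun m hm => ?_
    have h3 : u i m ≤ hs' := by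
      by_contra hcon
      apply hi2
      exact Finset.mem_filter.2 ⟨hi1, m, Finset.mem_filter.2 ⟨hm, by omega⟩⟩
    rw [← Finset.card_filter]
    have h4 : Finset.Icc 1 (u i m) ⊆ (Finset.Icc 1 hs').filter fun h => h ≤ u i m := by
      intro h hh
      obtain ⟨h5, h6⟩ := Finset.mem_Icc.1 hh
      exact Finset.mem_filter.2 ⟨Finset.mem_Icc.2 ⟨h5, h6.trans h3⟩, h6⟩
    have h5 := Finset.card_le_card h4
    rw [Nat.card_Icc, Nat.add_sub_cancel] at h5
    exact h5
  have hk2 : k ≤ 2 * (s \ F (hs' + 1)).card := by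
    have h1 := Finset.card_sdiff_add_card_eq_card (Finset.filter_subset (fun i => (T i (hs' + 1)).Nonempty) s)
    have h2 : (s \ F (hs' + 1)).card + (F (hs' + 1)).card = s.card := h1
    rw [← hk] at h2
    omega
  calc k ^ (d + 1) * j = k ^ d * (k * j) := by rw [pow_succ, mul_assoc]
    _ ≤ k ^ d * (2 * (s \ F (hs' + 1)).card * j) := Nat.mul_le_mul_left _ (Nat.mul_le_mul_right _ hk2)
    _ = 2 * (k ^ d * ((s \ F (hs' + 1)).card * j)) := by ring
    _ ≤ 2 * (k ^ d * ∑ h ∈ Finset.Icc 1 hs', (sig h).card) :=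
        Nat.mul_le_mul_left _ (Nat.mul_le_mul_left _ hc4)
    _ ≤ 2 * (2 ^ (d ^ 2 + d) * finrank E W) := Nat.mul_le_mul_left _ hX
    _ = 2 ^ (d ^ 2 + d + 1) * finrank E W := by rw [pow_succ 2 (d ^ 2 + d)]; ring
    _ ≤ _ := Nat.mul_le_mul_right _ (Nat.pow_le_pow_right (by norm_num) (by nlinarith))

theorem gro (h1 : S_GRD) (h2 : S_SUMS) : S_GRO := by
  intro d
  induction d with
  | zero => exact gro_zero
  | succ d ih =>
    intro E κ _ _ _ _ x hx hfin ι s j U B hs hj hU hjU hB h1B hxB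
    obtain ⟨κ₁, _, _, gr, y, g1, g2, g3, g4, g5, g6, g7, g8, e, he, g9⟩ := h1 E κ d x hx hfin
    exact gro_succ h2 d ih gr y g1 g2 g3 g4 g5 g6 g7 e he ι s j U B hs hj hU hjU hB h1B
      (fun i => g8 B i (hxB _)) (g9 B (hxB _))

end Pool.Agent.H54.AM
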