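import Pool.Agent.H54.AM.Defs

set_option autoImplicit false

/-!
# The rank for half of the degrees, `n` variables (helper85; from AD/Half.lean)
-/

namespace Pool.Agent.H54.AM

open Module

namespace HalfnAux

variable {Ω : Type} [Field Ω] {ι : Type}

/-- the rank is the column rank -/
theorem rk_col {n : ℕ} (N : Fin n → ℕ) (u : ι → Fin n → Ω) (S : Set ι) (hS : S.Finite) :
    rkN N u S = finrank Ω (Submodule.span Ω
      (Set.range (fun k : (∀ i, Fin (N i)) => (fun x : S => ∏ i, u x i ^ (k i : ℕ))))) := by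
  have : Fintype S := hS.fintype
  classical
  have h1 := Matrix.rank_eq_finrank_span_row (Matrix.of (fun (x : S) => rowN N (u x)))
  have h2 := Matrix.rank_eq_finrank_span_cols (Matrix.of (fun (x : S) => rowN N (u x)))
  unfold rkN
  have h3 : ((fun x => rowN N (u x)) '' S) =
      Set.range (Matrix.of (fun (x : S) => rowN N (u x))).row := by
    ext z
    constructor
    · rintro ⟨x, hx, rfl⟩
      exact ⟨⟨x, hx⟩, rfl⟩
    · rintro ⟨x, rfl⟩
      exact ⟨x, x.2, rfl⟩
  rw [h3, ← h1, h2]
  rfl

end HalfnAux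

open HalfnAux in
theorem halfn : S_HALFN := by
  intro Ω _ ι n N N' u S hS hN
  classical
  have : Fintype S := hS.fintype
  rw [rk_col N u S hS, rk_col N' u S hS]
  obtain ⟨V, hV⟩ : ∃ V, V = Submodule.span Ω
      (Set.range (fun k : (∀ i, Fin (N' i)) => (fun x : S => ∏ i, u x i ^ (k i : ℕ)))) := ⟨_, rfl⟩
  rw [← hV]
  let D : (Fin n → Bool) → ((S → Ω) →ₗ[Ω] (S → Ω)) := fun t =>
    LinearMap.pi (fun x : S => (∏ i, u x i ^ (if t i then N' i else 0)) • LinearMap.proj x)
  have hD : ∀ (t : Fin n → Bool) (w : S → Ω) (x : S),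
      D t w x = (∏ i, u x i ^ (if t i then N' i else 0)) * w x := by
    intro t w x
    simp [D]
  let T : ((Fin n → Bool) → V) →ₗ[Ω] (S → Ω) :=
    ∑ t, (D t) ∘ₗ V.subtype ∘ₗ (LinearMap.proj t)
  have hT : ∀ w, T w = ∑ t, D t (w t : S → Ω) := by
    intro w
    simp [T, LinearMap.sum_apply]
  have hle : Submodule.span Ω
      (Set.range (fun k : (∀ i, Fin (N i)) => (fun x : S => ∏ i, u x i ^ (k i : ℕ)))) ≤
      LinearMap.range T := by
    rw [Submodule.span_le]
    rintro _ ⟨k, rfl⟩
    obtain ⟨t, ht⟩ : ∃ t : Fin n → Bool, t = fun i => decide (N' i ≤ (k i : ℕ)) := ⟨_, rfl⟩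
    have hlt : ∀ i, (k i : ℕ) - (if t i then N' i else 0) < N' i := by
      intro i
      have h1 := (k i).2
      have h2 := hN i
      rw [ht]
      simp only [decide_eq_true_eq]
      split_ifs with h
      · omega
      · omega
    have hmem : (fun x : S => ∏ i, u x i ^ ((k i : ℕ) - (if t i then N' i else 0))) ∈ V := by
      rw [hV]
      exact Submodule.subset_span ⟨fun i => ⟨_, hlt i⟩, rfl⟩
    refine ⟨Pi.single t ⟨_, hmem⟩, ?_⟩
    rw [hT, Finset.sum_eq_single t]
    · rw [Pi.single_eq_same]
      funext x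
      rw [hD]
      simp only
      rw [← Finset.prod_mul_distrib]
      refine Finset.prod_congr rfl fun i _ => ?_
      rw [← pow_add]
      congr 1
      rw [ht]
      simp only [decide_eq_true_eq]
      split_ifs with h
      · omega
      · omega
    · intro s _ hs
      rw [Pi.single_eq_of_ne hs]
      simp
    · intro h
      exact absurd (Finset.mem_univ _) h
  calc finrank Ω (Submodule.span Ω
      (Set.range (fun k : (∀ i, Fin (N i)) => (fun x : S => ∏ i, u x i ^ (k i : ℕ))))) ≤
        finrank Ω (LinearMap.range T) := Submodule.finrank_mono hle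
    _ ≤ finrank Ω ((Fin n → Bool) → V) := LinearMap.finrank_range_le T
    _ = 2 ^ n * finrank Ω V := by
        rw [Module.finrank_pi_fintype]
        simp

end Pool.Agent.H54.AM
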