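import Pool.Agent.H54.AM.Defs

set_option autoImplicit false

/-!
# Independence of several sets of points, triangular version, `n` variables (helper85; from AD/Ind.lean)
-/

namespace Pool.Agent.H54.AM

open Finset Module

namespace IndnAux

variable {Ω : Type} [Field Ω] {ι : Type}

/-- a basis of the span of the rows of a finite set of points -/
theorem basis {n : ℕ} (N : Fin n → ℕ) (u : ι → Fin n → Ω) (S : Set ι) (hS : S.Finite) :
    ∃ R : Finset ι, (∀ x ∈ R, x ∈ S) ∧ R.card = rkN N u S ∧
      LinearIndependent Ω (fun x : R => rowN N (u x)) := by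
  classical
  obtain ⟨b, hbS, -, hb2, hb3⟩ := exists_linearIndepOn_extension (K := Ω)
    (v := fun x => rowN N (u x)) (linearIndepOn_empty Ω _) (Set.empty_subset S)
  have hbf : b.Finite := hS.subset hbS
  have : Fintype b := hbf.fintype
  refine ⟨hbf.toFinset, fun x hx => hbS (hbf.mem_toFinset.1 hx), ?_, ?_⟩
  · have h1 := finrank_span_eq_card (R := Ω) hb3
    have h2 : Submodule.span Ω (Set.range fun x : b => rowN N (u x)) =
        Submodule.span Ω ((fun x => rowN N (u x)) '' S) := by
      have h3 : Set.range (fun x : b => rowN N (u x)) =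
          (fun x => rowN N (u x)) '' b := by
        rw [Set.image_eq_range]
      rw [h3]
      apply le_antisymm
      · exact Submodule.span_mono (Set.image_mono hbS)
      · exact Submodule.span_le.2 hb2
    rw [h2] at h1
    unfold rkN
    rw [h1, Set.Finite.card_toFinset]
  · let e : hbf.toFinset ≃ b := Equiv.subtypeEquivRight fun x => hbf.mem_toFinset
    exact hb3.comp e e.injective

end IndnAux

open IndnAux in
theorem indn : S_INDN := by
  classical
  intro Ω _ ι n L N d u S G hS hG hd h0 hne
  choose R hR1 hR2 hR3 using fun i => basis (fun j => N j - d j) u (S i) (hS i)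
  refine ⟨R, hR1, hR2, ?_⟩
  rw [Fintype.linearIndependent_iff]
  intro c hc
  -- the relations for the products with `G i`
  have hrel : ∀ (i : Fin L) (k : ∀ j, Fin (N j - d j)),
      ∑ x : (Σ l, R l), c x * (MvPolynomial.eval (u x.2) (G i) *
        ∏ j, u x.2 j ^ (k j : ℕ)) = 0 := by
    intro i k
    have h1 : ∀ (a : Fin n → ℕ), (∀ j, a j < N j) →
        ∑ x : (Σ l, R l), c x * ∏ j, u x.2 j ^ a j = 0 := by
      intro a ha
      have h2 := congrFun hc (fun j => ⟨a j, ha j⟩)
      rw [Finset.sum_apply] at h2
      simpa [rowN] using h2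
    have h3 : ∑ x : (Σ l, R l), c x * (MvPolynomial.eval (u x.2) (G i) *
        ∏ j, u x.2 j ^ (k j : ℕ)) =
        ∑ m ∈ (G i).support, (G i).coeff m *
          ∑ x : (Σ l, R l), c x * ∏ j, u x.2 j ^ (m j + (k j : ℕ)) := by
      simp only [MvPolynomial.eval_eq', mul_sum, sum_mul]
      rw [sum_comm]
      refine sum_congr rfl fun m _ => ?_
      refine sum_congr rfl fun x _ => ?_
      simp only [pow_add, prod_mul_distrib]
      ring
    rw [h3]
    refine sum_eq_zero fun m hm => ?_
    rw [h1 _ fun j => ?_, mul_zero]
    have h4 := (MvPolynomial.monomial_le_degreeOf j hm).trans (hG i j)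
    have h5 := (k j).2
    omega
  -- descending induction
  have key : ∀ s : ℕ, ∀ i : Fin L, L - (i : ℕ) ≤ s → ∀ x : R i, c ⟨i, x⟩ = 0 := by
    intro s
    induction s with
    | zero =>
      intro i hi
      have := i.2
      omega
    | succ s ih =>
      intro i hi x
      have hsum : ∑ y : R i, (c ⟨i, y⟩ * MvPolynomial.eval (u y) (G i)) •
          rowN (fun j => N j - d j) (u y) = 0 := by
        funext k
        have h1 := hrel i k
        rw [Fintype.sum_sigma, sum_eq_single i] at h1
        · rw [Finset.sum_apply]
          simp only [Pi.smul_apply, smul_eq_mul, rowN, Pi.zero_apply]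
          rw [← h1]
          refine sum_congr rfl fun y _ => ?_
          ring
        · intro l _ hl
          refine sum_eq_zero fun y _ => ?_
          dsimp only
          rcases lt_or_gt_of_ne hl with h | h
          · rw [h0 i l h y (hR1 l y y.2), zero_mul, mul_zero]
          · rw [ih l (by
              have h2 : (i : ℕ) < (l : ℕ) := h
              have := l.2
              omega) y, zero_mul]
        · intro h
          exact absurd (mem_univ i) h
      have h2 := Fintype.linearIndependent_iff.1 (hR3 i) _ hsum x
      rcases mul_eq_zero.1 h2 with h | h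
      · exact h
      · exact absurd h (hne i x (hR1 i x x.2))
  intro x
  exact key (L - (x.1 : ℕ)) x.1 le_rfl x.2

end Pool.Agent.H54.AM
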