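import Mathlib
import Pool.Agent.H54.AM.Defs

set_option autoImplicit false

/-!
# No invariant ideal at a point with multiplicatively independent coordinates (S_INV)
-/

namespace Pool.Agent.H54.AM

open MvPolynomial
open Pool.Agent.W237.RK
open Pool.Agent.H58P (Qb ht)

theorem phi_C' {F : Type*} [Field F] (n : ℕ) (τ : F →+* F) (q : ℕ) (a : F) :
    phi n τ q (C a) = C (τ a) := by
  simp [phi]

theorem phi_X' {F : Type*} [Field F] (n : ℕ) (τ : F →+* F) (q : ℕ) (i : Fin n) :
    phi n τ q (X i) = X i ^ q := by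
  simp [phi]

theorem phi_mul' {F : Type*} [Field F] (n : ℕ) (τ τ' : F →+* F) (q q' : ℕ) :
    phi n τ q * phi n τ' q' = phi n (τ * τ') (q * q') := by
  apply MvPolynomial.ringHom_ext
  · intro a
    change phi n τ q (phi n τ' q' (C a)) = _
    rw [phi_C', phi_C', phi_C']
    rfl
  · intro i
    change phi n τ q (phi n τ' q' (X i)) = _
    rw [phi_X', map_pow, phi_X', phi_X', ← pow_mul]

theorem phi_pow' {F : Type*} [Field F] (n : ℕ) (τ : F →+* F) (q m : ℕ) :
    phi n τ q ^ m = phi n (τ ^ m) (q ^ m) := by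
  induction m with
  | zero =>
    apply MvPolynomial.ringHom_ext
    · intro a
      rw [phi_C']
      rfl
    · intro i
      rw [phi_X']
      simp
  | succ m ih =>
    rw [pow_succ, ih, phi_mul', pow_succ, pow_succ]

theorem aeval_phi' (E : GF) (n Q : ℕ) (v : Fin n → Qb) (f : MvPolynomial (Fin n) E) :
    aeval v (phi n (1 : E →+* E) Q f) =
      ∑ α ∈ f.support, algebraMap E Qb (coeff α f) * (∏ i, v i ^ α i) ^ Q := by
  have h1 : ((aeval v : MvPolynomial (Fin n) E →ₐ[E] Qb) : MvPolynomial (Fin n) E →+* Qb).comp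
      (phi n (1 : E →+* E) Q) = eval₂Hom (algebraMap E Qb) (fun i => v i ^ Q) := by
    apply MvPolynomial.ringHom_ext
    · intro a
      simp [phi_C']
    · intro i
      simp [phi_X']
  have h2 : aeval v (phi n (1 : E →+* E) Q f) =
      eval₂Hom (algebraMap E Qb) (fun i => v i ^ Q) f := by
    rw [← h1]; rfl
  rw [h2, coe_eval₂Hom, eval₂_eq']
  refine Finset.sum_congr rfl fun α _ => ?_
  rw [← Finset.prod_pow]
  congr 1
  refine Finset.prod_congr rfl fun i _ => ?_
  rw [← pow_mul, ← pow_mul, mul_comm]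

theorem fin_order (E : GF) [FiniteDimensional ℚ E] (τ : E →+* E) :
    ∃ r : ℕ, 0 < r ∧ τ ^ r = 1 := by
  let e := Algebra.IsAlgebraic.algEquivEquivAlgHom ℚ E
  let t : E ≃ₐ[ℚ] E := e.symm τ.toRatAlgHom
  have ht : ∀ x, t x = τ x := by
    intro x
    have h : e t = τ.toRatAlgHom := e.apply_symm_apply _
    calc t x = (e t) x := rfl
      _ = τ x := by rw [h]; rfl
  have hpow : ∀ (m : ℕ) (x : E), (t ^ m) x = (τ ^ m) x := by
    intro m
    induction m with
    | zero => intro x; rfl
    | succ m ih =>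
      intro x
      rw [pow_succ, pow_succ]
      change (t ^ m) (t x) = (τ ^ m) (τ x)
      rw [ht, ih]
  refine ⟨orderOf t, orderOf_pos t, ?_⟩
  ext x
  rw [← hpow, pow_orderOf_eq_one]
  rfl

theorem inv (h : S_SML) : S_INV := by
  intro n E τ q δ v hfin hq hδ hv hind I hI hvan
  rw [eq_bot_iff]
  intro f hf
  rw [Submodule.mem_bot]
  by_contra hne
  obtain ⟨r, hr0, hr⟩ := fin_order E τ
  have hmem : ∀ m : ℕ, ((phi n τ q ^ δ) ^ m) f ∈ I := by
    intro m
    induction m with
    | zero => simpa using hf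
    | succ m ih =>
      rw [pow_succ']
      change (phi n τ q ^ δ) (((phi n τ q ^ δ) ^ m) f) ∈ I
      rw [← hI] at ih
      exact Ideal.mem_comap.1 ih
  have hone : ∀ m : ℕ, ((phi n τ q ^ δ) ^ (r * m)) = phi n (1 : E →+* E) (q ^ (δ * (r * m))) := by
    intro m
    rw [← pow_mul, phi_pow']
    congr 1
    rw [show δ * (r * m) = r * (δ * m) by ring, pow_mul, hr, one_pow]
  have hz : ∀ m : ℕ, ∑ α ∈ f.support, algebraMap E Qb (coeff α f) *
      (∏ i, v i ^ α i) ^ (q ^ (δ * (r * m))) = 0 := by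
    intro m
    rw [← aeval_phi', ← hone]
    exact hvan _ (hmem _)
  have hsupp : f.support.Nonempty := by
    rw [Finset.nonempty_iff_ne_empty]
    intro h0
    exact hne (MvPolynomial.support_eq_empty.1 h0)
  have : Nonempty f.support := ⟨⟨_, hsupp.choose_spec⟩⟩
  refine h f.support (fun α => algebraMap E Qb (coeff α.1 f)) (fun α => ∏ i, v i ^ α.1 i)
    ?_ ?_ ?_ (Set.range fun m : ℕ => q ^ (δ * (r * m))) ?_ ?_
  · intro α h0
    have := (map_eq_zero (algebraMap E Qb)).1 h0
    exact (MvPolynomial.mem_support_iff.1 α.2) this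
  · intro α
    exact Finset.prod_ne_zero_iff.2 fun i _ => pow_ne_zero _ (hv i)
  · intro α β hαβ ht
    apply hαβ
    have h1 : (∏ i, v i ^ α.1 i) / (∏ i, v i ^ β.1 i) = ∏ i, v i ^ ((α.1 i : ℤ) - (β.1 i : ℤ)) := by
      rw [← Finset.prod_div_distrib]
      refine Finset.prod_congr rfl fun i _ => ?_
      rw [zpow_sub₀ (hv i), zpow_natCast, zpow_natCast]
    have ht' : Tor ((∏ i, v i ^ α.1 i) / (∏ i, v i ^ β.1 i)) := ht
    rw [h1] at ht'
    have h2 := hind _ ht'
    apply Subtype.ext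
    ext i
    have h3 := congrFun h2 i
    simp only [Pi.zero_apply] at h3
    omega
  · apply Set.infinite_range_of_injective
    intro a b hab
    have h1 := Nat.pow_right_injective hq hab
    have h2 := Nat.eq_of_mul_eq_mul_left hδ h1
    exact Nat.eq_of_mul_eq_mul_left hr0 h2
  · rintro _ ⟨m, rfl⟩
    have h1 := hz m
    rw [← Finset.sum_coe_sort] at h1
    exact h1

end Pool.Agent.H54.AM
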