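import Mathlib
import Pool.Agent.H54.AM.LemN

set_option autoImplicit false
set_option linter.unusedVariables false

/-!
# The local estimate of the determinant
-/

namespace Pool.Agent.H54.AM

open Polynomial
open Pool.Agent.W237.RK
open Pool.Agent.H58P (Qb ht)
open Pool.Agent.H54.RX
open Pool.Agent.H54.AD (pt pt_mul max_pow_le)

theorem locdn : S_PADN → AD.S_DETL → AD.S_CLO → AD.S_GAM → S_EMBN → S_LOCDN := by
  classical
  intro hPAD hDETL hCLO hGAM hEMB p hp ψ E σ a n₁ ha ha' hσE hfrob n β γ bb hβ htor hγ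
    hσγ hnγ e N T NN h hh hhe ι _ _ j y c hj hy
  have hpp : p.Prime := hp.out
  have hp1 : (1 : ℝ) < p := by exact_mod_cast hpp.one_lt
  have hp0 : (0 : ℝ) < p := by linarith
  set q := p ^ a with hq
  set ρ : ℝ := ((p : ℝ) ^ N)⁻¹ with hρ
  have hρ0 : 0 < ρ := by positivity
  have hρ1 : ρ ≤ 1 := inv_le_one_of_one_le₀ (one_le_pow₀ hp1.le)
  have hγ0 : ∀ l, γ l ≠ 0 := by
    intro l h0
    have h1 := hnγ l
    rw [h0, map_zero, norm_zero] at h1
    exact zero_ne_one h1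
  -- the conjugates of `β`
  set Y := (orb_finite E β).toFinset with hY
  have hYmem : ∀ y, y ∈ Y ↔ ∃ ρ : Aut, Fix E ρ ∧ ρ β = y := by
    intro y
    rw [hY, Set.Finite.mem_toFinset]
    exact Iff.rfl
  have horb := orbN_eq β γ hγ bb
  -- the parameters of the rows
  have hex : ∀ i, ∃ b ∈ Y, y i = fun l => b ^ bb l * γ l := by
    intro i
    have h1 := hy i
    rw [horb] at h1
    obtain ⟨b, hb, h2⟩ := h1
    exact ⟨b, (hYmem b).mpr hb, h2.symm⟩
  choose b hbY hb using hex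
  have hu : ∀ (y : Qb) (k : ℕ) (l : Fin n), ψ (pt σ q e (y ^ bb l * γ l) k) =
      (ψ (pt σ q e y k)) ^ bb l * (ψ (γ l)) ^ (q ^ k) := by
    intro y k l
    rw [pt_mul σ q e y (γ l) (bb l) (hσγ l) k, map_mul, map_zpow₀, map_pow]
  have hg1 : ∀ (l : Fin n) (k : ℕ), ‖(ψ (γ l)) ^ k‖ = 1 := fun l k => by
    rw [norm_pow, hnγ l, one_pow]
  have hfr1 : ∀ l, ‖ψ (γ l) - ψ (γ l) ^ (p ^ a)‖ ^ n₁ ≤ (p : ℝ)⁻¹ := by
    intro l
    have h1 := hfrob (γ l) (hγ l) (hnγ l).le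
    rwa [hσγ l, map_sub, map_pow] at h1
  have hY0 : ∀ z ∈ Y, z ≠ 0 := by
    intro z hz
    obtain ⟨τ, -, rfl⟩ := (hYmem z).mp hz
    exact (_root_.map_ne_zero τ).mpr hβ
  have hpt0 : ∀ z ∈ Y, ∀ k, ψ (pt σ q e z k) ≠ 0 := by
    intro z hz k
    unfold pt
    exact (_root_.map_ne_zero ψ).mpr
      (pow_ne_zero _ ((_root_.map_ne_zero (σ ^ (e - k))).mpr (hY0 z hz)))
  have hqpos : ∀ k : ℕ, 0 < q ^ k := fun k => pow_pos (pow_pos hpp.pos a) k
  have hinj : Set.InjOn (fun z : Qb => ψ (pt σ q e z h)) (Y : Set Qb) := by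
    intro z hz z' hz' hzz
    have h1 : pt σ q e z h = pt σ q e z' h := ψ.injective hzz
    unfold pt at h1
    have h2 : z ^ (q ^ h) = z' ^ (q ^ h) := by
      apply (σ ^ (e - h)).injective
      rw [map_pow, map_pow]
      exact h1
    obtain ⟨κ₁, hκ₁, hk1⟩ := (hYmem _).mp hz
    obtain ⟨κ₂, hκ₂, hk2⟩ := (hYmem _).mp hz'
    rw [← hk1, ← hk2] at h2
    have h7 := htor (κ₂⁻¹ * κ₁) (fix_mul (fix_inv hκ₂) hκ₁) ⟨q ^ h, hqpos h, by
      have e1 : ((κ₂⁻¹ * κ₁) β) ^ (q ^ h) = β ^ (q ^ h) := by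
        show (κ₂⁻¹ (κ₁ β)) ^ (q ^ h) = _
        rw [← map_pow, h2, map_pow, inv_apply_self]
      rw [div_pow, e1, div_self (pow_ne_zero _ hβ)]⟩
    have h8 : κ₂⁻¹ (κ₁ β) = β := h7
    have h9 := congrArg κ₂ h8
    rw [apply_inv_self, hk1, hk2] at h9
    exact h9
  -- the space of the center
  obtain ⟨U, hU1, hU2⟩ := hPAD p Qb n T NN bb Y (fun z => ψ (pt σ q e z h))
    (fun l => (ψ (γ l)) ^ (q ^ h)) ρ hρ0 hρ1 hinj (fun z hz => hpt0 z hz h) (fun l => hg1 l _)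
  set r := rkN NN (fun y : Fin n → Qb => ptN σ q e y h) (orbN E (fun l => β ^ bb l * γ l)) with hr
  have hUr : Module.finrank (PadicAlgCl p) U ≤ 2 * T ^ (n + 1) * r := by
    refine hU1.trans (Nat.mul_le_mul_left _ ?_)
    have hfin2 : (orbN E (fun l => β ^ bb l * γ l)).Finite := orbN_finite β γ hγ bb
    have h1 := hEMB Qb (PadicAlgCl p) ψ (Fin n → Qb) n NN (fun y : Fin n → Qb => ptN σ q e y h)
      (orbN E (fun l => β ^ bb l * γ l)) hfin2
    refine le_trans (le_of_eq ?_) h1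
    unfold rkN
    have hYc : (Y : Set Qb) = orb E β := Set.Finite.coe_toFinset _
    have himg : (fun z : Qb => rowN NN (fun l => (ψ (pt σ q e z h)) ^ bb l *
        (ψ (γ l)) ^ (q ^ h))) '' (Y : Set Qb) =
        (fun x : Fin n → Qb => rowN NN (fun i => ψ (ptN σ q e x h i))) ''
          (orbN E (fun l => β ^ bb l * γ l)) := by
      rw [horb, Set.image_image, hYc]
      apply Set.image_congr
      intro z hz
      congr 1
      funext l
      exact (hu z h l).symm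
    exact congrArg (fun s => Module.finrank (PadicAlgCl p) (Submodule.span (PadicAlgCl p) s)) himg
  -- the matrix
  set A : Matrix ι ι (PadicAlgCl p) := Matrix.of (fun i l => rowN NN
    (fun l' => (ψ (pt σ q e (b i) (j i))) ^ bb l' * (ψ (γ l')) ^ (q ^ (j i))) (c l)) with hA
  have hdet : ψ (Matrix.of (fun i l => rowN NN (ptN σ q e (y i) (j i)) (c l))).det = A.det := by
    rw [RingHom.map_det]
    congr 1
    ext i l
    rw [RingHom.mapMatrix_apply, Matrix.map_apply, hA, Matrix.of_apply, Matrix.of_apply]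
    unfold rowN
    rw [map_prod]
    refine Finset.prod_congr rfl fun l' _ => ?_
    rw [map_pow]
    congr 1
    show ψ (pt σ q e (y i l') (j i)) = _
    rw [hb i]
    exact hu (b i) (j i) l'
  rw [hdet]
  set s : ι → ℝ := fun i => ∏ l, (max 1 ‖(ψ (pt σ q e (b i) (j i))) ^ bb l‖) ^ NN l with hs
  have hs' : ∀ i, ∏ l, (max 1 ‖ψ (ptN σ q e (y i) (j i) l)‖) ^ NN l = s i := by
    intro i
    refine Finset.prod_congr rfl fun l _ => ?_
    congr 2
    show ‖ψ (pt σ q e (y i l) (j i))‖ = _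
    rw [hb i]
    show ‖ψ (pt σ q e (b i ^ bb l * γ l) (j i))‖ = _
    rw [hu, norm_mul, hg1, mul_one]
  simp only [hs']
  have hs0 : ∀ i, 0 ≤ s i := fun i => Finset.prod_nonneg fun l _ => by positivity
  -- restriction to the columns
  let res : ((∀ i, Fin (NN i)) → PadicAlgCl p) →ₗ[PadicAlgCl p] (ι → PadicAlgCl p) :=
    { toFun := fun f i => f (c i)
      map_add' := fun _ _ => rfl
      map_smul' := fun _ _ => rfl }
  refine hDETL p ι A s ρ T (2 * T ^ (n + 1) * r) (U.map res) hρ0 hρ1 hs0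
    ((Submodule.finrank_map_le res U).trans hUr) ?_ ?_
  · intro i l
    rw [hA, Matrix.of_apply]
    unfold rowN
    rw [norm_prod]
    refine Finset.prod_le_prod (fun _ _ => norm_nonneg _) fun l' _ => ?_
    rw [norm_pow, norm_mul, hg1, mul_one]
    exact max_pow_le (norm_nonneg _) (c l l').2.le
  · intro i
    have hclose : ∏ l ∈ Y, ‖ψ (pt σ q e (b i) (j i)) - ψ (pt σ q e l h)‖ ≤
        ρ * ∏ l ∈ Y, (max 1 ‖ψ (pt σ q e (b i) (j i))‖ * max 1 ‖ψ (pt σ q e l h)‖) := by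
      by_cases hjh : j i = h
      · have h0 : ∏ l ∈ Y, ‖ψ (pt σ q e (b i) (j i)) - ψ (pt σ q e l h)‖ = 0 := by
          apply Finset.prod_eq_zero (hbY i)
          rw [hjh, sub_self, norm_zero]
        rw [h0]
        exact mul_nonneg hρ0.le (Finset.prod_nonneg fun l _ => by positivity)
      · exact hCLO p ψ E σ a n₁ ha ha' hσE hfrob Y (fun l => coeff_orb E β l) e N (j i) h (b i)
          (hbY i) (hj i).1 hh (hj i).2 hhe hjh
    obtain ⟨w, hwU, hw⟩ := hU2 (ψ (pt σ q e (b i) (j i))) (fun l => (ψ (γ l)) ^ (q ^ (j i)))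
      (hpt0 _ (hbY i) _) (fun l => hg1 l _)
      (fun l => hGAM p (ψ (γ l)) a n₁ N (j i) h ha ha' (hnγ l) (hfr1 l) (hj i).1 hh) hclose
    refine ⟨res w, Submodule.mem_map_of_mem hwU, fun l => ?_⟩
    exact hw (c l)

end Pool.Agent.H54.AM
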