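import Mathlib
import Pool.Agent.H54.AM.Defs

set_option autoImplicit false

/-!
# Short independent vectors of a lattice (S_MKN)
-/

namespace Pool.Agent.H54.AM.Mkn

open MeasureTheory Matrix
open scoped RealInnerProductSpace

/-- Minkowski's theorem on linear forms -/
theorem minkowski {n : ℕ} (M : Matrix (Fin n) (Fin n) ℝ) (hM : M.det ≠ 0) (r : ℝ) (hr : 0 < r)
    (h : |M.det| < r ^ n) :
    ∃ x : Fin n → ℤ, x ≠ 0 ∧ ∀ j, |∑ l, M j l * (x l : ℝ)| < r := by
  classical
  set f : (Fin n → ℝ) →ₗ[ℝ] (Fin n → ℝ) := Matrix.toLin' M with hf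
  have hdet : LinearMap.det f = M.det := LinearMap.det_toLin' M
  set B : Set (Fin n → ℝ) := Set.pi Set.univ fun _ => Set.Ioo (-r) r with hB
  have hvolB : volume B = ENNReal.ofReal ((2 * r) ^ n) := by
    rw [hB, Real.volume_pi_Ioo]
    simp only [Finset.prod_const, Finset.card_univ, Fintype.card_fin]
    rw [ENNReal.ofReal_pow (by positivity)]
    congr 2
    ring
  have hF : volume (ZSpan.fundamentalDomain (Pi.basisFun ℝ (Fin n))) = 1 := by
    rw [ZSpan.fundamentalDomain_pi_basisFun, Real.volume_pi_Ico]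
    simp
  have hpos : 0 < |M.det| := abs_pos.2 hM
  have key : volume (ZSpan.fundamentalDomain (Pi.basisFun ℝ (Fin n))) *
      2 ^ Module.finrank ℝ (Fin n → ℝ) < volume (f ⁻¹' B) := by
    rw [hF, one_mul, Module.finrank_fin_fun,
      Measure.addHaar_preimage_linearMap volume (by rwa [hdet]), hvolB, hdet,
      ← ENNReal.ofReal_mul (abs_nonneg _)]
    have e1 : (2 : ENNReal) ^ n = ENNReal.ofReal (2 ^ n) := by
      rw [ENNReal.ofReal_pow (by norm_num)]
      simp
    rw [e1, abs_inv]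
    refine (ENNReal.ofReal_lt_ofReal_iff (by positivity)).2 ?_
    rw [mul_pow, ← mul_assoc, mul_comm _ ((2 : ℝ) ^ n), mul_assoc]
    have e2 : 1 < |M.det|⁻¹ * r ^ n := by
      rw [inv_mul_eq_div, one_lt_div hpos]
      exact h
    nlinarith [pow_pos (show (0 : ℝ) < 2 by norm_num) n]
  have hcount : Countable (Submodule.span ℤ (Set.range (Pi.basisFun ℝ (Fin n)))).toAddSubgroup := by
    change Countable (Submodule.span ℤ (Set.range (Pi.basisFun ℝ (Fin n))))
    infer_instance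
  obtain ⟨x, hx0, hxs⟩ := exists_ne_zero_mem_lattice_of_measure_mul_two_pow_lt_measure
    (μ := volume) (L := (Submodule.span ℤ (Set.range (Pi.basisFun ℝ (Fin n)))).toAddSubgroup)
    (ZSpan.isAddFundamentalDomain (Pi.basisFun ℝ (Fin n)) volume)
    (s := f ⁻¹' B) (by
      intro y hy j hj
      have := hy j hj
      simp only [Set.mem_Ioo] at this ⊢
      rw [map_neg, Pi.neg_apply]
      constructor <;> linarith [this.1, this.2]) (by
      refine Convex.linear_preimage ?_ f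
      exact convex_pi fun _ _ => convex_Ioo _ _) key
  have hx2 := x.2
  have hmem : ∀ i, ∃ z : ℤ, (z : ℝ) = (x : Fin n → ℝ) i := by
    intro i
    have h1 : (x : Fin n → ℝ) ∈ Submodule.span ℤ (Set.range (Pi.basisFun ℝ (Fin n))) := hx2
    rw [Module.Basis.mem_span_iff_repr_mem] at h1
    obtain ⟨z, hz⟩ := h1 i
    exact ⟨z, by simpa using hz⟩
  choose z hz using hmem
  refine ⟨z, ?_, fun j => ?_⟩
  · intro h0
    apply hx0
    apply Subtype.ext
    funext i
    rw [← hz i, h0]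
    simp
  · have h1 := hxs j (Set.mem_univ _)
    simp only [Set.mem_Ioo] at h1
    rw [abs_lt]
    have h2 : f (x : Fin n → ℝ) j = ∑ l, M j l * (z l : ℝ) := by
      rw [hf, Matrix.toLin'_apply, Matrix.mulVec, dotProduct]
      refine Finset.sum_congr rfl fun l _ => ?_
      rw [hz l]
    rw [← h2]
    exact h1

/-- the inequality for the Euclidean norm -/
theorem main {n : ℕ} (hn : 0 < n) (A : Matrix (Fin n) (Fin n) ℝ) (hA : A.det ≠ 0) :
    ∃ v : Matrix (Fin n) (Fin n) ℤ, v.det ≠ 0 ∧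
      ∏ i, ‖(WithLp.toLp 2 (A *ᵥ fun l => (v i l : ℝ)) : EuclideanSpace ℝ (Fin n))‖ ≤
        (2 * n : ℝ) ^ n * |A.det| := by
  classical
  -- the image of a vector
  set w : (Fin n → ℝ) → EuclideanSpace ℝ (Fin n) := fun x => WithLp.toLp 2 (A *ᵥ x) with hw
  set wz : (Fin n → ℤ) → EuclideanSpace ℝ (Fin n) := fun x => w (fun l => (x l : ℝ)) with hwz
  have hwapp : ∀ x j, w x j = ∑ l, A j l * x l := fun x j => rfl
  have hAu : IsUnit A.det := isUnit_iff_ne_zero.2 hA
  -- lower bound for the lengths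
  obtain ⟨m, hm0, hm⟩ : ∃ m : ℝ, 0 < m ∧ ∀ x : Fin n → ℤ, x ≠ 0 → m ≤ ‖wz x‖ := by
    set K : ℝ := 1 + ∑ i, ∑ j, |A⁻¹ i j| with hK
    have hKpos : 0 < K := by
      have : 0 ≤ ∑ i, ∑ j, |A⁻¹ i j| :=
        Finset.sum_nonneg fun i _ => Finset.sum_nonneg fun j _ => abs_nonneg _
      linarith
    refine ⟨1 / K, by positivity, fun x hx => ?_⟩
    obtain ⟨i, hi⟩ := Function.ne_iff.1 hx
    have h1 : (1 : ℝ) ≤ |(x i : ℝ)| := by
      have : (1 : ℤ) ≤ |x i| := Int.one_le_abs hi
      exact_mod_cast this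
    have h2 : (x i : ℝ) = ∑ j, A⁻¹ i j * wz x j := by
      have h3 : A⁻¹ *ᵥ (A *ᵥ fun l => (x l : ℝ)) = fun l => (x l : ℝ) := by
        rw [Matrix.mulVec_mulVec, Matrix.nonsing_inv_mul _ hAu, Matrix.one_mulVec]
      have h4 := congrFun h3 i
      rw [← h4]
      rfl
    have h5 : |(x i : ℝ)| ≤ K * ‖wz x‖ := by
      rw [h2]
      refine (Finset.abs_sum_le_sum_abs _ _).trans ?_
      calc ∑ j, |A⁻¹ i j * wz x j| ≤ ∑ j, |A⁻¹ i j| * ‖wz x‖ := by
            refine Finset.sum_le_sum fun j _ => ?_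
            rw [abs_mul]
            refine mul_le_mul_of_nonneg_left ?_ (abs_nonneg _)
            exact PiLp.norm_apply_le (wz x) j
        _ = (∑ j, |A⁻¹ i j|) * ‖wz x‖ := by rw [Finset.sum_mul]
        _ ≤ K * ‖wz x‖ := by
            refine mul_le_mul_of_nonneg_right ?_ (norm_nonneg _)
            have h6 := Finset.single_le_sum (f := fun i => ∑ j, |A⁻¹ i j|)
              (fun i _ => Finset.sum_nonneg fun j _ => abs_nonneg _) (Finset.mem_univ i)
            linarith
    rw [div_le_iff₀ hKpos]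
    linarith [mul_comm K ‖wz x‖]
  -- the rows of a matrix of nonzero determinant are nonzero
  have hrow : ∀ v : Matrix (Fin n) (Fin n) ℤ, v.det ≠ 0 → ∀ i, v i ≠ 0 := by
    intro v hv i hi
    exact hv (Matrix.det_eq_zero_of_row_eq_zero i fun j => congrFun hi j)
  set F : Matrix (Fin n) (Fin n) ℤ → ℝ := fun v => ∏ i, ‖wz (v i)‖ with hF
  have hFm : ∀ v : Matrix (Fin n) (Fin n) ℤ, v.det ≠ 0 → m ^ n ≤ F v := by
    intro v hv
    calc m ^ n = ∏ _i : Fin n, m := by simp
      _ ≤ F v := Finset.prod_le_prod (fun _ _ => hm0.le) fun i _ => hm _ (hrow v hv i)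
  set S : Set ℝ := {t | ∃ v : Matrix (Fin n) (Fin n) ℤ, v.det ≠ 0 ∧ F v = t} with hS
  have hSne : S.Nonempty := ⟨F 1, 1, by simp, rfl⟩
  have hSb : BddBelow S := ⟨m ^ n, by rintro _ ⟨v, hv, rfl⟩; exact hFm v hv⟩
  have hI : m ^ n ≤ sInf S := le_csInf hSne (by rintro _ ⟨v, hv, rfl⟩; exact hFm v hv)
  have hIpos : 0 < sInf S := (pow_pos hm0 n).trans_le hI
  obtain ⟨_, ⟨v₀, hv₀, rfl⟩, hlt₀⟩ := exists_lt_of_csInf_lt hSne
    (show sInf S < 2 * sInf S by linarith)
  -- sort the rows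
  set σ : Equiv.Perm (Fin n) := Tuple.sort (fun i => ‖wz (v₀ i)‖) with hσ
  set v : Matrix (Fin n) (Fin n) ℤ := v₀.submatrix σ id with hvdef
  have hv : v.det ≠ 0 := by
    rw [hvdef, Matrix.det_permute]
    exact mul_ne_zero (by simp) hv₀
  have hFv : F v = F v₀ := by
    simp only [hF]
    exact Equiv.prod_comp σ (fun i => ‖wz (v₀ i)‖)
  have hlt : F v < 2 * sInf S := by rw [hFv]; exact hlt₀
  have hmono : Monotone fun i => ‖wz (v i)‖ := Tuple.monotone_sort (fun i => ‖wz (v₀ i)‖)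
  have hlen : ∀ i, 0 < ‖wz (v i)‖ := fun i => hm0.trans_le (hm _ (hrow v hv i))
  have hFpos : 0 < F v := Finset.prod_pos fun i _ => hlen i
  -- near minimality
  have hP : ∀ (i : Fin n) (x : Fin n → ℤ), (v.updateRow i x).det ≠ 0 →
      ‖wz (v i)‖ < 2 * ‖wz x‖ := by
    intro i x hx
    have h1 : sInf S ≤ F (v.updateRow i x) := csInf_le hSb ⟨_, hx, rfl⟩
    have h2 : F (v.updateRow i x) = ‖wz x‖ * ∏ j ∈ Finset.univ.erase i, ‖wz (v j)‖ := by
      simp only [hF]
      rw [← Finset.mul_prod_erase _ _ (Finset.mem_univ i)]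
      congr 1
      · rw [Matrix.updateRow_self]
      · refine Finset.prod_congr rfl fun j hj => ?_
        rw [Matrix.updateRow_ne (Finset.ne_of_mem_erase hj)]
    have h3 : F v = ‖wz (v i)‖ * ∏ j ∈ Finset.univ.erase i, ‖wz (v j)‖ := by
      simp only [hF]
      rw [← Finset.mul_prod_erase _ _ (Finset.mem_univ i)]
    have h4 : 0 < ∏ j ∈ Finset.univ.erase i, ‖wz (v j)‖ := Finset.prod_pos fun j _ => hlen j
    have h5 : ‖wz (v i)‖ * ∏ j ∈ Finset.univ.erase i, ‖wz (v j)‖ <
        (2 * ‖wz x‖) * ∏ j ∈ Finset.univ.erase i, ‖wz (v j)‖ := by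
      rw [← h3, mul_assoc, ← h2]
      linarith
    exact lt_of_mul_lt_mul_right h5 h4.le
  -- the orthonormal basis
  have hcard : Module.finrank ℝ (EuclideanSpace ℝ (Fin n)) = Fintype.card (Fin n) := by simp
  set e := InnerProductSpace.gramSchmidtOrthonormalBasis hcard (fun i => wz (v i)) with he
  have htri : ∀ i j : Fin n, i < j → ⟪e j, wz (v i)⟫ = 0 := fun i j hij =>
    InnerProductSpace.gramSchmidtOrthonormalBasis_inv_triangular hcard _ hij
  set Q : Matrix (Fin n) (Fin n) ℝ := Matrix.of fun i j => e i j with hQ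
  have hinner : ∀ (x y : EuclideanSpace ℝ (Fin n)), ⟪x, y⟫ = ∑ j, x j * y j := by
    intro x y
    rw [PiLp.inner_apply]
    refine Finset.sum_congr rfl fun j _ => ?_
    simp [mul_comm]
  have hQQ : Q * Qᵀ = 1 := by
    ext i j
    rw [Matrix.mul_apply, Matrix.one_apply]
    have h1 := orthonormal_iff_ite.1 e.orthonormal i j
    rw [hinner] at h1
    exact h1
  have hQdet : |Q.det| = 1 := by
    have h1 := congrArg Matrix.det hQQ
    rw [Matrix.det_mul, Matrix.det_transpose, Matrix.det_one] at h1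
    have h2 : |Q.det| * |Q.det| = 1 := by rw [← abs_mul, h1, abs_one]
    nlinarith [abs_nonneg Q.det]
  set M : Matrix (Fin n) (Fin n) ℝ := Matrix.diagonal (fun j => ‖wz (v j)‖⁻¹) * (Q * A) with hM
  have hMdet : |M.det| = (F v)⁻¹ * |A.det| := by
    rw [hM, Matrix.det_mul, Matrix.det_mul, Matrix.det_diagonal, abs_mul, abs_mul, hQdet, one_mul,
      Finset.prod_inv_distrib, abs_inv, abs_of_pos hFpos]
  have hMdet0 : M.det ≠ 0 := by
    rw [← abs_pos, hMdet]
    exact mul_pos (inv_pos.2 hFpos) (abs_pos.2 hA)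
  have hMapp : ∀ (x : Fin n → ℤ) (j : Fin n), ∑ l, M j l * (x l : ℝ) =
      ‖wz (v j)‖⁻¹ * ⟪e j, wz x⟫ := by
    intro x j
    have h1 : ∀ l, M j l = ‖wz (v j)‖⁻¹ * ∑ k, e j k * A k l := by
      intro l
      rw [hM, Matrix.diagonal_mul, Matrix.mul_apply]
      rfl
    simp only [h1, hinner]
    have h2 : ∀ k, wz x k = ∑ l, A k l * (x l : ℝ) := fun k => rfl
    simp only [h2, Finset.mul_sum, Finset.sum_mul]
    rw [Finset.sum_comm]
    refine Finset.sum_congr rfl fun k _ => Finset.sum_congr rfl fun l _ => ?_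
    ring
  refine ⟨v, hv, ?_⟩
  change F v ≤ _
  by_contra hcon
  rw [not_le] at hcon
  have hn' : (0 : ℝ) < n := by exact_mod_cast hn
  have hr : (0 : ℝ) < 1 / (2 * n) := by positivity
  have hsmall : |M.det| < (1 / (2 * n : ℝ)) ^ n := by
    rw [hMdet, inv_mul_eq_div, div_lt_iff₀ hFpos, one_div, inv_pow, inv_mul_eq_div,
      lt_div_iff₀ (by positivity)]
    linarith [mul_comm (|A.det|) ((2 * n : ℝ) ^ n)]
  obtain ⟨x, hx0, hx⟩ := minkowski M hMdet0 _ hr hsmall
  -- the coordinates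
  set V : Matrix (Fin n) (Fin n) ℝ := v.map (Int.castRingHom ℝ) with hV
  have hVdet : V.det = (v.det : ℝ) := by
    have := (RingHom.map_det (Int.castRingHom ℝ) v).symm
    simpa [hV] using this
  have hVdet0 : V.det ≠ 0 := by
    rw [hVdet]
    exact_mod_cast hv
  have hVu : IsUnit V.det := isUnit_iff_ne_zero.2 hVdet0
  set xr : Fin n → ℝ := fun l => (x l : ℝ) with hxr
  set c : Fin n → ℝ := xr ᵥ* V⁻¹ with hc
  have hcV : xr = ∑ i, c i • V i := by
    have h1 : c ᵥ* V = xr := by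
      rw [hc, Matrix.vecMul_vecMul, Matrix.nonsing_inv_mul _ hVu, Matrix.vecMul_one]
    rw [← h1]
    funext l
    rw [Finset.sum_apply]
    rfl
  have hxr0 : xr ≠ 0 := by
    intro h0
    apply hx0
    funext l
    have := congrFun h0 l
    simpa [hxr] using this
  have hcne : (Finset.univ.filter fun i => c i ≠ 0).Nonempty := by
    by_contra h0
    rw [Finset.not_nonempty_iff_eq_empty, Finset.filter_eq_empty_iff] at h0
    apply hxr0
    rw [hcV]
    refine Finset.sum_eq_zero fun i hi => ?_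
    have := h0 hi
    rw [not_not] at this
    rw [this, zero_smul]
  set k := (Finset.univ.filter fun i => c i ≠ 0).max' hcne with hk
  have hck : c k ≠ 0 := (Finset.mem_filter.1 (Finset.max'_mem _ hcne)).2
  have hcgt : ∀ i, k < i → c i = 0 := by
    intro i hi
    by_contra h0
    exact absurd (Finset.le_max' _ i (Finset.mem_filter.2 ⟨Finset.mem_univ _, h0⟩)) (not_le.2 hi)
  have hupd : (v.updateRow k x).det ≠ 0 := by
    intro h0
    have h1 : ((v.updateRow k x).map (Int.castRingHom ℝ)).det = 0 := by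
      have := (RingHom.map_det (Int.castRingHom ℝ) (v.updateRow k x)).symm
      rw [h0, map_zero] at this
      exact this
    have h2 : (v.updateRow k x).map (Int.castRingHom ℝ) = V.updateRow k xr := by
      ext i j
      by_cases hik : i = k
      · subst hik
        simp [Matrix.map_apply, hxr]
      · simp [Matrix.map_apply, Matrix.updateRow_ne hik, hV]
    rw [h2, hcV, Matrix.det_updateRow_sum, smul_eq_mul] at h1
    exact mul_ne_zero hck hVdet0 h1
  have hlong := hP k x hupd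
  -- the inner products
  have hwlin : wz x = ∑ i, c i • wz (v i) := by
    have h1 : wz x = w xr := rfl
    have h2 : ∀ i, wz (v i) = w (V i) := fun i => rfl
    simp only [h1, h2]
    ext j
    rw [hwapp]
    have h3 : (∑ i, c i • w (V i)) j = ∑ i, c i * w (V i) j := by
      simp
    rw [h3]
    simp only [hwapp, Finset.mul_sum]
    rw [Finset.sum_comm]
    refine Finset.sum_congr rfl fun l _ => ?_
    have h4 : xr l = ∑ i, c i * V i l := by
      have := congrFun hcV l
      rw [Finset.sum_apply] at this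
      exact this
    rw [h4, Finset.mul_sum]
    refine Finset.sum_congr rfl fun i _ => ?_
    ring
  have hzero : ∀ j, k < j → ⟪e j, wz x⟫ = 0 := by
    intro j hj
    rw [hwlin, inner_sum]
    refine Finset.sum_eq_zero fun i _ => ?_
    rw [inner_smul_right]
    rcases lt_or_ge k i with hi | hi
    · rw [hcgt i hi, zero_mul]
    · rw [htri i j (hi.trans_lt hj), mul_zero]
  have hbound : ∀ j, ⟪e j, wz x⟫ ^ 2 ≤ (1 / (2 * n) * ‖wz (v k)‖) ^ 2 := by
    intro j
    rcases lt_or_ge k j with hj | hj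
    · rw [hzero j hj, zero_pow two_ne_zero]
      positivity
    · have h1 := hx j
      rw [hMapp, abs_mul, abs_inv, abs_of_pos (hlen j), inv_mul_eq_div, div_lt_iff₀ (hlen j)] at h1
      rw [← sq_abs]
      refine pow_le_pow_left₀ (abs_nonneg _) (h1.le.trans ?_) 2
      exact mul_le_mul_of_nonneg_left (hmono hj) hr.le
  have hnorm : ‖wz x‖ ^ 2 ≤ n * (1 / (2 * n) * ‖wz (v k)‖) ^ 2 := by
    rw [← e.sum_sq_norm_inner_right (wz x)]
    calc ∑ j, ‖⟪e j, wz x⟫‖ ^ 2 ≤ ∑ _j : Fin n, (1 / (2 * n) * ‖wz (v k)‖) ^ 2 := by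
          refine Finset.sum_le_sum fun j _ => ?_
          rw [Real.norm_eq_abs, sq_abs]
          exact hbound j
      _ = n * (1 / (2 * n) * ‖wz (v k)‖) ^ 2 := by simp
  have h7 : n * (1 / (2 * n) * ‖wz (v k)‖) ^ 2 = ‖wz (v k)‖ ^ 2 / (4 * n) := by
    field_simp
    ring
  rw [h7] at hnorm
  have hn1 : (1 : ℝ) ≤ n := by exact_mod_cast hn
  have h8 : ‖wz (v k)‖ ^ 2 / (4 * n) ≤ ‖wz (v k)‖ ^ 2 / 4 := by
    refine div_le_div_of_nonneg_left (by positivity) (by norm_num) (by linarith)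
  nlinarith [norm_nonneg (wz x), hlen k]

end Pool.Agent.H54.AM.Mkn

namespace Pool.Agent.H54.AM

theorem mkn : S_MKN := by
  intro n
  rcases Nat.eq_zero_or_pos n with rfl | hn
  · refine ⟨1, one_pos, fun A _ => ⟨1, by simp, ?_⟩⟩
    simp
  · have hn' : (0 : ℝ) < n := by exact_mod_cast hn
    refine ⟨(n : ℝ) ^ n * (2 * n : ℝ) ^ n, by positivity, fun A hA => ?_⟩
    obtain ⟨v, hv, h⟩ := Mkn.main hn A hA
    refine ⟨v, hv, ?_⟩
    have h1 : ∀ i, ∑ j, |∑ l, A j l * (v i l : ℝ)| ≤ n *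
        ‖(WithLp.toLp 2 (A.mulVec fun l => (v i l : ℝ)) : EuclideanSpace ℝ (Fin n))‖ := by
      intro i
      calc ∑ j, |∑ l, A j l * (v i l : ℝ)| ≤ ∑ _j : Fin n,
            ‖(WithLp.toLp 2 (A.mulVec fun l => (v i l : ℝ)) : EuclideanSpace ℝ (Fin n))‖ := by
            refine Finset.sum_le_sum fun j _ => ?_
            exact PiLp.norm_apply_le
              (WithLp.toLp 2 (A.mulVec fun l => (v i l : ℝ)) : EuclideanSpace ℝ (Fin n)) j
        _ = _ := by simp
    calc ∏ i, ∑ j, |∑ l, A j l * (v i l : ℝ)| ≤ ∏ i : Fin n, ((n : ℝ) *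
          ‖(WithLp.toLp 2 (A.mulVec fun l => (v i l : ℝ)) : EuclideanSpace ℝ (Fin n))‖) :=
          Finset.prod_le_prod (fun i _ => Finset.sum_nonneg fun j _ => abs_nonneg _)
            fun i _ => h1 i
      _ = (n : ℝ) ^ n * ∏ i : Fin n,
          ‖(WithLp.toLp 2 (A.mulVec fun l => (v i l : ℝ)) : EuclideanSpace ℝ (Fin n))‖ := by
          rw [Finset.prod_mul_distrib]
          simp
      _ ≤ (n : ℝ) ^ n * ((2 * n : ℝ) ^ n * |A.det|) :=
          mul_le_mul_of_nonneg_left h (by positivity)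
      _ = _ := by ring

end Pool.Agent.H54.AM
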