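import Mathlib
import Pool.Agent.H54.AM.Defs
import Pool.Agent.H54.AD.Pad

set_option autoImplicit false

/-!
# The monomials at a point close to a finite set (n variables, S_PADN)
-/

namespace Pool.Agent.H54.AM.Padn

open Polynomial Finset
open Pool.Agent.H54.AM
open Pool.Agent.H54.AD.Pad (div_bound exists_coef binom scale)

section field

variable {K : Type*} [Field K]

theorem rowN_eq {n : ℕ} {N : Fin n → ℕ} {x : K} (hx : x ≠ 0) (γ : Fin n → K) (a : Fin n → ℤ)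
    (k : ∀ i, Fin (N i)) :
    rowN N (fun i => x ^ a i * γ i) k =
      x ^ (∑ i, a i * ((k i : ℕ) : ℤ)) * ∏ i, γ i ^ (k i : ℕ) := by
  unfold rowN
  simp only [mul_pow]
  rw [Finset.prod_mul_distrib]
  congr 1
  have h : ∀ s : Finset (Fin n), ∏ i ∈ s, (x ^ a i) ^ (k i : ℕ) =
      x ^ (∑ i ∈ s, a i * ((k i : ℕ) : ℤ)) := by
    intro s
    classical
    induction s using Finset.induction_on with
    | empty => simp
    | insert i s hi ih =>
      rw [Finset.prod_insert hi, Finset.sum_insert hi, ih, zpow_add₀ hx, zpow_mul, zpow_natCast]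
  exact h Finset.univ

end field

section main

variable {K : Type*} [NormedField K] [IsUltrametricDist K]

theorem half {ι : Type*} (n T : ℕ) (N : Fin n → ℕ) (a : Fin n → ℤ) (Y : Finset ι)
    (x : ι → K) (γ : Fin n → K) (ρ : ℝ) (hρ : 0 < ρ) (hρ1 : ρ ≤ 1)
    (hinj : Set.InjOn x Y) (hx : ∀ l ∈ Y, x l ≠ 0) (h1 : ∀ i, ‖γ i‖ = 1) :
    ∃ U : Submodule K ((∀ i, Fin (N i)) → K),
      Module.finrank K U ≤ T ^ (n + 1) *
        rkN N (fun l i => x l ^ a i * γ i) (Y : Set ι) ∧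
      ∀ (z : K) (γ' : Fin n → K), z ≠ 0 → ‖z‖ ≤ 1 → (∀ i, ‖γ' i‖ = 1) →
        (∀ i, ‖γ' i - γ i‖ ≤ ρ) →
        ∏ l ∈ Y, ‖z - x l‖ ≤ ρ * ∏ l ∈ Y, (max 1 ‖z‖ * max 1 ‖x l‖) →
        ∃ w ∈ U, ∀ k, ‖rowN N (fun i => z ^ a i * γ' i) k - w k‖ ≤
          ρ ^ T * ∏ i, (max 1 ‖z ^ a i‖) ^ N i := by
  classical
  set W : Submodule K ((∀ i, Fin (N i)) → K) := Submodule.span K
    ((fun l => rowN N (fun i => x l ^ a i * γ i)) '' (Y : Set ι)) with hW
  set A : ℕ := ∑ i, (-a i).toNat * N i with hA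
  set b : (∀ i, Fin (N i)) → ℕ := fun k => ((∑ i, a i * ((k i : ℕ) : ℤ)) + A).toNat with hb
  have hbA : ∀ k, (b k : ℤ) = (∑ i, a i * ((k i : ℕ) : ℤ)) + A := by
    intro k
    have e1 : ∀ (a : ℤ) (m N : ℕ), m ≤ N → 0 ≤ a * m + ((-a).toNat * N : ℕ) := by
      intro a m N hmN
      have e2 : -a ≤ ((-a).toNat : ℤ) := Int.self_le_toNat _
      have e3 : (m : ℤ) ≤ N := by exact_mod_cast hmN
      have e4 : (0 : ℤ) ≤ ((-a).toNat : ℤ) := by positivity
      push_cast
      nlinarith [mul_le_mul_of_nonneg_left e3 e4, mul_le_mul_of_nonneg_right e2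
        (show (0 : ℤ) ≤ m by positivity)]
    simp only [hb]
    rw [Int.toNat_of_nonneg]
    rw [hA, Nat.cast_sum, ← Finset.sum_add_distrib]
    exact Finset.sum_nonneg fun i _ => e1 (a i) (k i) (N i) (k i).2.le
  set D : (Fin n → Fin T) × Fin T → ((∀ i, Fin (N i)) → K) := fun j k =>
    (∏ i, ((k i : ℕ).choose (j.1 i) : K)) * ((b k).choose j.2 : K) with hD
  set Ψ : ((Fin n → Fin T) × Fin T → W) →ₗ[K] ((∀ i, Fin (N i)) → K) :=
    ∑ j, (LinearMap.mulLeft K (D j)).comp (W.subtype.comp (LinearMap.proj j)) with hΨ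
  have hmem : ∀ (j : (Fin n → Fin T) × Fin T) (l : ι), l ∈ Y →
      D j * rowN N (fun i => x l ^ a i * γ i) ∈ LinearMap.range Ψ := by
    intro j l hl
    have hl' : rowN N (fun i => x l ^ a i * γ i) ∈ W :=
      Submodule.subset_span ⟨l, hl, rfl⟩
    refine ⟨Pi.single j ⟨_, hl'⟩, ?_⟩
    rw [hΨ, LinearMap.sum_apply, Finset.sum_eq_single j]
    · simp
    · intro j' _ hj'
      simp [Pi.single_eq_of_ne hj']
    · intro h
      exact absurd (Finset.mem_univ j) h
  refine ⟨LinearMap.range Ψ, ?_, ?_⟩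
  · refine (LinearMap.finrank_range_le Ψ).trans ?_
    rw [Module.finrank_pi_fintype, Finset.sum_const, Finset.card_univ, Fintype.card_prod,
      Fintype.card_pi, Finset.prod_const, Finset.card_univ, Fintype.card_fin, Fintype.card_fin,
      smul_eq_mul]
    refine le_of_eq ?_
    show T ^ n * T * Module.finrank K W = T ^ (n + 1) * Module.finrank K W
    ring
  intro z γ' hz0 hz hg hd hprod
  -- the small value
  set Y0 : Finset ι := Y.filter (fun l => ‖x l‖ ≤ 1) with hY0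
  have hsmall : ∏ l ∈ Y0, ‖z - x l‖ ≤ ρ := by
    rw [← Finset.prod_filter_mul_prod_filter_not Y (fun l => ‖x l‖ ≤ 1),
      ← Finset.prod_filter_mul_prod_filter_not Y (fun l => ‖x l‖ ≤ 1)] at hprod
    have e1 : ∏ l ∈ Y with ‖x l‖ ≤ 1, (max 1 ‖z‖ * max 1 ‖x l‖) = 1 := by
      refine Finset.prod_eq_one fun l hl => ?_
      rw [max_eq_left hz, max_eq_left (Finset.mem_filter.1 hl).2, one_mul]
    have e2 : ∏ l ∈ Y with ¬ ‖x l‖ ≤ 1, (max 1 ‖z‖ * max 1 ‖x l‖) =
        ∏ l ∈ Y with ¬ ‖x l‖ ≤ 1, ‖z - x l‖ := by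
      refine Finset.prod_congr rfl fun l hl => ?_
      have e3 : 1 < ‖x l‖ := not_le.1 (Finset.mem_filter.1 hl).2
      rw [max_eq_left hz, max_eq_right e3.le, one_mul]
      have e4 : ‖z‖ ≠ ‖x l‖ := (hz.trans_lt e3).ne
      rw [sub_eq_add_neg, IsUltrametricDist.norm_add_eq_max_of_norm_ne_norm (by rwa [norm_neg]),
        norm_neg, max_eq_right (hz.trans e3.le)]
    rw [e1, e2, one_mul] at hprod
    have e5 : 0 < ∏ l ∈ Y with ¬ ‖x l‖ ≤ 1, ‖z - x l‖ := by
      rw [← e2]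
      exact Finset.prod_pos fun l _ => by positivity
    exact le_of_mul_le_mul_right hprod e5
  have hx0 : ∀ l ∈ Y0, ‖x l‖ ≤ 1 := fun l hl => (Finset.mem_filter.1 hl).2
  have hinj0 : Set.InjOn x Y0 := hinj.mono (by
    intro l hl
    exact (Finset.mem_filter.1 hl).1)
  set f : K[X] := ∏ l ∈ Y0, (X - C (x l)) with hf
  -- the vectors
  set v : (Fin n → ℕ) → ((∀ i, Fin (N i)) → K) := fun r k =>
    (∏ i, ((k i : ℕ).choose (r i) : K)) *
      (∏ i, γ i ^ (k i : ℕ)) * (X ^ (b k) %ₘ f ^ (T - ∑ i, r i)).eval z with hv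
  have hvU : ∀ r : Fin n → ℕ, ∑ i, r i < T → v r ∈ LinearMap.range Ψ := by
    intro r hr
    have hri : ∀ i, r i < T := fun i =>
      (Finset.single_le_sum (fun j _ => Nat.zero_le (r j)) (Finset.mem_univ i)).trans_lt hr
    obtain ⟨c, hc⟩ := exists_coef Y0 x hinj0 (T - ∑ i, r i) z
    have e1 : v r = ∑ l ∈ Y0, ∑ j ∈ (range (T - ∑ i, r i)).attach,
        (c l j * x l ^ ((A : ℤ) - (j : ℕ))) •
          (D (fun i => ⟨r i, hri i⟩, ⟨j, by
            have := Finset.mem_range.1 j.2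
            omega⟩) *
            rowN N (fun i => x l ^ a i * γ i)) := by
      funext k
      simp only [hv]
      rw [hc, Finset.sum_apply, Finset.mul_sum]
      refine Finset.sum_congr rfl fun l hl => ?_
      have hxl : x l ≠ 0 := hx l (Finset.mem_filter.1 hl).1
      rw [Finset.sum_apply, Finset.mul_sum, ← Finset.sum_attach]
      refine Finset.sum_congr rfl fun j _ => ?_
      rw [Pi.smul_apply, Pi.mul_apply, smul_eq_mul, rowN_eq hxl, X_pow_eq_monomial,
        hasseDeriv_monomial, eval_monomial]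
      simp only [hD]
      by_cases hi : (j : ℕ) ≤ b k
      · have e2 : x l ^ (b k - (j : ℕ)) = x l ^ ((A : ℤ) - (j : ℕ)) *
            x l ^ (∑ i, a i * ((k i : ℕ) : ℤ)) := by
          rw [← zpow_natCast, ← zpow_add₀ hxl]
          congr 1
          rw [Nat.cast_sub hi, hbA]
          ring
        rw [e2]
        ring
      · rw [Nat.choose_eq_zero_of_lt (not_le.1 hi), Nat.cast_zero]
        ring
    rw [e1]
    refine Submodule.sum_mem _ fun l hl => Submodule.sum_mem _ fun i _ => Submodule.smul_mem _ _ ?_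
    exact hmem _ l (Finset.mem_filter.1 hl).1
  -- the differences
  have hγ : ∀ i, γ i ≠ 0 := fun i => norm_pos_iff.1 (by rw [h1 i]; exact one_pos)
  set w : Fin n → K := fun i => γ' i / γ i - 1 with hw
  have ew : ∀ i, γ' i = γ i * (1 + w i) := by
    intro i
    have := hγ i
    simp only [hw]
    field_simp
    ring
  have nw : ∀ i, ‖w i‖ ≤ ρ := by
    intro i
    have e : w i = (γ' i - γ i) / γ i := by
      have := hγ i
      simp only [hw]
      field_simp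
    rw [e, norm_div, h1 i, div_one]
    exact hd i
  set J : Finset (Fin n → ℕ) := Fintype.piFinset (fun i => range (N i)) with hJ
  set u : (Fin n → ℕ) → K := fun r => z⁻¹ ^ A * ∏ i, w i ^ r i with hu
  refine ⟨∑ r ∈ J, (if ∑ i, r i < T then u r else 0) • v r, ?_, fun k => ?_⟩
  · refine Submodule.sum_mem _ fun r _ => ?_
    split_ifs with h
    · exact Submodule.smul_mem _ _ (hvU r h)
    · rw [zero_smul]
      exact Submodule.zero_mem _
  · have e1 : rowN N (fun i => z ^ a i * γ' i) k = ∑ r ∈ J, u r *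
        ((∏ i, ((k i : ℕ).choose (r i) : K)) * (∏ i, γ i ^ (k i : ℕ)) * z ^ (b k)) := by
      rw [rowN_eq hz0]
      have e2 : z ^ (∑ i, a i * ((k i : ℕ) : ℤ)) = z⁻¹ ^ A * z ^ (b k) := by
        rw [← zpow_natCast z (b k), hbA, zpow_add₀ hz0 _ (A : ℤ), zpow_natCast, inv_pow]
        have : z ^ A ≠ 0 := pow_ne_zero _ hz0
        field_simp
      have e3 : ∏ i, γ' i ^ (k i : ℕ) = (∏ i, γ i ^ (k i : ℕ)) *
          ∑ r ∈ J, ∏ i, (((k i : ℕ).choose (r i) : K) * w i ^ r i) := by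
        have e5 := Finset.prod_univ_sum (fun i => range (N i))
          (fun i j => ((k i : ℕ).choose j : K) * w i ^ j)
        rw [hJ, ← e5, ← Finset.prod_mul_distrib]
        refine Finset.prod_congr rfl fun i _ => ?_
        rw [ew i, mul_pow, binom (w i) (k i) (N i) (k i).2]
      rw [e2, e3, Finset.mul_sum, Finset.mul_sum]
      refine Finset.sum_congr rfl fun r _ => ?_
      simp only [hu]
      rw [Finset.prod_mul_distrib]
      ring
    rw [e1, Finset.sum_apply, ← Finset.sum_sub_distrib]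
    have hzA : ‖z⁻¹ ^ A‖ = ∏ i, (max 1 ‖z ^ a i‖) ^ N i := by
      rw [norm_pow, norm_inv, hA, ← Finset.prod_pow_eq_pow_sum]
      refine Finset.prod_congr rfl fun i _ => ?_
      rw [pow_mul, scale hz0 hz]
    rw [← hzA]
    refine IsUltrametricDist.norm_sum_le_of_forall_le_of_nonneg (by positivity) fun r _ => ?_
    have hnat : ∀ m : ℕ, ‖(m : K)‖ ≤ 1 := fun m => IsUltrametricDist.norm_natCast_le_one K m
    have key : ‖∏ i, w i ^ r i‖ ≤ ρ ^ (∑ i, r i) := by
      rw [norm_prod, ← Finset.prod_pow_eq_pow_sum]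
      refine Finset.prod_le_prod (fun i _ => norm_nonneg _) fun i _ => ?_
      rw [norm_pow]
      exact pow_le_pow_left₀ (norm_nonneg _) (nw i) _
    have hcc : ‖(∏ i, ((k i : ℕ).choose (r i) : K)) * (∏ i, γ i ^ (k i : ℕ))‖ ≤ 1 := by
      rw [norm_mul, norm_prod, norm_prod]
      have e4 : ∏ i, ‖γ i ^ (k i : ℕ)‖ = 1 := by
        refine Finset.prod_eq_one fun i _ => ?_
        rw [norm_pow, h1 i, one_pow]
      rw [e4, mul_one]
      exact Finset.prod_le_one (fun i _ => norm_nonneg _) fun i _ => hnat _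
    have hfin : ∀ y : K, ‖∏ i, w i ^ r i‖ * ‖y‖ ≤ ρ ^ T →
        ‖u r * ((∏ i, ((k i : ℕ).choose (r i) : K)) * (∏ i, γ i ^ (k i : ℕ)) * y)‖ ≤
          ρ ^ T * ‖z⁻¹ ^ A‖ := by
      intro y hy
      simp only [hu]
      rw [norm_mul, norm_mul, norm_mul (_ * _) y]
      calc ‖z⁻¹ ^ A‖ * ‖∏ i, w i ^ r i‖ * (‖(∏ i, ((k i : ℕ).choose (r i) : K)) *
            ∏ i, γ i ^ (k i : ℕ)‖ * ‖y‖)
          ≤ ‖z⁻¹ ^ A‖ * ‖∏ i, w i ^ r i‖ * (1 * ‖y‖) := by gcongr
        _ = ‖z⁻¹ ^ A‖ * (‖∏ i, w i ^ r i‖ * ‖y‖) := by ring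
        _ ≤ ‖z⁻¹ ^ A‖ * ρ ^ T := by gcongr
        _ = _ := mul_comm _ _
    split_ifs with h
    · have e4 : u r * ((∏ i, ((k i : ℕ).choose (r i) : K)) * (∏ i, γ i ^ (k i : ℕ)) *
            z ^ (b k)) - (u r • v r) k =
          u r * ((∏ i, ((k i : ℕ).choose (r i) : K)) * (∏ i, γ i ^ (k i : ℕ)) * (z ^ (b k) -
            (X ^ (b k) %ₘ f ^ (T - ∑ i, r i)).eval z)) := by
        rw [Pi.smul_apply, smul_eq_mul]
        simp only [hv]
        ring
      rw [e4]
      refine hfin _ ?_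
      have e5 := div_bound Y0 x hx0 z hz (b k) (T - ∑ i, r i) ρ hsmall
      calc ‖∏ i, w i ^ r i‖ * ‖z ^ b k - eval z (X ^ b k %ₘ f ^ (T - ∑ i, r i))‖
          ≤ ρ ^ (∑ i, r i) * ρ ^ (T - ∑ i, r i) := by gcongr
        _ = ρ ^ T := by
          rw [← pow_add]
          congr 1
          omega
    · rw [zero_smul, Pi.zero_apply, sub_zero]
      refine hfin _ ?_
      calc ‖∏ i, w i ^ r i‖ * ‖z ^ b k‖ ≤ ρ ^ (∑ i, r i) * 1 := by
            gcongr
            rw [norm_pow]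
            exact pow_le_one₀ (norm_nonneg _) hz
        _ ≤ ρ ^ T := by
          rw [mul_one]
          exact pow_le_pow_of_le_one hρ.le hρ1 (not_lt.1 h)

end main

end Pool.Agent.H54.AM.Padn

namespace Pool.Agent.H54.AM

open Finset

theorem padn : S_PADN := by
  intro p _ ι n T N a Y x γ ρ hρ hρ1 hinj hx h1
  obtain ⟨U1, hU1, H1⟩ := Padn.half n T N a Y x γ ρ hρ hρ1 hinj hx h1
  obtain ⟨U2, hU2, H2⟩ := Padn.half n T N (fun i => -a i) Y (fun l => (x l)⁻¹) γ ρ hρ hρ1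
    (fun l hl l' hl' h => hinj hl hl' (inv_injective h)) (fun l hl => inv_ne_zero (hx l hl)) h1
  have e0 : ∀ (y : PadicAlgCl p) (a : ℤ), (y⁻¹) ^ (-a) = y ^ a := fun y a => by
    rw [inv_zpow, zpow_neg, inv_inv]
  simp only [e0] at hU2
  refine ⟨U1 ⊔ U2, ?_, ?_⟩
  · refine (Submodule.finrank_add_le_finrank_add_finrank U1 U2).trans ?_
    calc _ ≤ _ := add_le_add hU1 hU2
      _ = _ := by ring
  · intro z γ' hz0 hg hd hprod
    rcases le_total ‖z‖ 1 with hz | hz
    · obtain ⟨w, hw, hw'⟩ := H1 z γ' hz0 hz hg hd hprod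
      exact ⟨w, Submodule.mem_sup_left hw, hw'⟩
    · have hzp : 0 < ‖z‖ := norm_pos_iff.2 hz0
      have hz' : ‖z⁻¹‖ ≤ 1 := by
        rw [norm_inv]
        exact inv_le_one_of_one_le₀ hz
      obtain ⟨w, hw, hw'⟩ := H2 z⁻¹ γ' (inv_ne_zero hz0) hz' hg hd (by
        have e1 : ∀ l ∈ Y, ‖z⁻¹ - (x l)⁻¹‖ = ‖z - x l‖ * (‖z‖ * ‖x l‖)⁻¹ := by
          intro l hl
          have hxl := hx l hl
          rw [inv_sub_inv hz0 hxl, norm_div, norm_mul, norm_sub_rev, div_eq_mul_inv]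
        have e2 : ∀ l ∈ Y, max 1 ‖z⁻¹‖ * max 1 ‖(x l)⁻¹‖ =
            (max 1 ‖z‖ * max 1 ‖x l‖) * (‖z‖ * ‖x l‖)⁻¹ := by
          intro l hl
          have e3 : ∀ y : PadicAlgCl p, y ≠ 0 → max 1 ‖y⁻¹‖ = max 1 ‖y‖ * ‖y‖⁻¹ := by
            intro y hy
            have hyp : 0 < ‖y‖ := norm_pos_iff.2 hy
            rw [norm_inv, max_mul_of_nonneg _ _ (by positivity), one_mul, mul_inv_cancel₀ hyp.ne',
              max_comm]
          rw [e3 z hz0, e3 _ (hx l hl), mul_inv]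
          ring
        rw [Finset.prod_congr rfl e1, Finset.prod_congr rfl e2, Finset.prod_mul_distrib,
          Finset.prod_mul_distrib, ← mul_assoc]
        refine mul_le_mul_of_nonneg_right hprod ?_
        exact Finset.prod_nonneg fun l _ => by positivity)
      simp only [e0] at hw'
      exact ⟨w, Submodule.mem_sup_right hw, hw'⟩

end Pool.Agent.H54.AM
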