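import Pool.Agent.H54.AM.Defs

set_option autoImplicit false
set_option linter.unusedVariables false

/-!
# A polynomial of small degree which vanishes at a point (helper85; from AD/Prm.lean)
-/

namespace Pool.Agent.H54.AM

open MvPolynomial
open Pool.Agent.W237.RK
open Pool.Agent.H58P (Qb ht)
open Pool.Agent.N684.BK (wd PW)

namespace Sgl

theorem orbN_finite (E : GF) {n : ℕ} (v : Fin n → Qb) : (orbN E v).Finite := by
  classical
  have h1 : ∀ (w : Qb), {x : Qb | ∃ ρ : Aut, ρ w = x}.Finite := by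
    intro w
    have hne : minpoly ℚ w ≠ 0 :=
      minpoly.ne_zero ((AlgebraicClosure.isAlgebraic ℚ).isAlgebraic w).isIntegral
    apply ((minpoly ℚ w).rootSet_finite Qb).subset
    rintro x ⟨ρ, rfl⟩
    rw [Polynomial.mem_rootSet]
    refine ⟨hne, ?_⟩
    have h2 : Polynomial.aeval (ρ w) (minpoly ℚ w) = ρ (Polynomial.aeval w (minpoly ℚ w)) := by
      rw [← AlgEquiv.coe_toAlgHom, ← Polynomial.aeval_algHom_apply]
    rw [h2, minpoly.aeval, map_zero]
  apply (Set.Finite.pi' fun i => h1 (v i)).subset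
  rintro x ⟨ρ, hρ, rfl⟩ i
  exact ⟨ρ, rfl⟩

theorem finrank_le (E : GF) {n : ℕ} (v : Fin n → Qb) (hE : FiniteDimensional ℚ E) :
    FiniteDimensional E (IntermediateField.adjoin E (Set.range v)) ∧
    Module.finrank E (IntermediateField.adjoin E (Set.range v)) ≤ (orbN E v).ncard := by
  classical
  have hQ : Algebra.IsAlgebraic ℚ Qb := AlgebraicClosure.isAlgebraic ℚ
  have hQ1 : IsAlgClosure ℚ Qb := ⟨inferInstance, hQ⟩
  have hQ2 : Normal ℚ Qb := IsAlgClosure.normal ℚ Qb
  have hQ3 : Algebra.IsAlgebraic E Qb := Algebra.IsAlgebraic.tower_top (K := ℚ) E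
  have hQ4 : Normal E Qb := Normal.tower_top_of_normal ℚ E Qb
  set L := IntermediateField.adjoin E (Set.range v) with hL
  have hfin : FiniteDimensional E L := by
    have : Finite (Set.range v) := Set.finite_range v
    apply IntermediateField.finiteDimensional_adjoin
    intro x _
    exact Algebra.IsIntegral.isIntegral x
  refine ⟨hfin, ?_⟩
  have hv : ∀ i, v i ∈ L := fun i => IntermediateField.subset_adjoin E _ ⟨i, rfl⟩
  have hcard : Fintype.card (L →ₐ[E] Qb) = Module.finrank E L := AlgHom.card E L Qb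
  rw [← hcard, ← Nat.card_eq_fintype_card, ← Set.ncard_univ]
  refine Set.ncard_le_ncard_of_injOn (fun ρ : L →ₐ[E] Qb => fun i => ρ ⟨v i, hv i⟩) ?_ ?_
    (orbN_finite E v)
  · intro ρ _
    let τ : Qb →ₐ[E] Qb := AlgHom.liftNormal ρ Qb
    have hτ : ∀ x : L, τ (x : Qb) = ρ x := fun x => AlgHom.liftNormal_commutes ρ Qb x
    have hbij : Function.Bijective τ := Algebra.IsAlgebraic.algHom_bijective τ
    let τe : Qb ≃ₐ[E] Qb := AlgEquiv.ofBijective τ hbij
    refine ⟨AlgEquiv.restrictScalars ℚ τe, ?_, ?_⟩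
    · intro x hx
      have := τ.commutes (⟨x, hx⟩ : E)
      exact this
    · funext i
      show τ (v i) = _
      rw [← hτ ⟨v i, hv i⟩]
  · intro ρ _ ρ' _ h
    apply IntermediateField.algHom_ext_of_eq_adjoin E hL
    rintro _ ⟨i, rfl⟩
    exact congrFun h i

end Sgl

open Sgl in
theorem sgl : S_SGL := by
  classical
  intro E n v wt t hE hwt hlt
  obtain ⟨hfin, hle⟩ := finrank_le E v hE
  set L := IntermediateField.adjoin E (Set.range v) with hL
  have hv : ∀ i, v i ∈ L := fun i => IntermediateField.subset_adjoin E _ ⟨i, rfl⟩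
  let F : PW E wt t →ₗ[E] L :=
    (aeval (fun i => (⟨v i, hv i⟩ : L)) : MvPolynomial (Fin n) E →ₐ[E] L).toLinearMap ∘ₗ
      (PW E wt t).subtype
  have hninj : ¬ Function.Injective F := by
    intro h
    have h1 := LinearMap.finrank_le_finrank_of_injective h
    omega
  rw [← LinearMap.ker_eq_bot, Submodule.eq_bot_iff] at hninj
  push Not at hninj
  obtain ⟨f, hf, hf0⟩ := hninj
  refine ⟨f, f.2, fun h => hf0 (Subtype.ext h), ?_⟩
  have h1 : aeval (fun i => (⟨v i, hv i⟩ : L)) (f : MvPolynomial (Fin n) E) = 0 := hf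
  rw [pid, RingHom.mem_ker]
  have h2 : aeval v (f : MvPolynomial (Fin n) E) =
      algebraMap L Qb (aeval (fun i => (⟨v i, hv i⟩ : L)) (f : MvPolynomial (Fin n) E)) := by
    rw [← aeval_algebraMap_apply]
    rfl
  rw [h2, h1, map_zero]

end Pool.Agent.H54.AM
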