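import Mathlib
import Pool.Agent.H54.AM.Defs

/-!
# The theorem of Skolem, Mahler and Lech for simple exponential sums (helper85)
-/

set_option autoImplicit false

namespace Pool.Agent.H54.AM

namespace Sml

section V

open Polynomial Filter Topology

/-- a series `∑ B j w (w - 1) ⋯ (w - j + 1)` with `B j → 0` which vanishes at infinitely many natural numbers -/
theorem vanish {Ω : Type*} [NormedField Ω] [IsUltrametricDist Ω] [CharZero Ω]
    (B : ℕ → Ω) (hB : Tendsto B atTop (𝓝 0)) (W : Set ℕ) (hW : W.Infinite)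
    (h : ∀ w ∈ W, ∑ j ∈ Finset.range (w + 1), B j * (w.descFactorial j : Ω) = 0) :
    ∀ j, B j = 0 := by
  by_contra hcon
  push Not at hcon
  obtain ⟨j₀, hj₀⟩ := hcon
  have hn0 : 0 < ‖B j₀‖ := norm_pos_iff.2 hj₀
  -- the last large coefficient
  obtain ⟨s, hs1, hs2⟩ : ∃ s, ‖B j₀‖ ≤ ‖B s‖ ∧ ∀ j, s < j → ‖B j‖ < ‖B j₀‖ := by
    have h1 : ∀ᶠ j in atTop, ‖B j‖ < ‖B j₀‖ := by
      have h2 := hB.norm
      rw [norm_zero] at h2
      exact h2.eventually (gt_mem_nhds hn0)
    obtain ⟨N, hN⟩ := eventually_atTop.1 h1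
    obtain ⟨S, hS⟩ : ∃ S : Finset ℕ, S = (Finset.range (N + j₀ + 1)).filter (fun j => ‖B j₀‖ ≤ ‖B j‖) :=
      ⟨_, rfl⟩
    have hne : S.Nonempty := ⟨j₀, by rw [hS]; simp⟩
    obtain ⟨s, hsS, hsm⟩ := S.exists_max_image id hne
    refine ⟨s, ?_, ?_⟩
    · rw [hS, Finset.mem_filter] at hsS
      exact hsS.2
    · intro j hj
      by_contra hlt
      push Not at hlt
      have hjN : j < N := by
        by_contra hge
        push Not at hge
        exact absurd (hN j hge) (not_lt.2 hlt)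
      have hjS : j ∈ S := by
        rw [hS, Finset.mem_filter, Finset.mem_range]
        exact ⟨by omega, hlt⟩
      have := hsm j hjS
      simp only [id] at this
      omega
  obtain ⟨T, hTW, hTc⟩ := hW.exists_subset_card_eq (s + 1)
  obtain ⟨ω, hω⟩ : ∃ ω : ℤ[X], ω = ∏ w ∈ T, (X - C (w : ℤ)) := ⟨_, rfl⟩
  have hωm : ω.Monic := by rw [hω]; exact monic_prod_of_monic _ _ fun w _ => monic_X_sub_C _
  have hωd : ω.natDegree = s + 1 := by
    rw [hω, natDegree_prod_of_monic _ _ fun w _ => monic_X_sub_C _]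
    rw [Finset.sum_congr rfl fun (w : ℕ) _ => natDegree_X_sub_C (w : ℤ)]
    simp [hTc]
  obtain ⟨N, hN⟩ : ∃ N : ℕ, N = T.sup id + s := ⟨_, rfl⟩
  have hTN : ∀ w ∈ T, w ≤ N := fun w hw => by
    have := Finset.le_sup (f := id) hw
    simp only [id] at this
    omega
  obtain ⟨f, hf⟩ : ∃ f : ℤ →+* Ω, f = Int.castRingHom Ω := ⟨_, rfl⟩
  obtain ⟨F, hF⟩ : ∃ F : Polynomial Ω, F = ∑ j ∈ Finset.range (N + 1), B j • (descPochhammer ℤ j).map f :=
    ⟨_, rfl⟩
  have hroot : ∀ w ∈ T, F.eval (w : Ω) = 0 := by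
    intro w hw
    rw [hF, eval_finsetSum]
    have h1 : ∀ j, eval (w : Ω) (B j • (descPochhammer ℤ j).map f) = B j * (w.descFactorial j : Ω) := by
      intro j
      rw [eval_smul, smul_eq_mul]
      congr 1
      have h2 : (w : Ω) = f (w : ℤ) := by rw [hf]; simp
      rw [h2, eval_map, eval₂_hom, descPochhammer_eval_eq_descFactorial, hf]
      simp
    rw [Finset.sum_congr rfl fun j _ => h1 j, ← h w (hTW hw)]
    symm
    apply Finset.sum_subset
    · intro j hj
      rw [Finset.mem_range] at hj ⊢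
      have := hTN w hw
      omega
    · intro j _ hj
      rw [Finset.mem_range, not_lt] at hj
      rw [Nat.descFactorial_of_lt (by omega)]
      simp
  have hωmap : ω.map f = ∏ w ∈ T, (X - C (w : Ω)) := by
    rw [hω, Polynomial.map_prod]
    refine Finset.prod_congr rfl fun w _ => ?_
    rw [Polynomial.map_sub, map_X, map_C, hf]
    simp
  have hdvd : ω.map f ∣ F := by
    rw [hωmap]
    apply Finset.prod_dvd_of_coprime
    · intro a _ b _ hab
      exact pairwise_coprime_X_sub_C (s := fun n : ℕ => (n : Ω)) Nat.cast_injective hab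
    · intro w hw
      rw [dvd_iff_isRoot]
      exact hroot w hw
  have hmod : F %ₘ (ω.map f) = 0 := (modByMonic_eq_zero_iff_dvd (hωm.map f)).2 hdvd
  have hco : ∑ j ∈ Finset.range (N + 1), B j * f (((descPochhammer ℤ j) %ₘ ω).coeff s) = 0 := by
    have h1 : F %ₘ (ω.map f) =
        ∑ j ∈ Finset.range (N + 1), B j • ((descPochhammer ℤ j) %ₘ ω).map f := by
      have h2 : F %ₘ (ω.map f) = modByMonicHom (ω.map f) F := rfl
      rw [h2, hF, map_sum]
      refine Finset.sum_congr rfl fun j _ => ?_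
      rw [map_smul]
      congr 1
      show (descPochhammer ℤ j).map f %ₘ (ω.map f) = _
      rw [map_modByMonic f hωm]
    rw [h1] at hmod
    have h3 := congrArg (fun P : Polynomial Ω => P.coeff s) hmod
    simp only [finsetSum_coeff, coeff_smul, coeff_map, smul_eq_mul, coeff_zero] at h3
    exact h3
  have hlow : ∀ j, j ≤ s → ((descPochhammer ℤ j) %ₘ ω).coeff s = if j = s then 1 else 0 := by
    intro j hj
    have h1 : (descPochhammer ℤ j) %ₘ ω = descPochhammer ℤ j := by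
      rw [modByMonic_eq_self_iff hωm]
      apply degree_lt_degree
      rw [hωd, descPochhammer_natDegree]
      omega
    rw [h1]
    split_ifs with h2
    · subst h2
      have h3 := monic_descPochhammer ℤ j
      rw [Monic, leadingCoeff, descPochhammer_natDegree] at h3
      exact h3
    · apply coeff_eq_zero_of_natDegree_lt
      rw [descPochhammer_natDegree]
      omega
  have hsplit : ∑ j ∈ Finset.range (N + 1), B j * f (((descPochhammer ℤ j) %ₘ ω).coeff s) =
      B s + ∑ j ∈ Finset.Ico (s + 1) (N + 1), B j * f (((descPochhammer ℤ j) %ₘ ω).coeff s) := by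
    rw [Finset.range_eq_Ico, ← Finset.sum_Ico_consecutive _ (Nat.zero_le (s + 1)) (by omega)]
    congr 1
    rw [← Finset.range_eq_Ico, Finset.sum_range_succ, Finset.sum_eq_zero, zero_add, hlow s le_rfl,
      if_pos rfl, map_one, mul_one]
    intro j hj
    rw [Finset.mem_range] at hj
    rw [hlow j hj.le, if_neg hj.ne, map_zero, mul_zero]
  rw [hsplit] at hco
  have hfn : ∀ n : ℤ, ‖f n‖ ≤ 1 := by
    intro n
    rw [hf]
    exact IsUltrametricDist.norm_intCast_le_one Ω n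
  have hBs : ‖B s‖ = ‖∑ j ∈ Finset.Ico (s + 1) (N + 1), B j * f (((descPochhammer ℤ j) %ₘ ω).coeff s)‖ := by
    rw [eq_neg_of_add_eq_zero_left hco, norm_neg]
  rcases (Finset.Ico (s + 1) (N + 1)).eq_empty_or_nonempty with he | hne
  · rw [he, Finset.sum_empty, norm_zero] at hBs
    linarith
  · obtain ⟨j, hj, hle⟩ := IsUltrametricDist.exists_norm_finsetSum_le_of_nonempty hne
      (fun j => B j * f (((descPochhammer ℤ j) %ₘ ω).coeff s))
    rw [Finset.mem_Ico] at hj
    rw [← hBs, norm_mul] at hle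
    have h1 := hs2 j (by omega)
    have h2 : ‖B j‖ * ‖f (((descPochhammer ℤ j) %ₘ ω).coeff s)‖ ≤ ‖B j‖ * 1 :=
      mul_le_mul_of_nonneg_left (hfn _) (norm_nonneg _)
    linarith

end V

/-- the norms of the integers extend -/
theorem norm_nat (p : ℕ) [Fact p.Prime] (n : ℕ) : ‖(n : PadicAlgCl p)‖ = ‖(n : ℚ_[p])‖ := by
  have h := PadicAlgCl.norm_extends p (n : ℚ_[p])
  rw [← h]
  congr 1

/-- powers close to one -/
theorem pow_close {p : ℕ} [Fact p.Prime] (x : PadicAlgCl p) (hx : ‖x‖ = 1) {ε : ℝ} (hε : 0 < ε) :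
    ∃ l : ℕ, 0 < l ∧ ‖x ^ l - 1‖ < ε := by
  have hint : IsIntegral ℚ_[p] x := (Algebra.IsAlgebraic.isAlgebraic x).isIntegral
  let W : Submodule ℚ_[p] (PadicAlgCl p) := Subalgebra.toSubmodule (Algebra.adjoin ℚ_[p] {x})
  have hfin : FiniteDimensional ℚ_[p] W := Module.Finite.iff_fg.2 hint.fg_adjoin_singleton
  have hprop : ProperSpace W := FiniteDimensional.proper ℚ_[p] W
  let u : ℕ → W := fun n => ⟨x ^ n, pow_mem (Algebra.self_mem_adjoin_singleton ℚ_[p] x) n⟩
  have hu : ∀ n, u n ∈ Metric.closedBall (0 : W) 1 := by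
    intro n
    rw [mem_closedBall_zero_iff]
    show ‖x ^ n‖ ≤ 1
    rw [norm_pow, hx, one_pow]
  obtain ⟨a, -, φ, hφ, hlim⟩ := (isCompact_closedBall (0 : W) 1).tendsto_subseq hu
  have hc := hlim.cauchySeq
  rw [Metric.cauchySeq_iff'] at hc
  obtain ⟨n, hn⟩ := hc ε hε
  have h1 := hn (n + 1) (Nat.le_succ n)
  rw [dist_eq_norm] at h1
  have h2 : ‖x ^ φ (n + 1) - x ^ φ n‖ < ε := h1
  have h3 : φ n < φ (n + 1) := hφ (Nat.lt_succ_self n)
  refine ⟨φ (n + 1) - φ n, by omega, ?_⟩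
  have h4 : x ^ φ (n + 1) - x ^ φ n = x ^ φ n * (x ^ (φ (n + 1) - φ n) - 1) := by
    rw [mul_sub, ← pow_add, mul_one]
    congr 2
    omega
  rw [h4, norm_mul, norm_pow, hx, one_pow, one_mul] at h2
  exact h2

/-- powers of an element close to one stay close to one -/
theorem pow_pow_close {p : ℕ} [Fact p.Prime] (x : PadicAlgCl p) (hx : ‖x‖ = 1) {ε : ℝ} {l : ℕ}
    (h : ‖x ^ l - 1‖ < ε) (k : ℕ) : ‖x ^ (l * k) - 1‖ < ε := by
  have h0 : 0 < ε := (norm_nonneg _).trans_lt h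
  induction k with
  | zero => simpa using h0
  | succ k ih =>
    have h1 : x ^ (l * (k + 1)) - 1 = x ^ (l * k) * (x ^ l - 1) + (x ^ (l * k) - 1) := by
      rw [mul_add, mul_one, pow_add]; ring
    rw [h1]
    refine (IsUltrametricDist.norm_add_le_max _ _).trans_lt (max_lt ?_ ih)
    rw [norm_mul, norm_pow, hx, one_pow, one_mul]
    exact h

/-- a common exponent for a finite family -/
theorem fam_close {p : ℕ} [Fact p.Prime] {ι : Type} [Fintype ι] (x : ι → PadicAlgCl p)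
    (hx : ∀ i, ‖x i‖ = 1) {ε : ℝ} (hε : 0 < ε) : ∃ l : ℕ, 0 < l ∧ ∀ i, ‖x i ^ l - 1‖ < ε := by
  classical
  choose l hl hlx using fun i => pow_close (x i) (hx i) hε
  refine ⟨∏ i, l i, Finset.prod_pos fun i _ => hl i, fun i => ?_⟩
  rw [← Finset.mul_prod_erase _ _ (Finset.mem_univ i)]
  exact pow_pow_close (x i) (hx i) (hlx i) _

theorem norm_le_one_of_int (p : ℕ) [Fact p.Prime] (φ : AlgebraicClosure ℚ →+* PadicAlgCl p)
    {x : AlgebraicClosure ℚ} (hx : IsIntegral ℤ x) : ‖φ x‖ ≤ 1 := by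
  have h1 : IsIntegral ℤ (φ x) := map_isIntegral_int φ hx
  have h2 : φ x ∈ (NormedField.valuation (K := PadicAlgCl p)).integer := by
    apply Valuation.Integers.mem_of_integral (Valuation.integer.integers _)
    exact h1.tower_top
  have h3 : NormedField.valuation (φ x) ≤ 1 := h2
  exact h3

/-- a prime at which finitely many algebraic numbers are units -/
theorem exists_units {ι : Type} [Fintype ι] (g : ι → AlgebraicClosure ℚ) (hg : ∀ i, g i ≠ 0) :
    ∃ (p : ℕ) (_ : Fact p.Prime) (φ : AlgebraicClosure ℚ →+* PadicAlgCl p), ∀ i, ‖φ (g i)‖ = 1 := by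
  have key : ∀ x : AlgebraicClosure ℚ, ∃ d : ℤ, d ≠ 0 ∧ IsIntegral ℤ ((d : AlgebraicClosure ℚ) * x) := by
    intro x
    have h1 : IsAlgebraic ℤ x := by
      have h2 : IsAlgebraic ℚ x := (AlgebraicClosure.isAlgebraic ℚ).isAlgebraic x
      exact (IsFractionRing.isAlgebraic_iff ℤ ℚ (AlgebraicClosure ℚ)).mpr h2
    obtain ⟨y, hy, h⟩ := h1.exists_integral_multiple
    refine ⟨y, hy, ?_⟩
    rw [zsmul_eq_mul] at h
    exact h
  choose d₁ hd₁ h1 using fun i => key (g i)
  choose d₂ hd₂ h2 using fun i => key (g i)⁻¹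
  obtain ⟨p, hple, hp⟩ := Nat.exists_infinite_primes (∑ i, ((d₁ i).natAbs + (d₂ i).natAbs) + 1)
  have hfp : Fact p.Prime := ⟨hp⟩
  have : CharZero (PadicAlgCl p) := inferInstance
  let _ : Algebra ℚ (PadicAlgCl p) := DivisionRing.toRatAlgebra
  have halg : Algebra.IsAlgebraic ℚ (AlgebraicClosure ℚ) := AlgebraicClosure.isAlgebraic ℚ
  let φ : AlgebraicClosure ℚ →+* PadicAlgCl p :=
    ((IsAlgClosed.lift : AlgebraicClosure ℚ →ₐ[ℚ] PadicAlgCl p) : AlgebraicClosure ℚ →+* PadicAlgCl p)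
  refine ⟨p, ⟨hp⟩, φ, fun i => ?_⟩
  have hd : ∀ d : ℤ, d ≠ 0 → d.natAbs < p → ‖φ (d : AlgebraicClosure ℚ)‖ = 1 := by
    intro d hd0 hdp
    have e1 : φ (d : AlgebraicClosure ℚ) = algebraMap ℚ_[p] (PadicAlgCl p) (d : ℚ_[p]) := by
      rw [map_intCast, map_intCast]
    rw [e1, PadicAlgCl.norm_extends]
    apply le_antisymm (Padic.norm_int_le_one d)
    by_contra hlt
    push Not at hlt
    rw [Padic.norm_intCast_lt_one_iff] at hlt
    have := Int.le_of_dvd (abs_pos.mpr hd0) ((dvd_abs _ _).mpr hlt)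
    rw [Int.abs_eq_natAbs] at this
    omega
  have hsum : (d₁ i).natAbs + (d₂ i).natAbs ≤ ∑ i, ((d₁ i).natAbs + (d₂ i).natAbs) :=
    Finset.single_le_sum (f := fun i => (d₁ i).natAbs + (d₂ i).natAbs) (fun _ _ => Nat.zero_le _)
      (Finset.mem_univ i)
  have hl1 : (d₁ i).natAbs < p := by omega
  have hl2 : (d₂ i).natAbs < p := by omega
  have h3 := norm_le_one_of_int p φ (h1 i)
  have h4 := norm_le_one_of_int p φ (h2 i)
  rw [map_mul, norm_mul, hd _ (hd₁ i) hl1, one_mul] at h3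
  rw [map_mul, norm_mul, hd _ (hd₂ i) hl2, one_mul, map_inv₀, _root_.norm_inv] at h4
  have h5 : 0 < ‖φ (g i)‖ := norm_pos_iff.mpr ((map_ne_zero φ).mpr (hg i))
  apply le_antisymm h3
  rw [← inv_inv ‖φ (g i)‖]
  exact (one_le_inv₀ (by positivity)).mpr h4

/-- the lower bound for the norm of a factorial -/
theorem norm_fact (p : ℕ) [hp : Fact p.Prime] (j : ℕ) :
    ((p : ℝ)⁻¹) ^ j ≤ ‖((j.factorial : ℕ) : PadicAlgCl p)‖ := by
  rw [norm_nat, Padic.norm_eq_zpow_neg_valuation (by exact_mod_cast j.factorial_ne_zero),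
    Padic.valuation_natCast]
  have h1 : padicValNat p j.factorial ≤ j := by
    have h2 := sub_one_mul_padicValNat_factorial (p := p) j
    have h3 : padicValNat p j.factorial ≤ (p - 1) * padicValNat p j.factorial :=
      Nat.le_mul_of_pos_left _ (by have := hp.out.two_le; omega)
    omega
  have hp1 : (1 : ℝ) ≤ p := by exact_mod_cast hp.out.one_le
  rw [inv_pow, ← zpow_natCast, ← zpow_neg]
  apply zpow_le_zpow_right₀ hp1
  omega

/-- a residue class which contains infinitely many elements -/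
theorem res_class {Z : Set ℕ} (hZ : Z.Infinite) {b : ℕ} (hb : 0 < b) :
    ∃ a, {w : ℕ | a + b * w ∈ Z}.Infinite := by
  by_contra hcon
  push Not at hcon
  apply hZ
  have h1 : Z ⊆ ⋃ a ∈ Finset.range b, (fun w => a + b * w) '' {w : ℕ | a + b * w ∈ Z} := by
    intro z hz
    rw [Set.mem_iUnion₂]
    refine ⟨z % b, Finset.mem_range.2 (Nat.mod_lt _ hb), z / b, ?_, Nat.mod_add_div z b⟩
    show z % b + b * (z / b) ∈ Z
    rw [Nat.mod_add_div]
    exact hz
  refine Set.Finite.subset ?_ h1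
  apply Set.Finite.biUnion (Finset.finite_toSet _)
  intro a _
  exact (hcon a).image _

end Sml

open Pool.Agent.W237.RK
open Pool.Agent.H58P (Qb ht)
open Polynomial Filter Topology

/-- the theorem of Skolem, Mahler and Lech for simple exponential sums -/
theorem sml : S_SML := by
  classical
  intro ι _ _ c χ hc hχ hT Z hZ hsum
  obtain ⟨p, hp, ψ, hψ⟩ := Sml.exists_units χ hχ
  have hp1 : (1 : ℝ) < p := by exact_mod_cast hp.out.one_lt
  have hp0 : (0 : ℝ) < p := by linarith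
  obtain ⟨b, hb, hby⟩ := Sml.fam_close (fun i => ψ (χ i)) hψ (ε := ((p : ℝ)⁻¹) ^ 2) (by positivity)
  obtain ⟨y, hy⟩ : ∃ y : ι → PadicAlgCl p, y = fun i => ψ (χ i) ^ b - 1 := ⟨_, rfl⟩
  have hyn : ∀ i, ‖y i‖ ≤ ((p : ℝ)⁻¹) ^ 2 := fun i => by rw [hy]; exact (hby i).le
  obtain ⟨a, ha⟩ := Sml.res_class hZ hb
  obtain ⟨c', hc'⟩ : ∃ c' : ι → PadicAlgCl p, c' = fun i => ψ (c i) * ψ (χ i) ^ a := ⟨_, rfl⟩
  have hc'0 : ∀ i, c' i ≠ 0 := fun i => by
    rw [hc']
    exact mul_ne_zero ((map_ne_zero ψ).2 (hc i)) (pow_ne_zero _ ((map_ne_zero ψ).2 (hχ i)))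
  have hyinj : ∀ i j, i ≠ j → y i ≠ y j := by
    intro i j hij h
    rw [hy] at h
    have h1 : ψ (χ i) ^ b = ψ (χ j) ^ b := sub_left_injective h
    rw [← map_pow, ← map_pow] at h1
    have h2 : χ i ^ b = χ j ^ b := ψ.injective h1
    refine hT i j hij ⟨b, hb, ?_⟩
    rw [div_pow, h2, div_self (pow_ne_zero _ (hχ j))]
  -- the coefficients
  obtain ⟨B, hB⟩ : ∃ B : ℕ → PadicAlgCl p, B = fun j => (∑ i, c' i * y i ^ j) / ((j.factorial : ℕ) : PadicAlgCl p) :=
    ⟨_, rfl⟩
  have hfac : ∀ j : ℕ, ((j.factorial : ℕ) : PadicAlgCl p) ≠ 0 := fun j => by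
    exact_mod_cast j.factorial_ne_zero
  have hBt : Tendsto B atTop (𝓝 0) := by
    obtain ⟨M, hM⟩ : ∃ M : ℝ, M = ∑ i, ‖c' i‖ := ⟨_, rfl⟩
    have hMi : ∀ i, ‖c' i‖ ≤ M := fun i => by
      rw [hM]
      exact Finset.single_le_sum (f := fun i => ‖c' i‖) (fun _ _ => norm_nonneg _) (Finset.mem_univ i)
    have hM0 : 0 ≤ M := by rw [hM]; exact Finset.sum_nonneg fun _ _ => norm_nonneg _
    have hbd : ∀ j, ‖B j‖ ≤ M * ((p : ℝ)⁻¹) ^ j := by
      intro j
      rw [hB]
      simp only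
      rw [norm_div]
      have h1 : ‖∑ i, c' i * y i ^ j‖ ≤ M * (((p : ℝ)⁻¹) ^ 2) ^ j := by
        refine IsUltrametricDist.norm_sum_le_of_forall_le_of_nonneg (by positivity) fun i _ => ?_
        rw [norm_mul, norm_pow]
        exact mul_le_mul (hMi i) (pow_le_pow_left₀ (norm_nonneg _) (hyn i) j) (by positivity) hM0
      have h2 := Sml.norm_fact p j
      have h3 : 0 < ((p : ℝ)⁻¹) ^ j := by positivity
      rw [div_le_iff₀ (h3.trans_le h2)]
      calc ‖∑ i, c' i * y i ^ j‖ ≤ M * (((p : ℝ)⁻¹) ^ 2) ^ j := h1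
        _ = M * ((p : ℝ)⁻¹) ^ j * ((p : ℝ)⁻¹) ^ j := by rw [← pow_mul, mul_comm 2 j, pow_mul, sq]; ring
        _ ≤ M * ((p : ℝ)⁻¹) ^ j * ‖((j.factorial : ℕ) : PadicAlgCl p)‖ :=
            mul_le_mul_of_nonneg_left h2 (by positivity)
    have h0 : Tendsto (fun j : ℕ => M * ((p : ℝ)⁻¹) ^ j) atTop (𝓝 0) := by
      have := (tendsto_pow_atTop_nhds_zero_of_lt_one (r := (p : ℝ)⁻¹) (by positivity)
        (inv_lt_one_of_one_lt₀ hp1)).const_mul M
      rw [mul_zero] at this
      exact this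
    exact squeeze_zero_norm hbd h0
  have hvan := Sml.vanish B hBt {w : ℕ | a + b * w ∈ Z} ha (by
    intro w hw
    have h1 := hsum (a + b * w) hw
    have h2 : ∑ i, c' i * (1 + y i) ^ w = 0 := by
      have h3 := congrArg ψ h1
      rw [map_zero, map_sum] at h3
      rw [← h3]
      refine Finset.sum_congr rfl fun i _ => ?_
      rw [hc', hy, map_mul, map_pow, pow_add, pow_mul]
      simp only [add_sub_cancel]
      ring
    rw [← h2]
    have h4 : ∀ i, c' i * (1 + y i) ^ w =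
        ∑ j ∈ Finset.range (w + 1), c' i * (y i ^ j * (w.choose j : PadicAlgCl p)) := by
      intro i
      rw [add_comm, add_pow, Finset.mul_sum]
      refine Finset.sum_congr rfl fun j _ => ?_
      rw [one_pow, mul_one]
    rw [Finset.sum_congr rfl fun i _ => h4 i, Finset.sum_comm]
    refine Finset.sum_congr rfl fun j _ => ?_
    rw [hB]
    simp only
    rw [Nat.descFactorial_eq_factorial_mul_choose]
    push_cast
    rw [div_mul_eq_mul_div, mul_comm ((j.factorial : ℕ) : PadicAlgCl p), ← mul_assoc,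
      mul_div_assoc, div_self (hfac j), mul_one, Finset.sum_mul]
    refine Finset.sum_congr rfl fun i _ => ?_
    ring)
  have hA : ∀ j, ∑ i, c' i * y i ^ j = 0 := by
    intro j
    have h1 := hvan j
    rw [hB] at h1
    simp only at h1
    rw [div_eq_zero_iff] at h1
    exact h1.resolve_right (hfac j)
  have hP : ∀ P : Polynomial (PadicAlgCl p), ∑ i, c' i * P.eval (y i) = 0 := by
    intro P
    have h1 : ∀ i, c' i * P.eval (y i) = ∑ j ∈ P.support, P.coeff j * (c' i * y i ^ j) := by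
      intro i
      rw [Polynomial.eval_eq_sum, Polynomial.sum, Finset.mul_sum]
      refine Finset.sum_congr rfl fun j _ => ?_
      ring
    rw [Finset.sum_congr rfl fun i _ => h1 i, Finset.sum_comm]
    refine Finset.sum_eq_zero fun j _ => ?_
    rw [← Finset.mul_sum, hA, mul_zero]
  obtain ⟨i₀⟩ := ‹Nonempty ι›
  have h1 := hP (∏ k ∈ Finset.univ.erase i₀, (X - C (y k)))
  rw [Finset.sum_eq_single i₀] at h1
  · rw [mul_eq_zero, or_iff_right (hc'0 i₀), Polynomial.eval_prod, Finset.prod_eq_zero_iff] at h1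
    obtain ⟨k, hk, hk2⟩ := h1
    rw [Finset.mem_erase] at hk
    simp only [eval_sub, eval_X, eval_C] at hk2
    exact hyinj i₀ k (Ne.symm hk.1) (sub_eq_zero.1 hk2)
  · intro i _ hi
    rw [Polynomial.eval_prod, Finset.prod_eq_zero (i := i) (Finset.mem_erase.2 ⟨hi, Finset.mem_univ _⟩)
      (by simp), mul_zero]
  · intro h
    exact absurd (Finset.mem_univ _) h

end Pool.Agent.H54.AM
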