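import Mathlib
import Pool.Agent.H54.AM.Defs
import Pool.Agent.H54.AD.Star

set_option autoImplicit false
set_option linter.unusedVariables false

/-!
# Heights relative to the division group of a finitely generated group
-/

namespace Pool.Agent.H54.AM

open Polynomial IntermediateField
open Pool.Agent.W237.RK
open Pool.Agent.H58P (Qb ht)
open Pool.Agent.H58B (ht_pow)
open Pool.Agent.H58R (ht_nonneg ht_mul_le ht_inv ht_zpow)
open Pool.Agent.W402.RK (bot_mem fg_bot root_mul_mem comm_lev iterate_CS)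
open Pool.Agent.W669.RK (tor_of_ht_zero)
open Pool.Agent.H54.RX
open Pool.Agent.H54.AD (norm_le_one_of_int exists_emb divG_zpow divG_of_zpow ht_ne_zero_of_not_tor
  orb_pos)

/-- a prime at which finitely many numbers are units -/
lemma exists_unit_prime' {r : ℕ} (g : Fin r → Qb) (hg : ∀ i, g i ≠ 0) :
    ∃ (p : ℕ) (_ : Fact p.Prime), ∀ φ : Qb →+* PadicAlgCl p, ∀ i, ‖φ (g i)‖ = 1 := by
  have key : ∀ x : Qb, ∃ d : ℤ, d ≠ 0 ∧ IsIntegral ℤ ((d : Qb) * x) := by
    intro x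
    have h1 : IsAlgebraic ℤ x := by
      have h2 : IsAlgebraic ℚ x := Algebra.IsAlgebraic.isAlgebraic x
      exact (IsFractionRing.isAlgebraic_iff ℤ ℚ Qb).mpr h2
    obtain ⟨y, hy, h⟩ := h1.exists_integral_multiple
    refine ⟨y, hy, ?_⟩
    rw [zsmul_eq_mul] at h
    exact h
  choose d₁ hd₁ h1 using fun i => key (g i)
  choose d₂ hd₂ h2 using fun i => key (g i)⁻¹
  obtain ⟨p, hple, hp⟩ := Nat.exists_infinite_primes (∏ i, ((d₁ i).natAbs * (d₂ i).natAbs) + 1)
  have : Fact p.Prime := ⟨hp⟩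
  refine ⟨p, ⟨hp⟩, fun φ i => ?_⟩
  have hn1 : ∀ i, 0 < (d₁ i).natAbs := fun i => Int.natAbs_pos.mpr (hd₁ i)
  have hn2 : ∀ i, 0 < (d₂ i).natAbs := fun i => Int.natAbs_pos.mpr (hd₂ i)
  have hle : (d₁ i).natAbs * (d₂ i).natAbs < p := by
    have h3 : (d₁ i).natAbs * (d₂ i).natAbs ≤ ∏ i, ((d₁ i).natAbs * (d₂ i).natAbs) :=
      Finset.single_le_prod' (f := fun i => (d₁ i).natAbs * (d₂ i).natAbs)
        (fun j _ => Nat.mul_pos (hn1 j) (hn2 j)) (Finset.mem_univ i)
    omega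
  have hd : ∀ d : ℤ, d ≠ 0 → d.natAbs < p → ‖φ (d : Qb)‖ = 1 := by
    intro d hd0 hdp
    have e1 : φ (d : Qb) = algebraMap ℚ_[p] (PadicAlgCl p) (d : ℚ_[p]) := by
      rw [map_intCast, map_intCast]
    rw [e1, PadicAlgCl.norm_extends]
    apply le_antisymm (Padic.norm_int_le_one d)
    by_contra hlt
    push Not at hlt
    rw [Padic.norm_intCast_lt_one_iff] at hlt
    have := Int.le_of_dvd (abs_pos.mpr hd0) ((dvd_abs _ _).mpr hlt)
    rw [Int.abs_eq_natAbs] at this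
    omega
  have hl1 : (d₁ i).natAbs < p := by nlinarith [hn1 i, hn2 i]
  have hl2 : (d₂ i).natAbs < p := by nlinarith [hn1 i, hn2 i]
  have h3 := norm_le_one_of_int p φ (h1 i)
  have h4 := norm_le_one_of_int p φ (h2 i)
  rw [map_mul, norm_mul, hd _ (hd₁ i) hl1, one_mul] at h3
  rw [map_mul, norm_mul, hd _ (hd₂ i) hl2, one_mul, map_inv₀, _root_.norm_inv] at h4
  have h5 : 0 < ‖φ (g i)‖ := norm_pos_iff.mpr ((map_ne_zero φ).mpr (hg i))
  apply le_antisymm h3
  rw [← inv_inv ‖φ (g i)‖]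
  exact (one_le_inv₀ (by positivity)).mpr h4

lemma ht_prod_zpow_le {r : ℕ} (g : Fin r → Qb) (hg : ∀ i, g i ≠ 0) (b : Fin r → ℤ)
    (s : Finset (Fin r)) :
    ht (∏ i ∈ s, g i ^ b i) ≤ ∑ i ∈ s, |(b i : ℝ)| * ht (g i) := by
  classical
  induction s using Finset.induction_on with
  | empty => simp [Pool.Agent.H58R.ht_one]
  | insert i s hi ih =>
    rw [Finset.prod_insert hi, Finset.sum_insert hi]
    refine (ht_mul_le _ _).trans ?_
    rw [ht_zpow _ (hg i)]
    linarith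

lemma prod_zpow_eq {ι : Type*} {x : Qb} (hx : x ≠ 0) (s : Finset ι) (f : ι → ℤ) :
    ∏ i ∈ s, x ^ f i = x ^ (∑ i ∈ s, f i) := by
  classical
  induction s using Finset.induction_on with
  | empty => simp
  | insert i s hi ih => rw [Finset.prod_insert hi, Finset.sum_insert hi, ih, zpow_add₀ hx]

/-- the lattice of the problem -/
noncomputable def latA (r : ℕ) (η H : ℝ) (θ : Fin r → ℝ) : Matrix (Fin (r + 1)) (Fin (r + 1)) ℝ :=
  Matrix.of fun j l => Fin.cases (Fin.cases η (fun _ => 0) l)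
    (fun j' => Fin.cases (H * θ j') (fun l' => if j' = l' then -H else 0) l) j

lemma latA_det (r : ℕ) (η H : ℝ) (θ : Fin r → ℝ) : (latA r η H θ).det = η * (-H) ^ r := by
  rw [Matrix.det_of_isLowerTriangular]
  · rw [Fin.prod_univ_succ]
    simp [latA]
  · intro i j hij
    have hij' : i < j := hij
    revert hij'
    refine Fin.cases ?_ (fun i' => ?_) i
    · refine Fin.cases ?_ (fun j' => ?_) j
      · intro h
        exact absurd h (lt_irrefl _)
      · intro _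
        simp [latA]
    · refine Fin.cases ?_ (fun j' => ?_) j
      · intro h
        exact absurd h (Fin.not_lt_zero _)
      · intro h
        have h1 : i' ≠ j' := by
          rintro rfl
          exact lt_irrefl _ h
        simp [latA, h1]

lemma latA_sum (r : ℕ) (η H : ℝ) (θ : Fin r → ℝ) (v : Fin (r + 1) → ℤ) :
    ∑ j, |∑ l, latA r η H θ j l * (v l : ℝ)| =
      |η * v 0| + ∑ j : Fin r, |H * (v 0 * θ j - v j.succ)| := by
  rw [Fin.sum_univ_succ]
  congr 1
  · rw [Fin.sum_univ_succ]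
    simp [latA]
  · refine Finset.sum_congr rfl fun j _ => ?_
    congr 1
    rw [Fin.sum_univ_succ]
    have h1 : ∑ l : Fin r, latA r η H θ j.succ l.succ * (v l.succ : ℝ) = -H * v j.succ := by
      rw [Finset.sum_eq_single j]
      · simp [latA]
      · intro l _ hl
        simp [latA, Ne.symm hl]
      · intro h
        exact absurd (Finset.mem_univ j) h
    rw [h1]
    simp only [latA, Matrix.of_apply, Fin.cases_succ, Fin.cases_zero]
    ring

theorem starn : S_MKN → S_FGB → S_ADN → S_CS3 → S_FROB → S_STARN := by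
  intro hMKN hFGB hAD hCS hFROB K Γ hK hΓfg hΓ ε hε
  obtain ⟨r, gg, hgΓ, hgind, hgdiv⟩ := hFGB Γ hΓfg
  set g : Fin r → Qb := fun i => (gg i : Qb) with hgdef
  have hg0 : ∀ i, g i ≠ 0 := fun i => (gg i).ne_zero
  have hgK : ∀ i, g i ∈ K := fun i => hΓ _ (hgΓ i)
  -- products of powers of the generators
  have hgprodΓ : ∀ t : Fin r → ℤ, DivG Γ (∏ l, g l ^ t l) := by
    intro t
    refine ⟨1, one_pos, ∏ l, gg l ^ t l, Subgroup.prod_mem _ fun l _ => zpow_mem (hgΓ l) _, ?_⟩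
    rw [pow_one, Units.coe_prod]
    refine Finset.prod_congr rfl fun l _ => ?_
    rw [Units.val_zpow_eq_zpow_val]
  obtain ⟨p, hpf, hφ⟩ := exists_unit_prime' g hg0
  have hp : p.Prime := hpf.out
  obtain ⟨φ⟩ := exists_emb p
  have hφg : ∀ i, ‖φ (g i)‖ = 1 := hφ φ
  obtain ⟨B, C₁, hC₁, h1'⟩ := hCS p φ K ⊥ ε hε hK fg_bot (bot_mem K)
  set K' := lev K ⊥ (p ^ B) 1 with hK'
  have hK'fd : FiniteDimensional ℚ K' :=
    finiteDimensional_lev K hK ⊥ fg_bot (p ^ B) 1 (pow_pos hp.pos B) one_pos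
  obtain ⟨n₁, h2⟩ := hFROB p φ K' hK'fd
  obtain ⟨cA, hcA, h3'⟩ := hAD p φ (Module.finrank ℚ K') n₁ (r + 1) ε hε
  obtain ⟨CM, hCM, hM⟩ := hMKN (r + 1)
  set H : ℝ := 1 + ∑ l, ht (g l) with hH
  have hHsum : 0 ≤ ∑ l, ht (g l) := Finset.sum_nonneg fun l _ => ht_nonneg _
  have hH0 : 0 < H := by linarith
  have hHl : ∀ l, ht (g l) ≤ H := by
    intro l
    have h5 := Finset.single_le_sum (f := fun l => ht (g l)) (fun l _ => ht_nonneg _)
      (Finset.mem_univ l)
    linarith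
  set C₀ : ℝ := min (C₁ / 2) (cA / (CM * H ^ r)) with hC₀
  have hC₀pos : 0 < C₀ := lt_min (by positivity) (by positivity)
  refine ⟨C₀, hC₀pos, fun D hD0 y δ hy0 hyD hδ hy => ?_⟩
  change lowr C₀ ε D ≤ ht (y / δ)
  by_contra hlt
  push Not at hlt
  apply hy
  have hδ0 : δ ≠ 0 := Pool.Agent.TH53.RP.DivG.ne_zero hδ
  obtain ⟨e, he0, heT, heD⟩ := torRigid_split (Finf := kinf K) (fun x hx => tor_mem_kinf K hx)
    hy0
  set y₁ := y ^ e with hy₁
  have hy₁0 : y₁ ≠ 0 := pow_ne_zero _ hy0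
  set δ₁ := δ ^ e with hδ₁
  have hδ₁0 : δ₁ ≠ 0 := pow_ne_zero _ hδ0
  have hδ₁d : DivG Γ δ₁ := divG_pow hδ e
  set Finf := kinf K with hFinf
  set D₁ : ℕ := (orb Finf y₁).ncard with hD₁def
  have hD₁pos : 0 < D₁ := orb_ncard_pos Finf y₁
  have hD₁R : (0 : ℝ) < D₁ := by exact_mod_cast hD₁pos
  have h1 := h1' D₁ hD₁pos
  set c₁ : ℝ := lowr C₁ ε D₁ with hc₁
  -- the height of `y₁ / δ₁`
  set η : ℝ := ht (y₁ / δ₁) with hη
  have hη0 : 0 ≤ η := ht_nonneg _
  have hηlt : η < lowr C₀ ε D₁ := by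
    have e1 : y₁ / δ₁ = (y / δ) ^ e := by rw [hy₁, hδ₁, div_pow]
    rw [hη, e1, ht_pow]
    have h5 := lowr_split hC₀pos.le hε.le he0 hD₁pos (heD.trans hyD)
    have he1 : (0 : ℝ) < e := by exact_mod_cast he0
    exact (mul_lt_mul_of_pos_left hlt he1).trans_le h5
  have hη1 : 2 * η < c₁ := by
    have h5 : lowr C₀ ε D₁ ≤ lowr (C₁ / 2) ε D₁ := lowr_mono (min_le_left _ _) D₁
    have h6 : lowr (C₁ / 2) ε D₁ = lowr C₁ ε D₁ / 2 := by
      unfold lowr
      ring
    rw [hc₁]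
    linarith
  have hD₁ : (orb Finf y₁).ncard ≤ D₁ := le_rfl
  have hT₁ : TorRigid Finf y₁ := heT
  -- rigidity at a finite level
  have hlevInf : levInf K ⊥ 1 = Finf := by
    apply le_antisymm
    · apply levInf_le (le_kinf K) (fun x hx => tor_mem_kinf K hx)
      rintro z ⟨g, hg, hz⟩
      rw [Subgroup.mem_bot] at hg
      rw [hg, Units.val_one, pow_one] at hz
      rw [hz]
      exact one_mem _
    · exact kinf_le_levInf K ⊥ 1
  have hR₀ : Rigid Finf (levInf K ⊥ 1) y₁ := by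
    rw [hlevInf]
    exact fun κ hκ => ⟨κ, hκ, rfl⟩
  obtain ⟨N, hN, hRN⟩ := exists_rigid_lev Finf K ⊥ 1 y₁ hR₀
  obtain ⟨j, M', hM', hNj⟩ := Nat.exists_eq_pow_mul_and_not_dvd hN.ne' p hp.ne_one
  have hRj : Rigid Finf (lev K ⊥ (p ^ (B + j) * M') 1) y₁ := by
    apply rigid_mono _ hRN
    apply lev_mono K ⊥ _ one_pos (dvd_refl 1)
    rw [hNj, pow_add, mul_assoc]
    exact Dvd.intro_left _ rfl
  have hM'0 : 0 < M' := by
    rcases Nat.eq_zero_or_pos M' with h | h
    · exact absurd (h ▸ dvd_zero p) hM'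
    · exact h
  -- the levels are inside `Finf`
  have hle : ∀ N : ℕ, 0 < N → lev K ⊥ N 1 ≤ Finf := by
    intro N hN
    rw [← hlevInf]
    exact lev_le_levInf K ⊥ hN
  obtain ⟨γ, hγ, hRγ⟩ := iterate_CS p K Finf D₁ B c₁ M' le_rfl
    (by
      intro i β hi hβ0 hβD hβT hβR hβh
      have := h1 Finf i 0 1 M' β (by omega) (fun h => hp.one_lt.ne' (Nat.dvd_one.mp h)) hM' le_rfl
        (by
          rw [pow_zero, one_mul]
          exact hle _ (Nat.mul_pos (pow_pos hp.pos i) hM'0)) (normal_kinf K) hβ0 hβD hβT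
        (by rw [pow_zero, one_mul]; exact hβR) hβh
      rw [pow_zero, one_mul] at this
      exact this)
    j y₁ hy₁0 hD₁ hT₁ hRj
    (by
      intro σ hσ
      have hq0 : y₁ / δ₁ ≠ 0 := div_ne_zero hy₁0 hδ₁0
      rw [← ht_div hδ₁0 (tor_ratio hΓ hδ₁0 hδ₁d hσ)]
      have a1 : ht (σ (y₁ / δ₁) / (y₁ / δ₁)) ≤ ht (σ (y₁ / δ₁)) + ht (y₁ / δ₁)⁻¹ := by
        rw [div_eq_mul_inv (σ (y₁ / δ₁))]
        exact ht_mul_le _ _
      rw [ht_inv _ hq0, Pool.Agent.H58B.ht_conj] at a1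
      linarith)
  have hγ0 := hγ.ne_zero
  have hγm : γ ∈ Finf := tor_mem_kinf K hγ
  set β := y₁ / γ with hβ
  have hβ0 : β ≠ 0 := div_ne_zero hy₁0 hγ0
  obtain ⟨M'', σ, a, hM'', hdvd, hσ, ha0, ha1, hσζ, hσx⟩ := h2 M' hM'
  have hM''0 : 0 < M'' := by
    rcases Nat.eq_zero_or_pos M'' with h | h
    · exact absurd (h ▸ dvd_zero p) hM''
    · exact h
  set E := lev K' ⊥ M'' 1 with hE
  have hKK' : K ≤ K' := le_lev K ⊥ _ _
  have hEfin : E ≤ Finf := by
    apply lev_le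
    · exact hle _ (pow_pos hp.pos B)
    · intro x hx
      exact tor_mem_kinf K ⟨M'', hM''0, hx⟩
    · rintro z ⟨g, hg, hz⟩
      rw [Subgroup.mem_bot] at hg
      rw [hg, Units.val_one, pow_one] at hz
      rw [hz]
      exact one_mem _
  have hlevE : lev K ⊥ (p ^ B * M') 1 ≤ E := by
    apply lev_le
    · exact hKK'.trans (le_lev K' ⊥ _ _)
    · intro x hx
      apply root_mul_mem (a := p ^ B) (b := M') _ _ _ x hx
      · exact Nat.Coprime.pow_left B ((Nat.Prime.coprime_iff_not_dvd hp).mpr hM')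
      · intro x hx
        exact le_lev K' ⊥ _ _ (root_mem_lev K ⊥ hx)
      · intro x hx
        apply root_mem_lev
        obtain ⟨k, rfl⟩ := hdvd
        rw [pow_mul, hx, one_pow]
    · rintro z ⟨g, hg, hz⟩
      rw [Subgroup.mem_bot] at hg
      rw [hg, Units.val_one, pow_one] at hz
      rw [hz]
      exact one_mem _
  have hRE : Rigid Finf E β := rigid_mono hlevE hRγ
  have horb : orb E β = orb Finf β := orb_eq_of_rigid hEfin hRE
  have hβD : (orb E β).ncard ≤ D₁ := by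
    rw [horb, hβ, orb_div_ncard hγ0 hγm]
  have hEfd : FiniteDimensional ℚ E :=
    finiteDimensional_lev K' hK'fd ⊥ fg_bot M'' 1 hM''0 one_pos
  have hβTR : TorRigid E β := torRigid_of (torRigid_div hT₁ hγ0 hγm) hRE
  -- `β` is in the division group iff `y` is
  have hback : DivG Γ β → DivG Γ y := by
    intro h
    have e1 : y₁ = β * γ := by rw [hβ, div_mul_cancel₀ _ hγ0]
    apply Pool.Agent.TH53.RP.DivG.of_pow he0
    rw [← hy₁, e1]
    exact h.mul (divG_tor Γ hγ)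
  by_contra hynd
  have hβnd : ¬ DivG Γ β := fun h => hynd (hback h)
  -- the height of `β / δ₁`
  have hηβ : ht (β / δ₁) = η := by
    have e1 : β / δ₁ = γ⁻¹ * (y₁ / δ₁) := by
      rw [hβ]
      field_simp
    rw [e1, ht_tor_mul hγ.inv]
  have hηpos : 0 < η := by
    rcases hη0.lt_or_eq with h | h
    · exact h
    · exfalso
      apply hβnd
      have h5 : Tor (β / δ₁) :=
        tor_of_ht_zero _ (div_ne_zero hβ0 hδ₁0) (by rw [hηβ]; exact h.symm)
      have e1 : β = (β / δ₁) * δ₁ := by rw [div_mul_cancel₀ _ hδ₁0]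
      rw [e1]
      exact (divG_tor Γ h5).mul hδ₁d
  obtain ⟨n, k, hn0, hδn⟩ := hgdiv δ₁ hδ₁d
  have hnR : (0 : ℝ) < n := by exact_mod_cast hn0
  set θ : Fin r → ℝ := fun l => (k l : ℝ) / n with hθ
  have hdetne : (latA r η H θ).det ≠ 0 := by
    rw [latA_det]
    exact mul_ne_zero hηpos.ne' (pow_ne_zero _ (neg_ne_zero.mpr hH0.ne'))
  obtain ⟨v, hvdet, hvprod⟩ := hM (latA r η H θ) hdetne
  -- the heights of the monomials
  have hhtm : ∀ (s : ℤ) (t : Fin r → ℤ), ht (β ^ s * ∏ l, g l ^ (-t l)) ≤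
      |η * s| + ∑ l, |H * (s * θ l - t l)| := by
    intro s t
    set P : Qb := ∏ l, g l ^ (-t l) with hP
    have e1 : β ^ s * P = (β / δ₁) ^ s * (δ₁ ^ s * P) := by
      rw [← mul_assoc, ← mul_zpow, div_mul_cancel₀ _ hδ₁0]
    have e2 : (δ₁ ^ s * P) ^ n = ∏ l, g l ^ (k l * s - t l * n) := by
      rw [mul_pow, ← zpow_natCast (δ₁ ^ s), ← zpow_mul, mul_comm s, zpow_mul, zpow_natCast, hδn,
        ← Finset.prod_zpow, hP, ← Finset.prod_pow, ← Finset.prod_mul_distrib]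
      refine Finset.prod_congr rfl fun l _ => ?_
      show (g l ^ k l) ^ s * _ = _
      rw [← zpow_mul, ← zpow_natCast, ← zpow_mul, ← zpow_add₀ (hg0 l)]
      congr 1
      ring
    have e3 : (n : ℝ) * ht (δ₁ ^ s * P) ≤ ∑ l, |((k l * s - t l * n : ℤ) : ℝ)| * H := by
      rw [← ht_pow, e2]
      refine (ht_prod_zpow_le g hg0 _ Finset.univ).trans ?_
      exact Finset.sum_le_sum fun l _ => mul_le_mul_of_nonneg_left (hHl l) (abs_nonneg _)
    have e4 : ht (δ₁ ^ s * P) ≤ ∑ l, |H * (s * θ l - t l)| := by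
      have e5 : ∑ l, |((k l * s - t l * n : ℤ) : ℝ)| * H = n * ∑ l, |H * (s * θ l - t l)| := by
        rw [Finset.mul_sum]
        refine Finset.sum_congr rfl fun l _ => ?_
        have e6 : (s : ℝ) * θ l - t l = ((k l * s - t l * n : ℤ) : ℝ) / n := by
          rw [hθ]
          push_cast
          field_simp
        rw [e6, abs_mul, abs_div, abs_of_pos hnR, abs_of_pos hH0]
        field_simp
      rw [e5] at e3
      exact le_of_mul_le_mul_left e3 hnR
    calc ht (β ^ s * P) = ht ((β / δ₁) ^ s * (δ₁ ^ s * P)) := by rw [e1]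
      _ ≤ ht ((β / δ₁) ^ s) + ht (δ₁ ^ s * P) := ht_mul_le _ _
      _ ≤ |η * s| + ∑ l, |H * (s * θ l - t l)| := by
          rw [ht_zpow _ (div_ne_zero hβ0 hδ₁0), hηβ, abs_mul, abs_of_pos hηpos, mul_comm]
          exact add_le_add le_rfl e4
  -- independence
  have hind : IndepN (fun i => β ^ (v i 0) * ∏ l : Fin r, g l ^ (-(v i l.succ))) := by
    intro s hT
    have e1 : ∏ i, (β ^ (v i 0) * ∏ l : Fin r, g l ^ (-(v i l.succ))) ^ s i =
        β ^ (∑ i, s i * v i 0) * ∏ l : Fin r, g l ^ (-(∑ i, s i * v i l.succ)) := by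
      have e2 : ∀ i, (β ^ (v i 0) * ∏ l : Fin r, g l ^ (-(v i l.succ))) ^ s i =
          β ^ (s i * v i 0) * ∏ l : Fin r, g l ^ (-(s i * v i l.succ)) := by
        intro i
        rw [mul_zpow, ← zpow_mul, ← Finset.prod_zpow, mul_comm (v i 0)]
        congr 1
        refine Finset.prod_congr rfl fun l _ => ?_
        rw [← zpow_mul]
        congr 1
        ring
      rw [Finset.prod_congr rfl fun i _ => e2 i, Finset.prod_mul_distrib]
      congr 1
      · rw [prod_zpow_eq hβ0]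
      · rw [Finset.prod_comm]
        refine Finset.prod_congr rfl fun l _ => ?_
        rw [← Finset.sum_neg_distrib, prod_zpow_eq (hg0 l)]
    have hT' : Tor (β ^ (∑ i, s i * v i 0) * ∏ l : Fin r, g l ^ (-(∑ i, s i * v i l.succ))) := by
      rw [← e1]
      exact hT
    have h5 : ∑ i, s i * v i 0 = 0 := by
      by_contra hne
      apply hβnd
      apply divG_of_zpow hne
      have e2 : β ^ (∑ i, s i * v i 0) =
          (β ^ (∑ i, s i * v i 0) * ∏ l : Fin r, g l ^ (-(∑ i, s i * v i l.succ))) *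
            ∏ l : Fin r, g l ^ (∑ i, s i * v i l.succ) := by
        rw [mul_assoc, ← Finset.prod_mul_distrib]
        have e3 : ∏ l : Fin r, g l ^ (-(∑ i, s i * v i l.succ)) *
            g l ^ (∑ i, s i * v i l.succ) = 1 := by
          refine Finset.prod_eq_one fun l _ => ?_
          rw [← zpow_add₀ (hg0 l), neg_add_cancel, zpow_zero]
        rw [e3, mul_one]
      rw [e2]
      exact (divG_tor Γ hT').mul (hgprodΓ _)
    rw [h5, zpow_zero, one_mul] at hT'
    have h6 := hgind _ hT'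
    have h7 : Matrix.vecMul s v = 0 := by
      funext l
      rw [Matrix.vecMul, dotProduct, Pi.zero_apply]
      refine Fin.cases ?_ (fun l' => ?_) l
      · exact h5
      · have h8 := congrFun h6 l'
        simp only [Pi.zero_apply, neg_eq_zero] at h8
        exact h8
    exact Matrix.eq_zero_of_vecMul_eq_zero hvdet h7
  have hgK' : ∀ t : Fin r → ℤ, ∏ l, g l ^ (-t l) ∈ K' := fun t =>
    prod_mem fun l _ => zpow_mem (hKK' (hgK l)) _
  have hgn : ∀ t : Fin r → ℤ, ‖φ (∏ l, g l ^ (-t l))‖ = 1 := by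
    intro t
    rw [map_prod, norm_prod]
    refine Finset.prod_eq_one fun l _ => ?_
    rw [map_zpow₀, norm_zpow, hφg, one_zpow]
  have hfin := h3' K' E σ a β (fun i => ∏ l : Fin r, g l ^ (-(v i l.succ))) (fun i => v i 0)
    hK'fd le_rfl hEfd (le_lev K' ⊥ _ _) (normal_lev K' ⊥ (bot_mem K') M'' 1) hσ
    (fun τ hτ => comm_lev K' M'' σ τ hσ hτ (p ^ a) hσζ) ha0 ha1 hσx hβ0 hβTR
    (fun i => hgK' (fun l => v i l.succ)) (fun i => hgn (fun l => v i l.succ)) hind
  have hle2 : ∏ i, ht (β ^ (v i 0) * ∏ l : Fin r, g l ^ (-(v i l.succ))) ≤ CM * (η * H ^ r) := by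
    calc ∏ i, ht (β ^ (v i 0) * ∏ l : Fin r, g l ^ (-(v i l.succ)))
        ≤ ∏ i, ∑ j, |∑ l, latA r η H θ j l * (v i l : ℝ)| := by
          refine Finset.prod_le_prod (fun i _ => ht_nonneg _) fun i _ => ?_
          rw [latA_sum]
          exact hhtm (v i 0) (fun l => v i l.succ)
      _ ≤ CM * |(latA r η H θ).det| := hvprod
      _ = CM * (η * H ^ r) := by
          rw [latA_det, abs_mul, abs_pow, abs_neg, abs_of_pos hηpos, abs_of_pos hH0]
  have horbpos : (0 : ℝ) < ((orb E β).ncard : ℝ) := by exact_mod_cast orb_pos E β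
  have hmono : cA / (D₁ : ℝ) ^ (1 + ε) ≤ cA / ((orb E β).ncard : ℝ) ^ (1 + ε) := by
    apply div_le_div_of_nonneg_left hcA.le (by positivity)
    apply Real.rpow_le_rpow horbpos.le _ (by linarith)
    exact_mod_cast hβD
  have hlow : lowr C₀ ε D₁ ≤ η := by
    have h5 : lowr C₀ ε D₁ ≤ lowr (cA / (CM * H ^ r)) ε D₁ := lowr_mono (min_le_right _ _) D₁
    refine h5.trans ?_
    unfold lowr
    have h6 : cA / (D₁ : ℝ) ^ (1 + ε) ≤ CM * (η * H ^ r) := hmono.trans (hfin.trans hle2)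
    have h7 : cA / (CM * H ^ r) / (D₁ : ℝ) ^ (1 + ε) = cA / (D₁ : ℝ) ^ (1 + ε) / (CM * H ^ r) := by
      rw [div_div, div_div, mul_comm]
    rw [h7, div_le_iff₀ (by positivity)]
    linarith
  exact absurd hηlt (not_lt.mpr hlow)

end Pool.Agent.H54.AM
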