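import Pool.Agent.H54.AM.Defs

set_option autoImplicit false

/-! # Project AM, stub SUMS -/

namespace Pool.Agent.H54.AM

open scoped Pointwise in
theorem sums : S_SUMS := by
  classical
  intro ι s A
  induction s using Finset.induction_on with
  | empty =>
    intro _
    simp
  | insert a s ha ih =>
    intro h
    have h1 := ih fun i hi => h i (Finset.mem_insert_of_mem hi)
    have h2 := h a (Finset.mem_insert_self _ _)
    have h3 : (∑ i ∈ s, A i).Nonempty := by
      rw [← Finset.card_pos]
      omega
    have h4 := cauchy_davenport_add_of_linearOrder_isCancelAdd h2 h3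
    rw [Finset.sum_insert ha, Finset.sum_insert ha]
    have h5 := Finset.card_pos.2 h2
    omega

end Pool.Agent.H54.AM
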