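import Pool.Agent.H54.AM.UnsA

set_option autoImplicit false

/-!
# `S_UNS`: levels at which the same polynomials of small degree vanish (helper75)
-/

namespace Pool.Agent.H54.AM.Uns

open MvPolynomial
open Pool.Agent.N684.BK
open Pool.Agent.W237.RK
open Pool.Agent.H58P (Qb ht)
open Pool.Agent.H54.AD (pt)
open Pool.Agent.N769.BK.MULSUM (PW_finite PW_mono mem_PW levFinite)
open Pool.Agent.H54.AM.Chn

section Conc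

variable {n Q₁ : ℕ} {E : GF} {σ : Aut} {q e : ℕ} {u : Fin (n + 1) → Qb} {wt : Fin (n + 1) → ℕ} {𝒦 : Finset ℕ}

theorem conc_lev (hB : Bas (n + 1) Q₁ E σ q e u wt 𝒦) {k₀ : ℕ} (hk₀min : ∀ k ∈ 𝒦, k₀ ≤ k) :
    ∀ k ∈ 𝒦, ∀ g : MvPolynomial (Fin (n + 1)) E,
      (phi (n + 1) (res E σ hB.st) q ^ (k - k₀)) g ∈ pid E (ptN σ q e u k₀) ↔ g ∈ pid E (ptN σ q e u k) := by
  intro k hk g
  have h4 := hk₀min k hk
  have h5 := phi_pow_mem_pid (q := q) (u := u) hB.st (k - k₀) (k := k₀) (e := e)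
    (by have := hB.le k hk; omega) g
  rw [h5]
  have h6 : k₀ + (k - k₀) = k := by omega
  rw [h6]

theorem conc_PW (hB : Bas (n + 1) Q₁ E σ q e u wt 𝒦) {k₀ : ℕ} (hk₀ : k₀ ∈ 𝒦) (hk₀min : ∀ k ∈ 𝒦, k₀ ≤ k)
    {s s' : ℕ} (hs : Q₁ * s' ≤ s) : ∀ k ∈ 𝒦, ∀ g ∈ PW E wt s',
      (phi (n + 1) (res E σ hB.st) q ^ (k - k₀)) g ∈ PW E wt s := by
  intro k hk g hg
  have h4 := phi_pow_mem_PW (res E σ hB.st) q (k - k₀) hg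
  refine PW_mono ?_ h4
  exact (Nat.mul_le_mul_right _ (hB.Q1 k₀ hk₀ k hk (hk₀min k hk))).trans hs

theorem conc_inv (h2 : S_INV) (hB : Bas (n + 1) Q₁ E σ q e u wt 𝒦) : ∀ k ∈ 𝒦, ∀ δ : ℕ, 0 < δ →
    ∀ I : Ideal (MvPolynomial (Fin (n + 1)) E), I ≤ pid E (ptN σ q e u k) →
      I.comap (phi (n + 1) (res E σ hB.st) q ^ δ) = I → I = ⊥ := by
  intro k _ δ hδ I hI hcom
  exact h2 (n + 1) E (res E σ hB.st) q δ (ptN σ q e u k) hB.fin hB.q2 hδ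
    (fun i => ptN_ne hB.ne _ i) (ptN_indep hB.q2 hB.ind _) I hcom (fun g hg => hI hg)

theorem conc_var {S₁ K₁ : ℕ} (hU : ∀ (E : GF) (σ : Aut) (q e : ℕ)
    (u : Fin n → Qb) (wt : Fin n → ℕ) (s : ℕ) (𝒦 : Finset ℕ), FiniteDimensional ℚ E →
    (∀ x ∈ E, σ x ∈ E) → 2 ≤ q → (∀ i, u i ≠ 0) → IndepN u → (∀ i, 1 ≤ wt i) →
    (∀ k ∈ 𝒦, k ≤ e) → (∀ k ∈ 𝒦, ∀ k' ∈ 𝒦, k ≤ k' → q ^ (k' - k) ≤ Q₁) → K₁ ≤ 𝒦.card →
    (∀ k ∈ 𝒦, ∀ k' ∈ 𝒦, ∀ f ∈ PW E wt s, f ∈ pid E (ptN σ q e u k) →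
      f ∈ pid E (ptN σ q e u k')) →
    ∀ t : ℕ, S₁ * t ≤ s → ∀ f ∈ PW E wt t, (∀ k ∈ 𝒦, f ∈ pid E (ptN σ q e u k)) → f = 0)
    (hB : Bas (n + 1) Q₁ E σ q e u wt 𝒦) (hcard : K₁ ≤ 𝒦.card) {s s' : ℕ} (hs : S₁ * s' ≤ s)
    (hpp : ∀ k ∈ 𝒦, ∀ k' ∈ 𝒦, ∀ g ∈ PW E wt s, g ∈ pid E (ptN σ q e u k) → g ∈ pid E (ptN σ q e u k')) :
    ∀ t' ≤ s', ∀ g ∈ PW E wt t', g ≠ 0 → (∀ k ∈ 𝒦, g ∈ pid E (ptN σ q e u k)) → ∀ i, wt i ≤ t' := by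
  intro t' ht' g hg hgne hgr i
  by_contra hlt
  push Not at hlt
  obtain ⟨g', rfl⟩ := exists_rename hg i hlt
  have hg' := (rename_mem_PW i g').1 hg
  refine hgne ?_
  have h4 := hU E σ q e (fun l => u (i.succAbove l)) (fun l => wt (i.succAbove l)) s 𝒦 hB.fin hB.st hB.q2
    (fun l => hB.ne _) (indep_succAbove hB.ind i) (fun l => hB.wt1 _) hB.le hB.Q1 hcard
    (by
      intro k hk k' hk' g₁ hg₁ hg₁k
      have h5 := hpp k hk k' hk' (rename i.succAbove g₁) ((rename_mem_PW i g₁).2 hg₁)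
        ((rename_mem_pid (v := ptN σ q e u k) i g₁).2 hg₁k)
      exact (rename_mem_pid (v := ptN σ q e u k') i g₁).1 h5)
    t' ((Nat.mul_le_mul_left _ ht').trans hs) g' hg'
    (fun k hk => (rename_mem_pid (v := ptN σ q e u k) i g').1 (hgr k hk))
  rw [h4, map_zero]

end Conc

theorem cl_succ (h1 : S_CHN) (h2 : S_INV) (h3 : S_DPH) (n c : ℕ) (hU : UNS n) (hC : Cl (n + 1) c) :
    Cl (n + 1) (c + 1) := by
  obtain ⟨K₁, hK₁⟩ := hU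
  obtain ⟨K₂, hK₂⟩ := hC
  choose CC hCC using fun d => h1 (n + 1) d
  obtain ⟨CS, hCS⟩ : ∃ CS : ℕ, CS = ∑ d ∈ Finset.range (n + 2), CC d := ⟨_, rfl⟩
  have hCSd : ∀ d ≤ n + 1, CC d ≤ CS := by
    intro d hd
    rw [hCS]
    exact Finset.single_le_sum (f := CC) (fun _ _ => Nat.zero_le _) (Finset.mem_range.2 (by omega))
  refine ⟨K₁ + CS * (K₂ + 2), fun Q₁ => ?_⟩
  obtain ⟨S₁, hS₁, hU'⟩ := hK₁ Q₁
  obtain ⟨S₂, hS₂, hC'⟩ := hK₂ Q₁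
  refine ⟨(Q₁ + 1) * S₁ * S₂, by positivity, ?_⟩
  intro E σ q e u wt s 𝒦 hB hcard Q k₀ hk₀ hk₀min hQ hd hQp hQs t hts f hft hfQ
  by_contra hne
  obtain ⟨s', hs'⟩ : ∃ s' : ℕ, s' = s / ((Q₁ + 1) * S₁) := ⟨_, rfl⟩
  have hpos : 0 < (Q₁ + 1) * S₁ := by positivity
  have hs's : s' * ((Q₁ + 1) * S₁) ≤ s := by rw [hs']; exact Nat.div_mul_le_self _ _
  have hts' : S₂ * t ≤ s' := by
    rw [hs', Nat.le_div_iff_mul_le hpos]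
    calc S₂ * t * ((Q₁ + 1) * S₁) = (Q₁ + 1) * S₁ * S₂ * t := by ring
      _ ≤ s := hts
  have hts'' : t ≤ s' := (Nat.le_mul_of_pos_left t hS₂).trans hts'
  have hs'1 : S₁ * s' ≤ s := by
    refine le_trans ?_ hs's
    calc S₁ * s' = s' * (1 * S₁) := by ring
      _ ≤ s' * ((Q₁ + 1) * S₁) := Nat.mul_le_mul_left _ (Nat.mul_le_mul_right _ (by omega))
  have hs's0 : s' ≤ s := (Nat.le_mul_of_pos_left s' hS₁).trans hs'1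
  have hQ₁s' : Q₁ * s' ≤ s := by
    refine le_trans ?_ hs's
    calc Q₁ * s' = s' * (Q₁ * 1) := by ring
      _ ≤ s' * ((Q₁ + 1) * S₁) := Nat.mul_le_mul_left _ (Nat.mul_le_mul (by omega) hS₁)
  have hpp : ∀ k ∈ 𝒦, ∀ k' ∈ 𝒦, ∀ g ∈ PW E wt s, g ∈ pid E (ptN σ q e u k) → g ∈ pid E (ptN σ q e u k') :=
    fun k hk k' hk' g hg hgk => (hQs k' hk' g hg).1 ((hQs k hk g hg).2 hgk)
  obtain ⟨Q', 𝒯, h𝒯s, h𝒯c, hQ'p, hQ'd, hQ'k, hQ's, hfQ'⟩ := abs_step (F := E) (m := n + 1) CC CS K₂ hCC hCSd wt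
    hB.wt1 s s' 𝒦 (phi (n + 1) (res E σ hB.st) q) (fun k => pid E (ptN σ q e u k)) Q k₀ hk₀ hk₀min
    (conc_PW hB hk₀ hk₀min hQ₁s') (conc_lev hB hk₀min)
    (fun a => dim_comap h3 _ q (res_bij E σ hB.st hB.fin) (by have := hB.q2; omega) a Q hQ)
    hQ hQp hQs hs's0 (conc_var hU' hB (by omega) hs'1 hpp) (conc_inv h2 hB) (by omega) f hne
    (PW_mono hts'' hft) hfQ
  have h𝒯n : 𝒯.Nonempty := by
    rw [← Finset.card_pos]; omega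
  have hB' : Bas (n + 1) Q₁ E σ q e u wt 𝒯 := ⟨hB.fin, hB.st, hB.q2, hB.ne, hB.ind, hB.wt1,
    fun k hk => hB.le k (h𝒯s hk), fun k hk k' hk' => hB.Q1 k (h𝒯s hk) k' (h𝒯s hk')⟩
  exact hne (hC' E σ q e u wt s' 𝒯 hB' (by omega) Q' (𝒯.min' h𝒯n) (𝒯.min'_mem h𝒯n)
    (fun k hk => 𝒯.min'_le k hk) hQ'p (by omega) (hQ'k _ (𝒯.min'_mem h𝒯n)) hQ's t hts' f hft hfQ')

theorem uns_zero : UNS 0 := by
  refine ⟨1, fun Q₁ => ⟨1, Nat.one_pos, ?_⟩⟩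
  intro E σ q e u wt s 𝒦 _ _ _ _ _ _ _ _ hcard _ t _ f _ hf
  obtain ⟨k, hk⟩ := Finset.card_pos.1 hcard
  have h1 := hf k hk
  rw [mem_pid, MvPolynomial.eq_C_of_isEmpty f, aeval_C] at h1
  rw [MvPolynomial.eq_C_of_isEmpty f, (map_eq_zero_iff _ (algebraMap E Qb).injective).1 h1, C_0]

theorem uns_succ (h1 : S_CHN) (h2 : S_INV) (h3 : S_DPH) (n : ℕ) (hU : UNS n) : UNS (n + 1) := by
  have hcl : ∀ c, Cl (n + 1) c := by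
    intro c
    induction c with
    | zero => exact cl_zero _
    | succ c ih => exact cl_succ h1 h2 h3 n c hU ih
  obtain ⟨K₀, hK₀⟩ := hcl (n + 1)
  refine ⟨K₀ + 1, fun Q₁ => ?_⟩
  obtain ⟨S, hS, h⟩ := hK₀ Q₁
  refine ⟨S, hS, ?_⟩
  intro E σ q e u wt s 𝒦 a1 a2 a3 a4 a5 a6 a7 a8 hcard hpp t hts f hft hf
  have h𝒦 : 𝒦.Nonempty := by rw [← Finset.card_pos]; omega
  have hB : Bas (n + 1) Q₁ E σ q e u wt 𝒦 := ⟨a1, a2, a3, a4, a5, a6, a7, a8⟩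
  refine h E σ q e u wt s 𝒦 hB (by omega) (pid E (ptN σ q e u (𝒦.min' h𝒦))) (𝒦.min' h𝒦) (𝒦.min'_mem h𝒦)
    (fun k hk => 𝒦.min'_le k hk) (pid_prime _) (by omega) le_rfl ?_ t hts f hft (hf _ (𝒦.min'_mem h𝒦))
  intro k hk g hg
  exact ⟨hpp _ (𝒦.min'_mem h𝒦) k hk g hg, hpp k hk _ (𝒦.min'_mem h𝒦) g hg⟩

end Pool.Agent.H54.AM.Uns

namespace Pool.Agent.H54.AM

open Pool.Agent.H54.AM.Uns

theorem uns (h1 : S_CHN) (h2 : S_INV) (h3 : S_DPH) : S_UNS := by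
  intro n
  have h : ∀ n, UNS n := by
    intro n
    induction n with
    | zero => exact uns_zero
    | succ n ih => exact uns_succ h1 h2 h3 n ih
  exact h n

end Pool.Agent.H54.AM
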