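import Pool.Agent.H54.AM.Defs

set_option autoImplicit false

namespace Pool.Agent.H54.AM

open Polynomial in
/-- the residue field of a discrete valuation of a function field -/
theorem val_core {E κ : Type} [Field E] [Field κ] [Algebra E κ]
    (w : Valuation κ (WithZero (Multiplicative ℤ))) (π : κ) (hπ : w π = WithZero.exp (-1))
    (d : ℕ) (x : Fin (d + 1) → κ) (hx : AlgebraicIndependent E x)
    (hK : ∀ a ∈ IntermediateField.adjoin E (Set.range (fun i : Fin d => x i.castSucc)), w a ≤ 1)
    (hz : w (x (Fin.last d)) < 1)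
    (hfin : ∀ (ι : Type) (u : ι → κ), (∀ (s : Finset ι) (g : ι →
      (IntermediateField.adjoin E (Set.range (fun i : Fin d => x i.castSucc)))[X]),
      ∑ i ∈ s, aeval (x (Fin.last d)) (g i) * u i = 0 → ∀ i ∈ s, g i = 0) → Finite ι) :
  ∃ (κ₁ : Type) (_ : Field κ₁) (_ : Algebra E κ₁) (O : Subalgebra E κ) (π : O) (ρ : O →ₐ[E] κ₁)
    (y : Fin d → O) (z : O),
    (π : κ) ≠ 0 ∧ (∀ a : O, ρ a = 0 ↔ π ∣ a) ∧
    (∀ a : κ, a ≠ 0 → ∃ (m : ℤ) (u : O), ρ u ≠ 0 ∧ a = (π : κ) ^ m * u) ∧
    (∀ i, ((y i : O) : κ) = x (Fin.castSucc i)) ∧ AlgebraicIndependent E (fun i => ρ (y i)) ∧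
    FiniteDimensional (IntermediateField.adjoin E (Set.range fun i => ρ (y i))) κ₁ ∧
    (z : κ) = x (Fin.last d) ∧ ρ z = 0 := by
  classical
  set K₀ := IntermediateField.adjoin E (Set.range (fun i : Fin d => x i.castSucc)) with hK₀
  have hlt : ∀ a : WithZero (Multiplicative ℤ), a < 1 → a ≤ WithZero.exp (-1) := by
    intro a ha
    rcases eq_or_ne a 0 with rfl | h0
    · exact zero_le
    · rw [← WithZero.exp_log h0] at ha ⊢
      rw [← WithZero.exp_zero, WithZero.exp_lt_exp] at ha
      rw [WithZero.exp_le_exp]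
      omega
  have hexp1 : (WithZero.exp (-1 : ℤ)) < 1 := by
    rw [← WithZero.exp_zero, WithZero.exp_lt_exp]; norm_num
  have hπ0 : π ≠ 0 := by
    rintro rfl
    rw [map_zero] at hπ
    exact WithZero.exp_ne_zero hπ.symm
  let O : Subalgebra E κ :=
    { carrier := {a | w a ≤ 1}
      mul_mem' := fun {a b} ha hb => by
        show w (a * b) ≤ 1
        rw [map_mul]; exact mul_le_one' ha hb
      add_mem' := fun {a b} ha hb => (w.map_add a b).trans (max_le ha hb)
      algebraMap_mem' := fun e => hK _ (K₀.algebraMap_mem e) }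
  let m : Ideal O :=
    { carrier := {a | w (a : κ) < 1}
      add_mem' := fun {a b} ha hb => (w.map_add a b).trans_lt (max_lt ha hb)
      zero_mem' := by
        show w ((0 : O) : κ) < 1
        simp
      smul_mem' := fun c a ha => by
        show w ((c : κ) * (a : κ)) < 1
        rw [map_mul]
        exact (mul_le_of_le_one_left' c.2).trans_lt ha }
  have hm : ∀ a : O, a ∈ m ↔ w (a : κ) < 1 := fun a => Iff.rfl
  have hmax : m.IsMaximal := by
    rw [Ideal.isMaximal_iff]
    refine ⟨?_, ?_⟩
    · rw [hm]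
      simp
    · intro J a hJ ha haJ
      rw [hm, not_lt] at ha
      have ha1 : w (a : κ) = 1 := le_antisymm a.2 ha
      have ha0 : (a : κ) ≠ 0 := by
        intro h
        rw [h, map_zero] at ha1
        exact zero_ne_one ha1
      have hb : w ((a : κ)⁻¹) ≤ 1 := by rw [map_inv₀, ha1, inv_one]
      have : (1 : O) = ⟨(a : κ)⁻¹, hb⟩ * a := by
        apply Subtype.ext
        show (1 : κ) = (a : κ)⁻¹ * (a : κ)
        rw [inv_mul_cancel₀ ha0]
      rw [this]
      exact J.mul_mem_left _ haJ
  let _ : Field (O ⧸ m) := Ideal.Quotient.field m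
  let ρ : O →ₐ[E] (O ⧸ m) := Ideal.Quotient.mkₐ E m
  have hρ : ∀ a : O, ρ a = 0 ↔ w (a : κ) < 1 := fun a => by
    rw [← hm]
    exact Ideal.Quotient.eq_zero_iff_mem
  -- the inclusion of `K₀`
  let j : K₀ →ₐ[E] O :=
    { toFun := fun a => ⟨(a : κ), hK a a.2⟩
      map_one' := rfl
      map_mul' := fun _ _ => rfl
      map_zero' := rfl
      map_add' := fun _ _ => rfl
      commutes' := fun _ => rfl }
  let φ : K₀ →ₐ[E] (O ⧸ m) := ρ.comp j
  have hφ : Function.Injective φ := φ.toRingHom.injective
  let y' : Fin d → K₀ := fun i => ⟨x i.castSucc, IntermediateField.subset_adjoin _ _ ⟨i, rfl⟩⟩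
  let z : O := ⟨x (Fin.last d), hz.le⟩
  have hy' : AlgebraicIndependent E y' := by
    have h1 : AlgebraicIndependent E (fun i : Fin d => x i.castSucc) :=
      hx.comp _ (Fin.castSucc_injective d)
    exact (AlgHom.algebraicIndependent_iff (K₀.val) (K₀.val.toRingHom.injective)).1 h1
  have hρy : AlgebraicIndependent E (fun i => ρ (j (y' i))) :=
    (AlgHom.algebraicIndependent_iff φ hφ).2 hy'
  refine ⟨O ⧸ m, inferInstance, inferInstance, O, ⟨π, by
    show w π ≤ 1
    rw [hπ]; exact hexp1.le⟩, ρ, fun i => j (y' i), z, hπ0, ?_, ?_, fun i => rfl, hρy, ?_, rfl, ?_⟩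
  · intro a
    rw [hρ]
    constructor
    · intro ha
      have h1 : w ((a : κ) / π) ≤ 1 := by
        rw [map_div₀, hπ]
        exact div_le_one_of_le₀ (hlt _ ha) zero_le
      refine ⟨⟨(a : κ) / π, h1⟩, ?_⟩
      apply Subtype.ext
      show (a : κ) = π * ((a : κ) / π)
      rw [mul_div_cancel₀ _ hπ0]
    · rintro ⟨b, rfl⟩
      show w (π * (b : κ)) < 1
      rw [map_mul, hπ]
      exact (mul_le_of_le_one_right' b.2).trans_lt hexp1
  · intro a ha
    have hwa : w a ≠ 0 := (map_ne_zero w).2 ha
    have h1 : w (a * π ^ (WithZero.log (w a))) = 1 := by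
      rw [map_mul, map_zpow₀, hπ]
      conv_lhs => rw [← WithZero.exp_log hwa]
      rw [← WithZero.exp_zsmul, ← WithZero.exp_add]
      simp
    refine ⟨-(WithZero.log (w a)), ⟨a * π ^ (WithZero.log (w a)), h1.le⟩, ?_, ?_⟩
    · rw [Ne, hρ]
      show ¬ w (a * π ^ (WithZero.log (w a))) < 1
      rw [h1]
      exact lt_irrefl _
    · show a = π ^ (-(WithZero.log (w a))) * (a * π ^ (WithZero.log (w a)))
      rw [zpow_neg]
      have : π ^ (WithZero.log (w a)) ≠ 0 := zpow_ne_zero _ hπ0
      field_simp
  · -- finiteness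
    set N : IntermediateField E (O ⧸ m) :=
      IntermediateField.adjoin E (Set.range fun i => ρ (j (y' i))) with hN
    have hφN : ∀ a : K₀, φ a ∈ N := by
      rintro ⟨a, ha⟩
      induction ha using IntermediateField.adjoin_induction with
      | mem x hx =>
        obtain ⟨i, rfl⟩ := hx
        exact IntermediateField.subset_adjoin _ _ ⟨i, rfl⟩
      | algebraMap e => exact (φ.commutes e) ▸ N.algebraMap_mem e
      | add x y hx hy h1 h2 => exact (map_add φ ⟨x, hx⟩ ⟨y, hy⟩) ▸ N.add_mem h1 h2
      | inv x hx h1 => exact (map_inv₀ φ ⟨x, hx⟩) ▸ N.inv_mem h1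
      | mul x y hx hy h1 h2 => exact (map_mul φ ⟨x, hx⟩ ⟨y, hy⟩) ▸ N.mul_mem h1 h2
    let b := Module.Basis.ofVectorSpace N (O ⧸ m)
    have hsurj : ∀ i, ∃ u : O, ρ u = b i := fun i => Ideal.Quotient.mk_surjective _
    choose u hu using hsurj
    have key : ∀ (k : ℕ) (s : Finset (Module.Basis.ofVectorSpaceIndex N (O ⧸ m)))
        (g : Module.Basis.ofVectorSpaceIndex N (O ⧸ m) → K₀[X]),
        ∑ i ∈ s, aeval (x (Fin.last d)) (g i) * (u i : κ) = 0 → ∀ i ∈ s, X ^ k ∣ g i := by
      intro k
      induction k with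
      | zero => intro s g _ i _; simp
      | succ k ih =>
        intro s g hg
        have hev : ∀ f : K₀[X], ((Polynomial.eval₂ (j : K₀ →+* O) z f : O) : κ) =
            aeval (x (Fin.last d)) f := by
          intro f
          have := Polynomial.hom_eval₂ f (j : K₀ →+* O) (O.val : O →+* κ) z
          exact this
        have h1 : ∑ i ∈ s, (Polynomial.eval₂ (j : K₀ →+* O) z (g i)) * u i = 0 := by
          apply Subtype.ext
          rw [AddSubmonoidClass.coe_finsetSum]
          refine (Finset.sum_congr rfl fun i _ => ?_).trans hg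
          rw [← hev]
          rfl
        have h2 := congrArg ρ h1
        rw [map_sum, map_zero] at h2
        have hρz : ρ z = 0 := (hρ z).2 hz
        have h3 : ∀ f : K₀[X], ρ (Polynomial.eval₂ (j : K₀ →+* O) z f) = φ (f.coeff 0) := by
          intro f
          have := Polynomial.hom_eval₂ f (j : K₀ →+* O) (ρ : O →+* (O ⧸ m)) z
          have h4 : (ρ : O →+* (O ⧸ m)) z = 0 := hρz
          rw [h4, Polynomial.eval₂_at_zero] at this
          exact this
        have h5 : ∑ i ∈ s, (⟨φ ((g i).coeff 0), hφN _⟩ : N) • b i = 0 := by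
          rw [← h2]
          refine Finset.sum_congr rfl fun i _ => ?_
          rw [map_mul, h3, hu]
          rfl
        have h6 : ∀ i ∈ s, (g i).coeff 0 = 0 := by
          intro i hi
          have := linearIndependent_iff'.1 b.linearIndependent s _ h5 i hi
          have h7 : φ ((g i).coeff 0) = 0 := congrArg Subtype.val this
          exact hφ (h7.trans (map_zero φ).symm)
        have h8 : ∀ i ∈ s, g i = X * (g i).divX := by
          intro i hi
          have := Polynomial.X_mul_divX_add (g i)
          rw [h6 i hi, map_zero, add_zero] at this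
          exact this.symm
        have hx0 : x (Fin.last d) ≠ 0 := hx.ne_zero _
        have h9 : ∑ i ∈ s, aeval (x (Fin.last d)) ((g i).divX) * (u i : κ) = 0 := by
          have h10 : x (Fin.last d) *
              ∑ i ∈ s, aeval (x (Fin.last d)) ((g i).divX) * (u i : κ) = 0 := by
            rw [← hg, Finset.mul_sum]
            refine Finset.sum_congr rfl fun i hi => ?_
            conv_rhs => rw [h8 i hi, map_mul, aeval_X]
            ring
          exact (mul_eq_zero.1 h10).resolve_left hx0
        intro i hi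
        obtain ⟨c, hc⟩ := ih s _ h9 i hi
        rw [h8 i hi, pow_succ']
        exact ⟨c, by rw [hc]; ring⟩
    have : Finite (Module.Basis.ofVectorSpaceIndex N (O ⧸ m)) := by
      refine hfin _ (fun i => (u i : κ)) ?_
      intro s g hg i hi
      ext n
      have := key (n + 1) s g hg i hi
      rw [Polynomial.X_pow_dvd_iff] at this
      rw [this n (Nat.lt_succ_self n), coeff_zero]
    exact Module.Finite.of_basis b
  · exact (hρ z).2 hz



open Polynomial in
theorem val_aux {E κ : Type} [Field E] [CharZero E] [Field κ] [Algebra E κ] (d : ℕ)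
    (x : Fin (d + 1) → κ) (hx : AlgebraicIndependent E x)
    (hf : FiniteDimensional (IntermediateField.adjoin E (Set.range x)) κ) :
    ∃ (w : Valuation κ (WithZero (Multiplicative ℤ))) (π : κ), w π = WithZero.exp (-1) ∧
      (∀ a ∈ IntermediateField.adjoin E (Set.range (fun i : Fin d => x i.castSucc)), w a ≤ 1) ∧
      w (x (Fin.last d)) < 1 ∧
      ∀ (ι : Type) (u : ι → κ), (∀ (s : Finset ι) (g : ι →
        (IntermediateField.adjoin E (Set.range (fun i : Fin d => x i.castSucc)))[X]),
        ∑ i ∈ s, aeval (x (Fin.last d)) (g i) * u i = 0 → ∀ i ∈ s, g i = 0) → Finite ι := by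
  classical
  set K₀ := IntermediateField.adjoin E (Set.range (fun i : Fin d => x i.castSucc)) with hK₀
  set t := x (Fin.last d) with ht
  have htr : Transcendental K₀ t := by
    rw [hK₀, IntermediateField.transcendental_adjoin_iff]
    have h1 : Set.range (fun i : Fin d => x i.castSucc) = x '' (Set.range Fin.castSucc) :=
      Set.range_comp x Fin.castSucc
    rw [h1]
    refine hx.transcendental_adjoin ?_
    rintro ⟨i, hi⟩
    exact Fin.castSucc_ne_last i hi
  have hinj : Function.Injective (aeval (R := K₀) t) := by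
    rwa [← transcendental_iff_injective]
  let a1 : Algebra K₀[X] κ := (aeval (R := K₀) t).toAlgebra
  have hA : ∀ f : K₀[X], algebraMap K₀[X] κ f = aeval t f := fun f => rfl
  have hAi : Function.Injective (algebraMap K₀[X] κ) := hinj
  let F := FractionRing K₀[X]
  let a4 : Algebra F κ := (IsFractionRing.lift (K := F) (g := algebraMap K₀[X] κ) hAi).toAlgebra
  have a5 : IsScalarTower K₀[X] F κ := IsScalarTower.of_algebraMap_eq fun c =>
    (IsFractionRing.lift_algebraMap hAi c).symm
  have hMF : ∀ a ∈ IntermediateField.adjoin E (Set.range x), ∃ f : F, algebraMap F κ f = a := by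
    intro a ha
    induction ha using IntermediateField.adjoin_induction with
    | mem y hy =>
      obtain ⟨i, rfl⟩ := hy
      refine Fin.lastCases ?_ (fun i => ?_) i
      · refine ⟨algebraMap K₀[X] F X, ?_⟩
        rw [← IsScalarTower.algebraMap_apply, hA, aeval_X]
      · refine ⟨algebraMap K₀[X] F (C ⟨x i.castSucc, IntermediateField.subset_adjoin _ _ ⟨i, rfl⟩⟩),
          ?_⟩
        rw [← IsScalarTower.algebraMap_apply, hA, aeval_C]
        rfl
    | algebraMap e =>
      refine ⟨algebraMap K₀[X] F (C (algebraMap E K₀ e)), ?_⟩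
      rw [← IsScalarTower.algebraMap_apply, hA, aeval_C]
      rfl
    | add a b ha hb h1 h2 =>
      obtain ⟨f, rfl⟩ := h1
      obtain ⟨g, rfl⟩ := h2
      exact ⟨f + g, map_add _ _ _⟩
    | inv a ha h1 =>
      obtain ⟨f, rfl⟩ := h1
      exact ⟨f⁻¹, map_inv₀ _ _⟩
    | mul a b ha hb h1 h2 =>
      obtain ⟨f, rfl⟩ := h1
      obtain ⟨g, rfl⟩ := h2
      exact ⟨f * g, map_mul _ _ _⟩
  have a6 : Module.Finite F κ := by
    obtain ⟨s, hs⟩ := hf.1
    refine ⟨⟨s, ?_⟩⟩
    rw [eq_top_iff]
    intro a _
    have ha : a ∈ Submodule.span (IntermediateField.adjoin E (Set.range x)) (s : Set κ) := by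
      rw [hs]; trivial
    induction ha using Submodule.span_induction with
    | mem y hy => exact Submodule.subset_span hy
    | zero => exact Submodule.zero_mem _
    | add a b _ _ h1 h2 => exact Submodule.add_mem _ (h1 trivial) (h2 trivial)
    | smul c a _ h1 =>
      obtain ⟨f, hf⟩ := hMF c c.2
      have : c • a = f • a := by
        rw [Algebra.smul_def f a, hf]
        rfl
      rw [this]
      exact Submodule.smul_mem _ _ (h1 trivial)
  have c1 : CharZero K₀ := charZero_of_injective_algebraMap (algebraMap E K₀).injective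
  have c2 : CharZero F := charZero_of_injective_algebraMap (IsFractionRing.injective K₀[X] F)
  have a7 : Algebra.IsSeparable F κ := inferInstance
  let Cl := integralClosure K₀[X] κ
  have a8 : IsDedekindDomain Cl := integralClosure.isDedekindDomain K₀[X] F κ
  have a9 : IsFractionRing Cl κ := integralClosure.isFractionRing_of_finite_extension F κ
  have hXmax : (Ideal.span {(X : K₀[X])}).IsMaximal :=
    PrincipalIdealRing.isMaximal_of_irreducible Polynomial.irreducible_X
  have hCli : Function.Injective (algebraMap K₀[X] Cl) := by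
    intro a b hab
    apply hAi
    have := congrArg (algebraMap Cl κ) hab
    rwa [← IsScalarTower.algebraMap_apply, ← IsScalarTower.algebraMap_apply] at this
  obtain ⟨Q, hQ, hQX⟩ := Ideal.exists_ideal_over_maximal_of_isIntegral (S := Cl)
    (Ideal.span {(X : K₀[X])}) (by
      rw [(RingHom.injective_iff_ker_eq_bot _).1 hCli]
      exact bot_le)
  have hXQ : algebraMap K₀[X] Cl X ∈ Q := by
    have : (X : K₀[X]) ∈ Ideal.comap (algebraMap K₀[X] Cl) Q := by
      rw [hQX]
      exact Ideal.mem_span_singleton_self _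
    exact this
  have hQne : Q ≠ ⊥ := by
    rintro rfl
    rw [Ideal.mem_bot] at hXQ
    have := hCli (hXQ.trans (map_zero _).symm)
    exact Polynomial.X_ne_zero this
  let v : IsDedekindDomain.HeightOneSpectrum Cl := ⟨Q, hQ.isPrime, hQne⟩
  obtain ⟨π, hπ⟩ := v.valuation_exists_uniformizer κ
  refine ⟨v.valuation κ, π, hπ, ?_, ?_, ?_⟩
  · intro a ha
    have h1 : a = algebraMap Cl κ (algebraMap K₀[X] Cl (C ⟨a, ha⟩)) := by
      rw [← IsScalarTower.algebraMap_apply, hA, aeval_C]
      rfl
    rw [h1]
    exact v.valuation_le_one _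
  · have h1 : t = algebraMap Cl κ (algebraMap K₀[X] Cl X) := by
      rw [← IsScalarTower.algebraMap_apply, hA, aeval_X]
    rw [h1]
    exact (v.valuation_lt_one_iff_mem _).2 hXQ
  · intro ι u hu
    have h1 : LinearIndependent K₀[X] u := by
      rw [linearIndependent_iff']
      intro s g hg
      refine hu s g ?_
      rw [← hg]
      exact Finset.sum_congr rfl fun i _ => (Algebra.smul_def _ _).symm
    have h2 : LinearIndependent F u := (LinearIndependent.iff_fractionRing K₀[X] F).1 h1
    exact h2.finite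

theorem val : S_VAL := by
  intro E κ _ _ _ _ d x hx hf
  obtain ⟨w, π, hπ, hK, hz, hfin⟩ := val_aux d x hx hf
  exact val_core w π hπ d x hx hK hz hfin

end Pool.Agent.H54.AM
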