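import Mathlib
import Pool.Agent.H54.AM.Defs
import Pool.Agent.H54.AD.Zea

set_option autoImplicit false
set_option linter.unusedVariables false

/-!
# The zero estimate
-/

namespace Pool.Agent.H54.AM

open MvPolynomial
open Pool.Agent.W237.RK
open Pool.Agent.H58P (Qb ht)
open Pool.Agent.H54.AD (pt)
open Pool.Agent.N684.BK (wd PW hil Deg dimQ)

namespace ZEN

/-! ### conjugates -/

theorem orbN_finite (E : GF) {n : ℕ} (u : Fin n → Qb) : (orbN E u).Finite := by
  have hf : ∀ x : Qb, ((minpoly ℚ x).rootSet Qb).Finite := fun x => Polynomial.rootSet_finite _ _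
  refine (Set.Finite.pi' fun i => hf (u i)).subset ?_
  rintro _ ⟨ρ, _, rfl⟩ i
  have hx : IsIntegral ℚ (u i) := (AlgebraicClosure.isAlgebraic ℚ).isIntegral.isIntegral (u i)
  rw [Polynomial.mem_rootSet]
  refine ⟨minpoly.ne_zero hx, ?_⟩
  have := minpoly.aeval ℚ (u i)
  have h2 : Polynomial.aeval (ρ (u i)) (minpoly ℚ (u i)) =
      ρ (Polynomial.aeval (u i) (minpoly ℚ (u i))) := by
    rw [Polynomial.aeval_algHom_apply]
  rw [h2, this, map_zero]

theorem mem_orbN_self (E : GF) {n : ℕ} (u : Fin n → Qb) : u ∈ orbN E u :=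
  ⟨1, fun x _ => rfl, rfl⟩

/-- the conjugates of a level are levels of conjugates -/
theorem orbN_pt_sub {E : GF} {σ : Aut} (hσ : ∀ x ∈ E, σ x ∈ E) (q e : ℕ) {n : ℕ}
    (u : Fin n → Qb) (j : ℕ) :
    orbN E (ptN σ q e u j) ⊆ (fun y : Fin n → Qb => ptN σ q e y j) '' orbN E u := by
  rintro _ ⟨ρ, hρ, rfl⟩
  set s : Aut := σ ^ (e - j)
  set ρ' : Aut := s⁻¹ * ρ * s with hρ'
  have hs : ∀ x, s (ρ' x) = ρ (s x) := by
    intro x
    rw [hρ']
    simp only [AlgEquiv.mul_apply]
    exact s.apply_symm_apply _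
  refine ⟨fun i => ρ' (u i), ⟨ρ', fun x hx => ?_, rfl⟩, ?_⟩
  · apply s.injective
    rw [hs, hρ _ (AD.ZEA.pow_mem hσ _ hx)]
  · have h1 : ∀ x, pt σ q e (ρ' x) j = ρ (pt σ q e x j) := by
      intro x
      unfold pt
      rw [hs, map_pow]
    funext i
    exact h1 (u i)

theorem aeval_fix {E : GF} {ρ : Aut} (hρ : Fix E ρ) {n : ℕ} (v : Fin n → Qb)
    (f : MvPolynomial (Fin n) E) : aeval (fun i => ρ (v i)) f = ρ (aeval v f) := by
  rw [aeval_def, aeval_def]
  have h1 : ρ (eval₂ (algebraMap E Qb) v f) = (ρ : Qb →+* Qb) (eval₂ (algebraMap E Qb) v f) := rfl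
  rw [h1, ← coe_eval₂Hom, ← coe_eval₂Hom, ← RingHom.comp_apply]
  congr 1
  apply MvPolynomial.ringHom_ext
  · intro x
    simp only [coe_eval₂Hom, eval₂_C, RingHom.comp_apply, RingHom.coe_coe]
    exact (hρ _ x.2).symm
  · intro i
    simp

/-- a polynomial over `E` that vanishes at a level of `u` vanishes at the level of all
conjugates -/
theorem aeval_conj {E : GF} [FiniteDimensional ℚ E] {σ : Aut} (hσ : ∀ x ∈ E, σ x ∈ E) (q e : ℕ)
    {n : ℕ} (u : Fin n → Qb) (j : ℕ) (f : MvPolynomial (Fin n) E) {y : Fin n → Qb}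
    (hy : y ∈ orbN E u) :
    aeval (ptN σ q e y j) f = 0 ↔ aeval (ptN σ q e u j) f = 0 := by
  obtain ⟨ρ, hρ, rfl⟩ := hy
  set s : Aut := σ ^ (e - j)
  set ρ' : Aut := s * ρ * s⁻¹ with hρ'
  have hs : ∀ x, ρ' (s x) = s (ρ x) := by
    intro x
    rw [hρ']
    simp only [AlgEquiv.mul_apply]
    congr 2
    exact s.symm_apply_apply _
  have hfix : Fix E ρ' := by
    intro x hx
    have h1 : x = s (s.symm x) := (s.apply_symm_apply x).symm
    have h2 : ρ (s.symm x) = s.symm x := hρ _ (AD.ZEA.pow_symm_mem hσ _ hx)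
    calc ρ' x = ρ' (s (s.symm x)) := by rw [← h1]
      _ = s (ρ (s.symm x)) := hs _
      _ = x := by rw [h2, ← h1]
  have h1 : ∀ x, pt σ q e (ρ x) j = ρ' (pt σ q e x j) := by
    intro x
    unfold pt
    rw [map_pow, hs]
  have h2 : ptN σ q e (fun i => ρ (u i)) j = fun i => ρ' (ptN σ q e u j i) := by
    funext i
    exact h1 (u i)
  rw [h2, aeval_fix hfix]
  exact map_eq_zero_iff ρ' ρ'.injective

theorem rkN_pos {Ω ι : Type*} [Field Ω] {n : ℕ} (N : Fin n → ℕ) (h : ∀ i, 1 ≤ N i)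
    (u : ι → Fin n → Ω) (S : Set ι) (hS : S.Nonempty) : 0 < rkN N u S := by
  unfold rkN
  obtain ⟨x, hx⟩ := hS
  rw [Module.finrank_pos_iff]
  have hmem : rowN N (u x) ∈ Submodule.span Ω ((fun x => rowN N (u x)) '' S) :=
    Submodule.subset_span ⟨x, hx, rfl⟩
  refine ⟨⟨⟨_, hmem⟩, 0, fun h' => ?_⟩⟩
  have h3 : rowN N (u x) = 0 := congrArg Subtype.val h'
  have h4 := congrFun h3 (fun i => ⟨0, h i⟩)
  simp [rowN] at h4

/-- enumeration of a finite set such that earlier elements are not below later ones -/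
theorem enum {X : Type*} [PartialOrder X] (L : ℕ) : ∀ s : Finset X, s.card = L →
    ∃ g : Fin L → X, (∀ i, g i ∈ s) ∧ ∀ l i, l < i → ¬ g l ≤ g i := by
  classical
  induction L with
  | zero =>
    intro s _
    exact ⟨Fin.elim0, fun i => i.elim0, fun l => l.elim0⟩
  | succ L ih =>
    intro s hs
    have hne : s.Nonempty := by
      rw [← Finset.card_pos]
      omega
    obtain ⟨x, hx, hmin⟩ := s.exists_minimal hne
    obtain ⟨g, hg1, hg2⟩ := ih (s.erase x) (by
      rw [Finset.card_erase_of_mem hx, hs]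
      rfl)
    refine ⟨Fin.snoc g x, ?_, ?_⟩
    · intro i
      refine Fin.lastCases ?_ (fun i' => ?_) i
      · rw [Fin.snoc_last]
        exact hx
      · rw [Fin.snoc_castSucc]
        exact Finset.mem_of_mem_erase (hg1 i')
    · intro l i
      refine Fin.lastCases ?_ (fun i' => ?_) i
      · refine Fin.lastCases ?_ (fun l' => ?_) l
        · intro h
          exact absurd h (lt_irrefl _)
        · intro _
          rw [Fin.snoc_last, Fin.snoc_castSucc]
          intro hle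
          have h1 := Finset.mem_erase.1 (hg1 l')
          exact h1.1 (le_antisymm hle (hmin h1.2 hle))
      · refine Fin.lastCases ?_ (fun l' => ?_) l
        · intro h
          exact absurd h (not_lt.2 (Fin.le_last _))
        · intro h
          rw [Fin.snoc_castSucc, Fin.snoc_castSucc]
          exact hg2 l' i' (by simpa using h)

theorem degreeOf_PW {F : Type} [Field F] {n : ℕ} {wt : Fin n → ℕ} {s : ℕ}
    {f : MvPolynomial (Fin n) F} (hf : f ∈ PW F wt s) (m : Fin n →₀ ℕ) (hm : m ∈ f.support)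
    (j : Fin n) : wt j * m j ≤ s := by
  have h1 : (f.support : Set (Fin n →₀ ℕ)) ⊆ {m | wd wt m ≤ s} := by
    have h2 := hf
    unfold PW at h2
    rwa [mem_restrictSupport_iff] at h2
  have h2 : wd wt m ≤ s := h1 hm
  refine le_trans ?_ h2
  unfold wd
  exact Finset.single_le_sum (f := fun i => wt i * m i) (fun i _ => Nat.zero_le _)
    (Finset.mem_univ j)

end ZEN

open ZEN

theorem zen (h1 : S_UNS) (h2 : S_HALFN) (h3 : S_INDN) (h4 : S_CNT) (h5 : S_SGL) : S_ZEN := by
  classical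
  intro n Q₁ L hQ₁ hL
  obtain ⟨K₀, hU⟩ := h1 n
  set W : ℕ := L * (K₀ + 1) with hW
  have hW1 : 1 ≤ W := Nat.mul_pos (by omega) (by omega)
  obtain ⟨S₀, hS0, hU⟩ := hU (Q₁ ^ W)
  set C : ℕ := n ^ n * (2 * L * S₀) ^ n + 2 with hC
  refine ⟨W, C, hW1, ?_⟩
  intro E σ q e H N u hE hσ hq hqQ hu hind hHe hN1 hN
  set D : ℕ := (orbN E u).ncard with hDdef
  have hD : 1 ≤ D := by
    rw [hDdef, Nat.succ_le_iff, Set.ncard_pos (orbN_finite E u)]
    exact ⟨_, mem_orbN_self E u⟩
  set Pn : ℕ := ∏ i, N i with hPn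
  have hPn1 : 1 ≤ Pn := Nat.succ_le_iff.2 (Finset.prod_pos fun i _ => hN1 i)
  set wt : Fin n → ℕ := fun i => ∏ j ∈ Finset.univ.erase i, N j with hwt
  have hwt1 : ∀ i, 1 ≤ wt i := fun i =>
    Nat.succ_le_iff.2 (Finset.prod_pos fun j _ => hN1 j)
  have hwtN : ∀ i, wt i * N i = Pn := fun i => Finset.prod_erase_mul _ _ (Finset.mem_univ i)
  have hwtprod : Pn * ∏ i, wt i = Pn ^ n := by
    calc Pn * ∏ i, wt i = (∏ i, wt i) * ∏ i, N i := by rw [mul_comm]
      _ = ∏ i, wt i * N i := by rw [Finset.prod_mul_distrib]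
      _ = ∏ _i : Fin n, Pn := Finset.prod_congr rfl fun i _ => hwtN i
      _ = Pn ^ n := by simp
  -- the scale
  set s : ℕ := (Pn - 1) / (2 * L) with hs
  have hs1 : 2 * L * s < Pn := by
    have h6 := Nat.mul_div_le (Pn - 1) (2 * L)
    rw [← hs] at h6
    omega
  have hs2 : Pn ≤ 2 * L * (s + 1) := by
    have h6 := Nat.lt_mul_div_succ (Pn - 1) (b := 2 * L) (by omega)
    rw [← hs] at h6
    omega
  set t : ℕ := s / S₀ with ht
  have ht1 : S₀ * t ≤ s := Nat.mul_div_le s S₀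
  have ht2 : s + 1 ≤ S₀ * (t + 1) := Nat.lt_mul_div_succ s hS0
  have ht3 : Pn ≤ 2 * L * S₀ * (t + 1) := by
    calc Pn ≤ 2 * L * (s + 1) := hs2
      _ ≤ 2 * L * (S₀ * (t + 1)) := Nat.mul_le_mul_left _ ht2
      _ = _ := by ring
  have hfr : D < Module.finrank E (PW E wt t) := by
    by_contra hcon
    push Not at hcon
    have h6 := h4 E n wt t hwt1
    set fr := Module.finrank E (PW E wt t) with hfrdef
    have h7 : Pn * (t + 1) ^ n ≤ (n ^ n * (2 * L * S₀) ^ n * fr) * (t + 1) ^ n := by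
      calc Pn * (t + 1) ^ n ≤ Pn * (n ^ n * (∏ i, wt i) * fr) := Nat.mul_le_mul_left _ h6
        _ = n ^ n * (Pn * ∏ i, wt i) * fr := by ring
        _ = n ^ n * Pn ^ n * fr := by rw [hwtprod]
        _ ≤ n ^ n * (2 * L * S₀ * (t + 1)) ^ n * fr :=
            Nat.mul_le_mul_right _ (Nat.mul_le_mul_left _ (Nat.pow_le_pow_left ht3 n))
        _ = _ := by rw [mul_pow]; ring
    have h8 : Pn ≤ n ^ n * (2 * L * S₀) ^ n * fr :=
      Nat.le_of_mul_le_mul_right h7 (by positivity)
    have h9 : C * D ≤ n ^ n * (2 * L * S₀) ^ n * D :=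
      hN.trans (h8.trans (Nat.mul_le_mul_left _ hcon))
    rw [hC, add_mul] at h9
    omega
  -- the levels
  set I : Finset ℕ := Finset.Ico H (H + W) with hI
  have hIcard : I.card = W := by rw [hI, Nat.card_Ico]; omega
  set P : ℕ → Ideal (MvPolynomial (Fin n) E) := fun k => pid E (ptN σ q e u k) with hP
  have hPmem : ∀ k f, f ∈ P k ↔ aeval (ptN σ q e u k) f = 0 := by
    intro k f
    exact RingHom.mem_ker
  set J : ℕ → Submodule E (MvPolynomial (Fin n) E) := fun k =>
    PW E wt s ⊓ (P k).restrictScalars E with hJ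
  have hJmem : ∀ k f, f ∈ J k ↔ f ∈ PW E wt s ∧ f ∈ P k := fun k f => Iff.rfl
  have hLcard : L ≤ (I.image J).card := by
    by_contra hcon
    push Not at hcon
    have hIne : I.Nonempty := by
      rw [← Finset.card_pos, hIcard]
      omega
    obtain ⟨Y, -, hY⟩ := Finset.exists_le_card_fiber_of_mul_le_card_of_maps_to (s := I)
      (t := I.image J) (f := J) (n := K₀ + 1) (fun a ha => Finset.mem_image_of_mem J ha)
      (hIne.image J) (by
        rw [hIcard, hW]
        exact Nat.mul_le_mul_right _ hcon.le)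
    set 𝒦 := I.filter (fun k => J k = Y) with h𝒦
    have h𝒦mem : ∀ k ∈ 𝒦, H ≤ k ∧ k < H + W ∧ J k = Y := by
      intro k hk
      have h6 := Finset.mem_filter.1 hk
      have h7 := Finset.mem_Ico.1 h6.1
      exact ⟨h7.1, h7.2, h6.2⟩
    have h𝒦ne : 𝒦.Nonempty := by
      rw [← Finset.card_pos]
      omega
    obtain ⟨k₁, hk₁⟩ := h𝒦ne
    have horb : (orbN E (ptN σ q e u k₁)).ncard ≤ D :=
      (Set.ncard_le_ncard (orbN_pt_sub hσ q e u k₁) ((orbN_finite E u).image _)).trans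
        (Set.ncard_image_le (orbN_finite E u))
    obtain ⟨f, hft, hf0, hfp⟩ := h5 E n (ptN σ q e u k₁) wt t hE hwt1 (lt_of_le_of_lt horb hfr)
    have hts : t ≤ s := (Nat.le_mul_of_pos_left t hS0).trans ht1
    have hPWmono : ∀ f, f ∈ PW E wt t → f ∈ PW E wt s := by
      intro f hf
      unfold PW at hf ⊢
      rw [mem_restrictSupport_iff] at hf ⊢
      exact hf.trans fun m hm => le_trans hm hts
    have hsame : ∀ k ∈ 𝒦, ∀ k' ∈ 𝒦, ∀ f ∈ PW E wt s, f ∈ P k → f ∈ P k' := by
      intro k hk k' hk' f hf hfk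
      have h6 : f ∈ J k := ⟨hf, hfk⟩
      rw [(h𝒦mem k hk).2.2, ← (h𝒦mem k' hk').2.2] at h6
      exact h6.2
    apply hf0
    refine hU E σ q e u wt s 𝒦 hE hσ hq hu hind hwt1 ?_ ?_ ?_ hsame t ht1 f hft ?_
    · intro k hk
      have := h𝒦mem k hk
      omega
    · intro k hk k' hk' hkk
      have h6 := h𝒦mem k hk
      have h7 := h𝒦mem k' hk'
      calc q ^ (k' - k) ≤ Q₁ ^ (k' - k) := Nat.pow_le_pow_left hqQ _
        _ ≤ Q₁ ^ W := Nat.pow_le_pow_right (by omega) (by omega)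
    · omega
    · intro k hk
      exact hsame k₁ hk₁ k hk f (hPWmono f hft) hfp
  obtain ⟨𝒮, h𝒮sub, h𝒮card⟩ := Finset.exists_subset_card_eq hLcard
  obtain ⟨gg, hgg1, hgg2⟩ := enum L 𝒮 h𝒮card
  have hex : ∀ i, ∃ k ∈ I, J k = gg i := fun i => Finset.mem_image.1 (h𝒮sub (hgg1 i))
  choose f hfI hfJ using hex
  have hfinj : Function.Injective f := by
    intro i l hil
    by_contra hne
    rcases lt_or_gt_of_ne hne with h | h
    · exact hgg2 i l h (by rw [← hfJ, ← hfJ, hil])
    · exact hgg2 l i h (by rw [← hfJ, ← hfJ, hil])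
  have hG : ∀ l i : Fin L, ∃ g : MvPolynomial (Fin n) E, l < i → g ∈ PW E wt s ∧
      g ∈ P (f l) ∧ g ∉ P (f i) := by
    intro l i
    by_cases hli : l < i
    · have h6 := hgg2 l i hli
      rw [← hfJ, ← hfJ, SetLike.le_def] at h6
      push Not at h6
      obtain ⟨g, hg1, hg2⟩ := h6
      refine ⟨g, fun _ => ⟨hg1.1, hg1.2, fun h => hg2 ⟨hg1.1, h⟩⟩⟩
    · exact ⟨0, fun h => absurd h hli⟩
  choose g hg using hG
  -- the sets of points and the polynomials
  set S : Fin L → Set (ℕ × (Fin n → Qb)) := fun i => {x | x.1 = f i ∧ x.2 ∈ orbN E u} with hS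
  set U : ℕ × (Fin n → Qb) → Fin n → Qb := fun x => ptN σ q e x.2 x.1 with hUdef
  set GG : Fin L → MvPolynomial (Fin n) Qb := fun i =>
    ∏ l ∈ Finset.univ.filter (fun l => l < i), map (algebraMap E Qb) (g l i) with hGG
  have hSfin : ∀ i, (S i).Finite := by
    intro i
    refine ((Set.finite_singleton (f i)).prod (orbN_finite E u)).subset ?_
    rintro x ⟨h1, h2⟩
    exact ⟨h1, h2⟩
  have hdeg : ∀ l i, l < i → ∀ j, (map (algebraMap E Qb) (g l i)).degreeOf j ≤
      (N j - 1) / (2 * L) := by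
    intro l i hli j
    rw [degreeOf_le_iff]
    intro m hm
    have hm' : m ∈ (g l i).support := support_map_subset _ _ hm
    have h6 := degreeOf_PW (hg l i hli).1 m hm' j
    rw [Nat.le_div_iff_mul_le (by omega)]
    have h7 : wt j * (2 * L * m j) < wt j * N j := by
      calc wt j * (2 * L * m j) = 2 * L * (wt j * m j) := by ring
        _ ≤ 2 * L * s := Nat.mul_le_mul_left _ h6
        _ < Pn := hs1
        _ = wt j * N j := (hwtN j).symm
    have h8 : 2 * L * m j < N j := Nat.lt_of_mul_lt_mul_left h7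
    rw [mul_comm] at h8
    omega
  have hGGd : ∀ i j, (GG i).degreeOf j ≤ N j / 2 := by
    intro i j
    have hc : (Finset.univ.filter (fun l : Fin L => l < i)).card ≤ L := by
      calc _ ≤ (Finset.univ : Finset (Fin L)).card := Finset.card_filter_le _ _
        _ = L := by simp
    calc (GG i).degreeOf j
        ≤ ∑ l ∈ Finset.univ.filter (fun l => l < i),
            (map (algebraMap E Qb) (g l i)).degreeOf j := degreeOf_prod_le _ _ _
      _ ≤ ∑ _l ∈ Finset.univ.filter (fun l : Fin L => l < i), (N j - 1) / (2 * L) :=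
          Finset.sum_le_sum fun l hl => hdeg l i (Finset.mem_filter.1 hl).2 j
      _ = (Finset.univ.filter (fun l : Fin L => l < i)).card * ((N j - 1) / (2 * L)) := by
          rw [Finset.sum_const, smul_eq_mul]
      _ ≤ L * ((N j - 1) / (2 * L)) := Nat.mul_le_mul_right _ hc
      _ ≤ N j / 2 := by
          rw [Nat.le_div_iff_mul_le (by norm_num)]
          have := Nat.mul_div_le (N j - 1) (2 * L)
          calc L * ((N j - 1) / (2 * L)) * 2 = 2 * L * ((N j - 1) / (2 * L)) := by ring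
            _ ≤ N j - 1 := this
            _ ≤ N j := Nat.sub_le _ _
  have hev : ∀ i x, eval (U x) (GG i) =
      ∏ l ∈ Finset.univ.filter (fun l => l < i), aeval (U x) (g l i) := by
    intro i x
    rw [hGG]
    simp only
    rw [map_prod]
    refine Finset.prod_congr rfl fun l _ => ?_
    rw [eval_map, aeval_def]
  obtain ⟨R, hRS, hRc, hRi⟩ := h3 Qb (ℕ × (Fin n → Qb)) n L N (fun j => N j / 2) U S GG hSfin
    hGGd (fun j => Nat.div_le_self _ _)
    (by
      intro i l hli x hx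
      rw [hev]
      refine Finset.prod_eq_zero (i := l) (by simp [hli]) ?_
      have h6 : x.1 = f l := hx.1
      show aeval (ptN σ q e x.2 x.1) (g l i) = 0
      rw [h6, aeval_conj hσ q e u (f l) (g l i) hx.2]
      exact (hPmem _ _).1 (hg l i hli).2.1)
    (by
      intro i x hx
      rw [hev]
      refine Finset.prod_ne_zero_iff.2 fun l hl => ?_
      have hli : l < i := (Finset.mem_filter.1 hl).2
      have h6 : x.1 = f i := hx.1
      show aeval (ptN σ q e x.2 x.1) (g l i) ≠ 0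
      rw [h6]
      intro h7
      rw [aeval_conj hσ q e u (f i) (g l i) hx.2] at h7
      exact (hg l i hli).2.2 ((hPmem _ _).2 h7))
  -- the level with the smallest rank
  have hLne : (Finset.univ : Finset (Fin L)).Nonempty := ⟨⟨0, hL⟩, Finset.mem_univ _⟩
  obtain ⟨i₀, _, hi₀⟩ := Finset.exists_min_image Finset.univ (fun i => rkN N U (S i)) hLne
  have hrk : rkN N (fun y : Fin n → Qb => ptN σ q e y (f i₀)) (orbN E u) = rkN N U (S i₀) := by
    unfold rkN
    have himg : (fun x : Fin n → Qb => rowN N (ptN σ q e x (f i₀))) '' orbN E u =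
        (fun x => rowN N (U x)) '' S i₀ := by
      ext w
      constructor
      · rintro ⟨y, hy, rfl⟩
        exact ⟨(f i₀, y), ⟨rfl, hy⟩, rfl⟩
      · rintro ⟨x, ⟨h1, h2⟩, rfl⟩
        refine ⟨x.2, h2, ?_⟩
        show rowN N (ptN σ q e x.2 (f i₀)) = rowN N (ptN σ q e x.2 x.1)
        rw [h1]
    rw [himg]
  have hdisj : (Set.univ : Set (Fin L)).PairwiseDisjoint R := by
    intro i _ l _ hil
    rw [Function.onFun, Finset.disjoint_left]
    intro x hx hx'
    have h1 := (hRS i x hx).1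
    have h2 := (hRS l x hx').1
    exact hil (hfinj (h1.symm.trans h2))
  have hcard : (Finset.univ.biUnion R).card = ∑ i, (R i).card :=
    Finset.card_biUnion fun i _ l _ hil => hdisj (Set.mem_univ _) (Set.mem_univ _) hil
  have hhalf : ∀ i, rkN N U (S i) ≤ 2 ^ n * (R i).card := by
    intro i
    rw [hRc i]
    exact h2 Qb _ n N (fun j => N j - N j / 2) U (S i) (hSfin i) (fun j => by
      show N j ≤ 2 * (N j - N j / 2)
      omega)
  refine ⟨f i₀, Finset.univ.biUnion R, ?_, ?_, ?_, ?_, ?_, ?_⟩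
  · exact (Finset.mem_Ico.1 (hfI i₀)).1
  · exact (Finset.mem_Ico.1 (hfI i₀)).2
  · intro x hx
    obtain ⟨i, _, hi⟩ := Finset.mem_biUnion.1 hx
    obtain ⟨h1, h2⟩ := hRS i x hi
    have h3 := Finset.mem_Ico.1 (hfI i)
    rw [h1]
    exact ⟨h3.1, h3.2, h2⟩
  · rw [hcard]
    have h1 : 0 < (R i₀).card := by
      rw [hRc i₀]
      refine rkN_pos _ (fun j => ?_) _ _ ⟨(f i₀, u), rfl, mem_orbN_self E u⟩
      have := hN1 j
      omega
    exact lt_of_lt_of_le h1 (Finset.single_le_sum (f := fun i => (R i).card)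
      (fun i _ => Nat.zero_le _) (Finset.mem_univ i₀))
  · rw [hrk, hcard]
    calc L * rkN N U (S i₀) = ∑ _i : Fin L, rkN N U (S i₀) := by simp
      _ ≤ ∑ i : Fin L, rkN N U (S i) := Finset.sum_le_sum fun i _ => hi₀ i (Finset.mem_univ i)
      _ ≤ ∑ i : Fin L, 2 ^ n * (R i).card := Finset.sum_le_sum fun i _ => hhalf i
      _ = 2 ^ n * ∑ i, (R i).card := by rw [Finset.mul_sum]
  · have hex : ∀ x : (Finset.univ.biUnion R : Finset (ℕ × (Fin n → Qb))),
        ∃ i, (x : ℕ × (Fin n → Qb)) ∈ R i := by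
      intro x
      obtain ⟨i, _, hi⟩ := Finset.mem_biUnion.1 x.2
      exact ⟨i, hi⟩
    choose gx hgx using hex
    have := hRi.comp (fun x : (Finset.univ.biUnion R : Finset (ℕ × (Fin n → Qb))) =>
      (⟨gx x, ⟨x.1, hgx x⟩⟩ : Σ i, R i)) (by
        intro x y hxy
        have h2 : x.1 = y.1 := congrArg (fun z : (Σ i, R i) => (z.2 : ℕ × (Fin n → Qb))) hxy
        exact Subtype.ext h2)
    exact this

end Pool.Agent.H54.AM
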