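import Mathlib
import Pool.Agent.H54.AD.Fin
import Pool.Agent.H54.AM.Adn
import Pool.Agent.H54.AM.Chn
import Pool.Agent.H54.AM.Cnt
import Pool.Agent.H54.AM.Dph
import Pool.Agent.H54.AM.Embn
import Pool.Agent.H54.AM.Fgb
import Pool.Agent.H54.AM.Gen
import Pool.Agent.H54.AM.Gl
import Pool.Agent.H54.AM.Gld
import Pool.Agent.H54.AM.Grd
import Pool.Agent.H54.AM.Gro
import Pool.Agent.H54.AM.Halfn
import Pool.Agent.H54.AM.Indn
import Pool.Agent.H54.AM.Inv
import Pool.Agent.H54.AM.Locdn
import Pool.Agent.H54.AM.Main5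
import Pool.Agent.H54.AM.Mkn
import Pool.Agent.H54.AM.Padn
import Pool.Agent.H54.AM.Sgl
import Pool.Agent.H54.AM.Sml
import Pool.Agent.H54.AM.Starn
import Pool.Agent.H54.AM.Sums
import Pool.Agent.H54.AM.Uns
import Pool.Agent.H54.AM.Val
import Pool.Agent.H54.AM.Zen

set_option autoImplicit false
set_option linter.unusedVariables false

/-!
# All the pieces together
-/

namespace Pool.Agent.H54.AM

open Pool.Agent.W237.RK
open Pool.Agent.H54.RX
open Pool.Agent.H54.AD (detl clo gam)

theorem gro' : S_GRO := gro (grd val) sums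

theorem gl' : S_GL := gl gro'

theorem gld' : S_GLD := gld gl'

theorem chn' : S_CHN := chn gl' gld' cnt

theorem uns' : S_UNS := uns chn' (inv sml) dph

theorem zen' : S_ZEN := zen uns' halfn indn cnt sgl

theorem locdn' : S_LOCDN := locdn padn detl clo gam embn

theorem adn' : S_ADN := adn locdn' zen' gen AD.min

theorem starn' : S_STARN := starn mkn fgb adn' cs3' frob

theorem main5' : S_MAIN5 := main5 cs3' ks3' starn'

end Pool.Agent.H54.AM
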