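import Mathlib
import Pool.Agent.H54.AM.Fin
import Pool.Agent.H54.G.Q246.FD.Pub

set_option autoImplicit false
set_option linter.unusedVariables false

/-!
# Comparison of the degrees over `K(Γ_div)` and over `K(μ_∞, Γ^{1/n} : n a product of primes of P)`
-/

namespace Pool.Agent.H54.AM.Kd

open Polynomial IntermediateField
open Pool.Agent.H58P (Qb ht)
open Pool.Agent.W237.RK
open Pool.Agent.TH53.RP
open Pool.Agent.Q246.FD

/-- an automorphism which fixes `L ∩ K(Γ_div)` moves `α ∈ L` to a conjugate over `K(Γ_div)` -/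
lemma moves {K L D : GF} (hKL : K ≤ L) (hKD : K ≤ D) (hL : NormalOver K L) {α : Qb}
    (hα : α ∈ L) {ρ : Aut} (hρ : Fix (L ⊓ D) ρ) : ρ α ∈ orb D α := by
  classical
  have hf := minpoly_map_eq_oprod D α
  set f : Qb[X] := (minpoly D α).map (algebraMap D Qb) with hfd
  have hOL : ∀ y ∈ orb D α, y ∈ L := by
    rintro _ ⟨σ, hσ, rfl⟩
    exact hL σ (fix_mono hKD hσ) α hα
  have hcoef : ∀ i, f.coeff i ∈ L ⊓ D := by
    intro i
    have h1 : f.coeff i ∈ D := by
      rw [hfd, coeff_map]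
      exact ((minpoly D α).coeff i).2
    refine ⟨?_, h1⟩
    refine mem_of_fix _ _ (fun σ hσ => ?_)
    have h3 : f.map (σ : Qb →+* Qb) = f := by
      rw [hf, Polynomial.map_prod]
      refine Finset.prod_congr rfl (fun y hy => ?_)
      rw [Polynomial.map_sub, map_X, map_C]
      congr 2
      exact hσ y (hOL y ((orb_finite D α).mem_toFinset.1 hy))
    have h4 : (f.map (σ : Qb →+* Qb)).coeff i = f.coeff i := by rw [h3]
    rw [coeff_map] at h4
    exact h4
  have h5 : f.map (ρ : Qb →+* Qb) = f := by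
    ext i
    rw [coeff_map]
    exact hρ _ (hcoef i)
  have h6 : f.eval α = 0 := by
    rw [hfd, eval_map_algebraMap, minpoly.aeval]
  have h7 : f.eval (ρ α) = 0 := by
    have h8 : (f.map (ρ : Qb →+* Qb)).eval (ρ α) = ρ (f.eval α) := by
      have := Polynomial.eval_map_apply (f := (ρ : Qb →+* Qb)) (p := f) (x := α)
      exact this
    rw [h5, h6, map_zero] at h8
    exact h8
  rw [mem_orb_iff]
  rw [hfd, eval_map_algebraMap] at h7
  exact h7

/-- the number of conjugates over `F` and over `D` -/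
theorem count {K L F D : GF} (hKL : K ≤ L) (hKD : K ≤ D) (hL : NormalOver K L)
    (hκ : F.relfinrank (L ⊓ D) ≠ 0) {α : Qb} (hα : α ∈ L) :
    (orb F α).ncard ≤ F.relfinrank (L ⊓ D) * (orb D α).ncard := by
  classical
  set N : GF := L ⊓ D with hN
  set A : Subfield Qb := F.toSubfield ⊓ N.toSubfield with hA
  set E : IntermediateField A Qb :=
    Subfield.extendScalars (inf_le_right : F.toSubfield ⊓ N.toSubfield ≤ N.toSubfield) with hE
  have hrel : F.relfinrank N = Module.finrank A E := rfl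
  have hmemE : ∀ x : Qb, x ∈ E ↔ x ∈ N := fun x => Iff.rfl
  have : FiniteDimensional A E := by
    apply Module.finite_of_finrank_pos
    rw [← hrel]
    exact Nat.pos_of_ne_zero hκ
  have hcard : Fintype.card (E →ₐ[A] Qb) = F.relfinrank N := by
    rw [hrel]
    exact AlgHom.card A E Qb
  -- the embedding defined by an automorphism over `F`
  have hemb : ∀ σ : Aut, Fix F σ → ∃ e : E →ₐ[A] Qb, ∀ x : E, e x = σ x := by
    intro σ hσ
    refine ⟨{ toRingHom := (σ : Qb →+* Qb).comp E.val.toRingHom, commutes' := ?_ }, fun x => rfl⟩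
    intro a
    exact hσ a a.2.1
  choose! emb hembs using hemb
  have hx : ∀ x : orb F α, ∃ σ : Aut, Fix F σ ∧ σ α = x := fun x => x.2
  choose s hsF hsx using hx
  -- representatives
  have hrep : ∀ e : E →ₐ[A] Qb, ∃ σ : Aut, (∃ x : orb F α, emb (s x) = e) →
      Fix F σ ∧ emb σ = e := by
    intro e
    by_cases h : ∃ x : orb F α, emb (s x) = e
    · obtain ⟨x, hx⟩ := h
      exact ⟨s x, fun _ => ⟨hsF x, hx⟩⟩
    · exact ⟨1, fun h' => absurd h' h⟩
  choose r hr using hrep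
  have hmem : ∀ x : orb F α, (r (emb (s x)))⁻¹ (x : Qb) ∈ orb D α := by
    intro x
    obtain ⟨h1, h2⟩ := hr (emb (s x)) ⟨x, rfl⟩
    have h3 : Fix N ((r (emb (s x)))⁻¹ * s x) := by
      intro z hz
      have h4 : s x z = r (emb (s x)) z := by
        have h5 := hembs (s x) (hsF x) ⟨z, (hmemE z).2 hz⟩
        have h6 := hembs (r (emb (s x))) h1 ⟨z, (hmemE z).2 hz⟩
        rw [h2] at h6
        exact h5.symm.trans h6
      rw [AlgEquiv.mul_apply, h4, ← AlgEquiv.mul_apply, inv_mul_cancel, AlgEquiv.one_apply]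
    have h7 := moves hKL hKD hL hα h3
    rw [AlgEquiv.mul_apply, hsx] at h7
    exact h7
  set φ : orb F α → (E →ₐ[A] Qb) × orb D α := fun x => (emb (s x), ⟨_, hmem x⟩) with hφ
  have hinj : Function.Injective φ := by
    intro x y hxy
    have h1 : emb (s x) = emb (s y) := congrArg Prod.fst hxy
    have h2 : (r (emb (s x)))⁻¹ (x : Qb) = (r (emb (s y)))⁻¹ (y : Qb) :=
      congrArg (fun z => ((Prod.snd z : orb D α) : Qb)) hxy
    rw [← h1] at h2
    exact Subtype.ext ((r (emb (s x)))⁻¹.injective h2)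
  have : Finite (orb D α) := orb_finite D α
  have hcard' : Nat.card (E →ₐ[A] Qb) = F.relfinrank N := by
    rw [Nat.card_eq_fintype_card, hcard]
  have h := Nat.card_le_card_of_injective φ hinj
  rw [Nat.card_prod, hcard', Nat.card_coe_set_eq, Nat.card_coe_set_eq] at h
  exact h

/-- `F ≤ K(Γ_div)` -/
lemma full_le_div (K : GF) (Γ : Subgroup Qbˣ) (P : Finset ℕ) : fullField K Γ P ≤ divF K Γ := by
  apply sup_le (le_divF K Γ)
  unfold divF
  rw [adjoin_le_iff]
  rintro y (⟨n, hn, hy⟩ | ⟨n, hn, g, hg, hy⟩)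
  · exact subset_adjoin _ _ (Or.inr ⟨n, hn, 1, Γ.one_mem, by rw [hy, Units.val_one]⟩)
  · exact subset_adjoin _ _ (Or.inr ⟨n, hn.1, g, hg, hy⟩)

/-- `L ∩ K(Γ_div)` is contained in `F`, if there is no subextension of Kummer type outside `P` -/
lemma inf_le {K L : GF} {Γ : Subgroup Qbˣ} (hΓ : ∀ g ∈ Γ, (g : Qb) ∈ K) (P : Finset ℕ)
    (hKL : K ≤ L) (hL : NormalOver K L) (hno : NoKT K L P) :
    L ⊓ divF K Γ ≤ fullField K Γ P := by
  intro x hx
  by_contra hne
  obtain ⟨p, hp, hpP, M, hKM, hML, hMn, hKT⟩ := kum hΓ P hKL hL hx.1 hx.2 hne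
  exact hno p hp hpP M hKM hML hMn hKT

/-- an extension of Kummer type at `p` contains the `p`-th roots of unity -/
lemma root_of_kt {K M : GF} (hKM : K ≤ M) (hM : NormalOver K M) {p : ℕ} (hp : p.Prime)
    (h : KT K M p) : ∃ ζ ∈ M, IsPrimitiveRoot ζ p := by
  obtain ⟨τ, hτK, hτp, hτn, hrel⟩ := h
  obtain ⟨ω, hω⟩ := exists_prim p hp.pos
  refine ⟨ω, ?_, hω⟩
  by_contra hωM
  obtain ⟨σ, hσ, hσω⟩ : ∃ σ : Aut, Fix M σ ∧ σ ω ≠ ω := by
    by_contra hcon
    push Not at hcon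
    exact hωM (mem_of_fix _ _ hcon)
  have : NeZero p := ⟨hp.ne_zero⟩
  have hσp : (σ ω) ^ p = 1 := by rw [← map_pow, hω.pow_eq_one, map_one]
  obtain ⟨c, hcp, hc⟩ := hω.eq_pow_of_pow_eq_one hσp
  have hcz : ∀ ζ : Qb, ζ ^ p = 1 → σ ζ = ζ ^ c := by
    intro ζ hζ
    obtain ⟨i, -, rfl⟩ := hω.eq_pow_of_pow_eq_one hζ
    rw [map_pow, ← hc, ← pow_mul, ← pow_mul, mul_comm]
  have hc0 : c ≠ 0 := by
    rintro rfl
    rw [pow_zero] at hc
    have : ω = 1 := by
      apply σ.injective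
      rw [← hc, map_one]
    rw [this] at hσω
    exact hσω (map_one σ)
  have hc1 : c ≠ 1 := by
    rintro rfl
    rw [pow_one] at hc
    exact hσω hc.symm
  obtain ⟨d, rfl⟩ : ∃ d, c = d + 1 := ⟨c - 1, by omega⟩
  have hd : Fix M (τ ^ d) := by
    intro x hx
    have h1 := hrel σ (fix_mono hKM hσ) (d + 1) hcz x hx
    rw [hσ x hx, hσ _ (hM τ hτK x hx), pow_succ', AlgEquiv.mul_apply] at h1
    exact (τ.injective h1).symm
  have hcop : Nat.Coprime d p :=
    (Nat.coprime_comm.1 ((hp.coprime_iff_not_dvd).2 fun hdv =>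
      absurd (Nat.le_of_dvd (by omega) hdv) (by omega)))
  obtain ⟨m, -, hm⟩ := Nat.exists_mul_mod_eq_one_of_coprime hcop hp.one_lt
  have h1 : d * m ≡ 1 [MOD p] := by
    unfold Nat.ModEq
    rw [hm, Nat.mod_eq_of_lt hp.one_lt]
  apply hτn
  intro z hz
  have h3 := fix_pow_mod hτp h1 hz
  rw [pow_one] at h3
  rw [← h3, pow_mul]
  exact fix_pow hd m z hz

end Pool.Agent.H54.AM.Kd
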