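import Pool.Agent.H54.AM.Chn

set_option autoImplicit false

/-!
# `S_UNS`: levels at which the same polynomials of small degree vanish (helper75)
-/

namespace Pool.Agent.H54.AM.Uns

open MvPolynomial
open Pool.Agent.N684.BK
open Pool.Agent.W237.RK
open Pool.Agent.H58P (Qb ht)
open Pool.Agent.H54.AD (pt)
open Pool.Agent.N769.BK.MULSUM (PW_finite PW_mono mem_PW levFinite)
open Pool.Agent.H54.AM.Chn

/-! ### the map `phi` -/

section Phi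

variable {F : Type} [Field F] {n : ℕ}

theorem phi_monomial (τ : F →+* F) (q : ℕ) (m : Fin n →₀ ℕ) (a : F) :
    phi n τ q (monomial m a) = monomial (q • m) (τ a) := by
  unfold phi
  rw [coe_eval₂Hom, eval₂_monomial, monomial_eq, Finsupp.prod_fintype _ _ (fun i => by simp),
    Finsupp.prod_fintype _ _ (fun i => by simp)]
  simp only [RingHom.comp_apply, Finsupp.smul_apply, smul_eq_mul, ← pow_mul]

theorem wd_smul (wt : Fin n → ℕ) (q : ℕ) (m : Fin n →₀ ℕ) : wd wt (q • m) = q * wd wt m := by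
  unfold wd
  rw [Finset.mul_sum]
  refine Finset.sum_congr rfl fun i _ => ?_
  rw [Finsupp.smul_apply, smul_eq_mul]
  ring

theorem phi_mem_PW (τ : F →+* F) (q : ℕ) {wt : Fin n → ℕ} {t : ℕ} {f : MvPolynomial (Fin n) F}
    (hf : f ∈ PW F wt t) : phi n τ q f ∈ PW F wt (q * t) := by
  rw [f.as_sum, map_sum]
  refine Submodule.sum_mem _ fun m hm => ?_
  rw [phi_monomial, mem_PW]
  intro m' hm'
  have h1 := MvPolynomial.support_monomial_subset hm'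
  rw [Finset.mem_singleton] at h1
  rw [h1, wd_smul]
  exact Nat.mul_le_mul_left _ (mem_PW.1 hf m hm)

theorem phi_pow_mem_PW (τ : F →+* F) (q : ℕ) {wt : Fin n → ℕ} (a : ℕ) :
    ∀ {t : ℕ} {f : MvPolynomial (Fin n) F}, f ∈ PW F wt t → (phi n τ q ^ a) f ∈ PW F wt (q ^ a * t) := by
  induction a with
  | zero =>
    intro t f hf
    rw [pow_zero, pow_zero, one_mul]
    exact hf
  | succ a ih =>
    intro t f hf
    have h := ih (phi_mem_PW τ q hf)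
    rw [← mul_assoc, ← pow_succ] at h
    have h2 : (phi n τ q ^ (a + 1)) f = (phi n τ q ^ a) (phi n τ q f) := by
      rw [pow_succ (phi n τ q) a, RingHom.mul_def, RingHom.comp_apply]
    rw [h2]
    exact h

theorem dim_comap (h3 : S_DPH) (τ : F →+* F) (q : ℕ) (hτ : Function.Bijective τ) (hq : 1 ≤ q) (a : ℕ) :
    ∀ I : Ideal (MvPolynomial (Fin n) F), I.IsPrime → (I.comap (phi n τ q ^ a)).IsPrime ∧
      dimQ (I.comap (phi n τ q ^ a)) = dimQ I := by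
  induction a with
  | zero =>
    intro I hI
    have h : I.comap (phi n τ q ^ 0) = I := by
      rw [pow_zero]; exact Ideal.comap_id I
    rw [h]
    exact ⟨hI, rfl⟩
  | succ a ih =>
    intro I hI
    have h : I.comap (phi n τ q ^ (a + 1)) = (I.comap (phi n τ q)).comap (phi n τ q ^ a) := by
      rw [pow_succ', RingHom.mul_def, Ideal.comap_comap]
    have h1 : (I.comap (phi n τ q)).IsPrime := Ideal.comap_isPrime _ I
    obtain ⟨h4, h5⟩ := ih _ h1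
    rw [h]
    exact ⟨h4, h5.trans (h3 F n τ q hτ hq I hI)⟩

end Phi

/-! ### the restriction of the automorphism -/

/-- the restriction of `σ` -/
noncomputable def res (E : GF) (σ : Aut) (h : ∀ x ∈ E, σ x ∈ E) : E →+* E where
  toFun x := ⟨σ x, h x x.2⟩
  map_one' := Subtype.ext (map_one σ)
  map_mul' _ _ := Subtype.ext (map_mul σ _ _)
  map_zero' := Subtype.ext (map_zero σ)
  map_add' _ _ := Subtype.ext (map_add σ _ _)

theorem res_bij (E : GF) (σ : Aut) (h : ∀ x ∈ E, σ x ∈ E) (hE : FiniteDimensional ℚ E) :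
    Function.Bijective (res E σ h) := by
  have hi : Function.Injective (res E σ h) := (res E σ h).injective
  refine ⟨hi, ?_⟩
  have h1 := (LinearMap.injective_iff_surjective (f := (res E σ h).toAddMonoidHom.toRatLinearMap)).1 hi
  exact h1

variable {n : ℕ} {E : GF} {σ : Aut} {q e : ℕ} {u : Fin n → Qb}

theorem aeval_phi (h : ∀ x ∈ E, σ x ∈ E) {k : ℕ} (hk : k + 1 ≤ e) (f : MvPolynomial (Fin n) E) :
    aeval (ptN σ q e u k) (phi n (res E σ h) q f) = σ (aeval (ptN σ q e u (k + 1)) f) := by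
  have key : ((aeval (ptN σ q e u k) : MvPolynomial (Fin n) E →ₐ[E] Qb) : MvPolynomial (Fin n) E →+* Qb).comp
      (phi n (res E σ h) q) = (σ : Qb →+* Qb).comp
      ((aeval (ptN σ q e u (k + 1)) : MvPolynomial (Fin n) E →ₐ[E] Qb) : MvPolynomial (Fin n) E →+* Qb) := by
    refine MvPolynomial.ringHom_ext (fun a => ?_) fun i => ?_
    · simp only [RingHom.comp_apply, phi, coe_eval₂Hom, eval₂_C]
      show aeval (ptN σ q e u k) (C (res E σ h a)) = σ (aeval (ptN σ q e u (k + 1)) (C a))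
      rw [aeval_C, aeval_C]
      rfl
    · simp only [RingHom.comp_apply, phi, coe_eval₂Hom, eval₂_X]
      show aeval (ptN σ q e u k) (X i ^ q) = σ (aeval (ptN σ q e u (k + 1)) (X i))
      rw [map_pow, aeval_X, aeval_X]
      unfold ptN pt
      rw [map_pow, ← pow_mul, ← pow_succ]
      congr 1
      have h1 : e - k = (e - (k + 1)) + 1 := by omega
      rw [h1, pow_succ', AlgEquiv.mul_apply]
  exact congrArg (fun g : MvPolynomial (Fin n) E →+* Qb => g f) key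

theorem mem_pid {v : Fin n → Qb} {f : MvPolynomial (Fin n) E} : f ∈ pid E v ↔ aeval v f = 0 := Iff.rfl

theorem phi_mem_pid (h : ∀ x ∈ E, σ x ∈ E) {k : ℕ} (hk : k + 1 ≤ e) (f : MvPolynomial (Fin n) E) :
    phi n (res E σ h) q f ∈ pid E (ptN σ q e u k) ↔ f ∈ pid E (ptN σ q e u (k + 1)) := by
  rw [mem_pid, mem_pid, aeval_phi h hk]
  exact map_eq_zero_iff σ σ.injective

theorem phi_pow_mem_pid (h : ∀ x ∈ E, σ x ∈ E) (a : ℕ) : ∀ {k : ℕ}, k + a ≤ e →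
    ∀ f : MvPolynomial (Fin n) E, (phi n (res E σ h) q ^ a) f ∈ pid E (ptN σ q e u k) ↔
      f ∈ pid E (ptN σ q e u (k + a)) := by
  induction a with
  | zero =>
    intro k _ f
    rw [pow_zero, add_zero]
    rfl
  | succ a ih =>
    intro k hk f
    rw [pow_succ, RingHom.mul_def, RingHom.comp_apply, ih (by omega), phi_mem_pid h (by omega)]
    rfl

theorem zp (x : Qb) (N : ℕ) (a : ℤ) : (x ^ N) ^ a = (x ^ a) ^ N := by
  rw [← zpow_natCast x N, ← zpow_natCast (x ^ a) N, ← zpow_mul, ← zpow_mul, mul_comm]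

theorem ptN_ne {u : Fin n → Qb} (hu : ∀ i, u i ≠ 0) (k : ℕ) (i : Fin n) : ptN σ q e u k i ≠ 0 := by
  unfold ptN pt
  exact pow_ne_zero _ ((map_ne_zero_iff _ (AlgEquiv.injective _)).2 (hu i))

theorem ptN_indep (hq : 2 ≤ q) (hu : IndepN u) (k : ℕ) : IndepN (ptN σ q e u k) := by
  intro a ha
  refine hu a ?_
  obtain ⟨N, hN, hN1⟩ := ha
  have h1 : ∏ i, ptN σ q e u k i ^ a i = ((σ ^ (e - k)) (∏ i, u i ^ a i)) ^ (q ^ k) := by
    rw [map_prod, ← Finset.prod_pow]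
    refine Finset.prod_congr rfl fun i _ => ?_
    unfold ptN pt
    rw [map_zpow₀, zp]
  rw [h1, ← pow_mul, ← map_pow] at hN1
  refine ⟨q ^ k * N, by positivity, ?_⟩
  exact (map_eq_one_iff _ (AlgEquiv.injective _)).1 hN1

theorem pid_prime (v : Fin n → Qb) : (pid E v).IsPrime := RingHom.ker_isPrime _

/-! ### one variable less -/

theorem indep_succAbove {u : Fin (n + 1) → Qb} (hu : IndepN u) (i : Fin (n + 1)) :
    IndepN (fun l => u (i.succAbove l)) := by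
  intro a ha
  have h1 := hu (i.insertNth 0 a) (by
    rw [Fin.prod_univ_succAbove _ i]
    simpa using ha)
  funext l
  have h2 := congrFun h1 (i.succAbove l)
  simpa using h2

theorem rename_mem_PW {wt : Fin (n + 1) → ℕ} (i : Fin (n + 1)) {t : ℕ} (f : MvPolynomial (Fin n) E) :
    rename i.succAbove f ∈ PW E wt t ↔ f ∈ PW E (fun l => wt (i.succAbove l)) t := by
  classical
  have hi : Function.Injective i.succAbove := Fin.succAbove_right_injective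
  have hwd : ∀ m : Fin n →₀ ℕ, wd wt (m.mapDomain i.succAbove) = wd (fun l => wt (i.succAbove l)) m := by
    intro m
    unfold wd
    rw [Fin.sum_univ_succAbove _ i]
    have h0 : m.mapDomain i.succAbove i = 0 :=
      Finsupp.mapDomain_of_notMem_range _ _ (by
        rintro ⟨l, hl⟩
        exact Fin.succAbove_ne i l hl)
    rw [h0, mul_zero, zero_add]
    refine Finset.sum_congr rfl fun l _ => ?_
    rw [Finsupp.mapDomain_apply hi]
  rw [mem_PW, mem_PW, support_rename_of_injective hi]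
  constructor
  · intro h m hm
    rw [← hwd]
    exact h _ (Finset.mem_image_of_mem _ hm)
  · intro h m hm
    obtain ⟨m', hm', rfl⟩ := Finset.mem_image.1 hm
    rw [hwd]
    exact h m' hm'

theorem rename_mem_pid {v : Fin (n + 1) → Qb} (i : Fin (n + 1)) (f : MvPolynomial (Fin n) E) :
    rename i.succAbove f ∈ pid E v ↔ f ∈ pid E (fun l => v (i.succAbove l)) := by
  rw [mem_pid, mem_pid, aeval_rename]
  rfl

theorem exists_rename {wt : Fin (n + 1) → ℕ} {t : ℕ} {f : MvPolynomial (Fin (n + 1)) E} (hf : f ∈ PW E wt t)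
    (i : Fin (n + 1)) (hi : t < wt i) : ∃ g : MvPolynomial (Fin n) E, rename i.succAbove g = f := by
  refine exists_rename_eq_of_vars_subset_range f _ Fin.succAbove_right_injective ?_
  intro l hl
  rw [Fin.range_succAbove]
  intro hli
  have hli' : l = i := hli
  subst hli'
  obtain ⟨m, hm, hm'⟩ := (MvPolynomial.mem_vars_iff_mem_support l).1 (Finset.mem_coe.1 hl)
  have h1 := mem_PW.1 hf m hm
  have h2 : wt l * m l ≤ wd wt m :=
    Finset.single_le_sum (f := fun i => wt i * m i) (fun _ _ => Nat.zero_le _) (Finset.mem_univ l)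
  have h3 : 1 ≤ m l := Nat.one_le_iff_ne_zero.2 (Finsupp.mem_support_iff.1 hm')
  have h4 : wt l ≤ wt l * m l := Nat.le_mul_of_pos_right _ h3
  omega

/-- the hypotheses -/
structure Bas (n Q₁ : ℕ) (E : GF) (σ : Aut) (q e : ℕ) (u : Fin n → Qb) (wt : Fin n → ℕ) (𝒦 : Finset ℕ) : Prop where
  fin : FiniteDimensional ℚ E
  st : ∀ x ∈ E, σ x ∈ E
  q2 : 2 ≤ q
  ne : ∀ i, u i ≠ 0
  ind : IndepN u
  wt1 : ∀ i, 1 ≤ wt i
  le : ∀ k ∈ 𝒦, k ≤ e
  Q1 : ∀ k ∈ 𝒦, ∀ k' ∈ 𝒦, k ≤ k' → q ^ (k' - k) ≤ Q₁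

/-- the statement for `n` variables -/
def UNS (n : ℕ) : Prop := ∃ K₀ : ℕ, ∀ Q₁ : ℕ, ∃ S : ℕ, 0 < S ∧ ∀ (E : GF) (σ : Aut) (q e : ℕ)
  (u : Fin n → Qb) (wt : Fin n → ℕ) (s : ℕ) (𝒦 : Finset ℕ), FiniteDimensional ℚ E →
  (∀ x ∈ E, σ x ∈ E) → 2 ≤ q → (∀ i, u i ≠ 0) → IndepN u → (∀ i, 1 ≤ wt i) →
  (∀ k ∈ 𝒦, k ≤ e) → (∀ k ∈ 𝒦, ∀ k' ∈ 𝒦, k ≤ k' → q ^ (k' - k) ≤ Q₁) → K₀ ≤ 𝒦.card →
  (∀ k ∈ 𝒦, ∀ k' ∈ 𝒦, ∀ f ∈ PW E wt s, f ∈ pid E (ptN σ q e u k) →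
    f ∈ pid E (ptN σ q e u k')) →
  ∀ t : ℕ, S * t ≤ s → ∀ f ∈ PW E wt t, (∀ k ∈ 𝒦, f ∈ pid E (ptN σ q e u k)) → f = 0

/-- the claim for primes of codimension at most `c` -/
def Cl (n c : ℕ) : Prop := ∃ K₀ : ℕ, ∀ Q₁ : ℕ, ∃ S : ℕ, 0 < S ∧ ∀ (E : GF) (σ : Aut) (q e : ℕ)
  (u : Fin n → Qb) (wt : Fin n → ℕ) (s : ℕ) (𝒦 : Finset ℕ), Bas n Q₁ E σ q e u wt 𝒦 → K₀ ≤ 𝒦.card →
  ∀ (Q : Ideal (MvPolynomial (Fin n) E)) (k₀ : ℕ), k₀ ∈ 𝒦 → (∀ k ∈ 𝒦, k₀ ≤ k) → Q.IsPrime → n ≤ dimQ Q + c →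
  Q ≤ pid E (ptN σ q e u k₀) →
  (∀ k ∈ 𝒦, ∀ f ∈ PW E wt s, f ∈ Q ↔ f ∈ pid E (ptN σ q e u k)) →
  ∀ t : ℕ, S * t ≤ s → ∀ f ∈ PW E wt t, f ∈ Q → f = 0

theorem cl_zero (n : ℕ) : Cl n 0 := by
  refine ⟨0, fun Q₁ => ⟨1, Nat.one_pos, ?_⟩⟩
  intro E σ q e u wt s 𝒦 hB _ Q k₀ _ _ hQ hd _ _ t _ f _ hfQ
  by_contra hne
  have h1 : (⊥ : Ideal (MvPolynomial (Fin n) E)) ≠ Q := by
    intro h
    rw [← h, Ideal.mem_bot] at hfQ
    exact hne hfQ
  have h2 := dim_lt Ideal.isPrime_bot hQ bot_le h1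
  have h3 := (libTOP E n wt hB.wt1).1
  rw [h3] at h2
  omega

/-- the abstract step -/
theorem abs_step {F : Type} [Field F] [CharZero F] {m : ℕ} (CC : ℕ → ℕ) (CS M : ℕ)
    (hCC : ∀ d, 0 < CC d ∧ ∀ (F : Type) [Field F] [CharZero F]
      (wt : Fin m → ℕ) (s : ℕ) (ι : Type) [Fintype ι] (r : ι → Ideal (MvPolynomial (Fin m) F))
      (M : ℕ), (∀ i, 1 ≤ wt i) → (∀ l, (r l).IsPrime ∧ dimQ (r l) = d) →
      (∀ l l', ∀ f ∈ PW F wt s, f ∈ r l → f ∈ r l') →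
      (∃ f ∈ PW F wt s, f ≠ 0 ∧ ∀ l, f ∈ r l) →
      (∀ t ≤ s, ∀ f ∈ PW F wt t, f ≠ 0 → (∀ l, f ∈ r l) → ∀ i, wt i ≤ t) →
      0 < M → CC d * M ≤ Fintype.card ι →
      ∃ (Q : Ideal (MvPolynomial (Fin m) F)) (T : Finset ι), Q.IsPrime ∧ M ≤ T.card ∧
        (∀ l ∈ T, Q ≤ r l) ∧
        ((∀ l ∈ T, r l = Q) ∨ (d < dimQ Q ∧ ∀ l, ∀ f ∈ PW F wt s, f ∈ r l → f ∈ Q)))
    (hCSd : ∀ d ≤ m, CC d ≤ CS) (wt : Fin m → ℕ) (hwt : ∀ i, 1 ≤ wt i) (s s' : ℕ) (𝒦 : Finset ℕ)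
    (φ : MvPolynomial (Fin m) F →+* MvPolynomial (Fin m) F) (p : ℕ → Ideal (MvPolynomial (Fin m) F))
    (Q : Ideal (MvPolynomial (Fin m) F)) (k₀ : ℕ) (hk₀ : k₀ ∈ 𝒦) (hk₀min : ∀ k ∈ 𝒦, k₀ ≤ k)
    (hPW : ∀ k ∈ 𝒦, ∀ g ∈ PW F wt s', (φ ^ (k - k₀)) g ∈ PW F wt s)
    (hlev : ∀ k ∈ 𝒦, ∀ g : MvPolynomial (Fin m) F, (φ ^ (k - k₀)) g ∈ p k₀ ↔ g ∈ p k)
    (hdim : ∀ a : ℕ, (Q.comap (φ ^ a)).IsPrime ∧ dimQ (Q.comap (φ ^ a)) = dimQ Q)
    (hQ : Q.IsPrime) (hQp : Q ≤ p k₀) (hQs : ∀ k ∈ 𝒦, ∀ f ∈ PW F wt s, f ∈ Q ↔ f ∈ p k)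
    (hs's : s' ≤ s)
    (hvar : ∀ t' ≤ s', ∀ g ∈ PW F wt t', g ≠ 0 → (∀ k ∈ 𝒦, g ∈ p k) → ∀ i, wt i ≤ t')
    (hinv : ∀ k ∈ 𝒦, ∀ δ : ℕ, 0 < δ → ∀ I : Ideal (MvPolynomial (Fin m) F), I ≤ p k → I.comap (φ ^ δ) = I → I = ⊥)
    (hcard : CS * (M + 2) ≤ 𝒦.card) (f : MvPolynomial (Fin m) F) (hne : f ≠ 0) (hfs : f ∈ PW F wt s')
    (hfQ : f ∈ Q) :
    ∃ (Q' : Ideal (MvPolynomial (Fin m) F)) (𝒯 : Finset ℕ), 𝒯 ⊆ 𝒦 ∧ M + 2 ≤ 𝒯.card ∧ Q'.IsPrime ∧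
      dimQ Q < dimQ Q' ∧ (∀ k ∈ 𝒯, Q' ≤ p k) ∧ (∀ k ∈ 𝒯, ∀ g ∈ PW F wt s', g ∈ Q' ↔ g ∈ p k) ∧ f ∈ Q' := by
  classical
  obtain ⟨r, hr⟩ : ∃ r : {k // k ∈ 𝒦} → Ideal (MvPolynomial (Fin m) F),
    r = fun l => Q.comap (φ ^ (l.1 - k₀)) := ⟨_, rfl⟩
  have hrp : ∀ l : {k // k ∈ 𝒦}, r l ≤ p l.1 := by
    intro l g hg
    rw [hr] at hg
    exact (hlev l.1 l.2 g).1 (hQp (Ideal.mem_comap.1 hg))
  have hrs : ∀ l : {k // k ∈ 𝒦}, ∀ g ∈ PW F wt s', g ∈ r l ↔ g ∈ p l.1 := by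
    intro l g hg
    rw [hr, ← hlev l.1 l.2 g]
    show (φ ^ (l.1 - k₀)) g ∈ Q ↔ _
    exact hQs k₀ hk₀ _ (hPW l.1 l.2 g hg)
  have hpp : ∀ k ∈ 𝒦, ∀ k' ∈ 𝒦, ∀ g ∈ PW F wt s, g ∈ p k → g ∈ p k' :=
    fun k hk k' hk' g hg hgk => (hQs k' hk' g hg).1 ((hQs k hk g hg).2 hgk)
  have hrdim : ∀ l, (r l).IsPrime ∧ dimQ (r l) = dimQ Q := by
    intro l
    rw [hr]
    exact hdim _
  have hd1 : dimQ Q ≤ m := by
    have h4 := libMONO F m ⊥ Q Ideal.isPrime_bot hQ bot_le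
    rw [(libTOP F m wt hwt).1] at h4
    exact h4
  have hfr : ∀ l, f ∈ r l := by
    intro l
    rw [hrs l f hfs]
    exact (hQs l.1 l.2 f (PW_mono hs's hfs)).1 hfQ
  obtain ⟨Q', T, hQ'p, hTM, hTr, hT⟩ := (hCC (dimQ Q)).2 F wt s' {k // k ∈ 𝒦} r (M + 2) hwt hrdim
    (by
      intro l l' g hg hgl
      rw [hrs l g hg] at hgl
      rw [hrs l' g hg]
      exact hpp l.1 l.2 l'.1 l'.2 g (PW_mono hs's hg) hgl)
    ⟨f, hfs, hne, hfr⟩
    (by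
      intro t' ht' g hg hgne hgr i
      exact hvar t' ht' g hg hgne (fun k hk => hrp ⟨k, hk⟩ (hgr ⟨k, hk⟩)) i)
    (by omega)
    (by
      rw [Fintype.card_coe]
      exact (Nat.mul_le_mul_right _ (hCSd _ hd1)).trans hcard)
  rcases hT with hT | ⟨hdlt, hTs⟩
  · exfalso
    have hT2 : 1 < T.card := by omega
    obtain ⟨a, ha, b, hb, hab⟩ := Finset.one_lt_card.1 hT2
    have key : ∀ a b : {k // k ∈ 𝒦}, a ∈ T → b ∈ T → a.1 < b.1 → False := by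
      intro a b ha hb hlt
      have hab : r a = r b := by rw [hT a ha, hT b hb]
      have hI : (r a).comap (φ ^ (b.1 - a.1)) = r a := by
        have h4 : (r a).comap (φ ^ (b.1 - a.1)) = r b := by
          rw [hr]
          show (Q.comap (φ ^ (a.1 - k₀))).comap (φ ^ (b.1 - a.1)) = Q.comap (φ ^ (b.1 - k₀))
          have h5 := hk₀min a.1 a.2
          rw [Ideal.comap_comap, ← RingHom.mul_def, ← pow_add]
          congr 2
          omega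
        rw [h4, hab]
      have h5 := hinv a.1 a.2 (b.1 - a.1) (by omega) (r a) (hrp a) hI
      have h6 := hfr a
      rw [h5, Ideal.mem_bot] at h6
      exact hne h6
    rcases lt_trichotomy a.1 b.1 with h | h | h
    · exact key a b ha hb h
    · exact hab (Subtype.ext h)
    · exact key b a hb ha h
  · refine ⟨Q', T.image Subtype.val, ?_, ?_, hQ'p, hdlt, ?_, ?_, ?_⟩
    · intro k hk
      obtain ⟨l, _, rfl⟩ := Finset.mem_image.1 hk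
      exact l.2
    · rw [Finset.card_image_of_injective _ Subtype.val_injective]
      exact hTM
    · intro k hk
      obtain ⟨l, hl, rfl⟩ := Finset.mem_image.1 hk
      exact (hTr l hl).trans (hrp l)
    · intro k hk g hg
      obtain ⟨l, hl, rfl⟩ := Finset.mem_image.1 hk
      rw [← hrs l g hg]
      exact ⟨fun h => hTr l hl h, fun h => hTs l g hg h⟩
    · exact hTs ⟨k₀, hk₀⟩ f hfs (hfr _)

end Pool.Agent.H54.AM.Uns
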